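import Pool.Agent.MP_9c45e8_nt.A3

/-!
Module B: reduction of the cusp conditions to `i∞` with the Atkin-Lehner matrices, and the
constancy of bounded invariant holomorphic functions.
-/

open Complex
open UpperHalfPlane hiding I
open scoped MatrixGroups Real ModularForm Manifold

namespace MP9c45e8

/-- Atkin-Lehner type matrices of level `14`. -/
structure IsAL (Q : ℤ) (M : Matrix (Fin 2) (Fin 2) ℤ) : Prop where
  det : M.det = Q
  d0 : Q ∣ M 0 0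
  d1 : Q ∣ M 1 1
  d14 : 14 ∣ M 1 0

/-- the possible values of `Q` -/
def QQ (Q : ℤ) : Prop := Q = 1 ∨ Q = 2 ∨ Q = 7 ∨ Q = 14

theorem QQ.pos {Q : ℤ} (h : QQ Q) : 0 < Q := by
  rcases h with rfl | rfl | rfl | rfl <;> norm_num

theorem IsAL.pos {Q : ℤ} {M : Matrix (Fin 2) (Fin 2) ℤ} (h : IsAL Q M) (hQ : QQ Q) :
    0 < M.det := by rw [h.det]; exact hQ.pos

/-- The sign of the Atkin-Lehner operator on `F`. -/
def epsQ (Q : ℤ) : ℤ := if Q = 1 ∨ Q = 2 then 1 else -1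

theorem epsQ_sq (Q : ℤ) : (epsQ Q : ℂ) ^ 2 = 1 := by
  unfold epsQ; split_ifs <;> norm_num

theorem epsQ_ne_zero (Q : ℤ) : (epsQ Q : ℂ) ≠ 0 := by
  unfold epsQ; split_ifs <;> norm_num

theorem IsAL.tf {Q : ℤ} {M : Matrix (Fin 2) (Fin 2) ℤ} (hQ : QQ Q) (h : IsAL Q M) :
    TF (epsQ Q) M := by
  rcases hQ with rfl | rfl | rfl | rfl
  · simpa [epsQ] using (AL1 h.det h.d14).1
  · simpa [epsQ] using (AL2 h.det h.d0 h.d1 h.d14).1
  · simpa [epsQ] using (AL7 h.det h.d0 h.d1 h.d14).1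
  · simpa [epsQ] using (AL14 h.det h.d0 h.d1 h.d14).1

/-- `T` goes to `T` or `8/T`. -/
theorem IsAL.tt {Q : ℤ} {M : Matrix (Fin 2) (Fin 2) ℤ} (hQ : QQ Q) (h : IsAL Q M) :
    (∀ z : ℂ, 0 < z.im → etaT (mob M z) = etaT z) ∨
      (∀ z : ℂ, 0 < z.im → etaT (mob M z) = 8 / etaT z) := by
  rcases hQ with rfl | rfl | rfl | rfl
  · exact Or.inl (AL1 h.det h.d14).2
  · exact Or.inr (AL2 h.det h.d0 h.d1 h.d14).2
  · exact Or.inl (AL7 h.det h.d0 h.d1 h.d14).2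
  · exact Or.inr (AL14 h.det h.d0 h.d1 h.d14).2

/-- Every cusp is equivalent to `i∞` under Atkin-Lehner matrices. -/
theorem exists_AL {σ : Matrix (Fin 2) (Fin 2) ℤ} (hσ : σ.det = 1) :
    ∃ Q β : ℤ, QQ Q ∧ IsAL Q (σ * !![Q, β; 0, 1]) := by
  have hd := hσ
  rw [Matrix.det_fin_two] at hd
  have main : ∀ Q : ℤ, QQ Q → IsCoprime (σ 1 0) Q → 14 ∣ σ 1 0 * Q →
      ∃ β, IsAL Q (σ * !![Q, β; 0, 1]) := by
    intro Q hQ hco h14
    obtain ⟨u, v, huv⟩ := hco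
    refine ⟨-(σ 1 1) * u, ?_, ?_, ?_, ?_⟩
    · rw [Matrix.det_mul, hσ, Matrix.det_fin_two_of]; ring
    · rw [Matrix.mul_apply, Fin.sum_univ_two]; simp
    · rw [Matrix.mul_apply, Fin.sum_univ_two]
      simp only [Matrix.of_apply, Matrix.cons_val', Matrix.cons_val_zero, Matrix.cons_val_one,
        Matrix.cons_val_fin_one]
      exact ⟨σ 1 1 * v, by linear_combination (-(σ 1 1)) * huv⟩
    · rw [Matrix.mul_apply, Fin.sum_univ_two]; simpa using h14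
  have hp2 : Prime (2 : ℤ) := Int.prime_two
  have hp7 : Prime (7 : ℤ) := Int.prime_iff_natAbs_prime.mpr (by norm_num)
  have cop : ∀ p : ℤ, Prime p → ¬ p ∣ σ 1 0 → IsCoprime (σ 1 0) p := by
    intro p hp hnd
    exact ((Prime.coprime_iff_not_dvd hp).mpr hnd).symm
  by_cases h2 : (2 : ℤ) ∣ σ 1 0
  · by_cases h7 : (7 : ℤ) ∣ σ 1 0
    · obtain ⟨β, hβ⟩ := main 1 (Or.inl rfl) isCoprime_one_right (by omega)
      exact ⟨1, β, Or.inl rfl, hβ⟩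
    · obtain ⟨β, hβ⟩ := main 7 (Or.inr (Or.inr (Or.inl rfl))) (cop 7 hp7 h7) (by omega)
      exact ⟨7, β, Or.inr (Or.inr (Or.inl rfl)), hβ⟩
  · by_cases h7 : (7 : ℤ) ∣ σ 1 0
    · obtain ⟨β, hβ⟩ := main 2 (Or.inr (Or.inl rfl)) (cop 2 hp2 h2) (by omega)
      exact ⟨2, β, Or.inr (Or.inl rfl), hβ⟩
    · have h14 : IsCoprime (σ 1 0) (14 : ℤ) := by
        rw [show (14 : ℤ) = 2 * 7 by norm_num]
        exact (cop 2 hp2 h2).mul_right (cop 7 hp7 h7)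
      obtain ⟨β, hβ⟩ := main 14 (Or.inr (Or.inr (Or.inr rfl))) h14 (by omega)
      exact ⟨14, β, Or.inr (Or.inr (Or.inr rfl)), hβ⟩

theorem det_upper {Q β : ℤ} : (!![Q, β; 0, 1] : Matrix (Fin 2) (Fin 2) ℤ).det = Q := by
  rw [Matrix.det_fin_two_of]; ring

/-- `σ z = M ((z - β)/Q)` -/
theorem mob_eq_AL {σ : Matrix (Fin 2) (Fin 2) ℤ} (hσ : σ.det = 1) {Q β : ℤ} (hQ : QQ Q) {z : ℂ}
    (hz : 0 < z.im) :
    0 < ((z - β) / Q).im ∧ mob σ z = mob (σ * !![Q, β; 0, 1]) ((z - β) / Q) ∧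
      jj (σ * !![Q, β; 0, 1]) ((z - β) / Q) = jj σ z := by
  have hQ0 : (0 : ℝ) < Q := by exact_mod_cast hQ.pos
  have hQC : (Q : ℂ) ≠ 0 := by exact_mod_cast hQ.pos.ne'
  have him : ((z - β) / Q).im = z.im / Q := by
    have : ((Q : ℂ)) = ((Q : ℝ) : ℂ) := by push_cast; rfl
    rw [this, Complex.div_ofReal_im]
    simp
  have hpos : 0 < ((z - β) / Q).im := by rw [him]; positivity
  have hdet : 0 < (!![Q, β; 0, 1] : Matrix (Fin 2) (Fin 2) ℤ).det := by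
    rw [det_upper]; exact hQ.pos
  have e : mob !![Q, β; 0, 1] ((z - β) / Q) = z := by
    simp [mob]
    field_simp
    ring
  have e2 : jj !![Q, β; 0, 1] ((z - β) / Q) = 1 := by simp [jj]
  refine ⟨hpos, ?_, ?_⟩
  · rw [mob_mul (by rw [hσ]; norm_num) hdet hpos, e]
  · rw [jj_mul hdet hpos, e, e2, mul_one]

theorem sub_div_im {Q β : ℤ} (z : ℂ) : ((z - β) / Q).im = z.im / Q := by
  have : ((Q : ℂ)) = ((Q : ℝ) : ℂ) := by push_cast; rfl
  rw [this, Complex.div_ofReal_im]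
  simp

/-- A holomorphic `Γ₀(14)`-invariant function bounded at all cusps is constant. -/
theorem const_of_invariant (h : ℂ → ℂ) (hd : DifferentiableOn ℂ h {z | 0 < z.im})
    (hinv : ∀ M : Matrix (Fin 2) (Fin 2) ℤ, M.det = 1 → 14 ∣ M 1 0 →
      ∀ z : ℂ, 0 < z.im → h (mob M z) = h z)
    (hb : ∀ M : Matrix (Fin 2) (Fin 2) ℤ, M.det = 1 →
      ∃ A B : ℝ, ∀ z : ℂ, 0 < z.im → A ≤ z.im → ‖h (mob M z)‖ ≤ B) :
    ∃ c : ℂ, ∀ z : ℂ, 0 < z.im → h z = c := by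
  have key : ∀ (γ : SL(2, ℤ)) (τ : ℍ),
      ((fun τ : ℍ ↦ h τ) ∣[(0 : ℤ)] γ) τ = h (mob (γ : Matrix (Fin 2) (Fin 2) ℤ) τ) := by
    intro γ τ
    rw [ModularForm.SL_slash_apply]
    simp only [neg_zero, zpow_zero, mul_one]
    congr 1
    rw [UpperHalfPlane.coe_specialLinearGroup_apply]
    simp [mob]
  let f : ModularForm (CongruenceSubgroup.Gamma0 14) 0 :=
    { toFun := fun τ ↦ h τ
      slash_action_eq' := by
        rintro _ ⟨γ, hγ, rfl⟩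
        ext τ
        have h1 := key γ τ
        have h2 : (((γ : Matrix (Fin 2) (Fin 2) ℤ) 1 0 : ℤ) : ZMod 14) = 0 :=
          CongruenceSubgroup.Gamma0_mem.mp hγ
        rw [hinv γ.1 γ.2 ((ZMod.intCast_zmod_eq_zero_iff_dvd _ 14).mp h2) τ τ.im_pos] at h1
        exact h1
      holo' := by
        rw [UpperHalfPlane.mdifferentiable_iff]
        refine hd.congr ?_
        intro z hz
        simp [ofComplex_apply_of_im_pos hz]
      bdd_at_cusps' := by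
        intro c hc
        rw [Subgroup.IsArithmetic.isCusp_iff_isCusp_SL2Z] at hc
        rw [OnePoint.isBoundedAt_iff_forall_SL2Z hc]
        intro γ _
        rw [UpperHalfPlane.isBoundedAtImInfty_iff]
        obtain ⟨A, B, hAB⟩ := hb γ.1 γ.2
        refine ⟨B, A, fun τ hτ ↦ ?_⟩
        have := key γ τ
        change ‖((fun τ : ℍ ↦ h τ) ∣[(0 : ℤ)] γ) τ‖ ≤ B
        rw [this]
        exact hAB τ τ.im_pos hτ }
  obtain ⟨c, hc⟩ := ModularForm.eq_const_of_weight_zero f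
  exact ⟨c, fun z hz ↦ congrFun hc ⟨z, hz⟩⟩

/-- It suffices to check boundedness at `i∞` after Atkin-Lehner matrices. -/
theorem const_of_AL (h : ℂ → ℂ) (hd : DifferentiableOn ℂ h {z | 0 < z.im})
    (hinv : ∀ M : Matrix (Fin 2) (Fin 2) ℤ, M.det = 1 → 14 ∣ M 1 0 →
      ∀ z : ℂ, 0 < z.im → h (mob M z) = h z)
    (hb : ∀ (Q : ℤ) (M : Matrix (Fin 2) (Fin 2) ℤ), QQ Q → IsAL Q M →
      ∃ A B : ℝ, ∀ z : ℂ, 0 < z.im → A ≤ z.im → ‖h (mob M z)‖ ≤ B) :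
    ∃ c : ℂ, ∀ z : ℂ, 0 < z.im → h z = c := by
  refine const_of_invariant h hd hinv fun σ hσ ↦ ?_
  obtain ⟨Q, β, hQ, hAL⟩ := exists_AL hσ
  obtain ⟨A, B, hAB⟩ := hb Q _ hQ hAL
  have hQ0 : (0 : ℝ) < Q := by exact_mod_cast hQ.pos
  refine ⟨A * Q, B, fun z hz hA ↦ ?_⟩
  obtain ⟨h1, h2, _⟩ := mob_eq_AL hσ (β := β) hQ hz
  rw [h2]
  refine hAB _ h1 ?_
  rw [sub_div_im, le_div_iff₀ hQ0]
  exact hA

end MP9c45e8
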