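import Mathlib

/-!
Module F2: facts on the Weierstrass function near its poles.
-/

open Complex Filter
open scoped Topology
open PeriodPair

namespace MP9c45e8

theorem weierstrassP_eq_except (L : PeriodPair) (u : ℂ) :
    ℘[L] u = ℘[L - (0 : ℂ)] u + (u ^ 2)⁻¹ := by
  have h := L.weierstrassPExcept_add 0 u
  rw [← h]
  simp

theorem tendsto_weierstrassP_sub (L : PeriodPair) :
    Tendsto (fun u ↦ ℘[L] u - (u ^ 2)⁻¹) (𝓝[≠] 0) (𝓝 0) := by
  have h1 : (fun u ↦ ℘[L] u - (u ^ 2)⁻¹) = fun u => ℘[L - (0 : ℂ)] u := by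
    funext u
    rw [weierstrassP_eq_except]
    ring
  rw [h1]
  have h2 : ContinuousAt ℘[L - (0 : ℂ)] 0 := (L.analyticAt_weierstrassPExcept 0).continuousAt
  have h3 := h2.tendsto
  rw [weierstrassPExcept_zero] at h3
  exact h3.mono_left nhdsWithin_le_nhds

theorem tendsto_sq_mul_weierstrassP (L : PeriodPair) :
    Tendsto (fun u ↦ u ^ 2 * ℘[L] u) (𝓝[≠] 0) (𝓝 1) := by
  have h1 : Tendsto (fun u : ℂ ↦ u ^ 2) (𝓝[≠] 0) (𝓝 (0 ^ 2)) :=
    ((continuous_pow 2).tendsto (0 : ℂ)).mono_left nhdsWithin_le_nhds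
  have h2 := (h1.mul (tendsto_weierstrassP_sub L)).add_const 1
  simp only [ne_eq, OfNat.ofNat_ne_zero, not_false_eq_true, zero_pow, mul_zero, zero_add] at h2
  refine h2.congr' ?_
  filter_upwards [self_mem_nhdsWithin] with u hu
  have hu' : u ≠ 0 := hu
  field_simp
  ring

/-- near a lattice point -/
theorem tendsto_sq_mul_weierstrassP' (L : PeriodPair) (l : ℂ) (hl : l ∈ L.lattice) :
    Tendsto (fun u ↦ (u - l) ^ 2 * ℘[L] u) (𝓝[≠] l) (𝓝 1) := by
  have h1 : Tendsto (fun u : ℂ ↦ u - l) (𝓝[≠] l) (𝓝[≠] 0) := by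
    apply tendsto_nhdsWithin_of_tendsto_nhds_of_eventually_within
    · have : Tendsto (fun u : ℂ ↦ u - l) (𝓝 l) (𝓝 (l - l)) :=
        (continuous_sub_right l).tendsto l
      rw [sub_self] at this
      exact this.mono_left nhdsWithin_le_nhds
    · filter_upwards [self_mem_nhdsWithin] with u hu
      exact sub_ne_zero.2 hu
  refine ((tendsto_sq_mul_weierstrassP L).comp h1).congr ?_
  intro u
  have := L.weierstrassP_sub_coe u ⟨l, hl⟩
  change (u - l) ^ 2 * ℘[L] (u - l) = _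
  rw [show u - l = u - ((⟨l, hl⟩ : L.lattice) : ℂ) from rfl, this]

theorem mem_lattice_of_periodic (L : PeriodPair) (w : ℂ)
    (h : ∀ᶠ u in 𝓝[≠] (0 : ℂ), ℘[L] (u + w) = ℘[L] u) : w ∈ L.lattice := by
  by_contra hw
  have hc : ContinuousAt ℘[L] (0 + w) := by
    rw [zero_add]
    exact (L.analyticOnNhd_weierstrassP w hw).continuousAt
  have h1 : Tendsto (fun u : ℂ ↦ u ^ 2) (𝓝[≠] 0) (𝓝 (0 ^ 2)) :=
    ((continuous_pow 2).tendsto (0 : ℂ)).mono_left nhdsWithin_le_nhds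
  have h2 : Tendsto (fun u : ℂ ↦ ℘[L] (u + w)) (𝓝[≠] 0) (𝓝 (℘[L] (0 + w))) := by
    have : ContinuousAt (fun u : ℂ ↦ ℘[L] (u + w)) 0 :=
      ContinuousAt.comp (g := ℘[L]) (f := fun u : ℂ => u + w) hc (by fun_prop)
    exact this.tendsto.mono_left nhdsWithin_le_nhds
  have h3 := h1.mul h2
  have h4 : Tendsto (fun u ↦ u ^ 2 * ℘[L] (u + w)) (𝓝[≠] 0) (𝓝 1) := by
    refine (tendsto_sq_mul_weierstrassP L).congr' ?_
    filter_upwards [h] with u hu
    rw [hu]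
  have := tendsto_nhds_unique h3 h4
  simp at this

theorem lattice_le_of_eventually (L L' : PeriodPair)
    (h : ∀ᶠ u in 𝓝[≠] (0 : ℂ), ℘[L] u = ℘[L'] u) : L'.lattice ≤ L.lattice := by
  intro w hw
  by_contra hwL
  set f : ℂ → ℂ := ℘[L] - ℘[L'] with hf
  have hfm : Meromorphic f := by
    intro x
    exact (L.meromorphic_weierstrassP x).sub (L'.meromorphic_weierstrassP x)
  have h0 : meromorphicOrderAt f 0 = ⊤ := by
    rw [meromorphicOrderAt_eq_top_iff]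
    filter_upwards [h] with u hu
    simp [hf, hu]
  have hall : ∀ x, meromorphicOrderAt f x = ⊤ := by
    by_contra hcon
    push Not at hcon
    obtain ⟨x, hx⟩ := hcon
    have := (hfm.exists_meromorphicOrderAt_ne_top_iff_forall).1 ⟨x, hx⟩ 0
    exact this h0
  have hw1 := hall w
  rw [meromorphicOrderAt_eq_top_iff] at hw1
  have hc : Tendsto (fun u : ℂ ↦ ℘[L] u) (𝓝[≠] w) (𝓝 (℘[L] w)) :=
    (L.analyticOnNhd_weierstrassP w hwL).continuousAt.tendsto.mono_left nhdsWithin_le_nhds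
  have h1 : Tendsto (fun u : ℂ ↦ (u - w) ^ 2) (𝓝[≠] w) (𝓝 ((w - w) ^ 2)) := by
    have : Continuous (fun u : ℂ ↦ (u - w) ^ 2) := by fun_prop
    exact (this.tendsto w).mono_left nhdsWithin_le_nhds
  have h3 := h1.mul hc
  have h4 := tendsto_sq_mul_weierstrassP' L' w hw
  have h5 : Tendsto (fun u : ℂ ↦ (u - w) ^ 2 * ℘[L] u) (𝓝[≠] w) (𝓝 1) := by
    refine h4.congr' ?_
    filter_upwards [hw1] with u hu
    have : ℘[L] u - ℘[L'] u = 0 := hu
    rw [sub_eq_zero.1 this]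
  have := tendsto_nhds_unique h3 h5
  simp at this

theorem lattice_eq_of_eventually (L L' : PeriodPair)
    (h : ∀ᶠ u in 𝓝[≠] (0 : ℂ), ℘[L] u = ℘[L'] u) : L.lattice = L'.lattice :=
  le_antisymm (lattice_le_of_eventually L' L (h.mono fun _ hu => hu.symm))
    (lattice_le_of_eventually L L' h)

/-- If a holomorphic `X` on the upper half plane agrees with `℘ ∘ F` near one point, it does so
everywhere and `F` avoids the lattice. -/
theorem weierstrassP_comp_eq (L : PeriodPair) (F X : ℂ → ℂ)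
    (hF : DifferentiableOn ℂ F {z | 0 < z.im}) (hX : DifferentiableOn ℂ X {z | 0 < z.im})
    (z₀ : ℂ) (hz₀ : 0 < z₀.im) (hF₀ : F z₀ ∉ L.lattice)
    (h : ∀ᶠ z in 𝓝 z₀, ℘[L] (F z) = X z) :
    ∀ z : ℂ, 0 < z.im → F z ∉ L.lattice ∧ ℘[L] (F z) = X z := by
  have hopen : IsOpen {z : ℂ | 0 < z.im} := isOpen_lt continuous_const Complex.continuous_im
  have hpre : IsPreconnected {z : ℂ | 0 < z.im} := (convex_halfSpace_im_gt 0).isPreconnected
  set Z : Set ℂ := {z | ∀ᶠ w in 𝓝 z, F w ∉ L.lattice ∧ ℘[L] (F w) = X w} with hZ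
  have hZo : IsOpen Z := by
    rw [isOpen_iff_mem_nhds]
    intro z hz
    exact eventually_eventually_nhds.2 hz
  have hFc : ∀ z : ℂ, 0 < z.im → ContinuousAt F z := fun z hz =>
    (hF.differentiableAt (hopen.mem_nhds hz)).continuousAt
  have hXc : ∀ z : ℂ, 0 < z.im → ContinuousAt X z := fun z hz =>
    (hX.differentiableAt (hopen.mem_nhds hz)).continuousAt
  have hz₀Z : z₀ ∈ Z := by
    filter_upwards [h, (hFc z₀ hz₀) (L.isClosed_lattice.isOpen_compl.mem_nhds hF₀)] with w h1 h2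
    exact ⟨h2, h1⟩
  have hsub : {z : ℂ | 0 < z.im} ⊆ Z := by
    refine hpre.subset_of_closure_inter_subset hZo ⟨z₀, hz₀, hz₀Z⟩ ?_
    rintro z ⟨hzc, hzim⟩
    have hzim' : 0 < z.im := hzim
    have hfr : ∃ᶠ w in 𝓝 z, w ∈ Z := mem_closure_iff_frequently.1 hzc
    by_contra hzZ
    have hfr2 : ∃ᶠ w in 𝓝[≠] z, w ∈ Z := by
      rw [frequently_nhdsWithin_iff]
      exact hfr.mono (fun w hw => ⟨hw, fun e => hzZ (e ▸ hw)⟩)
    have hfr3 : ∃ᶠ w in 𝓝[≠] z, F w ∉ L.lattice ∧ ℘[L] (F w) = X w :=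
      hfr2.mono (fun w hw => hw.self_of_nhds)
    by_cases hFz : F z ∈ L.lattice
    · -- pole: contradiction
      have hne : (𝓝[≠] z ⊓ 𝓟 {w | F w ∉ L.lattice ∧ ℘[L] (F w) = X w}).NeBot :=
        frequently_mem_iff_neBot.1 hfr3
      have t1 : Tendsto F (𝓝[≠] z ⊓ 𝓟 {w | F w ∉ L.lattice ∧ ℘[L] (F w) = X w})
          (𝓝[≠] (F z)) := by
        apply tendsto_nhdsWithin_of_tendsto_nhds_of_eventually_within
        · exact (hFc z hzim').tendsto.mono_left (inf_le_left.trans nhdsWithin_le_nhds)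
        · have : {w | F w ∉ L.lattice ∧ ℘[L] (F w) = X w} ∈
              (𝓝[≠] z ⊓ 𝓟 {w | F w ∉ L.lattice ∧ ℘[L] (F w) = X w}) :=
            mem_inf_of_right (mem_principal_self _)
          filter_upwards [this] with w hw e
          have e' : F w = F z := e
          exact hw.1 (e' ▸ hFz)
      have t2 := (tendsto_sq_mul_weierstrassP' L (F z) hFz).comp t1
      have t3 : Tendsto (fun w => (F w - F z) ^ 2 * X w)
          (𝓝[≠] z ⊓ 𝓟 {w | F w ∉ L.lattice ∧ ℘[L] (F w) = X w})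
          (𝓝 ((F z - F z) ^ 2 * X z)) := by
        have c1 : ContinuousAt (fun w => (F w - F z) ^ 2 * X w) z :=
          (((hFc z hzim').sub continuousAt_const).pow 2).mul (hXc z hzim')
        exact c1.tendsto.mono_left (inf_le_left.trans nhdsWithin_le_nhds)
      have t4 : Tendsto (fun w => (F w - F z) ^ 2 * X w)
          (𝓝[≠] z ⊓ 𝓟 {w | F w ∉ L.lattice ∧ ℘[L] (F w) = X w}) (𝓝 1) := by
        refine t2.congr' ?_
        have : {w | F w ∉ L.lattice ∧ ℘[L] (F w) = X w} ∈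
              (𝓝[≠] z ⊓ 𝓟 {w | F w ∉ L.lattice ∧ ℘[L] (F w) = X w}) :=
            mem_inf_of_right (mem_principal_self _)
        filter_upwards [this] with w hw
        change (F w - F z) ^ 2 * ℘[L] (F w) = _
        rw [hw.2]
      have := tendsto_nhds_unique t3 t4
      simp at this
    · -- regular point
      apply hzZ
      have a1 : AnalyticAt ℂ F z := hF.analyticAt (hopen.mem_nhds hzim)
      have a2 : AnalyticAt ℂ X z := hX.analyticAt (hopen.mem_nhds hzim)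
      have a3 : AnalyticAt ℂ (℘[L] ∘ F) z := (L.analyticOnNhd_weierstrassP _ hFz).comp a1
      have a4 : ∃ᶠ w in 𝓝[≠] z, (℘[L] ∘ F) w = X w := hfr3.mono (fun w hw => hw.2)
      have a5 := (a3.frequently_eq_iff_eventually_eq a2).1 a4
      filter_upwards [a5, (hFc z hzim') (L.isClosed_lattice.isOpen_compl.mem_nhds hFz)]
        with w h1 h2
      exact ⟨h2, h1⟩
  intro z hz
  exact (hsub hz).self_of_nhds

/-- division by the first order zero -/
theorem exists_dslope (G : ℂ → ℂ) (hG : AnalyticAt ℂ G 0) (hG0 : G 0 = 0) (hG1 : deriv G 0 = 1) :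
    ∃ γ : ℂ → ℂ, AnalyticAt ℂ γ 0 ∧ γ 0 = 1 ∧ ∀ q, G q = q * γ q := by
  obtain ⟨s, hs, hGs⟩ : ∃ s ∈ 𝓝 (0 : ℂ), DifferentiableOn ℂ G s := by
    obtain ⟨s, hs, h⟩ := hG.eventually_analyticAt.exists_mem
    exact ⟨s, hs, fun x hx => (h x hx).differentiableAt.differentiableWithinAt⟩
  refine ⟨dslope G 0, ?_, ?_, ?_⟩
  · exact ((Complex.differentiableOn_dslope hs).2 hGs).analyticAt hs
  · rw [dslope_same, hG1]
  · intro q
    have := sub_smul_dslope G 0 q
    simp only [sub_zero, smul_eq_mul, hG0] at this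
    exact this.symm

/-- the differential equation for the numerator -/
theorem ode_num (G Y η : ℂ → ℂ) (a b : ℂ) (hη : AnalyticAt ℂ η 0)
    (hY : ∀ᶠ q in 𝓝[≠] (0 : ℂ), Y q = η q / q ^ 2)
    (hode : ∀ᶠ q in 𝓝[≠] (0 : ℂ),
      (deriv Y q) ^ 2 = (deriv G q) ^ 2 * (4 * Y q ^ 3 - a * Y q - b)) :
    ∀ᶠ q in 𝓝[≠] (0 : ℂ), (q * deriv η q - 2 * η q) ^ 2 =
      (deriv G q) ^ 2 * (4 * η q ^ 3 - a * q ^ 4 * η q - b * q ^ 6) := by
  have h1 : Y =ᶠ[𝓝[≠] 0] fun q => η q / q ^ 2 := hY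
  have h2 := h1.nhdsNE_deriv
  have h3 : ∀ᶠ q in 𝓝[≠] (0 : ℂ), AnalyticAt ℂ η q :=
    hη.eventually_analyticAt.filter_mono nhdsWithin_le_nhds
  filter_upwards [h1, h2, h3, hode, self_mem_nhdsWithin] with q e1 e2 e3 e4 hq
  have hq0 : q ≠ 0 := hq
  have hd : deriv (fun q => η q / q ^ 2) q = (deriv η q * q ^ 2 - η q * (2 * q)) / (q ^ 2) ^ 2 := by
    have d1 : HasDerivAt η (deriv η q) q := e3.differentiableAt.hasDerivAt
    have d2 : HasDerivAt (fun q : ℂ => q ^ 2) (2 * q) q := by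
      simpa using hasDerivAt_pow 2 q
    exact (d1.div d2 (pow_ne_zero 2 hq0)).deriv
  rw [e2, hd, e1] at e4
  have h5 : (q * deriv η q - 2 * η q) ^ 2 =
      q ^ 6 * ((deriv η q * q ^ 2 - η q * (2 * q)) / (q ^ 2) ^ 2) ^ 2 := by
    field_simp
  rw [h5, e4]
  field_simp

theorem analytic_unique (G ξ π : ℂ → ℂ) (a b : ℂ) (hG : AnalyticAt ℂ G 0) (hG1 : deriv G 0 = 1)
    (hξ : AnalyticAt ℂ ξ 0) (hξ0 : ξ 0 = 1) (hπ : AnalyticAt ℂ π 0) (hπ0 : π 0 = 1)
    (h1 : ∀ᶠ q in 𝓝[≠] (0 : ℂ), (q * deriv ξ q - 2 * ξ q) ^ 2 =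
      (deriv G q) ^ 2 * (4 * ξ q ^ 3 - a * q ^ 4 * ξ q - b * q ^ 6))
    (h2 : ∀ᶠ q in 𝓝[≠] (0 : ℂ), (q * deriv π q - 2 * π q) ^ 2 =
      (deriv G q) ^ 2 * (4 * π q ^ 3 - a * q ^ 4 * π q - b * q ^ 6)) :
    ∀ᶠ q in 𝓝 (0 : ℂ), ξ q = π q := by
  by_contra hcon
  have hf : AnalyticAt ℂ (fun q => ξ q - π q) 0 := hξ.sub hπ
  have hne : ¬ ∀ᶠ q in 𝓝 (0 : ℂ), (fun q => ξ q - π q) q = 0 := by
    intro h
    apply hcon
    filter_upwards [h] with q hq
    exact sub_eq_zero.1 hq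
  obtain ⟨m, ε, hε, hε0, hfe⟩ := hf.exists_eventuallyEq_pow_smul_nonzero_iff.2 hne
  simp only [sub_zero, smul_eq_mul] at hfe
  have hm : m ≠ 0 := by
    rintro rfl
    have := hfe.self_of_nhds
    simp only [hξ0, hπ0, sub_self, pow_zero, one_mul] at this
    exact hε0 this.symm
  obtain ⟨k, rfl⟩ := Nat.exists_eq_succ_of_ne_zero hm
  rw [Nat.succ_eq_add_one] at hfe
  have hfe' : (fun q => ξ q - π q) =ᶠ[𝓝 0] fun q => q ^ (k + 1) * ε q := hfe
  have hder := hfe'.deriv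
  have hlim : ∀ᶠ q in 𝓝[≠] (0 : ℂ),
      ((k - 1 : ℂ) * ε q + q * deriv ε q) * (q * (deriv ξ q + deriv π q) - 2 * (ξ q + π q)) =
        (deriv G q) ^ 2 * ε q * (4 * (ξ q ^ 2 + ξ q * π q + π q ^ 2) - a * q ^ 4) := by
    filter_upwards [h1, h2, hfe.filter_mono nhdsWithin_le_nhds,
      hder.filter_mono nhdsWithin_le_nhds,
      hξ.eventually_analyticAt.filter_mono nhdsWithin_le_nhds,
      hπ.eventually_analyticAt.filter_mono nhdsWithin_le_nhds,
      hε.eventually_analyticAt.filter_mono nhdsWithin_le_nhds, self_mem_nhdsWithin]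
      with q e1 e2 e3 e4 aξ aπ aε hq
    have hq0 : q ≠ 0 := hq
    have d1 : deriv (fun q => ξ q - π q) q = deriv ξ q - deriv π q :=
      (aξ.differentiableAt.hasDerivAt.sub aπ.differentiableAt.hasDerivAt).deriv
    have d2 : deriv (fun q => q ^ (k + 1) * ε q) q =
        ((k + 1 : ℕ) : ℂ) * q ^ k * ε q + q ^ (k + 1) * deriv ε q := by
      have h0 : HasDerivAt (fun q : ℂ => q ^ (k + 1)) (((k + 1 : ℕ) : ℂ) * q ^ k) q := by
        simpa using hasDerivAt_pow (k + 1) q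
      exact (h0.mul aε.differentiableAt.hasDerivAt).deriv
    rw [d1, d2] at e4
    push_cast at e4
    have hdiff : (q * (deriv ξ q - deriv π q) - 2 * (ξ q - π q)) *
        (q * (deriv ξ q + deriv π q) - 2 * (ξ q + π q)) =
        (deriv G q) ^ 2 * (ξ q - π q) * (4 * (ξ q ^ 2 + ξ q * π q + π q ^ 2) - a * q ^ 4) := by
      linear_combination e1 - e2
    rw [e4, e3] at hdiff
    have hqk : q ^ (k + 1) ≠ 0 := pow_ne_zero _ hq0
    apply mul_left_cancel₀ hqk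
    linear_combination hdiff
  have cξ : ContinuousAt (deriv ξ) 0 := hξ.deriv.continuousAt
  have cπ : ContinuousAt (deriv π) 0 := hπ.deriv.continuousAt
  have cε : ContinuousAt (deriv ε) 0 := hε.deriv.continuousAt
  have cG : ContinuousAt (deriv G) 0 := hG.deriv.continuousAt
  have cξ' := hξ.continuousAt
  have cπ' := hπ.continuousAt
  have cε' := hε.continuousAt
  have l1 : ContinuousAt (fun q : ℂ => ((k - 1 : ℂ) * ε q + q * deriv ε q) *
      (q * (deriv ξ q + deriv π q) - 2 * (ξ q + π q))) 0 := by fun_prop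
  have l2 : ContinuousAt (fun q : ℂ => (deriv G q) ^ 2 * ε q *
      (4 * (ξ q ^ 2 + ξ q * π q + π q ^ 2) - a * q ^ 4)) 0 := by fun_prop
  have t1 := l1.tendsto.mono_left (nhdsWithin_le_nhds (s := {(0 : ℂ)}ᶜ))
  have t2 := l2.tendsto.mono_left (nhdsWithin_le_nhds (s := {(0 : ℂ)}ᶜ))
  have t3 := t1.congr' hlim
  have key := tendsto_nhds_unique t3 t2
  simp only [hξ0, hπ0, hG1] at key
  have key2 : ((k : ℂ) + 2) * ε 0 = 0 := by
    have : (k - 1 : ℂ) * ε 0 * (-4) = ε 0 * 12 := by linear_combination key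
    linear_combination (-1 / 4 : ℂ) * this
  rcases mul_eq_zero.1 key2 with h | h
  · have : ((k + 2 : ℕ) : ℂ) = 0 := by push_cast; exact h
    exact absurd this (Nat.cast_ne_zero.2 (by omega))
  · exact hε0 h

theorem weierstrassP_unique (L : PeriodPair) (G X ξ : ℂ → ℂ)
    (hG : AnalyticAt ℂ G 0) (hG0 : G 0 = 0) (hG1 : deriv G 0 = 1)
    (hξ : AnalyticAt ℂ ξ 0) (hξ0 : ξ 0 = 1)
    (hX : ∀ᶠ q in 𝓝[≠] (0 : ℂ), X q = ξ q / q ^ 2)
    (hode : ∀ᶠ q in 𝓝[≠] (0 : ℂ),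
      (deriv X q) ^ 2 = (deriv G q) ^ 2 * (4 * X q ^ 3 - L.g₂ * X q - L.g₃)) :
    ∀ᶠ q in 𝓝[≠] (0 : ℂ), X q = ℘[L] (G q) := by
  obtain ⟨γ, hγ, hγ0, hGγ⟩ := exists_dslope G hG hG0 hG1
  have hE : AnalyticAt ℂ (fun q => ℘[L - (0 : ℂ)] (G q)) 0 := by
    have h1 : AnalyticAt ℂ ℘[L - (0 : ℂ)] (G 0) := by
      rw [hG0]; exact L.analyticAt_weierstrassPExcept 0
    exact h1.comp hG
  set π : ℂ → ℂ := fun q => q ^ 2 * ℘[L - (0 : ℂ)] (G q) + (γ q ^ 2)⁻¹ with hπdef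
  have hπ : AnalyticAt ℂ π 0 := by
    have h1 : AnalyticAt ℂ (fun q : ℂ => (γ q ^ 2)⁻¹) 0 :=
      (hγ.pow 2).inv (by rw [Pi.pow_apply, hγ0]; norm_num)
    exact ((analyticAt_id.pow 2).mul hE).add h1
  have hπ0 : π 0 = 1 := by simp [hπdef, hγ0]
  have hγne : ∀ᶠ q in 𝓝[≠] (0 : ℂ), γ q ≠ 0 := by
    have : ∀ᶠ q in 𝓝 (0 : ℂ), γ q ≠ 0 :=
      hγ.continuousAt.eventually_ne (by rw [hγ0]; norm_num)
    exact this.filter_mono nhdsWithin_le_nhds
  have hP : ∀ᶠ q in 𝓝[≠] (0 : ℂ), ℘[L] (G q) = π q / q ^ 2 := by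
    filter_upwards [hγne, self_mem_nhdsWithin] with q h1 hq
    have hq0 : q ≠ 0 := hq
    rw [weierstrassP_eq_except, hπdef]
    simp only
    rw [hGγ q]
    field_simp
  have hGnL : ∀ᶠ q in 𝓝[≠] (0 : ℂ), G q ∉ L.lattice := by
    have h1 : ∀ᶠ q in 𝓝 (0 : ℂ), G q ∈ ((↑L.lattice : Set ℂ) \ {0})ᶜ := by
      have h2 := L.compl_lattice_sdiff_singleton_mem_nhds 0
      have h3 : Tendsto G (𝓝 0) (𝓝 0) := by
        have := hG.continuousAt.tendsto
        rwa [hG0] at this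
      exact h3 h2
    filter_upwards [h1.filter_mono nhdsWithin_le_nhds, hγne, self_mem_nhdsWithin] with q h2 h3 hq hL
    have hq0 : q ≠ 0 := hq
    apply h2
    refine ⟨hL, ?_⟩
    rw [Set.mem_singleton_iff, hGγ q]
    exact mul_ne_zero hq0 h3
  have hodeP : ∀ᶠ q in 𝓝[≠] (0 : ℂ), (deriv (fun q => ℘[L] (G q)) q) ^ 2 =
      (deriv G q) ^ 2 * (4 * (℘[L] (G q)) ^ 3 - L.g₂ * ℘[L] (G q) - L.g₃) := by
    filter_upwards [hGnL, hG.eventually_analyticAt.filter_mono nhdsWithin_le_nhds] with q h1 h2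
    have d1 : HasDerivAt ℘[L] (℘'[L] (G q)) (G q) := by
      have := (L.analyticOnNhd_weierstrassP (G q) h1).differentiableAt.hasDerivAt
      rwa [deriv_weierstrassP] at this
    have d2 : deriv (fun q => ℘[L] (G q)) q = ℘'[L] (G q) * deriv G q :=
      (d1.comp q h2.differentiableAt.hasDerivAt).deriv
    rw [d2, mul_pow, L.derivWeierstrassP_sq _ h1]
    ring
  have o1 := ode_num G X ξ _ _ hξ hX hode
  have o2 := ode_num G (fun q => ℘[L] (G q)) π _ _ hπ hP hodeP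
  have key := analytic_unique G ξ π _ _ hG hG1 hξ hξ0 hπ hπ0 o1 o2
  filter_upwards [hX, hP, key.filter_mono nhdsWithin_le_nhds] with q h1 h2 h3
  rw [h1, h2, h3]

theorem exists_periodPair_of_submodule (L : PeriodPair) (N : Submodule ℤ ℂ) (hN : N ≤ L.lattice)
    (n : ℤ) (hn : n ≠ 0) (h : ∀ x ∈ L.lattice, n • x ∈ N) :
    ∃ L' : PeriodPair, L'.lattice = N := by
  have hd : DiscreteTopology N := DiscreteTopology.of_subset (s := (L.lattice : Set ℂ))
    (inferInstanceAs (DiscreteTopology L.lattice)) hN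
  have hz : IsZLattice ℝ N := by
    constructor
    rw [eq_top_iff, ← L.basis.span_eq, Submodule.span_le]
    have key : ∀ w ∈ L.lattice, w ∈ Submodule.span ℝ (N : Set ℂ) := by
      intro w hw
      have h1 : n • w ∈ Submodule.span ℝ (N : Set ℂ) := Submodule.subset_span (h w hw)
      have h2 : w = ((n : ℝ)⁻¹) • (n • w) := by
        rw [zsmul_eq_mul, Complex.real_smul]
        push_cast
        have : (n : ℂ) ≠ 0 := by exact_mod_cast hn
        field_simp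
      rw [h2]
      exact Submodule.smul_mem _ _ h1
    rintro _ ⟨i, rfl⟩
    fin_cases i
    · simp only [Fin.zero_eta, Fin.isValue, basis_zero]
      exact key _ L.ω₁_mem_lattice
    · simp only [Fin.mk_one, Fin.isValue, basis_one]
      exact key _ L.ω₂_mem_lattice
  have hfree : Module.Free ℤ N := ZLattice.module_free ℝ N
  have hfin : Module.Finite ℤ N := ZLattice.module_finite ℝ N
  have hr : Module.finrank ℤ N = 2 := by
    rw [ZLattice.rank ℝ N, Complex.finrank_real_complex]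
  let b : Module.Basis (Fin 2) ℤ N := Module.finBasisOfFinrankEq ℤ N hr
  have hli := (b.ofZLatticeBasis ℝ N).linearIndependent
  have e1 : (⇑(b.ofZLatticeBasis ℝ N) : Fin 2 → ℂ) = ![(b 0 : ℂ), (b 1 : ℂ)] := by
    funext i
    rw [Module.Basis.ofZLatticeBasis_apply]
    fin_cases i <;> rfl
  rw [e1] at hli
  refine ⟨⟨b 0, b 1, hli⟩, ?_⟩
  have h2 := b.ofZLatticeBasis_span ℝ
  rw [e1] at h2
  refine Eq.trans ?_ h2
  unfold PeriodPair.lattice
  congr 1
  simp [Matrix.range_cons, Matrix.range_empty, Set.pair_comm]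

theorem exists_sublattice (L : PeriodPair) (A : AddSubgroup ℂ) (hA : ∀ x ∈ A, x ∈ L.lattice)
    (hne : ∃ x ∈ L.lattice, x ∉ A) :
    ∃ L' : PeriodPair, (∀ x ∈ A, x ∈ L'.lattice) ∧ (∀ x ∈ L'.lattice, x ∈ L.lattice) ∧
      ∃ x ∈ L.lattice, x ∉ L'.lattice := by
  let B : Submodule ℤ L.lattice := (AddSubgroup.toIntSubmodule A).comap L.lattice.subtype
  have hB : B ≠ ⊤ := by
    intro h
    obtain ⟨x, hx, hxA⟩ := hne
    have : (⟨x, hx⟩ : L.lattice) ∈ B := by rw [h]; trivial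
    exact hxA this
  have hfin : Module.Finite ℤ L.lattice := ZLattice.module_finite ℝ L.lattice
  obtain ⟨M, hM, hBM⟩ := (eq_top_or_exists_le_coatom B).resolve_left hB
  have hs : IsSimpleModule ℤ (L.lattice ⧸ M) := isSimpleModule_iff_isCoatom.2 hM
  obtain ⟨I, hI, ⟨e⟩⟩ := isSimpleModule_iff_quot_maximal.1 hs
  have hI0 : I ≠ ⊥ := Ring.ne_bot_of_isMaximal_of_not_isField hI Int.not_isField
  obtain ⟨n, hnI, hn0⟩ := Submodule.exists_mem_ne_zero_of_ne_bot hI0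
  have hnM : ∀ x : L.lattice, n • x ∈ M := by
    intro x
    rw [← Submodule.Quotient.mk_eq_zero]
    apply e.injective
    rw [map_zero, Submodule.Quotient.mk_smul, map_smul]
    obtain ⟨y, hy⟩ := Submodule.Quotient.mk_surjective _ (e (Submodule.Quotient.mk x))
    rw [← hy, ← Submodule.Quotient.mk_smul, Submodule.Quotient.mk_eq_zero, smul_eq_mul]
    exact I.mul_mem_right _ hnI
  obtain ⟨L', hL'⟩ := exists_periodPair_of_submodule L (M.map L.lattice.subtype)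
    (by rintro _ ⟨y, -, rfl⟩; exact y.2) n hn0 (by
      intro x hx
      exact ⟨n • ⟨x, hx⟩, hnM _, rfl⟩)
  refine ⟨L', ?_, ?_, ?_⟩
  · intro x hx
    rw [hL']
    exact ⟨⟨x, hA x hx⟩, hBM hx, rfl⟩
  · intro x hx
    rw [hL'] at hx
    obtain ⟨y, -, rfl⟩ := hx
    exact y.2
  · have : ∃ x : L.lattice, x ∉ M := by
      by_contra hcon
      push Not at hcon
      exact hM.1 (eq_top_iff.2 fun x _ => hcon x)
    obtain ⟨x, hx⟩ := this
    refine ⟨x, x.2, ?_⟩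
    rw [hL']
    rintro ⟨y, hy, hyx⟩
    have : y = x := Subtype.ext hyx
    exact hx (this ▸ hy)

end MP9c45e8
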