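import Mathlib

/-!
Module H: shape of the period lattice of 14a1 (conjugation stable, one real component).
-/

open Complex
open scoped Topology
open PeriodPair

namespace MP9c45e8

/-- Complex conjugation as a permutation of a conjugation stable lattice. -/
noncomputable def conjEquiv (L : PeriodPair)
    (hconj : ∀ z ∈ L.lattice, (starRingEnd ℂ) z ∈ L.lattice) : L.lattice ≃ L.lattice where
  toFun z := ⟨(starRingEnd ℂ) z.1, hconj _ z.2⟩
  invFun z := ⟨(starRingEnd ℂ) z.1, hconj _ z.2⟩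
  left_inv z := by ext; simp
  right_inv z := by ext; simp

lemma conj_weierstrassP (L : PeriodPair)
    (hconj : ∀ z ∈ L.lattice, (starRingEnd ℂ) z ∈ L.lattice) (z : ℂ) :
    (starRingEnd ℂ) (℘[L] z) = ℘[L] ((starRingEnd ℂ) z) := by
  have h1 : HasSum (fun l : L.lattice ↦ (starRingEnd ℂ) (1 / (z - l) ^ 2 - 1 / l ^ 2))
      ((starRingEnd ℂ) (℘[L] z)) := Complex.hasSum_conj'.mpr (by simpa using L.hasSum_weierstrassP z)
  have h2 := L.hasSum_weierstrassP ((starRingEnd ℂ) z)
  rw [← (conjEquiv L hconj).hasSum_iff] at h2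
  refine h1.unique ?_
  convert h2 using 2 with l
  simp [conjEquiv]

lemma conj_derivWeierstrassP (L : PeriodPair)
    (hconj : ∀ z ∈ L.lattice, (starRingEnd ℂ) z ∈ L.lattice) (z : ℂ) :
    (starRingEnd ℂ) (℘'[L] z) = ℘'[L] ((starRingEnd ℂ) z) := by
  have h1 : HasSum (fun l : L.lattice ↦ (starRingEnd ℂ) (-2 / (z - l) ^ 3))
      ((starRingEnd ℂ) (℘'[L] z)) :=
    Complex.hasSum_conj'.mpr (by simpa using L.hasSum_derivWeierstrassP z)
  have h2 := L.hasSum_derivWeierstrassP ((starRingEnd ℂ) z)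
  rw [← (conjEquiv L hconj).hasSum_iff] at h2
  refine h1.unique ?_
  convert h2 using 2 with l
  have h : (starRingEnd ℂ) 2 = 2 := map_ofNat _ 2
  simp [conjEquiv, h]

/-- The real numbers `t` with `t * w ∈ L` form a cyclic group, if `w ≠ 0`. -/
lemma exists_generator (L : PeriodPair) (w : ℂ) (hw : w ≠ 0) (t₀ : ℝ) (ht₀ : t₀ ≠ 0)
    (h₀ : (t₀ : ℂ) * w ∈ L.lattice) :
    ∃ α : ℝ, 0 < α ∧ ∀ t : ℝ, (t : ℂ) * w ∈ L.lattice ↔ ∃ m : ℤ, t = m * α := by
  let H : AddSubgroup ℝ :=
    { carrier := {t | (t : ℂ) * w ∈ L.lattice}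
      add_mem' := by
        intro a b ha hb
        have := L.lattice.add_mem ha hb
        simpa [add_mul] using this
      zero_mem' := by simp
      neg_mem' := by
        intro a ha
        have := L.lattice.neg_mem ha
        simpa using this }
  have hH : ∀ t, t ∈ H ↔ (t : ℂ) * w ∈ L.lattice := fun t => Iff.rfl
  obtain ⟨ε, hε, hball⟩ := Metric.exists_ball_inter_eq_singleton_of_mem_discrete
    (s := (L.lattice : Set ℂ)) (x := 0) (by
      exact isDiscrete_iff_discreteTopology.mpr (inferInstanceAs (DiscreteTopology L.lattice)))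
      (by simp)
  have hwn : 0 < ‖w‖ := norm_pos_iff.mpr hw
  obtain ⟨b, hb⟩ := AddSubgroup.cyclic_of_isolated_zero (H := H) (a := ε / ‖w‖) (by positivity) (by
    rw [Set.disjoint_left]
    rintro t ht ⟨ht0, ht1⟩
    have hmem : (t : ℂ) * w ∈ Metric.ball (0 : ℂ) ε ∩ (L.lattice : Set ℂ) := by
      refine ⟨?_, ht⟩
      rw [mem_ball_zero_iff, norm_mul, Complex.norm_real, Real.norm_of_nonneg ht0.le]
      exact (lt_div_iff₀ hwn).mp ht1
    rw [hball] at hmem
    have : (t : ℂ) * w = 0 := hmem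
    rcases mul_eq_zero.mp this with h | h
    · exact ht0.ne' (by exact_mod_cast h)
    · exact hw h)
  have hb' : ∀ t, t ∈ H ↔ ∃ m : ℤ, t = m * b := by
    intro t
    rw [hb, AddSubgroup.mem_closure_singleton]
    simp only [zsmul_eq_mul, eq_comm]
  have hb0 : b ≠ 0 := by
    rintro rfl
    obtain ⟨m, hm⟩ := (hb' t₀).mp h₀
    exact ht₀ (by simpa using hm)
  refine ⟨|b|, abs_pos.mpr hb0, fun t => ?_⟩
  rw [← hH, hb']
  rcases abs_choice b with h | h
  · rw [h]
  · rw [h]
    constructor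
    · rintro ⟨m, rfl⟩; exact ⟨-m, by push_cast; ring⟩
    · rintro ⟨m, rfl⟩; exact ⟨-m, by push_cast; ring⟩

/-- `℘` is not constant on a horizontal line (or on any set having an accumulation point off `L`):
if `℘` is frequently equal to `c` near a point outside `L`, contradiction. -/
lemma not_frequently_const (L : PeriodPair) (c z₀ : ℂ) (hz₀ : z₀ ∉ L.lattice)
    (h : ∃ᶠ z in 𝓝[≠] z₀, ℘[L] z = c) : False := by
  have hcount : (L.lattice : Set ℂ).Countable := by
    have : Countable L.lattice := L.latticeEquivProd.toEquiv.countable_iff.mpr inferInstance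
    exact this
  have hconn : IsPreconnected (L.lattice : Set ℂ)ᶜ :=
    (hcount.isPathConnected_compl_of_one_lt_rank (by simp)).isConnected.isPreconnected
  have heq : Set.EqOn ℘[L] (fun _ => c) (L.lattice : Set ℂ)ᶜ :=
    L.analyticOnNhd_weierstrassP.eqOn_of_preconnected_of_frequently_eq
      (fun _ _ => analyticAt_const) hconn hz₀ h
  have hev : ℘[L] =ᶠ[𝓝[≠] 0] fun _ => c := by
    have h0 : (↑L.lattice \ {(0 : ℂ)})ᶜ ∈ 𝓝[≠] (0 : ℂ) :=
      mem_nhdsWithin_of_mem_nhds (L.compl_lattice_sdiff_singleton_mem_nhds 0)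
    filter_upwards [h0, self_mem_nhdsWithin] with z hz hz'
    apply heq
    intro hmem
    exact hz ⟨hmem, hz'⟩
  have h1 := L.order_weierstrassP 0 (by simp)
  rw [meromorphicOrderAt_congr hev, meromorphicOrderAt_const] at h1
  split_ifs at h1
  · have : (⊤ : WithTop ℤ) = ((-2 : ℤ) : WithTop ℤ) := h1
    exact absurd this WithTop.top_ne_coe
  · have : ((0 : ℤ) : WithTop ℤ) = ((-2 : ℤ) : WithTop ℤ) := h1
    rw [WithTop.coe_inj] at this
    norm_num at this

/-- The real function `x ↦ ℘(x + iβ/2)`. -/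
lemma rect_false (L : PeriodPair)
    (hconj : ∀ z ∈ L.lattice, (starRingEnd ℂ) z ∈ L.lattice)
    (h2 : L.g₂ = -215 / 12) (h3 : L.g₃ = 5291 / 216) (α β : ℝ) (hα : 0 < α)
    (hαL : (α : ℂ) ∈ L.lattice) (hβL : (β : ℂ) * I ∈ L.lattice)
    (hoff : ∀ x : ℝ, (x : ℂ) + (β : ℂ) * I / 2 ∉ L.lattice) : False := by
  set s : ℝ → ℂ := fun x => (x : ℂ) + (β : ℂ) * I / 2 with hs
  have hsconj : ∀ x, (starRingEnd ℂ) (s x) = s x - ((⟨(β : ℂ) * I, hβL⟩ : L.lattice) : ℂ) := by
    intro x
    simp only [hs, map_add, map_mul, map_div₀, Complex.conj_ofReal, Complex.conj_I]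
    rw [show (starRingEnd ℂ) 2 = 2 from map_ofNat _ 2]
    ring
  have hP : ∀ x, ((℘[L] (s x)).re : ℂ) = ℘[L] (s x) := by
    intro x
    rw [← Complex.conj_eq_iff_re, conj_weierstrassP L hconj, hsconj, L.weierstrassP_sub_coe]
  have hP' : ∀ x, ((℘'[L] (s x)).re : ℂ) = ℘'[L] (s x) := by
    intro x
    rw [← Complex.conj_eq_iff_re, conj_derivWeierstrassP L hconj, hsconj,
      L.derivWeierstrassP_sub_coe]
  set g : ℝ → ℝ := fun x => (℘[L] (s x)).re with hg
  set g' : ℝ → ℝ := fun x => (℘'[L] (s x)).re with hg'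
  have hderiv : ∀ x, HasDerivAt g (g' x) x := by
    intro x
    have hd : HasDerivAt ℘[L] (℘'[L] (s x)) (s x) := by
      have := (L.analyticOnNhd_weierstrassP _ (hoff x)).differentiableAt.hasDerivAt
      rwa [L.deriv_weierstrassP] at this
    have h1 : HasDerivAt (fun z : ℂ => ℘[L] (z + (β : ℂ) * I / 2)) (℘'[L] (s x)) (x : ℂ) :=
      hd.comp_add_const (x : ℂ) ((β : ℂ) * I / 2)
    exact h1.real_of_complex
  have hode : ∀ x, (g' x) ^ 2 = 4 * (g x - 13 / 12) * ((g x) ^ 2 + 13 / 12 * g x + 407 / 72) := by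
    intro x
    have h := L.derivWeierstrassP_sq (s x) (hoff x)
    rw [← hP, ← hP', h2, h3] at h
    have h' : (((g' x) ^ 2 : ℝ) : ℂ) = ((4 * (g x) ^ 3 - (-215 / 12) * g x - 5291 / 216 : ℝ) : ℂ) := by
      push_cast
      exact h
    have h'' := Complex.ofReal_injective h'
    rw [h'']
    ring
  have hpos : ∀ y : ℝ, 0 < y ^ 2 + 13 / 12 * y + 407 / 72 := by
    intro y
    nlinarith [sq_nonneg (y + 13 / 24)]
  have hge : ∀ x, 13 / 12 ≤ g x := by
    intro x
    have h0 : 0 ≤ 4 * (g x - 13 / 12) * ((g x) ^ 2 + 13 / 12 * g x + 407 / 72) := by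
      rw [← hode]; positivity
    by_contra hlt
    push Not at hlt
    have := mul_neg_of_neg_of_pos (show 4 * (g x - 13 / 12) < 0 by linarith) (hpos (g x))
    linarith
  have hcont : Continuous g := continuous_iff_continuousAt.mpr fun x => (hderiv x).continuousAt
  have hper : Function.Periodic g α := by
    intro x
    have : s (x + α) = s x + ((⟨(α : ℂ), hαL⟩ : L.lattice) : ℂ) := by
      simp only [hs]; push_cast; ring
    simp only [hg]
    rw [this, L.weierstrassP_add_coe]
  obtain ⟨x₀, -, hmax⟩ := isCompact_Icc.exists_isMaxOn (s := Set.Icc (0 : ℝ) (0 + α))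
    (Set.nonempty_Icc.mpr (by linarith)) hcont.continuousOn
  have hglob : ∀ x, g x ≤ g x₀ := by
    intro x
    obtain ⟨y, hy, hxy⟩ := hper.exists_mem_Ico hα x 0
    rw [hxy]
    exact hmax ⟨hy.1, hy.2.le⟩
  have hd0 : g' x₀ = 0 := by
    have hloc : IsLocalMax g x₀ := Filter.Eventually.of_forall hglob
    exact hloc.hasDerivAt_eq_zero (hderiv x₀)
  have hx₀ : g x₀ = 13 / 12 := by
    have h := hode x₀
    rw [hd0] at h
    have h0 := (hpos (g x₀)).ne'
    have h1 : 4 * (g x₀ - 13 / 12) = 0 := by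
      have : 4 * (g x₀ - 13 / 12) * ((g x₀) ^ 2 + 13 / 12 * g x₀ + 407 / 72) = 0 := by
        rw [← h]; ring
      exact (mul_eq_zero.mp this).resolve_right h0
    linarith
  have hconst : ∀ x, g x = 13 / 12 := fun x => le_antisymm (hx₀ ▸ hglob x) (hge x)
  refine not_frequently_const L (13 / 12) (s 0) (hoff 0) ?_
  have htend : Filter.Tendsto (fun x : ℝ => s x) (𝓝[≠] 0) (𝓝[≠] (s 0)) := by
    refine tendsto_nhdsWithin_iff.mpr ⟨?_, ?_⟩
    · have : Continuous s := by simp only [hs]; fun_prop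
      exact (this.tendsto 0).mono_left nhdsWithin_le_nhds
    · filter_upwards [self_mem_nhdsWithin] with x hx h
      apply hx
      simp only [hs, Set.mem_singleton_iff] at h
      have h' : (x : ℂ) = ((0 : ℝ) : ℂ) := by linear_combination h
      exact Complex.ofReal_injective h'
  refine htend.frequently (Filter.Eventually.frequently (Filter.Eventually.of_forall fun x => ?_))
  rw [← hP x]
  have := hconst x
  simp only [hg] at this
  rw [this]
  push_cast
  ring

theorem lattice_shape (L : PeriodPair)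
    (hconj : ∀ z ∈ L.lattice, (starRingEnd ℂ) z ∈ L.lattice)
    (h2 : L.g₂ = -215 / 12) (h3 : L.g₃ = 5291 / 216) :
    ∃ Ωp Ωm : ℝ, 0 < Ωp ∧ 0 < Ωm ∧
      ∀ z : ℂ, z ∈ L.lattice ↔ ∃ a b : ℤ, a ≡ b [ZMOD 2] ∧ z = a * Ωp + b * Ωm * I := by
  -- sums and differences with the conjugate
  have hre : ∀ z ∈ L.lattice, ((2 * z.re : ℝ) : ℂ) * 1 ∈ L.lattice := by
    intro z hz
    have := L.lattice.add_mem hz (hconj z hz)
    rwa [Complex.add_conj, ← mul_one ((2 * z.re : ℝ) : ℂ)] at this
  have him : ∀ z ∈ L.lattice, ((2 * z.im : ℝ) : ℂ) * I ∈ L.lattice := by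
    intro z hz
    have := L.lattice.sub_mem hz (hconj z hz)
    rwa [Complex.sub_conj] at this
  -- a lattice vector that is not purely imaginary, and one that is not real
  have hnre : ∃ z ∈ L.lattice, z.re ≠ 0 := by
    by_contra hcon
    push Not at hcon
    have h1 := hcon _ L.ω₁_mem_lattice
    have h2 := hcon _ L.ω₂_mem_lattice
    have hind := LinearIndependent.pair_iff.mp L.indep
    have e := hind L.ω₂.im (-L.ω₁.im) (by
      apply Complex.ext <;> simp [h1, h2]; ring)
    have e2 : L.ω₂ = 0 := Complex.ext (by simp [h2]) (by simp [e.1])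
    have := (L.indep.ne_zero 1)
    simp [e2] at this
  have hnim : ∃ z ∈ L.lattice, z.im ≠ 0 := by
    by_contra hcon
    push Not at hcon
    have h1 := hcon _ L.ω₁_mem_lattice
    have h2 := hcon _ L.ω₂_mem_lattice
    have hind := LinearIndependent.pair_iff.mp L.indep
    have e := hind L.ω₂.re (-L.ω₁.re) (by
      apply Complex.ext <;> simp [h1, h2]; ring)
    have e2 : L.ω₂ = 0 := Complex.ext (by simp [e.1]) (by simp [h2])
    have := (L.indep.ne_zero 1)
    simp [e2] at this
  obtain ⟨z₁, hz₁, hz₁'⟩ := hnre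
  obtain ⟨z₂, hz₂, hz₂'⟩ := hnim
  obtain ⟨α, hα, hαL⟩ := exists_generator L 1 one_ne_zero (2 * z₁.re) (by simpa using hz₁')
    (hre z₁ hz₁)
  obtain ⟨β, hβ, hβL⟩ := exists_generator L I I_ne_zero (2 * z₂.im) (by simpa using hz₂')
    (him z₂ hz₂)
  have hαmem : (α : ℂ) ∈ L.lattice := by
    have := (hαL α).mpr ⟨1, by simp⟩
    simpa using this
  have hβmem : (β : ℂ) * I ∈ L.lattice := (hβL β).mpr ⟨1, by simp⟩
  -- coordinates
  have hcoord : ∀ z ∈ L.lattice, ∃ m n : ℤ, z.re = m * (α / 2) ∧ z.im = n * (β / 2) ∧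
      m ≡ n [ZMOD 2] := by
    intro z hz
    obtain ⟨m, hm⟩ := (hαL _).mp (hre z hz)
    obtain ⟨n, hn⟩ := (hβL _).mp (him z hz)
    refine ⟨m, n, by linarith, by linarith, ?_⟩
    rcases Int.even_or_odd m with hme | hmo
    · -- m even: subtract (m/2) α
      obtain ⟨k, rfl⟩ := hme
      have hmem : ((z.im : ℝ) : ℂ) * I ∈ L.lattice := by
        have h1 : (k : ℂ) * α ∈ L.lattice := by
          have := L.lattice.smul_mem k hαmem
          simpa using this
        have h3 : z - (k : ℂ) * α = ((z.im : ℝ) : ℂ) * I := by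
          apply Complex.ext
          · simp
            have : 2 * z.re = (k + k) * α := by exact_mod_cast hm
            linarith
          · simp
        rw [← h3]
        exact L.lattice.sub_mem hz h1
      obtain ⟨j, hj⟩ := (hβL _).mp hmem
      have : (n : ℝ) * β = (2 * j) * β := by rw [← hn, hj]; ring
      have hnj : (n : ℝ) = 2 * j := mul_right_cancel₀ hβ.ne' this
      have hnj' : n = 2 * j := by exact_mod_cast hnj
      rw [hnj']
      exact (Int.modEq_iff_dvd.mpr ⟨j - k, by ring⟩)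
    · rcases Int.even_or_odd n with hne | hno
      · obtain ⟨k, rfl⟩ := hne
        have hmem : ((z.re : ℝ) : ℂ) * 1 ∈ L.lattice := by
          have h1 : (k : ℂ) * (β * I) ∈ L.lattice := by
            have := L.lattice.smul_mem k hβmem
            simpa using this
          have h3 : z - (k : ℂ) * (β * I) = ((z.re : ℝ) : ℂ) * 1 := by
            apply Complex.ext
            · simp
            · simp
              have : 2 * z.im = (k + k) * β := by exact_mod_cast hn
              linarith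
          rw [← h3]
          exact L.lattice.sub_mem hz h1
        obtain ⟨j, hj⟩ := (hαL _).mp hmem
        have : (m : ℝ) * α = (2 * j) * α := by rw [← hm, hj]; ring
        have hmj : (m : ℝ) = 2 * j := mul_right_cancel₀ hα.ne' this
        have hmj' : m = 2 * j := by exact_mod_cast hmj
        rw [hmj'] at hmo
        exact absurd hmo (by simp)
      · obtain ⟨a, rfl⟩ := hmo
        obtain ⟨b, rfl⟩ := hno
        exact (Int.modEq_iff_dvd.mpr ⟨b - a, by ring⟩)
  by_cases hodd : ∃ z ∈ L.lattice, ∃ m n : ℤ, z.re = m * (α / 2) ∧ z.im = n * (β / 2) ∧ Odd m ∧ Odd n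
  · obtain ⟨w, hw, m, n, hwm, hwn, ⟨p, rfl⟩, ⟨q, rfl⟩⟩ := hodd
    -- (α + iβ)/2 is in L
    have hhalf : ((α / 2 : ℝ) : ℂ) + ((β / 2 : ℝ) : ℂ) * I ∈ L.lattice := by
      have h1 : (p : ℂ) * α ∈ L.lattice := by
        have := L.lattice.smul_mem p hαmem
        simpa using this
      have h3 : (q : ℂ) * (β * I) ∈ L.lattice := by
        have := L.lattice.smul_mem q hβmem
        simpa using this
      have h4 : w - (p : ℂ) * α - (q : ℂ) * (β * I) =
          ((α / 2 : ℝ) : ℂ) + ((β / 2 : ℝ) : ℂ) * I := by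
        apply Complex.ext
        · simp [hwm]; ring
        · simp [hwn]; ring
      rw [← h4]
      exact L.lattice.sub_mem (L.lattice.sub_mem hw h1) h3
    refine ⟨α / 2, β / 2, by positivity, by positivity, fun z => ⟨fun hz => ?_, ?_⟩⟩
    · obtain ⟨m, n, hm, hn, hmn⟩ := hcoord z hz
      refine ⟨m, n, hmn, ?_⟩
      apply Complex.ext
      · simp [hm]
      · simp [hn]
    · rintro ⟨a, b, hab, rfl⟩
      obtain ⟨c, hc⟩ := hab.dvd
      have hb : b = a + 2 * c := by linarith
      have h1 : (a : ℂ) * (((α / 2 : ℝ) : ℂ) + ((β / 2 : ℝ) : ℂ) * I) ∈ L.lattice := by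
        have := L.lattice.smul_mem a hhalf
        rwa [zsmul_eq_mul] at this
      have h3 : (c : ℂ) * (β * I) ∈ L.lattice := by
        have := L.lattice.smul_mem c hβmem
        simpa using this
      have h4 : (a : ℂ) * ((α / 2 : ℝ) : ℂ) + (b : ℂ) * ((β / 2 : ℝ) : ℂ) * I =
          (a : ℂ) * (((α / 2 : ℝ) : ℂ) + ((β / 2 : ℝ) : ℂ) * I) + (c : ℂ) * (β * I) := by
        rw [hb]; push_cast; ring
      rw [h4]
      exact L.lattice.add_mem h1 h3
  · exfalso
    refine rect_false L hconj h2 h3 α β hα hαmem hβmem fun x hx => ?_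
    obtain ⟨m, n, hm, hn, hmn⟩ := hcoord _ hx
    have hn1 : n = 1 := by
      have : (1 : ℝ) * (β / 2) = n * (β / 2) := by
        rw [← hn]; simp
      have := mul_right_cancel₀ (by positivity : β / 2 ≠ 0) this
      exact_mod_cast this.symm
    apply hodd
    refine ⟨_, hx, m, n, hm, hn, ?_, by rw [hn1]; exact odd_one⟩
    rw [hn1] at hmn
    exact Int.odd_iff.mpr hmn

end MP9c45e8
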