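import Pool.Agent.MP_9c45e8_nt.C1

/-!
Module C, part 2: behaviour at `i∞` and the identity `w² = (t+1)(t+8)(t²+5t+8)`.
-/

open Complex Filter
open UpperHalfPlane hiding I
open scoped MatrixGroups Real ModularForm Topology

noncomputable section

namespace MP9c45e8

/-- `f = g + O(q³)` -/
def O3 (f g : ℂ → ℂ) : Prop :=
  ∃ r : ℂ → ℂ, ContinuousAt r 0 ∧ ∀ᶠ q in 𝓝 (0 : ℂ), f q = g q + q ^ 3 * r q

theorem O3.add {f g f' g' : ℂ → ℂ} (h : O3 f g) (h' : O3 f' g') :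
    O3 (fun q ↦ f q + f' q) (fun q ↦ g q + g' q) := by
  obtain ⟨r, hr, h⟩ := h
  obtain ⟨r', hr', h'⟩ := h'
  refine ⟨fun q ↦ r q + r' q, hr.add hr', ?_⟩
  filter_upwards [h, h'] with q e e'
  rw [e, e']; ring

theorem O3.sub {f g f' g' : ℂ → ℂ} (h : O3 f g) (h' : O3 f' g') :
    O3 (fun q ↦ f q - f' q) (fun q ↦ g q - g' q) := by
  obtain ⟨r, hr, h⟩ := h
  obtain ⟨r', hr', h'⟩ := h'
  refine ⟨fun q ↦ r q - r' q, hr.sub hr', ?_⟩
  filter_upwards [h, h'] with q e e'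
  rw [e, e']; ring

theorem O3.mul {f g f' g' : ℂ → ℂ} (h : O3 f g) (h' : O3 f' g') (hg : ContinuousAt g 0)
    (hg' : ContinuousAt g' 0) :
    O3 (fun q ↦ f q * f' q) (fun q ↦ g q * g' q) := by
  obtain ⟨r, hr, h⟩ := h
  obtain ⟨r', hr', h'⟩ := h'
  refine ⟨fun q ↦ r q * g' q + g q * r' q + q ^ 3 * (r q * r' q), ?_, ?_⟩
  · exact ((hr.mul hg').add (hg.mul hr')).add ((by fun_prop : ContinuousAt (fun q : ℂ ↦ q ^ 3) 0).mul
      (hr.mul hr'))
  · filter_upwards [h, h'] with q e e'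
    rw [e, e']; ring

theorem O3.rfl' {f : ℂ → ℂ} : O3 f f := ⟨fun _ ↦ 0, continuousAt_const, by simp⟩

theorem O3.trans {f g k : ℂ → ℂ} (h : O3 f g) (h' : O3 g k) : O3 f k := by
  obtain ⟨r, hr, h⟩ := h
  obtain ⟨r', hr', h'⟩ := h'
  refine ⟨fun q ↦ r q + r' q, hr.add hr', ?_⟩
  filter_upwards [h, h'] with q e e'
  rw [e, e']; ring

theorem O3.of_eq {f g m : ℂ → ℂ} (hm : ContinuousAt m 0) (h : ∀ q, f q = g q + q ^ 3 * m q) :
    O3 f g := ⟨m, hm, Eventually.of_forall h⟩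

theorem tau_O3 : O3 tau (fun q ↦ 1 - 3 * q + 3 * q ^ 2) := by
  obtain ⟨r, hr, h⟩ := tau_expansion
  exact ⟨r, hr.continuousAt, h⟩

theorem phi_O3 : O3 phi (fun q ↦ 1 - q - 2 * q ^ 2) := by
  obtain ⟨r, hr, h⟩ := phi_expansion
  exact ⟨r, hr.continuousAt, h⟩

/-- `qτ' - τ` -/
def aa (q : ℂ) : ℂ := q * deriv tau q - tau q

theorem aa_O3 : O3 aa (fun q ↦ -1 + 3 * q ^ 2) := by
  obtain ⟨r, hr, h⟩ := tau_expansion
  refine ⟨fun q ↦ 2 * r q + q * deriv r q, ?_, ?_⟩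
  · exact (hr.continuousAt.const_mul 2 |>.add (continuousAt_id.mul hr.deriv.continuousAt))
  · have h2 := h.eventually_nhds
    filter_upwards [h2, hr.eventually_analyticAt] with q e hrq
    have hd : deriv tau q = deriv (fun q ↦ 1 - 3 * q + 3 * q ^ 2 + q ^ 3 * r q) q := by
      exact Filter.EventuallyEq.deriv_eq e
    have hd2 : HasDerivAt (fun q ↦ 1 - 3 * q + 3 * q ^ 2 + q ^ 3 * r q)
        (0 - 3 * 1 + 3 * (2 * q) + (3 * q ^ 2 * r q + q ^ 3 * deriv r q)) q := by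
      have h1 := (hasDerivAt_const q (1 : ℂ)).sub ((hasDerivAt_id q).const_mul (3 : ℂ))
      have h2 := (hasDerivAt_pow 2 q).const_mul (3 : ℂ)
      have h3 := (hasDerivAt_pow 3 q).mul hrq.differentiableAt.hasDerivAt
      have h4 := (h1.add h2).add h3
      refine h4.congr_deriv ?_
      simp
    rw [aa, hd, hd2.deriv, e.self_of_nhds]
    ring

/-- numerator -/
def M2 (q : ℂ) : ℂ := aa q * aa q - (phi q * phi q) *
  ((tau q * tau q + 8 * q ^ 2 + 5 * q * tau q) * (tau q * tau q + 8 * q ^ 2 + 9 * q * tau q))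

theorem M2_O3 : O3 M2 (fun _ ↦ 0) := by
  have ha := aa_O3
  have ht := tau_O3
  have hp := phi_O3
  have h1 := ha.mul ha (by fun_prop) (by fun_prop)
  have h2 := hp.mul hp (by fun_prop) (by fun_prop)
  have h3 := ht.mul ht (by fun_prop) (by fun_prop)
  have h5 : O3 (fun q ↦ 5 * q * tau q) (fun q ↦ 5 * q * (1 - 3 * q + 3 * q ^ 2)) :=
    O3.mul (f := fun q ↦ 5 * q) O3.rfl' ht (by fun_prop) (by fun_prop)
  have h9 : O3 (fun q ↦ 9 * q * tau q) (fun q ↦ 9 * q * (1 - 3 * q + 3 * q ^ 2)) :=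
    O3.mul (f := fun q ↦ 9 * q) O3.rfl' ht (by fun_prop) (by fun_prop)
  have h8 : O3 (fun q : ℂ ↦ 8 * q ^ 2) (fun q ↦ 8 * q ^ 2) := O3.rfl'
  have h6 := (h3.add h8).add h5
  have h7 := (h3.add h8).add h9
  have h10 := h6.mul h7 (by fun_prop) (by fun_prop)
  have h11 := h2.mul h10 (by fun_prop) (by fun_prop)
  have h12 := h1.sub h11
  refine O3.trans h12 ?_
  refine O3.of_eq (m := fun q ↦ -30 + 100 * q - 76 * q ^ 2 - 41 * q ^ 3 + 262 * q ^ 4
    - 226 * q ^ 5 - 120 * q ^ 6 - 9 * q ^ 7 - 540 * q ^ 8 - 324 * q ^ 9) (by fun_prop) ?_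
  intro q
  ring

theorem qq_small (δ : ℝ) (hδ : 0 < δ) : ∃ A : ℝ, ∀ z : ℂ, A ≤ z.im → ‖qq z‖ < δ := by
  have h : Tendsto (fun y : ℝ ↦ Real.exp (-2 * π * y)) atTop (𝓝 0) := by
    apply Real.tendsto_exp_atBot.comp
    exact tendsto_id.const_mul_atTop_of_neg (by linarith [Real.pi_pos])
  obtain ⟨A, hA⟩ := (eventually_atTop).mp (h.eventually (gt_mem_nhds hδ))
  exact ⟨A, fun z hz ↦ by rw [norm_qq]; exact hA _ hz⟩

/-- A property holding near `q = 0`, `q ≠ 0`, holds for large imaginary part. -/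
theorem eventually_qq {p : ℂ → Prop} (h : ∀ᶠ q in 𝓝[≠] (0 : ℂ), p q) :
    ∃ A : ℝ, ∀ z : ℂ, A ≤ z.im → p (qq z) := by
  rw [eventually_nhdsWithin_iff, Metric.eventually_nhds_iff] at h
  obtain ⟨δ, hδ, h⟩ := h
  obtain ⟨A, hA⟩ := qq_small δ hδ
  exact ⟨A, fun z hz ↦ h (by simpa using hA z hz) (qq_ne_zero z)⟩

theorem differentiableAt_tau {q : ℂ} (hq : ‖q‖ < 1) : DifferentiableAt ℂ tau q :=
  differentiableOn_tau.differentiableAt (Metric.isOpen_ball.mem_nhds (by simpa using hq))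

theorem differentiableAt_phi {q : ℂ} (hq : ‖q‖ < 1) : DifferentiableAt ℂ phi q :=
  differentiableOn_phi.differentiableAt (Metric.isOpen_ball.mem_nhds (by simpa using hq))

theorem wW_eq {z : ℂ} (hz : 0 < z.im) : wW z = aa (qq z) / (qq z ^ 2 * phi (qq z)) := by
  have hq := qq_norm_lt hz
  have hq0 := qq_ne_zero z
  have hp := phi_ne_zero hq
  have h1 : HasDerivAt (fun z ↦ tau (qq z) / qq z)
      ((deriv tau (qq z) * (2 * π * I * qq z) * qq z - tau (qq z) * (2 * π * I * qq z)) /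
        qq z ^ 2) z :=
    HasDerivAt.div (HasDerivAt.comp z (differentiableAt_tau hq).hasDerivAt (hasDerivAt_qq z))
      (hasDerivAt_qq z) hq0
  have h2 : etaT =ᶠ[𝓝 z] fun z ↦ tau (qq z) / qq z := by
    filter_upwards [isOpen_H.mem_nhds hz] with u hu using etaT_eq hu
  rw [wW, h2.deriv_eq, h1.deriv, etaF_eq hz, aa]
  have hpi := two_pi_I_ne
  generalize (2 * π * I : ℂ) = c at *
  field_simp

theorem PP_eq {z : ℂ} (hz : 0 < z.im) :
    PP z = M2 (qq z) / (qq z ^ 2 * phi (qq z) ^ 2 * tau (qq z) ^ 2) := by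
  have hq := qq_norm_lt hz
  have hq0 := qq_ne_zero z
  have hp := phi_ne_zero hq
  have ht := tau_ne_zero hq
  rw [PP, wW_eq hz, etaT_eq hz, M2]
  field_simp

theorem PP_small (ε : ℝ) (hε : 0 < ε) : ∃ A : ℝ, ∀ z : ℂ, 0 < z.im → A ≤ z.im → ‖PP z‖ ≤ ε := by
  obtain ⟨m, hm, h⟩ := M2_O3
  have c1 : ContinuousAt phi 0 := (differentiableAt_phi (by simp)).continuousAt
  have c2 : ContinuousAt tau 0 := (differentiableAt_tau (by simp)).continuousAt
  have n1 : phi 0 ≠ 0 := phi_ne_zero (by simp)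
  have n2 : tau 0 ≠ 0 := tau_ne_zero (by simp)
  have hg : ContinuousAt (fun q ↦ q * m q / (phi q ^ 2 * tau q ^ 2)) 0 :=
    (continuousAt_id.mul hm).div ((c1.pow 2).mul (c2.pow 2))
      (mul_ne_zero (pow_ne_zero 2 n1) (pow_ne_zero 2 n2))
  have hg0 : Tendsto (fun q ↦ q * m q / (phi q ^ 2 * tau q ^ 2)) (𝓝 0) (𝓝 0) := by
    have := hg.tendsto
    simpa using this
  have h3 : ∀ᶠ q in 𝓝 (0 : ℂ), ‖q * m q / (phi q ^ 2 * tau q ^ 2)‖ < ε :=
    hg0.norm.eventually (by simpa using gt_mem_nhds hε)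
  have h4 : ∀ᶠ q in 𝓝[≠] (0 : ℂ), ‖M2 q / (q ^ 2 * phi q ^ 2 * tau q ^ 2)‖ < ε := by
    filter_upwards [h.filter_mono nhdsWithin_le_nhds, h3.filter_mono nhdsWithin_le_nhds,
      self_mem_nhdsWithin] with q e1 e2 hq
    have hq : q ≠ 0 := hq
    have : M2 q / (q ^ 2 * phi q ^ 2 * tau q ^ 2) = q * m q / (phi q ^ 2 * tau q ^ 2) := by
      rw [e1, zero_add]
      rw [show q ^ 3 * m q = q ^ 2 * (q * m q) by ring,
        show q ^ 2 * phi q ^ 2 * tau q ^ 2 = q ^ 2 * (phi q ^ 2 * tau q ^ 2) by ring,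
        mul_div_mul_left _ _ (pow_ne_zero 2 hq)]
    rwa [this]
  obtain ⟨A, hA⟩ := eventually_qq h4
  refine ⟨A, fun z hz hAz ↦ ?_⟩
  rw [PP_eq hz]
  exact (hA z hAz).le

theorem PP_zero {z : ℂ} (hz : 0 < z.im) : PP z = 0 := by
  obtain ⟨c, hc⟩ := const_of_AL PP differentiableOn_PP
    (fun M hM h14 z hz ↦ PP_AL (Q := 1) (Or.inl rfl) ⟨hM, one_dvd _, one_dvd _, h14⟩ hz)
    (fun Q M hQ hM ↦ by
      obtain ⟨A, hA⟩ := PP_small 1 one_pos
      exact ⟨A, 1, fun z hz hAz ↦ by rw [PP_AL hQ hM hz]; exact hA z hz hAz⟩)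
  have hc0 : c = 0 := by
    by_contra hne
    have hpos : 0 < ‖c‖ / 2 := by positivity
    obtain ⟨A, hA⟩ := PP_small _ hpos
    have h1 : 0 < ((max A 1 : ℝ) * I : ℂ).im := by
      simp
    have h2 := hA _ h1 (by simp)
    rw [hc _ h1] at h2
    have : 0 < ‖c‖ := norm_pos_iff.mpr hne
    linarith
  rw [hc z hz, hc0]

/-- The equation of `X₀(14)`. -/
theorem wW_sq {z : ℂ} (hz : 0 < z.im) :
    wW z ^ 2 = (etaT z + 1) * (etaT z + 8) * (etaT z ^ 2 + 5 * etaT z + 8) := by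
  have h := PP_zero hz
  have ht := etaT_ne_zero hz
  unfold PP at h
  have h2 : (wW z / etaT z) ^ 2 * etaT z ^ 2 =
      ((etaT z + 8 / etaT z + 5) * (etaT z + 8 / etaT z + 9)) * etaT z ^ 2 := by
    rw [sub_eq_zero.mp h]
  rw [div_pow, div_mul_cancel₀ _ (pow_ne_zero 2 ht)] at h2
  rw [h2]
  field_simp
  ring

end MP9c45e8
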