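import Pool.Agent.MP_9c45e8_nt.Q

/-!
Module E: the primitive `FF` of `2πi F(z) dz`, its behaviour under Atkin-Lehner matrices, its limits
at rational cusps, and the integrals of the statement.
-/

open Complex Filter
open UpperHalfPlane hiding I
open scoped MatrixGroups Real ModularForm Topology

noncomputable section

namespace MP9c45e8

/-- `etaF` as a function on `ℍ`. -/
def etaH (τ : ℍ) : ℂ := etaF τ

theorem etaH_ofComplex {z : ℂ} (hz : 0 < z.im) : etaH (ofComplex z) = etaF z := by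
  unfold etaH
  rw [ofComplex_apply_of_im_pos hz]

/-- the derivative of a Moebius transformation -/
theorem hasDerivAt_mob {M : Matrix (Fin 2) (Fin 2) ℤ} (hM : 0 < M.det) {z : ℂ} (hz : 0 < z.im) :
    HasDerivAt (mob M) (M.det / jj M z ^ 2) z := by
  have hj := jj_ne_zero hM hz
  have h1 : HasDerivAt (fun z : ℂ ↦ (M 0 0 : ℂ) * z + M 0 1) (M 0 0 : ℂ) z := by
    simpa using ((hasDerivAt_id z).const_mul (M 0 0 : ℂ)).add_const (M 0 1 : ℂ)
  have h2 : HasDerivAt (fun z : ℂ ↦ (M 1 0 : ℂ) * z + M 1 1) (M 1 0 : ℂ) z := by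
    simpa using ((hasDerivAt_id z).const_mul (M 1 0 : ℂ)).add_const (M 1 1 : ℂ)
  have h3 := h1.div h2 hj
  have e : ((M 0 0 : ℂ) * ((M 1 0 : ℂ) * z + M 1 1) - ((M 0 0 : ℂ) * z + M 0 1) * (M 1 0 : ℂ)) /
      ((M 1 0 : ℂ) * z + M 1 1) ^ 2 = M.det / jj M z ^ 2 := by
    rw [Matrix.det_fin_two]
    unfold jj
    push_cast
    congr 1
    ring
  rw [e] at h3
  exact h3

theorem FF_AL {Q : ℤ} {M : Matrix (Fin 2) (Fin 2) ℤ} (hQ : QQ Q) (hM : IsAL Q M) :
    ∃ κ : ℂ, ∀ z : ℂ, 0 < z.im → FF (mob M z) = epsQ Q * FF z + κ := by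
  have hpos := hM.pos hQ
  have htf := hM.tf hQ
  have hder : ∀ z : ℂ, 0 < z.im →
      HasDerivAt (fun z ↦ FF (mob M z) - (epsQ Q : ℂ) * FF z) 0 z := by
    intro z hz
    have hj := jj_ne_zero hpos hz
    have h1 : HasDerivAt (fun z ↦ FF (mob M z))
        (2 * π * I * etaF (mob M z) * (M.det / jj M z ^ 2)) z :=
      (hasDerivAt_FF (mob_im_pos hpos hz)).comp z (hasDerivAt_mob hpos hz)
    have h2 := (hasDerivAt_FF hz).const_mul (epsQ Q : ℂ)
    have h3 := h1.sub h2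
    have h4 := htf z hz
    have e : 2 * π * I * etaF (mob M z) * (M.det / jj M z ^ 2) -
        (epsQ Q : ℂ) * (2 * π * I * etaF z) = 0 := by
      field_simp
      linear_combination (2 * (π : ℂ) * I) * h4
    rw [e] at h3
    exact h3
  obtain ⟨κ, hκ⟩ := isOpen_H.exists_is_const_of_deriv_eq_zero isPreconnected_H
    (f := fun z ↦ FF (mob M z) - (epsQ Q : ℂ) * FF z)
    (fun z hz ↦ (hder z hz).differentiableAt.differentiableWithinAt)
    (fun z hz ↦ (hder z hz).deriv)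
  exact ⟨κ, fun z hz ↦ by linear_combination hκ z hz⟩

theorem im_add_mul_I (x t : ℝ) : ((x : ℂ) + t * I).im = t := by simp

/-- the vertical line above the cusp `M(i∞)` -/
theorem line_eq {M : Matrix (Fin 2) (Fin 2) ℤ} (hpos : 0 < M.det) (hc : M 1 0 ≠ 0) {t : ℝ}
    (ht : 0 < t) {s : ℝ} (hs : s = (M.det : ℝ) / ((M 1 0 : ℝ) ^ 2 * t)) {w : ℂ}
    (hw : w = ((-(M 1 1 : ℝ) / (M 1 0 : ℝ) : ℝ) : ℂ) + s * I) :
    0 < s ∧ 0 < w.im ∧ w.im = s ∧ jj M w = (M 1 0 : ℝ) * s * I ∧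
      (((M 0 0 : ℝ) / (M 1 0 : ℝ) : ℝ) : ℂ) + t * I = mob M w := by
  have hcR : (M 1 0 : ℝ) ≠ 0 := by exact_mod_cast hc
  have hcC : (M 1 0 : ℂ) ≠ 0 := by exact_mod_cast hc
  have htC : (t : ℂ) ≠ 0 := by exact_mod_cast ht.ne'
  have hd : (0 : ℝ) < M.det := by exact_mod_cast hpos
  have hdC : (M.det : ℂ) ≠ 0 := by exact_mod_cast hpos.ne'
  have hs0 : 0 < s := by rw [hs]; positivity
  have hsC : (s : ℂ) ≠ 0 := by exact_mod_cast hs0.ne'
  have him : w.im = s := by rw [hw, im_add_mul_I]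
  have hj : jj M w = (M 1 0 : ℝ) * s * I := by
    unfold jj
    rw [hw]
    push_cast
    field_simp
    ring
  refine ⟨hs0, by rw [him]; exact hs0, him, hj, ?_⟩
  have h1 : mob M w = (M 0 0 * w + M 0 1) / jj M w := rfl
  rw [h1, hj]
  have hne : ((M 1 0 : ℝ) : ℂ) * s * I ≠ 0 := by
    push_cast
    exact mul_ne_zero (mul_ne_zero hcC hsC) I_ne_zero
  rw [eq_div_iff hne, hw]
  have hst' : s * ((M 1 0 : ℝ) ^ 2 * t) = (M 0 0 : ℝ) * M 1 1 - (M 0 1 : ℝ) * M 1 0 := by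
    have e : (M.det : ℝ) = (M 0 0 : ℝ) * M 1 1 - (M 0 1 : ℝ) * M 1 0 := by
      rw [Matrix.det_fin_two]; push_cast; ring
    rw [hs, ← e]; field_simp
  have hst : (s : ℂ) * ((M 1 0 : ℂ) ^ 2 * t) = (M 0 0 : ℂ) * M 1 1 - (M 0 1 : ℂ) * M 1 0 := by
    exact_mod_cast congrArg (fun x : ℝ ↦ (x : ℂ)) hst'
  push_cast
  have hI := I_sq
  field_simp
  linear_combination (-1 : ℂ) * hst + (s : ℂ) * (M 1 0 : ℂ) ^ 2 * t * hI

/-- limit of the primitive at the cusp `M(i∞)` -/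
theorem tendsto_FF_AL {Q : ℤ} {M : Matrix (Fin 2) (Fin 2) ℤ} (hQ : QQ Q) (hM : IsAL Q M)
    (hc : M 1 0 ≠ 0) {κ : ℂ} (h : ∀ z : ℂ, 0 < z.im → FF (mob M z) = epsQ Q * FF z + κ) :
    Tendsto (fun t : ℝ ↦ FF ((((M 0 0 : ℝ) / (M 1 0 : ℝ) : ℝ) : ℂ) + t * I)) (𝓝[>] 0) (𝓝 κ) := by
  have hpos := hM.pos hQ
  have hcR : (M 1 0 : ℝ) ≠ 0 := by exact_mod_cast hc
  have hd : (0 : ℝ) < M.det := by exact_mod_cast hpos
  rw [Metric.tendsto_nhdsWithin_nhds]
  intro ε hε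
  obtain ⟨A, hA⟩ := FF_small ε hε
  have hA' : (0 : ℝ) < |A| + 1 := by positivity
  refine ⟨(M.det : ℝ) / ((M 1 0 : ℝ) ^ 2 * (|A| + 1)), by positivity, fun t ht hdist ↦ ?_⟩
  have ht0 : (0 : ℝ) < t := ht
  obtain ⟨hs0, hw0, hws, _, hline⟩ := line_eq hpos hc ht0 rfl rfl
  set s : ℝ := (M.det : ℝ) / ((M 1 0 : ℝ) ^ 2 * t) with hs
  rw [hline, h _ hw0, dist_eq_norm, add_sub_cancel_right, norm_mul]
  have heps : ‖(epsQ Q : ℂ)‖ = 1 := by
    unfold epsQ; split_ifs <;> simp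
  rw [heps, one_mul]
  refine hA _ ?_ hw0
  rw [hws, hs, le_div_iff₀ (by positivity)]
  rw [dist_zero_right, Real.norm_eq_abs, abs_of_pos ht0, lt_div_iff₀ (by positivity)] at hdist
  have hAle : A ≤ |A| + 1 := (le_abs_self A).trans (by linarith)
  calc A * ((M 1 0 : ℝ) ^ 2 * t) ≤ (|A| + 1) * ((M 1 0 : ℝ) ^ 2 * t) := by gcongr
    _ = t * ((M 1 0 : ℝ) ^ 2 * (|A| + 1)) := by ring
    _ ≤ M.det := hdist.le

theorem tendsto_FF_top (x : ℝ) :
    Tendsto (fun t : ℝ ↦ FF ((x : ℂ) + t * I)) atTop (𝓝 0) := by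
  rw [Metric.tendsto_atTop]
  intro ε hε
  obtain ⟨A, hA⟩ := FF_small ε hε
  refine ⟨max A 1, fun t ht ↦ ?_⟩
  rw [dist_zero_right]
  refine hA _ ?_ ?_
  · rw [im_add_mul_I]; exact (le_max_left _ _).trans ht
  · rw [im_add_mul_I]; exact lt_of_lt_of_le one_pos ((le_max_right _ _).trans ht)

theorem hasDerivAt_line (x : ℝ) {t : ℝ} (ht : 0 < t) :
    HasDerivAt (fun t : ℝ ↦ FF ((x : ℂ) + t * I)) (-(2 * π) * etaF ((x : ℂ) + t * I)) t := by
  have h1 : HasDerivAt (fun t : ℝ ↦ (x : ℂ) + t * I) I t := by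
    have := ((Complex.ofRealCLM.hasDerivAt (x := t)).mul_const I).const_add (x : ℂ)
    simpa using this
  have h2 := (hasDerivAt_FF (z := (x : ℂ) + t * I) (by rw [im_add_mul_I]; exact ht))
  have h3 := HasDerivAt.comp_of_eq (h₂ := FF) (h := fun t : ℝ ↦ (x : ℂ) + t * I) t h2 h1 rfl
  have e : 2 * (π : ℂ) * I * etaF ((x : ℂ) + t * I) * I = -(2 * π) * etaF ((x : ℂ) + t * I) := by
    linear_combination (2 * (π : ℂ) * etaF ((x : ℂ) + t * I)) * I_sq
  rw [← e]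
  exact h3

theorem continuousOn_line (x : ℝ) :
    ContinuousOn (fun t : ℝ ↦ etaF ((x : ℂ) + t * I)) (Set.Ioi 0) := by
  intro t ht
  have h1 : ContinuousAt etaF ((x : ℂ) + t * I) :=
    (differentiableAt_etaF (by rw [im_add_mul_I]; exact ht)).continuousAt
  have h2 : ContinuousAt (fun t : ℝ ↦ (x : ℂ) + t * I) t := by fun_prop
  exact (ContinuousAt.comp (g := etaF) (f := fun t : ℝ ↦ (x : ℂ) + t * I) h1 h2).continuousWithinAt

theorem integrableOn_line_AL {Q : ℤ} {M : Matrix (Fin 2) (Fin 2) ℤ} (hQ : QQ Q) (hM : IsAL Q M)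
    (hc : M 1 0 ≠ 0) :
    MeasureTheory.IntegrableOn
      (fun t : ℝ ↦ etaF ((((M 0 0 : ℝ) / (M 1 0 : ℝ) : ℝ) : ℂ) + t * I)) (Set.Ioi 0) := by
  have hpos := hM.pos hQ
  have htf := hM.tf hQ
  have hcR : (M 1 0 : ℝ) ≠ 0 := by exact_mod_cast hc
  have hd : (0 : ℝ) < M.det := by exact_mod_cast hpos
  obtain ⟨C, hC⟩ := etaF_bound
  set x : ℝ := (M 0 0 : ℝ) / (M 1 0 : ℝ) with hx
  have hcont := continuousOn_line x
  -- the tail
  have htail : MeasureTheory.IntegrableOn (fun t : ℝ ↦ etaF ((x : ℂ) + t * I)) (Set.Ioi 1) := by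
    refine MeasureTheory.Integrable.mono' (g := fun t : ℝ ↦ C * Real.exp (-(2 * π) * t))
      ((exp_neg_integrableOn_Ioi 1 (by positivity)).const_mul C) ?_ ?_
    · exact (hcont.mono (Set.Ioi_subset_Ioi zero_le_one)).aestronglyMeasurable measurableSet_Ioi
    · rw [MeasureTheory.ae_restrict_iff' measurableSet_Ioi]
      refine Filter.Eventually.of_forall fun t ht ↦ ?_
      have := hC ((x : ℂ) + t * I) (by rw [im_add_mul_I]; exact (Set.mem_Ioi.mp ht).le)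
      rw [im_add_mul_I] at this
      have e : -2 * π * t = -(2 * π) * t := by ring
      rw [e] at this
      exact this
  -- near zero
  set t0 : ℝ := min 1 ((M.det : ℝ) / (M 1 0 : ℝ) ^ 2) with ht0
  have ht0pos : 0 < t0 := by rw [ht0]; exact lt_min one_pos (by positivity)
  have hC0 : 0 ≤ C := by
    have := hC (1 * I) (by simp)
    by_contra hcon
    push Not at hcon
    have h2 : C * Real.exp (-2 * π * ((1 : ℂ) * I).im) < 0 :=
      mul_neg_of_neg_of_pos hcon (Real.exp_pos _)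
    linarith [norm_nonneg (etaF (1 * I))]
  have hexp : ∀ s : ℝ, 0 < s → s ^ 2 * Real.exp (-2 * π * s) ≤ 1 := by
    intro s hs
    have h1 : (s : ℝ) ≤ Real.exp s := by
      have := Real.add_one_le_exp s; linarith
    have hpi : 3 < π := Real.pi_gt_three
    have h2 : Real.exp s * Real.exp s = Real.exp (2 * s) := by rw [← Real.exp_add]; ring_nf
    have h3 : s ^ 2 ≤ Real.exp (2 * s) := by
      rw [← h2, sq]
      exact mul_le_mul h1 h1 hs.le (Real.exp_pos _).le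
    calc s ^ 2 * Real.exp (-2 * π * s) ≤ Real.exp (2 * s) * Real.exp (-2 * π * s) := by gcongr
      _ = Real.exp (2 * s + -2 * π * s) := by rw [Real.exp_add]
      _ ≤ 1 := by
        rw [Real.exp_le_one_iff]
        nlinarith
  have hnear : ∀ t : ℝ, 0 < t → t ≤ t0 →
      ‖etaF ((x : ℂ) + t * I)‖ ≤ (M 1 0 : ℝ) ^ 2 / M.det * C := by
    intro t ht htt
    obtain ⟨hs0, hw0, hws, hj, hline⟩ := line_eq hpos hc ht rfl rfl
    set s : ℝ := (M.det : ℝ) / ((M 1 0 : ℝ) ^ 2 * t) with hs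
    set w : ℂ := ((-(M 1 1 : ℝ) / (M 1 0 : ℝ) : ℝ) : ℂ) + s * I with hw
    have hs1 : 1 ≤ s := by
      rw [hs, le_div_iff₀ (by positivity), one_mul]
      have h5 : t ≤ (M.det : ℝ) / (M 1 0 : ℝ) ^ 2 := htt.trans (min_le_right _ _)
      rw [le_div_iff₀ (by positivity)] at h5
      linarith
    have h1 := htf w hw0
    rw [hx, hline]
    have h2 : ‖etaF (mob M w)‖ * M.det = ((M 1 0 : ℝ) ^ 2 * s ^ 2) * ‖etaF w‖ := by
      have h6 := congrArg norm h1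
      rw [norm_mul, norm_mul, norm_mul, hj] at h6
      have heps : ‖(epsQ Q : ℂ)‖ = 1 := by
        unfold epsQ; split_ifs <;> simp
      rw [heps, one_mul, norm_pow, norm_mul, norm_mul, norm_I, mul_one, Complex.norm_real,
        Complex.norm_real] at h6
      rw [Complex.norm_intCast, abs_of_pos hd] at h6
      rw [h6, mul_pow, Real.norm_eq_abs, Real.norm_eq_abs, sq_abs, sq_abs]
    have h3 : ‖etaF w‖ ≤ C * Real.exp (-2 * π * s) := by
      have := hC w (by rw [hws]; exact hs1)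
      rwa [hws] at this
    have h4 : ‖etaF (mob M w)‖ * M.det ≤ (M 1 0 : ℝ) ^ 2 * C := by
      rw [h2]
      calc ((M 1 0 : ℝ) ^ 2 * s ^ 2) * ‖etaF w‖
          ≤ ((M 1 0 : ℝ) ^ 2 * s ^ 2) * (C * Real.exp (-2 * π * s)) := by gcongr
        _ = ((M 1 0 : ℝ) ^ 2 * C) * (s ^ 2 * Real.exp (-2 * π * s)) := by ring
        _ ≤ ((M 1 0 : ℝ) ^ 2 * C) * 1 := by
          have := hexp s hs0
          gcongr
        _ = _ := mul_one _
    rw [div_mul_eq_mul_div, le_div_iff₀ hd]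
    exact h4
  obtain ⟨K, hK⟩ : ∃ K : ℝ, ∀ t ∈ Set.Icc t0 1, ‖etaF ((x : ℂ) + t * I)‖ ≤ K :=
    isCompact_Icc.exists_bound_of_continuousOn
      (hcont.mono fun t ht ↦ lt_of_lt_of_le ht0pos ht.1)
  have hhead : MeasureTheory.IntegrableOn (fun t : ℝ ↦ etaF ((x : ℂ) + t * I)) (Set.Ioc 0 1) := by
    refine MeasureTheory.IntegrableOn.of_bound (C := max ((M 1 0 : ℝ) ^ 2 / M.det * C) K)
      (by simp) ?_ ?_
    · exact (hcont.mono Set.Ioc_subset_Ioi_self).aestronglyMeasurable measurableSet_Ioc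
    · rw [MeasureTheory.ae_restrict_iff' measurableSet_Ioc]
      refine Filter.Eventually.of_forall fun t ht ↦ ?_
      rcases le_or_gt t t0 with h | h
      · exact (hnear t ht.1 h).trans (le_max_left _ _)
      · exact (hK t ⟨h.le, ht.2⟩).trans (le_max_right _ _)
  have := hhead.union htail
  rwa [Set.Ioc_union_Ioi_eq_Ioi zero_le_one] at this

theorem cuspInt_AL {Q : ℤ} {M : Matrix (Fin 2) (Fin 2) ℤ} (hQ : QQ Q) (hM : IsAL Q M)
    (hc : M 1 0 ≠ 0) {κ : ℂ} (h : ∀ z : ℂ, 0 < z.im → FF (mob M z) = epsQ Q * FF z + κ) :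
    cuspInt etaH ((M 0 0 : ℝ) / (M 1 0 : ℝ)) = κ := by
  have hint := integrableOn_line_AL hQ hM hc
  have hlim := tendsto_FF_AL hQ hM hc h
  set x : ℝ := (M 0 0 : ℝ) / (M 1 0 : ℝ) with hx
  unfold cuspInt
  have e1 : ∫ t in Set.Ioi (0 : ℝ), etaH (ofComplex ((x : ℂ) + t * I)) =
      ∫ t in Set.Ioi (0 : ℝ), etaF ((x : ℂ) + t * I) := by
    refine MeasureTheory.setIntegral_congr_fun measurableSet_Ioi fun t ht ↦ ?_
    exact etaH_ofComplex (by rw [im_add_mul_I]; exact ht)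
  rw [e1]
  set f : ℝ → ℂ := fun t ↦ if t = 0 then κ else FF ((x : ℂ) + t * I) with hf
  have hf0 : f 0 = κ := by simp [hf]
  have hfp : ∀ t : ℝ, 0 < t → f t = FF ((x : ℂ) + t * I) := by
    intro t ht; simp [hf, ht.ne']
  have hcont : ContinuousWithinAt f (Set.Ici 0) 0 := by
    rw [← continuousWithinAt_Ioi_iff_Ici]
    unfold ContinuousWithinAt
    rw [hf0]
    refine hlim.congr' ?_
    filter_upwards [self_mem_nhdsWithin] with t ht
    exact (hfp t ht).symm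
  have hderiv : ∀ t ∈ Set.Ioi (0 : ℝ), HasDerivAt f (-(2 * π) * etaF ((x : ℂ) + t * I)) t := by
    intro t ht
    refine (hasDerivAt_line x ht).congr_of_eventuallyEq ?_
    filter_upwards [Ioi_mem_nhds ht] with u hu
    exact hfp u hu
  have htop : Tendsto f atTop (𝓝 0) := by
    refine (tendsto_FF_top x).congr' ?_
    filter_upwards [Ioi_mem_atTop (0 : ℝ)] with t ht
    exact (hfp t ht).symm
  have hI := MeasureTheory.integral_Ioi_of_hasDerivAt_of_tendsto hcont hderiv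
    (hint.const_mul _) htop
  rw [hf0, MeasureTheory.integral_const_mul] at hI
  linear_combination -hI

theorem exists_AL_rat (r : ℚ) : ∃ (Q : ℤ) (M : Matrix (Fin 2) (Fin 2) ℤ), QQ Q ∧ IsAL Q M ∧
    M 1 0 ≠ 0 ∧ ((M 0 0 : ℝ) / (M 1 0 : ℝ)) = r := by
  have hco : IsCoprime (r.num) (r.den : ℤ) := by
    rw [Int.isCoprime_iff_gcd_eq_one]
    exact r.reduced
  obtain ⟨u, v, huv⟩ := hco
  set σ : Matrix (Fin 2) (Fin 2) ℤ := !![r.num, -v; (r.den : ℤ), u] with hσ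
  have hdet : σ.det = 1 := by
    rw [hσ, Matrix.det_fin_two_of]; linarith
  obtain ⟨Q, β, hQ, hAL⟩ := exists_AL hdet
  have hQ0 : (Q : ℤ) ≠ 0 := hQ.pos.ne'
  have hQR : (Q : ℝ) ≠ 0 := by exact_mod_cast hQ0
  have hden : (r.den : ℤ) ≠ 0 := by exact_mod_cast r.den_nz
  have hdenR : (r.den : ℝ) ≠ 0 := by exact_mod_cast r.den_nz
  have e00 : (σ * !![Q, β; 0, 1]) 0 0 = r.num * Q := by
    rw [Matrix.mul_apply, Fin.sum_univ_two]; simp [hσ]
  have e10 : (σ * !![Q, β; 0, 1]) 1 0 = r.den * Q := by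
    rw [Matrix.mul_apply, Fin.sum_univ_two]; simp [hσ]
  refine ⟨Q, _, hQ, hAL, ?_, ?_⟩
  · rw [e10]; exact mul_ne_zero hden hQ0
  · rw [e00, e10]
    push_cast
    rw [mul_div_mul_right _ _ hQR]
    exact_mod_cast (Rat.num_div_den r)

theorem tendsto_FF_rat (r : ℚ) :
    Tendsto (fun t : ℝ ↦ FF ((r : ℂ) + t * I)) (𝓝[>] 0) (𝓝 (cuspInt etaH r)) := by
  obtain ⟨Q, M, hQ, hM, hc, hr⟩ := exists_AL_rat r
  obtain ⟨κ, hκ⟩ := FF_AL hQ hM
  have h1 := cuspInt_AL hQ hM hc hκ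
  have h2 := tendsto_FF_AL hQ hM hc hκ
  rw [hr] at h1 h2
  rw [h1]
  simpa using h2

theorem segInt_eq (z z' : ℍ) :
    2 * π * I * segInt etaH z z' = FF z' - FF z := by
  unfold segInt
  have him : ∀ t ∈ Set.Icc (0 : ℝ) 1, 0 < ((z : ℂ) + t * ((z' : ℂ) - z)).im := by
    intro t ht
    have e : ((z : ℂ) + t * ((z' : ℂ) - z)).im = (1 - t) * (z : ℂ).im + t * (z' : ℂ).im := by
      simp; ring
    rw [e]
    have h1 : 0 < (z : ℂ).im := z.im_pos
    have h2 : 0 < (z' : ℂ).im := z'.im_pos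
    rcases ht.1.eq_or_lt with h | h
    · rw [← h]; linarith
    · have h3 : 0 ≤ 1 - t := by linarith [ht.2]
      have h4 : 0 < t * (z' : ℂ).im := mul_pos h h2
      have h5 : 0 ≤ (1 - t) * (z : ℂ).im := mul_nonneg h3 h1.le
      linarith
  have e1 : ∫ t in (0 : ℝ)..1, etaH (ofComplex ((z : ℂ) + t * ((z' : ℂ) - z))) * ((z' : ℂ) - z) =
      ∫ t in (0 : ℝ)..1, etaF ((z : ℂ) + t * ((z' : ℂ) - z)) * ((z' : ℂ) - z) := by
    refine intervalIntegral.integral_congr fun t ht ↦ ?_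
    rw [Set.uIcc_of_le zero_le_one] at ht
    rw [etaH_ofComplex (him t ht)]
  rw [e1, ← intervalIntegral.integral_const_mul]
  have hder : ∀ t ∈ Set.uIcc (0 : ℝ) 1, HasDerivAt (fun t : ℝ ↦ FF ((z : ℂ) + t * ((z' : ℂ) - z)))
      (2 * π * I * (etaF ((z : ℂ) + t * ((z' : ℂ) - z)) * ((z' : ℂ) - z))) t := by
    intro t ht
    rw [Set.uIcc_of_le zero_le_one] at ht
    have h1 : HasDerivAt (fun t : ℝ ↦ (z : ℂ) + t * ((z' : ℂ) - z)) ((z' : ℂ) - z) t := by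
      have := ((Complex.ofRealCLM.hasDerivAt (x := t)).mul_const ((z' : ℂ) - z)).const_add (z : ℂ)
      simpa using this
    have h2 := hasDerivAt_FF (him t ht)
    have h3 := HasDerivAt.comp_of_eq (h₂ := FF) (h := fun t : ℝ ↦ (z : ℂ) + t * ((z' : ℂ) - z))
      t h2 h1 rfl
    rw [← mul_assoc]
    exact h3
  have hcont : ContinuousOn (fun t : ℝ ↦
      2 * π * I * (etaF ((z : ℂ) + t * ((z' : ℂ) - z)) * ((z' : ℂ) - z))) (Set.uIcc 0 1) := by
    intro t ht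
    rw [Set.uIcc_of_le zero_le_one] at ht
    have h1 : ContinuousAt etaF ((z : ℂ) + t * ((z' : ℂ) - z)) :=
      (differentiableAt_etaF (him t ht)).continuousAt
    have h2 : ContinuousAt (fun t : ℝ ↦ (z : ℂ) + t * ((z' : ℂ) - z)) t := by fun_prop
    have h3 := ContinuousAt.comp (g := etaF)
      (f := fun t : ℝ ↦ (z : ℂ) + t * ((z' : ℂ) - z)) h1 h2
    exact (continuousAt_const.mul (h3.mul continuousAt_const)).continuousWithinAt
  rw [intervalIntegral.integral_eq_sub_of_hasDerivAt hder hcont.intervalIntegrable]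
  simp

theorem add_div_im {ℓ : ℕ} (z : ℂ) (b : ℕ) : ((z + b) / (ℓ : ℂ)).im = z.im / ℓ := by
  have : ((ℓ : ℂ)) = ((ℓ : ℝ) : ℂ) := by push_cast; rfl
  rw [this, Complex.div_ofReal_im]
  simp

/-- Hecke relations integrate. -/
theorem FF_hecke {ℓ : ℕ} (hℓ : 0 < ℓ) (a : ℂ)
    (h : ∀ z : ℂ, 0 < z.im →
      (1 / (ℓ : ℂ)) * ∑ b ∈ Finset.range ℓ, etaF ((z + b) / ℓ) = a * etaF z) :
    ∀ z : ℂ, 0 < z.im → ∑ b ∈ Finset.range ℓ, FF ((z + b) / ℓ) = a * FF z := by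
  have hℓR : (0 : ℝ) < ℓ := by exact_mod_cast hℓ
  have him : ∀ (z : ℂ) (b : ℕ), 0 < z.im → 0 < ((z + b) / (ℓ : ℂ)).im := by
    intro z b hz
    rw [add_div_im]; positivity
  have hder : ∀ z : ℂ, 0 < z.im →
      HasDerivAt (fun z ↦ ∑ b ∈ Finset.range ℓ, FF ((z + b) / ℓ) - a * FF z) 0 z := by
    intro z hz
    have h1 : ∀ b ∈ Finset.range ℓ, HasDerivAt (fun z : ℂ ↦ FF ((z + b) / ℓ))
        (2 * π * I * etaF ((z + b) / ℓ) * (1 / (ℓ : ℂ))) z := by
      intro b _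
      have h2 : HasDerivAt (fun z : ℂ ↦ (z + b) / (ℓ : ℂ)) (1 / (ℓ : ℂ)) z := by
        exact ((hasDerivAt_id z).add_const (b : ℂ)).div_const (ℓ : ℂ)
      exact HasDerivAt.comp_of_eq (h₂ := FF) (h := fun z : ℂ ↦ (z + b) / (ℓ : ℂ)) z
        (hasDerivAt_FF (him z b hz)) h2 rfl
    have h3 := HasDerivAt.fun_sum h1
    have h4 := h3.sub ((hasDerivAt_FF hz).const_mul a)
    have e : ∑ b ∈ Finset.range ℓ, 2 * π * I * etaF ((z + b) / ℓ) * (1 / (ℓ : ℂ)) -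
        a * (2 * π * I * etaF z) = 0 := by
      rw [← Finset.sum_mul, ← Finset.mul_sum]
      linear_combination (2 * (π : ℂ) * I) * h z hz
    rw [e] at h4
    exact h4
  obtain ⟨κ, hκ⟩ := isOpen_H.exists_is_const_of_deriv_eq_zero isPreconnected_H
    (f := fun z ↦ ∑ b ∈ Finset.range ℓ, FF ((z + b) / ℓ) - a * FF z)
    (fun z hz ↦ (hder z hz).differentiableAt.differentiableWithinAt)
    (fun z hz ↦ (hder z hz).deriv)
  have hκ0 : κ = 0 := by
    by_contra hne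
    have hpos : 0 < ‖κ‖ := norm_pos_iff.mpr hne
    set ε : ℝ := ‖κ‖ / (ℓ + ‖a‖ + 1) with hε
    have hden : 0 < (ℓ : ℝ) + ‖a‖ + 1 := by positivity
    have hε0 : 0 < ε := by positivity
    obtain ⟨A, hA⟩ := FF_small ε hε0
    set T : ℝ := ℓ * (|A| + 1) with hT
    have hT0 : 0 < T := by positivity
    have hzim : (((0 : ℝ) : ℂ) + T * I).im = T := im_add_mul_I 0 T
    have h1 := hκ (((0 : ℝ) : ℂ) + T * I) (Set.mem_ofPred.mpr (by rw [hzim]; exact hT0))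
    set z : ℂ := ((0 : ℝ) : ℂ) + T * I with hz
    have hz0 : 0 < z.im := by rw [hzim]; exact hT0
    have hAle : A ≤ |A| + 1 := (le_abs_self A).trans (by linarith)
    have hb : ∀ b ∈ Finset.range ℓ, ‖FF ((z + b) / ℓ)‖ ≤ ε := by
      intro b _
      refine (hA _ ?_ (him z b hz0)).le
      rw [add_div_im, hzim, hT, mul_div_cancel_left₀ _ hℓR.ne']
      exact hAle
    have hz1 : ‖FF z‖ ≤ ε := by
      refine (hA _ ?_ hz0).le
      rw [hzim, hT]
      have h1' : (1 : ℝ) ≤ ℓ := by exact_mod_cast hℓ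
      calc A ≤ |A| + 1 := hAle
        _ = 1 * (|A| + 1) := (one_mul _).symm
        _ ≤ ℓ * (|A| + 1) := by gcongr
    have h2 : ‖κ‖ ≤ ℓ * ε + ‖a‖ * ε := by
      rw [← h1]
      refine (norm_sub_le _ _).trans (add_le_add ?_ ?_)
      · refine (norm_sum_le _ _).trans ((Finset.sum_le_sum hb).trans ?_)
        simp
      · rw [norm_mul]; gcongr
    have h3 : ε * (ℓ + ‖a‖ + 1) = ‖κ‖ := by rw [hε]; field_simp
    nlinarith
  intro z hz
  have := hκ z hz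
  simp only [hκ0] at this
  linear_combination this

theorem cuspInt_hecke {ℓ : ℕ} (hℓ : 0 < ℓ) (a : ℂ)
    (h : ∀ z : ℂ, 0 < z.im →
      (1 / (ℓ : ℂ)) * ∑ b ∈ Finset.range ℓ, etaF ((z + b) / ℓ) = a * etaF z) :
    ∑ b ∈ Finset.range ℓ, cuspInt etaH ((b : ℝ) / ℓ) = a * cuspInt etaH 0 := by
  have hℓR : (0 : ℝ) < ℓ := by exact_mod_cast hℓ
  have hℓC : (ℓ : ℂ) ≠ 0 := by exact_mod_cast hℓ.ne'
  have h0 := FF_hecke hℓ a h
  have hb : ∀ b ∈ Finset.range ℓ, Tendsto (fun t : ℝ ↦ FF (((t : ℂ) * I + b) / ℓ)) (𝓝[>] 0)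
      (𝓝 (cuspInt etaH ((b : ℝ) / ℓ))) := by
    intro b _
    have h1 := tendsto_FF_rat ((b : ℚ) / (ℓ : ℚ))
    have h2 : Tendsto (fun t : ℝ ↦ t / ℓ) (𝓝[>] 0) (𝓝[>] 0) := by
      rw [tendsto_nhdsWithin_iff]
      refine ⟨?_, ?_⟩
      · have : Tendsto (fun t : ℝ ↦ t / ℓ) (𝓝 0) (𝓝 (0 / ℓ)) := by
          exact tendsto_id.div_const _
        rw [zero_div] at this
        exact this.mono_left nhdsWithin_le_nhds
      · filter_upwards [self_mem_nhdsWithin] with t ht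
        exact div_pos ht hℓR
    have h3 := h1.comp h2
    push_cast at h3
    refine h3.congr fun t ↦ ?_
    simp only [Function.comp_apply]
    congr 1
    push_cast
    field_simp
    ring
  have hl : Tendsto (fun t : ℝ ↦ ∑ b ∈ Finset.range ℓ, FF (((t : ℂ) * I + b) / ℓ)) (𝓝[>] 0)
      (𝓝 (∑ b ∈ Finset.range ℓ, cuspInt etaH ((b : ℝ) / ℓ))) := tendsto_finsetSum _ hb
  have hr : Tendsto (fun t : ℝ ↦ a * FF ((t : ℂ) * I)) (𝓝[>] 0) (𝓝 (a * cuspInt etaH 0)) := by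
    have := tendsto_FF_rat 0
    simp only [Rat.cast_zero, zero_add] at this
    exact this.const_mul a
  refine tendsto_nhds_unique hl (hr.congr' ?_)
  filter_upwards [self_mem_nhdsWithin] with t ht
  exact (h0 _ (by simpa using ht)).symm

theorem etaF_conj {z : ℂ} (hz : 0 < z.im) :
    etaF (-(starRingEnd ℂ) z) = (starRingEnd ℂ) (etaF z) := by
  have hz' : 0 < (-(starRingEnd ℂ) z).im := by simpa using hz
  -- derivative of `w ↦ conj (FF (- conj w))`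
  have h1 : HasDerivAt (fun w : ℂ ↦ FF (-w)) (-(2 * π * I * etaF (-(starRingEnd ℂ) z)))
      ((starRingEnd ℂ) z) := by
    have h2 := HasDerivAt.comp_of_eq (h₂ := FF) (h := fun w : ℂ ↦ -w) ((starRingEnd ℂ) z)
      (hasDerivAt_FF hz') (hasDerivAt_neg ((starRingEnd ℂ) z)) rfl
    have e : 2 * π * I * etaF (-(starRingEnd ℂ) z) * (-1) =
      -(2 * π * I * etaF (-(starRingEnd ℂ) z)) := by ring
    rw [e] at h2
    exact h2
  have h3 := h1.conj_conj
  rw [Complex.conj_conj] at h3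
  have h4 : HasDerivAt FF ((starRingEnd ℂ) (-(2 * π * I * etaF (-(starRingEnd ℂ) z)))) z := by
    refine h3.congr_of_eventuallyEq ?_
    filter_upwards [isOpen_H.mem_nhds (show z ∈ {z : ℂ | 0 < z.im} from hz)] with w hw
    simp only [Function.comp_apply]
    rw [FF_conj hw, Complex.conj_conj]
  have h5 := h4.unique (hasDerivAt_FF hz)
  have h6 := congrArg (starRingEnd ℂ) h5
  rw [Complex.conj_conj, map_mul, map_mul, map_mul, Complex.conj_I, Complex.conj_ofReal] at h6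
  have h2 : (starRingEnd ℂ) (2 : ℂ) = 2 := Complex.conj_ofNat 2
  rw [h2] at h6
  have hpi : (2 * (π : ℂ) * I) ≠ 0 := by
    simp [Real.pi_ne_zero, I_ne_zero]
  have h7 : (2 * (π : ℂ) * I) * etaF (-(starRingEnd ℂ) z) =
      (2 * (π : ℂ) * I) * (starRingEnd ℂ) (etaF z) := by linear_combination -h6
  exact mul_left_cancel₀ hpi h7

theorem cuspInt_neg (r : ℝ) : cuspInt etaH (-r) = (starRingEnd ℂ) (cuspInt etaH r) := by
  unfold cuspInt
  rw [map_mul, map_mul, Complex.conj_ofReal, ← integral_conj]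
  have h2 : (starRingEnd ℂ) (2 : ℂ) = 2 := Complex.conj_ofNat 2
  rw [h2]
  congr 1
  refine MeasureTheory.setIntegral_congr_fun measurableSet_Ioi fun t ht ↦ ?_
  have ht' : (0 : ℝ) < t := ht
  rw [etaH_ofComplex (by simpa using ht'), etaH_ofComplex (by simpa using ht'),
    ← etaF_conj (by simpa using ht')]
  congr 1
  simp
  ring

end MP9c45e8
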