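import Pool.Agent.MP_9c45e8_nt.B

/-!
Module Q: `q`-expansions of the two eta quotients, and the primitive `GG`.
-/

open Complex Filter
open UpperHalfPlane hiding I
open scoped MatrixGroups Real ModularForm Topology

noncomputable section

namespace MP9c45e8

/-- `q = exp(2πiz)` -/
def qq (z : ℂ) : ℂ := cexp (2 * π * I * z)

/-- `∏ (1 - qⁿ)` -/
def AA (q : ℂ) : ℂ := ∏' n : ℕ, (1 - q ^ (n + 1))

/-- `etaF / q` as a function of `q` -/
def phi (q : ℂ) : ℂ := AA q * AA (q ^ 2) * AA (q ^ 7) * AA (q ^ 14)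

/-- `q * etaT` as a function of `q` -/
def tau (q : ℂ) : ℂ := (AA q * AA (q ^ 7) / (AA (q ^ 2) * AA (q ^ 14))) ^ 3

theorem norm_qq (z : ℂ) : ‖qq z‖ = Real.exp (-2 * π * z.im) := by
  rw [qq, Complex.norm_exp]
  congr 1
  simp

theorem qq_norm_lt {z : ℂ} (hz : 0 < z.im) : ‖qq z‖ < 1 := by
  rw [norm_qq, Real.exp_lt_one_iff]
  have := Real.pi_pos
  nlinarith

theorem qq_ne_zero (z : ℂ) : qq z ≠ 0 := Complex.exp_ne_zero _

theorem qq_mul (n : ℕ) (z : ℂ) : qq (n * z) = qq z ^ n := by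
  rw [qq, qq, ← Complex.exp_nat_mul]
  congr 1
  ring

theorem exists_qq {q : ℂ} (h0 : q ≠ 0) (h1 : ‖q‖ < 1) : ∃ z : ℂ, 0 < z.im ∧ qq z = q := by
  have hpi : (π : ℂ) ≠ 0 := by exact_mod_cast Real.pi_ne_zero
  refine ⟨Complex.log q / (2 * π * I), ?_, ?_⟩
  · have e : Complex.log q / (2 * π * I) = (-(Complex.log q * I)) / ((2 * π : ℝ) : ℂ) := by
      push_cast
      field_simp
      rw [Complex.I_sq]
      ring
    rw [e, Complex.div_ofReal_im]
    have h2 : (-(Complex.log q * I)).im = -Real.log ‖q‖ := by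
      simp [Complex.mul_im, Complex.log_re]
    rw [h2]
    have h3 : Real.log ‖q‖ < 0 := Real.log_neg (norm_pos_iff.2 h0) h1
    have := Real.pi_pos
    exact div_pos (by linarith) (by positivity)
  · rw [qq]
    have : 2 * (π : ℂ) * I * (Complex.log q / (2 * π * I)) = Complex.log q := by
      field_simp
    rw [this, Complex.exp_log h0]

theorem eta_eq (z : ℂ) : η z = cexp (2 * π * I * z / 24) * AA (qq z) := by
  unfold ModularForm.eta AA
  congr 1
  refine tprod_congr fun n => ?_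
  rw [ModularForm.eta_q_eq_pow]
  rfl

theorem etaF_eq {z : ℂ} (hz : 0 < z.im) : etaF z = qq z * phi (qq z) := by
  have _ := hz
  have h2 := qq_mul 2 z
  have h7 := qq_mul 7 z
  have h14 := qq_mul 14 z
  push_cast at h2 h7 h14
  have e : cexp (2 * π * I * z / 24) * cexp (2 * π * I * (2 * z) / 24) *
      cexp (2 * π * I * (7 * z) / 24) * cexp (2 * π * I * (14 * z) / 24) = qq z := by
    rw [← Complex.exp_add, ← Complex.exp_add, ← Complex.exp_add, qq]
    congr 1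
    ring
  unfold etaF phi
  rw [eta_eq, eta_eq, eta_eq, eta_eq, h2, h7, h14]
  rw [← e]
  ring

theorem etaT_eq {z : ℂ} (hz : 0 < z.im) : etaT z = tau (qq z) / qq z := by
  have _ := hz
  have h2 := qq_mul 2 z
  have h7 := qq_mul 7 z
  have h14 := qq_mul 14 z
  push_cast at h2 h7 h14
  have e : (cexp (2 * π * I * z / 24) * cexp (2 * π * I * (7 * z) / 24)) ^ 3 =
      (cexp (2 * π * I * (2 * z) / 24) * cexp (2 * π * I * (14 * z) / 24)) ^ 3 * (qq z)⁻¹ := by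
    rw [← Complex.exp_add, ← Complex.exp_add, ← Complex.exp_nat_mul, ← Complex.exp_nat_mul, qq,
      ← Complex.exp_neg, ← Complex.exp_add]
    congr 1
    push_cast
    ring
  have hne : (cexp (2 * π * I * (2 * z) / 24) * cexp (2 * π * I * (14 * z) / 24)) ^ 3 ≠ 0 :=
    pow_ne_zero _ (mul_ne_zero (Complex.exp_ne_zero _) (Complex.exp_ne_zero _))
  unfold etaT tau
  rw [eta_eq, eta_eq, eta_eq, eta_eq, h2, h7, h14]
  calc _ = ((cexp (2 * π * I * z / 24) * cexp (2 * π * I * (7 * z) / 24)) ^ 3 /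
      (cexp (2 * π * I * (2 * z) / 24) * cexp (2 * π * I * (14 * z) / 24)) ^ 3) *
        (AA (qq z) * AA (qq z ^ 7) / (AA (qq z ^ 2) * AA (qq z ^ 14))) ^ 3 := by
        rw [← div_pow, ← mul_pow]
        congr 1
        rw [div_mul_div_comm]
        congr 1 <;> ring
    _ = _ := by
      rw [e]
      field_simp

/-! ### Basic properties of `AA` -/

theorem AA_ne_zero {q : ℂ} (hq : ‖q‖ < 1) : AA q ≠ 0 := by
  unfold AA
  simp_rw [sub_eq_add_neg]
  refine tprod_one_add_ne_zero_of_summable (f := fun n : ℕ ↦ -q ^ (n + 1)) ?_ ?_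
  · intro n h
    have h1 : q ^ (n + 1) = 1 := by linear_combination -h
    have h2 : ‖q‖ ^ (n + 1) = 1 := by rw [← norm_pow, h1, norm_one]
    have h3 : ‖q‖ ^ (n + 1) < 1 := pow_lt_one₀ (norm_nonneg _) hq (Nat.succ_ne_zero n)
    linarith
  · simpa using (summable_nat_add_iff 1).mpr (summable_geometric_of_lt_one (norm_nonneg _) hq)

theorem norm_pow_lt {q : ℂ} (hq : ‖q‖ < 1) {k : ℕ} (hk : k ≠ 0) : ‖q ^ k‖ < 1 := by
  rw [norm_pow]
  exact pow_lt_one₀ (norm_nonneg _) hq hk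

theorem phi_ne_zero {q : ℂ} (hq : ‖q‖ < 1) : phi q ≠ 0 := by
  unfold phi
  exact mul_ne_zero (mul_ne_zero (mul_ne_zero (AA_ne_zero hq)
    (AA_ne_zero (norm_pow_lt hq (by norm_num)))) (AA_ne_zero (norm_pow_lt hq (by norm_num))))
    (AA_ne_zero (norm_pow_lt hq (by norm_num)))

theorem tau_ne_zero {q : ℂ} (hq : ‖q‖ < 1) : tau q ≠ 0 := by
  unfold tau
  exact pow_ne_zero _ (div_ne_zero (mul_ne_zero (AA_ne_zero hq)
    (AA_ne_zero (norm_pow_lt hq (by norm_num))))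
    (mul_ne_zero (AA_ne_zero (norm_pow_lt hq (by norm_num)))
    (AA_ne_zero (norm_pow_lt hq (by norm_num)))))

theorem differentiableOn_AA : DifferentiableOn ℂ AA (Metric.ball 0 1) :=
  ModularForm.differentiableOn_tprod_one_sub_pow

theorem differentiableOn_AA_pow {k : ℕ} (hk : k ≠ 0) :
    DifferentiableOn ℂ (fun q => AA (q ^ k)) (Metric.ball 0 1) := by
  refine differentiableOn_AA.comp (by fun_prop) ?_
  intro q hq
  rw [mem_ball_zero_iff] at hq ⊢
  exact norm_pow_lt hq hk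

theorem differentiableOn_phi : DifferentiableOn ℂ phi (Metric.ball 0 1) := by
  unfold phi
  exact ((differentiableOn_AA.mul (differentiableOn_AA_pow (by norm_num))).mul
    (differentiableOn_AA_pow (by norm_num))).mul (differentiableOn_AA_pow (by norm_num))

theorem differentiableOn_tau : DifferentiableOn ℂ tau (Metric.ball 0 1) := by
  unfold tau
  refine ((differentiableOn_AA.mul (differentiableOn_AA_pow (by norm_num))).div
    ((differentiableOn_AA_pow (by norm_num)).mul (differentiableOn_AA_pow (by norm_num))) ?_).pow 3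
  intro q hq
  rw [mem_ball_zero_iff] at hq
  exact mul_ne_zero (AA_ne_zero (norm_pow_lt hq (by norm_num)))
    (AA_ne_zero (norm_pow_lt hq (by norm_num)))

theorem AA_conj {q : ℂ} (hq : ‖q‖ < 1) : AA ((starRingEnd ℂ) q) = (starRingEnd ℂ) (AA q) := by
  unfold AA
  rw [(ModularForm.multipliable_one_sub_pow hq).map_tprod (starRingEnd ℂ) Complex.continuous_conj]
  refine tprod_congr fun n => ?_
  simp

theorem phi_conj {q : ℂ} (hq : ‖q‖ < 1) : phi ((starRingEnd ℂ) q) = (starRingEnd ℂ) (phi q) := by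
  unfold phi
  rw [← map_pow, ← map_pow, ← map_pow, AA_conj hq, AA_conj (norm_pow_lt hq (by norm_num)),
    AA_conj (norm_pow_lt hq (by norm_num)), AA_conj (norm_pow_lt hq (by norm_num)), map_mul,
    map_mul, map_mul]

/-! ### Expansions -/

theorem analyticAt_AA : AnalyticAt ℂ AA 0 :=
  differentiableOn_AA.analyticAt (Metric.ball_mem_nhds 0 one_pos)

theorem analyticAt_AA_pow {k : ℕ} (hk : k ≠ 0) : AnalyticAt ℂ (fun q => AA (q ^ k)) 0 :=
  (differentiableOn_AA_pow hk).analyticAt (Metric.ball_mem_nhds 0 one_pos)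

/-- an analytic function which is `O(q ^ n)` is `q ^ n` times an analytic function -/
theorem exists_of_bound {f : ℂ → ℂ} (hf : AnalyticAt ℂ f 0) (n : ℕ) (C : ℝ)
    (hb : ∀ᶠ q in 𝓝 (0 : ℂ), ‖f q‖ ≤ C * ‖q‖ ^ n) :
    ∃ r : ℂ → ℂ, AnalyticAt ℂ r 0 ∧ ∀ᶠ q in 𝓝 (0 : ℂ), f q = q ^ n * r q := by
  have key : (n : ℕ∞) ≤ analyticOrderAt f 0 := by
    by_contra hlt
    push Not at hlt
    obtain ⟨m, hm⟩ := ENat.ne_top_iff_exists.1 hlt.ne_top
    rw [← hm, ENat.natCast_lt_natCast] at hlt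
    obtain ⟨g, hg, hg0, hfg⟩ := (hf.analyticOrderAt_eq_natCast).1 hm.symm
    apply hg0
    have h1 : ∀ᶠ q in 𝓝[≠] (0 : ℂ), ‖g q‖ ≤ C * ‖q‖ ^ (n - m) := by
      have h2 := (hb.and hfg).filter_mono (nhdsWithin_le_nhds (s := {0}ᶜ))
      filter_upwards [h2, self_mem_nhdsWithin] with q hq hq0
      have hq0' : 0 < ‖q‖ := norm_pos_iff.2 hq0
      obtain ⟨ha, hb'⟩ := hq
      rw [hb', sub_zero, norm_smul, norm_pow] at ha
      have h3 : ‖q‖ ^ n = ‖q‖ ^ m * ‖q‖ ^ (n - m) := by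
        rw [← pow_add]
        congr 1
        omega
      rw [h3] at ha
      have h4 : 0 < ‖q‖ ^ m := pow_pos hq0' m
      have h5 : ‖q‖ ^ m * ‖g q‖ ≤ ‖q‖ ^ m * (C * ‖q‖ ^ (n - m)) := by
        calc _ ≤ _ := ha
          _ = _ := by ring
      exact le_of_mul_le_mul_left h5 h4
    have h2 : Tendsto (fun q : ℂ => ‖g q‖) (𝓝[≠] 0) (𝓝 ‖g 0‖) :=
      (hg.continuousAt.norm.tendsto).mono_left nhdsWithin_le_nhds
    have h3 : Tendsto (fun q : ℂ => C * ‖q‖ ^ (n - m)) (𝓝[≠] 0) (𝓝 0) := by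
      have h4 : Tendsto (fun q : ℂ => C * ‖q‖ ^ (n - m)) (𝓝 0) (𝓝 (C * ‖(0 : ℂ)‖ ^ (n - m))) :=
        (by fun_prop : Continuous fun q : ℂ => C * ‖q‖ ^ (n - m)).tendsto 0
      rw [norm_zero, zero_pow (by omega), mul_zero] at h4
      exact h4.mono_left nhdsWithin_le_nhds
    have h4 := le_of_tendsto_of_tendsto h2 h3 h1
    exact norm_le_zero_iff.1 h4
  obtain ⟨r, hr, h⟩ := (natCast_le_analyticOrderAt hf).1 key
  refine ⟨r, hr, h.mono fun q hq => ?_⟩
  rw [hq, sub_zero, smul_eq_mul]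

/-- `∏_{n ≥ 3} (1 - qⁿ)` -/
def BB (q : ℂ) : ℂ := ∏' n : ℕ, (1 - q ^ (n + 2 + 1))

theorem multipliable_BB {q : ℂ} (hq : ‖q‖ < 1) : Multipliable fun n : ℕ => 1 - q ^ (n + 2 + 1) := by
  simp_rw [sub_eq_add_neg]
  apply multipliable_one_add_of_summable
  simpa using (summable_nat_add_iff 3).mpr (summable_geometric_of_lt_one (norm_nonneg _) hq)

theorem AA_eq_BB {q : ℂ} (hq : ‖q‖ < 1) : AA q = (1 - q) * (1 - q ^ 2) * BB q := by
  have h := (Multipliable.prod_mul_tprod_nat_mul' (f := fun n : ℕ => 1 - q ^ (n + 1)) (k := 2)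
    (multipliable_BB hq))
  unfold AA BB
  rw [← h, Finset.prod_range_succ, Finset.prod_range_one]
  simp

theorem BB_bound {q : ℂ} (hq : ‖q‖ ≤ 1 / 2) : ‖BB q - 1‖ ≤ 4 * ‖q‖ ^ 3 := by
  have hq1 : ‖q‖ < 1 := by linarith
  have hn := norm_nonneg q
  have h1 := (multipliable_BB hq1).hasProd.tendsto_prod_nat
  have h2 : Tendsto (fun n : ℕ => ‖∏ i ∈ Finset.range n, (1 - q ^ (i + 2 + 1)) - 1‖) atTop
      (𝓝 ‖BB q - 1‖) := (h1.sub_const 1).norm
  refine le_of_tendsto' h2 fun n => ?_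
  have h3 := Finset.norm_prod_one_add_sub_one_le (Finset.range n) (fun i => -q ^ (i + 2 + 1))
  have h4 : ∑ i ∈ Finset.range n, ‖-q ^ (i + 2 + 1)‖ ≤ 2 * ‖q‖ ^ 3 := by
    calc ∑ i ∈ Finset.range n, ‖-q ^ (i + 2 + 1)‖
        = ‖q‖ ^ 3 * ∑ i ∈ Finset.range n, ‖q‖ ^ i := by
          rw [Finset.mul_sum]
          refine Finset.sum_congr rfl fun i _ => ?_
          rw [norm_neg, norm_pow]
          ring
      _ ≤ ‖q‖ ^ 3 * 2 := by
          apply mul_le_mul_of_nonneg_left _ (by positivity)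
          calc ∑ i ∈ Finset.range n, ‖q‖ ^ i ≤ ∑' i : ℕ, ‖q‖ ^ i :=
                (summable_geometric_of_lt_one hn hq1).sum_le_tsum _ (fun i _ => by positivity)
            _ = (1 - ‖q‖)⁻¹ := tsum_geometric_of_lt_one hn hq1
            _ ≤ 2 := by
                rw [inv_le_comm₀ (by linarith) (by norm_num)]
                linarith
      _ = 2 * ‖q‖ ^ 3 := by ring
  have h5 : ‖∏ i ∈ Finset.range n, (1 - q ^ (i + 2 + 1)) - 1‖ ≤ Real.exp (2 * ‖q‖ ^ 3) - 1 := by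
    have h6 : ∏ i ∈ Finset.range n, (1 - q ^ (i + 2 + 1)) =
        ∏ i ∈ Finset.range n, (1 + -q ^ (i + 2 + 1)) :=
      Finset.prod_congr rfl fun i _ => sub_eq_add_neg _ _
    rw [h6]
    refine h3.trans ?_
    have := Real.exp_le_exp.2 h4
    linarith
  have h7 : ‖q‖ ^ 3 ≤ (1 / 2) ^ 3 := pow_le_pow_left₀ hn hq 3
  have h8 : |2 * ‖q‖ ^ 3| ≤ 1 := by
    rw [abs_of_nonneg (by positivity)]
    norm_num at h7
    linarith
  have h9 := Real.abs_exp_sub_one_le h8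
  rw [abs_of_nonneg (a := 2 * ‖q‖ ^ 3) (by positivity)] at h9
  have h10 := le_abs_self (Real.exp (2 * ‖q‖ ^ 3) - 1)
  linarith

theorem AA_expansion : ∃ r : ℂ → ℂ, AnalyticAt ℂ r 0 ∧
    ∀ᶠ q in 𝓝 (0 : ℂ), AA q = 1 - q - q ^ 2 + q ^ 3 * r q := by
  have han : AnalyticAt ℂ (fun q => AA q - (1 - q - q ^ 2)) 0 := by
    apply analyticAt_AA.sub
    fun_prop
  obtain ⟨r, hr, h⟩ := exists_of_bound han 3 17 (by
    filter_upwards [Metric.ball_mem_nhds (0 : ℂ) (by norm_num : (0 : ℝ) < 1 / 2)] with q hq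
    rw [mem_ball_zero_iff] at hq
    have hn := norm_nonneg q
    rw [AA_eq_BB (by linarith)]
    have e : (1 - q) * (1 - q ^ 2) * BB q - (1 - q - q ^ 2) =
        (1 - q) * (1 - q ^ 2) * (BB q - 1) + q ^ 3 := by ring
    rw [e]
    have h1 : ‖1 - q‖ ≤ 2 := by
      calc ‖1 - q‖ ≤ ‖(1 : ℂ)‖ + ‖q‖ := norm_sub_le _ _
        _ ≤ 2 := by rw [norm_one]; linarith
    have h2 : ‖1 - q ^ 2‖ ≤ 2 := by
      calc ‖1 - q ^ 2‖ ≤ ‖(1 : ℂ)‖ + ‖q ^ 2‖ := norm_sub_le _ _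
        _ ≤ 2 := by rw [norm_one, norm_pow]; nlinarith
    have h3 := BB_bound hq.le
    calc ‖(1 - q) * (1 - q ^ 2) * (BB q - 1) + q ^ 3‖
        ≤ ‖1 - q‖ * ‖1 - q ^ 2‖ * ‖BB q - 1‖ + ‖q‖ ^ 3 := by
          refine (norm_add_le _ _).trans ?_
          rw [norm_mul, norm_mul, norm_pow]
      _ ≤ 2 * 2 * (4 * ‖q‖ ^ 3) + ‖q‖ ^ 3 := by
          have h4 : ‖1 - q‖ * ‖1 - q ^ 2‖ ≤ 2 * 2 :=
            mul_le_mul h1 h2 (norm_nonneg _) (by norm_num)
          have h5 : ‖1 - q‖ * ‖1 - q ^ 2‖ * ‖BB q - 1‖ ≤ 2 * 2 * (4 * ‖q‖ ^ 3) :=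
            mul_le_mul h4 h3 (norm_nonneg _) (by norm_num)
          linarith
      _ = 17 * ‖q‖ ^ 3 := by ring)
  refine ⟨r, hr, h.mono fun q hq => ?_⟩
  linear_combination hq

/-- the expansion of `AA (q ^ k)` for `k ≥ 2`: `1 - q ^ k - q ^ (2 k) + q ^ (3 k) r` -/
theorem AA_pow_expansion {k : ℕ} (hk : k ≠ 0) : ∃ r : ℂ → ℂ, AnalyticAt ℂ r 0 ∧
    ∀ᶠ q in 𝓝 (0 : ℂ), AA (q ^ k) = 1 - q ^ k - (q ^ k) ^ 2 + (q ^ k) ^ 3 * r q := by
  obtain ⟨r, hr, h⟩ := AA_expansion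
  have hc : Tendsto (fun q : ℂ => q ^ k) (𝓝 0) (𝓝 0) := by
    have := (continuous_pow (M := ℂ) k).tendsto 0
    rwa [zero_pow hk] at this
  refine ⟨fun q => r (q ^ k), ?_, hc.eventually h⟩
  refine AnalyticAt.fun_comp (g := r) (f := fun q : ℂ => q ^ k) ?_ (by fun_prop)
  rw [zero_pow hk]
  exact hr

theorem phi_expansion : ∃ r : ℂ → ℂ, AnalyticAt ℂ r 0 ∧
    ∀ᶠ q in 𝓝 (0 : ℂ), phi q = 1 - q - 2 * q ^ 2 + q ^ 3 * r q := by
  obtain ⟨r1, hr1, h1⟩ := AA_expansion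
  obtain ⟨r2, hr2, h2⟩ := AA_pow_expansion (k := 2) (by norm_num)
  obtain ⟨r7, hr7, h7⟩ := AA_pow_expansion (k := 7) (by norm_num)
  obtain ⟨r14, hr14, h14⟩ := AA_pow_expansion (k := 14) (by norm_num)
  refine ⟨fun q => (1 + q + (1 - q ^ 2) * r1 q + (1 - q - q ^ 2) * (-q + q ^ 3 * r2 q) +
      q ^ 3 * r1 q * (-q + q ^ 3 * r2 q)) +
      (-q ^ 4 - q ^ 11 + q ^ 18 * r7 q) * (AA q * AA (q ^ 2)) +
      (-q ^ 11 - q ^ 25 + q ^ 39 * r14 q) * (AA q * AA (q ^ 2) * AA (q ^ 7)), ?_, ?_⟩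
  · have a1 := analyticAt_AA
    have a2 := analyticAt_AA_pow (k := 2) (by norm_num)
    have a7 := analyticAt_AA_pow (k := 7) (by norm_num)
    fun_prop
  · filter_upwards [h1, h2, h7, h14] with q h1 h2 h7 h14
    unfold phi
    rw [h14, h7, h2, h1]
    ring

theorem tau_expansion : ∃ r : ℂ → ℂ, AnalyticAt ℂ r 0 ∧
    ∀ᶠ q in 𝓝 (0 : ℂ), tau q = 1 - 3 * q + 3 * q ^ 2 + q ^ 3 * r q := by
  obtain ⟨r1, hr1, h1⟩ := AA_expansion
  obtain ⟨r2, hr2, h2⟩ := AA_pow_expansion (k := 2) (by norm_num)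
  obtain ⟨r7, hr7, h7⟩ := AA_pow_expansion (k := 7) (by norm_num)
  obtain ⟨r14, hr14, h14⟩ := AA_pow_expansion (k := 14) (by norm_num)
  have a1 := analyticAt_AA
  have a2 := analyticAt_AA_pow (k := 2) (by norm_num)
  have a7 := analyticAt_AA_pow (k := 7) (by norm_num)
  have a14 := analyticAt_AA_pow (k := 14) (by norm_num)
  set w : ℂ → ℂ := fun q => (r1 q - 1 - (1 - q) * (-q + q ^ 3 * r2 q) +
    (-q ^ 4 - q ^ 11 + q ^ 18 * r7 q) * AA q -
    (1 - q) * (-q ^ 11 - q ^ 25 + q ^ 39 * r14 q) * AA (q ^ 2)) / (AA (q ^ 2) * AA (q ^ 14)) with hw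
  have hwa : AnalyticAt ℂ w 0 := by
    apply AnalyticAt.div
    · fun_prop
    · fun_prop
    · exact mul_ne_zero (AA_ne_zero (by simp)) (AA_ne_zero (by simp))
  refine ⟨fun q => -1 + 3 * (1 - q) ^ 2 * w q + 3 * (1 - q) * q ^ 3 * w q ^ 2 +
    q ^ 6 * w q ^ 3, ?_, ?_⟩
  · fun_prop
  · filter_upwards [h1, h2, h7, h14, Metric.ball_mem_nhds (0 : ℂ) one_pos] with q h1 h2 h7 h14 hq
    rw [mem_ball_zero_iff] at hq
    have n2 : AA (q ^ 2) ≠ 0 := AA_ne_zero (norm_pow_lt hq (by norm_num))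
    have n14 : AA (q ^ 14) ≠ 0 := AA_ne_zero (norm_pow_lt hq (by norm_num))
    have hu : AA q * AA (q ^ 7) / (AA (q ^ 2) * AA (q ^ 14)) = 1 - q + q ^ 3 * w q := by
      rw [hw]
      simp only
      rw [← mul_div_assoc, eq_comm, eq_div_iff (mul_ne_zero n2 n14), add_mul,
        div_mul_cancel₀ _ (mul_ne_zero n2 n14), h14, h7, h2, h1]
      ring
    unfold tau
    rw [hu]
    ring

/-! ### The primitive -/

theorem exists_G : ∃ G : ℂ → ℂ, DifferentiableOn ℂ G (Metric.ball 0 1) ∧ G 0 = 0 ∧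
    (∀ q ∈ Metric.ball (0 : ℂ) 1, HasDerivAt G (phi q) q) ∧
    ∀ q ∈ Metric.ball (0 : ℂ) 1, G ((starRingEnd ℂ) q) = (starRingEnd ℂ) (G q) := by
  obtain ⟨G, hG0, hG⟩ := differentiableOn_phi.isExactOn_ball.with_val_at 0 0
  have hGd : DifferentiableOn ℂ G (Metric.ball 0 1) :=
    fun q hq => (hG q hq).differentiableAt.differentiableWithinAt
  refine ⟨G, hGd, hG0, hG, ?_⟩
  -- the conjugate function
  have hH : ∀ q ∈ Metric.ball (0 : ℂ) 1,
      HasDerivAt ((starRingEnd ℂ) ∘ G ∘ (starRingEnd ℂ)) (phi q) q := by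
    intro q hq
    have hq' : (starRingEnd ℂ) q ∈ Metric.ball (0 : ℂ) 1 := by
      rw [mem_ball_zero_iff] at hq ⊢
      rwa [RCLike.norm_conj]
    have h1 := (hG _ hq').conj_conj
    rw [mem_ball_zero_iff] at hq
    rwa [phi_conj hq, Complex.conj_conj, Complex.conj_conj] at h1
  have key : ∀ q ∈ Metric.ball (0 : ℂ) 1, G q = ((starRingEnd ℂ) ∘ G ∘ (starRingEnd ℂ)) q := by
    intro q hq
    have hdiff : ∀ x ∈ Metric.ball (0 : ℂ) 1,
        HasDerivWithinAt (fun y => G y - ((starRingEnd ℂ) ∘ G ∘ (starRingEnd ℂ)) y) 0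
          (Metric.ball (0 : ℂ) 1) x := by
      intro x hx
      have := (hG x hx).sub (hH x hx)
      rw [sub_self] at this
      exact this.hasDerivWithinAt
    have h2 := (convex_ball (0 : ℂ) 1).norm_image_sub_le_of_norm_hasDerivWithin_le (C := 0)
      hdiff (fun x _ => by simp) (Metric.mem_ball_self one_pos) hq
    rw [zero_mul] at h2
    have h3 := norm_le_zero_iff.1 h2
    simp only [Function.comp_apply, map_zero, hG0, sub_self, sub_zero] at h3
    simp only [Function.comp_apply]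
    exact sub_eq_zero.1 h3
  intro q hq
  have h4 := key q hq
  simp only [Function.comp_apply] at h4
  rw [h4, Complex.conj_conj]

/-- The primitive of `phi` vanishing at `0`. -/
def GG : ℂ → ℂ := Classical.choose exists_G

/-- `2πi ∫_{i∞}^z F(w) dw` -/
def FF (z : ℂ) : ℂ := GG (qq z)

theorem FF_conj {z : ℂ} (hz : 0 < z.im) : FF (-(starRingEnd ℂ) z) = (starRingEnd ℂ) (FF z) := by
  have h := (Classical.choose_spec exists_G).2.2.2 (qq z) (by
    rw [mem_ball_zero_iff]; exact qq_norm_lt hz)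
  change GG ((starRingEnd ℂ) (qq z)) = (starRingEnd ℂ) (GG (qq z)) at h
  unfold FF
  rw [← h]
  unfold qq
  rw [← Complex.exp_conj]
  congr 2
  have h2 : (starRingEnd ℂ) 2 = 2 := Complex.conj_ofNat 2
  simp only [map_mul, h2, Complex.conj_I, Complex.conj_ofReal]
  ring

theorem hasDerivAt_qq (z : ℂ) : HasDerivAt qq (2 * π * I * qq z) z := by
  unfold qq
  have h : HasDerivAt (fun z : ℂ => 2 * π * I * z) (2 * π * I) z := by
    simpa using (hasDerivAt_id z).const_mul (2 * π * I : ℂ)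
  exact h.cexp.congr_deriv (mul_comm _ _)

theorem hasDerivAt_FF {z : ℂ} (hz : 0 < z.im) : HasDerivAt FF (2 * π * I * etaF z) z := by
  have h := (Classical.choose_spec exists_G).2.2.1 (qq z) (by
    rw [mem_ball_zero_iff]; exact qq_norm_lt hz)
  have h2 := HasDerivAt.comp z h (hasDerivAt_qq z)
  rw [etaF_eq hz]
  have e : 2 * π * I * (qq z * phi (qq z)) = phi (qq z) * (2 * π * I * qq z) := by ring
  rw [e]
  exact h2

/-- `FF → 0` at `i∞`. -/
theorem FF_small (ε : ℝ) (hε : 0 < ε) : ∃ A : ℝ, ∀ z : ℂ, A ≤ z.im → 0 < z.im → ‖FF z‖ < ε := by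
  have hspec := Classical.choose_spec exists_G
  have hc : ContinuousAt GG 0 :=
    (hspec.2.2.1 0 (Metric.mem_ball_self one_pos)).continuousAt
  have h0 : GG 0 = 0 := hspec.2.1
  rw [Metric.continuousAt_iff] at hc
  obtain ⟨δ, hδ, h⟩ := hc ε hε
  refine ⟨-Real.log δ / (2 * π) + 1, fun z hz _ => ?_⟩
  have hpi := Real.pi_pos
  have h1 : dist (qq z) 0 < δ := by
    rw [dist_zero_right, norm_qq, ← Real.lt_log_iff_exp_lt hδ]
    have h2 : -Real.log δ / (2 * π) < z.im := by linarith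
    rw [div_lt_iff₀ (by positivity)] at h2
    linarith
  have h2 := h h1
  rwa [h0, dist_zero_right] at h2

/-- exponential decay of `etaF` at `i∞` -/
theorem etaF_bound : ∃ C : ℝ, ∀ z : ℂ, 1 ≤ z.im → ‖etaF z‖ ≤ C * Real.exp (-2 * π * z.im) := by
  have hpi := Real.pi_pos
  have hr : Real.exp (-2 * π) < 1 := by
    rw [Real.exp_lt_one_iff]; linarith
  have hsub : Metric.closedBall (0 : ℂ) (Real.exp (-2 * π)) ⊆ Metric.ball 0 1 :=
    Metric.closedBall_subset_ball hr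
  obtain ⟨C, hC⟩ := (isCompact_closedBall (0 : ℂ) (Real.exp (-2 * π))).exists_bound_of_continuousOn
    (differentiableOn_phi.continuousOn.mono hsub)
  refine ⟨C, fun z hz => ?_⟩
  rw [etaF_eq (by linarith), norm_mul, norm_qq, mul_comm]
  apply mul_le_mul_of_nonneg_right _ (Real.exp_pos _).le
  apply hC
  rw [mem_closedBall_zero_iff, norm_qq]
  apply Real.exp_le_exp.2
  nlinarith

end MP9c45e8
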