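import Pool.Agent.MP_9c45e8_nt.Defs

/-!
Module A, part 1: the eta quotients and the Moebius machinery.
-/

open Complex
open UpperHalfPlane hiding I
open scoped MatrixGroups Real ModularForm

namespace MP9c45e8

/-- The weight two eta product `η(z)η(2z)η(7z)η(14z)`. -/
noncomputable def etaF (z : ℂ) : ℂ := η z * η (2 * z) * η (7 * z) * η (14 * z)

/-- The Hauptmodul-like function `(η(z)η(7z)/(η(2z)η(14z)))³`. -/
noncomputable def etaT (z : ℂ) : ℂ := (η z * η (7 * z) / (η (2 * z) * η (14 * z))) ^ 3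

/-- Moebius action of an integral matrix on `ℂ`. -/
noncomputable def mob (M : Matrix (Fin 2) (Fin 2) ℤ) (z : ℂ) : ℂ :=
  (M 0 0 * z + M 0 1) / (M 1 0 * z + M 1 1)

/-- Automorphy denominator. -/
noncomputable def jj (M : Matrix (Fin 2) (Fin 2) ℤ) (z : ℂ) : ℂ := M 1 0 * z + M 1 1

theorem jj_ne_zero {M : Matrix (Fin 2) (Fin 2) ℤ} (hM : 0 < M.det) {z : ℂ} (hz : 0 < z.im) :
    jj M z ≠ 0 := by
  intro h
  have him := congrArg Complex.im h
  have hre := congrArg Complex.re h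
  simp [jj] at him hre
  rw [Matrix.det_fin_two] at hM
  rcases him with h1 | h1
  · rw [h1] at hre
    simp at hre
    rw [h1, hre] at hM
    simp at hM
  · exact hz.ne' h1

theorem mob_im {M : Matrix (Fin 2) (Fin 2) ℤ} (hM : 0 < M.det) {z : ℂ} (hz : 0 < z.im) :
    (mob M z).im = M.det * z.im / Complex.normSq (jj M z) := by
  have hj := jj_ne_zero hM hz
  have hn : Complex.normSq (jj M z) ≠ 0 := by
    simpa [Complex.normSq_eq_zero] using hj
  have : mob M z = (M 0 0 * z + M 0 1) * (starRingEnd ℂ) (jj M z) / Complex.normSq (jj M z) := by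
    rw [mob, ← jj, div_eq_div_iff hj (by exact_mod_cast hn), mul_assoc, ← Complex.mul_conj,
      mul_comm ((starRingEnd ℂ) (jj M z))]
  rw [this, Complex.div_ofReal_im]
  congr 1
  rw [Matrix.det_fin_two]
  simp [jj, Complex.mul_im]
  ring

theorem mob_im_pos {M : Matrix (Fin 2) (Fin 2) ℤ} (hM : 0 < M.det) {z : ℂ} (hz : 0 < z.im) :
    0 < (mob M z).im := by
  rw [mob_im hM hz]
  have hj := jj_ne_zero hM hz
  have hn : 0 < Complex.normSq (jj M z) := by
    simpa [Complex.normSq_pos] using hj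
  have : (0 : ℝ) < M.det := by exact_mod_cast hM
  positivity

theorem jj_mul {M N : Matrix (Fin 2) (Fin 2) ℤ} (hN : 0 < N.det) {z : ℂ} (hz : 0 < z.im) :
    jj (M * N) z = jj M (mob N z) * jj N z := by
  have hj := jj_ne_zero hN hz
  have h1 : mob N z * jj N z = N 0 0 * z + N 0 1 := by
    unfold mob
    exact div_mul_cancel₀ _ hj
  have h2 : jj M (mob N z) * jj N z = M 1 0 * (mob N z * jj N z) + M 1 1 * jj N z := by
    simp only [jj]; ring
  rw [h2, h1]
  simp [Matrix.mul_apply, Fin.sum_univ_two, jj]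
  ring

theorem mob_mul {M N : Matrix (Fin 2) (Fin 2) ℤ} (hM : 0 < M.det) (hN : 0 < N.det) {z : ℂ}
    (hz : 0 < z.im) : mob (M * N) z = mob M (mob N z) := by
  have hj := jj_ne_zero hN hz
  have hj' := jj_ne_zero hM (mob_im_pos hN hz)
  have h1 := jj_mul (M := M) hN hz
  have hd : 0 < (M * N).det := by rw [Matrix.det_mul]; positivity
  have hj'' := jj_ne_zero hd hz
  rw [mob, ← jj, mob, ← jj, div_eq_div_iff hj'' hj', h1]
  have h3 : mob N z * jj N z = N 0 0 * z + N 0 1 := by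
    unfold mob
    exact div_mul_cancel₀ _ hj
  have : ((M * N) 0 0 : ℂ) * z + (M * N) 0 1 = (M 0 0 * mob N z + M 0 1) * jj N z := by
    rw [add_mul, mul_assoc, h3]
    simp [Matrix.mul_apply, Fin.sum_univ_two, jj]
    ring
  rw [this]
  ring

/-! ### eta -/

theorem eta_add_nat (z : ℂ) (k : ℕ) : η (z + k) = cexp (2 * π * I * k / 24) * η z := by
  have h : ∀ n : ℕ, ModularForm.eta_q n (z + k) = ModularForm.eta_q n z := by
    intro n
    rw [ModularForm.eta_q_eq_cexp, ModularForm.eta_q_eq_cexp]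
    have : 2 * (π : ℂ) * I * (n + 1) * (z + k) =
        2 * π * I * (n + 1) * z + ((n + 1) * k : ℕ) * (2 * π * I) := by
      push_cast; ring
    rw [this, Complex.exp_add, Complex.exp_nat_mul_two_pi_mul_I, mul_one]
  simp only [ModularForm.eta, h]
  rw [← mul_assoc]
  congr 1
  simp only [Function.Periodic.qParam]
  rw [← Complex.exp_add]
  congr 1
  push_cast
  ring

theorem cexp_k24 : cexp (2 * π * I * (24 : ℕ) / 24) = 1 := by
  rw [show (2 * π * I * ((24 : ℕ) : ℂ) / 24 : ℂ) = 2 * π * I by push_cast; ring]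
  exact Complex.exp_two_pi_mul_I

theorem etaF_add_one (z : ℂ) : etaF (z + 1) = etaF z := by
  have h1 := eta_add_nat z 1
  have h2 := eta_add_nat (2 * z) 2
  have h7 := eta_add_nat (7 * z) 7
  have h14 := eta_add_nat (14 * z) 14
  push_cast at h1 h2 h7 h14
  have e : cexp (2 * π * I * 1 / 24) * cexp (2 * π * I * 2 / 24) * cexp (2 * π * I * 7 / 24) *
      cexp (2 * π * I * 14 / 24) = 1 := by
    rw [← Complex.exp_add, ← Complex.exp_add, ← Complex.exp_add]
    rw [Complex.exp_eq_one_iff]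
    exact ⟨1, by push_cast; ring⟩
  unfold etaF
  rw [show 2 * (z + 1) = 2 * z + 2 by ring, show 7 * (z + 1) = 7 * z + 7 by ring,
    show 14 * (z + 1) = 14 * z + 14 by ring, h1, h2, h7, h14]
  calc _ = (cexp (2 * π * I * 1 / 24) * cexp (2 * π * I * 2 / 24) * cexp (2 * π * I * 7 / 24) *
      cexp (2 * π * I * 14 / 24)) * (η z * η (2 * z) * η (7 * z) * η (14 * z)) := by ring
    _ = _ := by rw [e, one_mul]

theorem etaT_add_one (z : ℂ) : etaT (z + 1) = etaT z := by
  have h1 := eta_add_nat z 1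
  have h2 := eta_add_nat (2 * z) 2
  have h7 := eta_add_nat (7 * z) 7
  have h14 := eta_add_nat (14 * z) 14
  push_cast at h1 h2 h7 h14
  have e : (cexp (2 * π * I * 1 / 24) * cexp (2 * π * I * 7 / 24)) ^ 3 =
      (cexp (2 * π * I * 2 / 24) * cexp (2 * π * I * 14 / 24)) ^ 3 := by
    rw [← Complex.exp_add, ← Complex.exp_add, ← Complex.exp_nat_mul, ← Complex.exp_nat_mul]
    rw [Complex.exp_eq_exp_iff_exists_int]
    exact ⟨-1, by push_cast; ring⟩
  have hne : (cexp (2 * π * I * 2 / 24) * cexp (2 * π * I * 14 / 24)) ^ 3 ≠ 0 :=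
    pow_ne_zero _ (mul_ne_zero (Complex.exp_ne_zero _) (Complex.exp_ne_zero _))
  unfold etaT
  rw [show 2 * (z + 1) = 2 * z + 2 by ring, show 7 * (z + 1) = 7 * z + 7 by ring,
    show 14 * (z + 1) = 14 * z + 14 by ring, h1, h2, h7, h14]
  calc _ = ((cexp (2 * π * I * 1 / 24) * cexp (2 * π * I * 7 / 24)) ^ 3 /
      (cexp (2 * π * I * 2 / 24) * cexp (2 * π * I * 14 / 24)) ^ 3) *
        (η z * η (7 * z) / (η (2 * z) * η (14 * z))) ^ 3 := by
        rw [← div_pow, ← mul_pow]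
        congr 1
        rw [div_mul_div_comm]
        congr 1 <;> ring
    _ = _ := by rw [e, div_self hne, one_mul]

/-- `η²⁴` transforms under `SL₂(ℤ)`. -/
theorem eta24_mob {M : Matrix (Fin 2) (Fin 2) ℤ} (hM : M.det = 1) {z : ℂ} (hz : 0 < z.im) :
    η (mob M z) ^ 24 = jj M z ^ 12 * η z ^ 24 := by
  obtain ⟨γ, hγ⟩ : ∃ γ : SL(2, ℤ), (γ : Matrix (Fin 2) (Fin 2) ℤ) = M := ⟨⟨M, hM⟩, rfl⟩
  have h := SlashInvariantForm.slash_action_generators_SL2Z
    ModularForm.discriminant_S_invariant ModularForm.discriminant_T_invariant γ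
  have h2 := congrFun h ⟨z, hz⟩
  rw [ModularForm.SL_slash_apply] at h2
  have h3 : (((γ • (⟨z, hz⟩ : ℍ) : ℍ)) : ℂ) = mob M z := by
    rw [UpperHalfPlane.coe_specialLinearGroup_apply]
    simp [mob, hγ]
  have h4 : denom γ (⟨z, hz⟩ : ℍ) = jj M z := by
    simp [denom, jj, hγ]
  change η (((γ • (⟨z, hz⟩ : ℍ) : ℍ)) : ℂ) ^ 24 * _ = η z ^ 24 at h2
  rw [h3, h4] at h2
  have hj := jj_ne_zero (M := M) (by rw [hM]; norm_num) hz
  rw [← h2, mul_comm, mul_assoc, zpow_neg]
  have : jj M z ^ (12 : ℤ) = jj M z ^ 12 := by norm_cast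
  rw [this, inv_mul_cancel₀ (pow_ne_zero _ hj), mul_one]

theorem eta_S {z : ℂ} (hz : 0 < z.im) : η (-1 / z) = (sqrt I)⁻¹ * (sqrt z * η z) := by
  have := ModularForm.eta_comp_eq_csqrt_I_inv hz
  simpa using this

end MP9c45e8
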