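import Pool.Agent.MP_9c45e8_nt.A1

/-!
Module A, part 2: transformation of the eta quotients under the elements of trace zero
and under `z ↦ -1/(14z)`.
-/

open Complex
open UpperHalfPlane hiding I
open scoped MatrixGroups Real ModularForm

namespace MP9c45e8

theorem isPreconnected_H : IsPreconnected {z : ℂ | 0 < z.im} :=
  Convex.isPreconnected (convex_halfSpace_im_gt 0)

theorem isOpen_H : IsOpen {z : ℂ | 0 < z.im} := isOpen_upperHalfPlaneSet

/-- A continuous function on `ℍ` with `g ^ n = 1` is constant. -/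
theorem const_of_pow_eq_one {g : ℂ → ℂ} {n : ℕ} (hn : 0 < n)
    (hg : ContinuousOn g {z | 0 < z.im}) (h : ∀ z : ℂ, 0 < z.im → g z ^ n = 1)
    {z w : ℂ} (hz : 0 < z.im) (hw : 0 < w.im) : g z = g w := by
  refine isPreconnected_H.constant_of_mapsTo (T := {x : ℂ | x ^ n = 1}) ?_ hg
    (fun x hx ↦ h x hx) hz hw
  refine Set.Finite.isDiscrete ?_
  have : {x : ℂ | x ^ n = 1} ⊆ ↑(Polynomial.nthRoots n (1 : ℂ)).toFinset := by
    intro x hx
    have hx : x ^ n = 1 := hx
    simp [Polynomial.mem_nthRoots hn, hx]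
  exact (Finset.finite_toSet _).subset this

theorem smul_im_pos {z : ℂ} (hz : 0 < z.im) {n : ℝ} (hn : 0 < n) : 0 < ((n : ℂ) * z).im := by
  rw [Complex.im_ofReal_mul n z]
  positivity

theorem im2 {z : ℂ} (hz : 0 < z.im) : 0 < (2 * z).im := by
  have := smul_im_pos hz (n := 2) (by norm_num)
  simpa using this
theorem im7 {z : ℂ} (hz : 0 < z.im) : 0 < (7 * z).im := by
  have := smul_im_pos hz (n := 7) (by norm_num)
  simpa using this
theorem im14 {z : ℂ} (hz : 0 < z.im) : 0 < (14 * z).im := by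
  have := smul_im_pos hz (n := 14) (by norm_num)
  simpa using this

theorem etaF_ne_zero {z : ℂ} (hz : 0 < z.im) : etaF z ≠ 0 := by
  unfold etaF
  have h1 : η z ≠ 0 := ModularForm.eta_ne_zero hz
  have h2 : η (2 * z) ≠ 0 := ModularForm.eta_ne_zero (im2 hz)
  have h3 : η (7 * z) ≠ 0 := ModularForm.eta_ne_zero (im7 hz)
  have h4 : η (14 * z) ≠ 0 := ModularForm.eta_ne_zero (im14 hz)
  positivity

theorem etaT_ne_zero {z : ℂ} (hz : 0 < z.im) : etaT z ≠ 0 := by
  unfold etaT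
  have h1 : η z ≠ 0 := ModularForm.eta_ne_zero hz
  have h2 : η (2 * z) ≠ 0 := ModularForm.eta_ne_zero (im2 hz)
  have h3 : η (7 * z) ≠ 0 := ModularForm.eta_ne_zero (im7 hz)
  have h4 : η (14 * z) ≠ 0 := ModularForm.eta_ne_zero (im14 hz)
  positivity

theorem differentiableAt_eta {z : ℂ} (hz : 0 < z.im) : DifferentiableAt ℂ η z :=
  ModularForm.differentiableAt_eta_of_mem_upperHalfPlaneSet hz

theorem differentiableAt_eta_mul (n : ℂ) {z : ℂ} (hz : 0 < (n * z).im) :
    DifferentiableAt ℂ (fun z ↦ η (n * z)) z :=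
  DifferentiableAt.comp (g := η) (f := fun z ↦ n * z) z (differentiableAt_eta hz) (by fun_prop)

theorem differentiableAt_etaF {z : ℂ} (hz : 0 < z.im) : DifferentiableAt ℂ etaF z := by
  unfold etaF
  exact (((differentiableAt_eta hz).mul (differentiableAt_eta_mul 2 (im2 hz))).mul
    (differentiableAt_eta_mul 7 (im7 hz))).mul (differentiableAt_eta_mul 14 (im14 hz))

theorem differentiableAt_etaT {z : ℂ} (hz : 0 < z.im) : DifferentiableAt ℂ etaT z := by
  unfold etaT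
  have h2 : η (2 * z) ≠ 0 := ModularForm.eta_ne_zero (im2 hz)
  have h4 : η (14 * z) ≠ 0 := ModularForm.eta_ne_zero (im14 hz)
  exact (((differentiableAt_eta hz).mul (differentiableAt_eta_mul 7 (im7 hz))).div
    ((differentiableAt_eta_mul 2 (im2 hz)).mul (differentiableAt_eta_mul 14 (im14 hz)))
    (mul_ne_zero h2 h4)).pow 3

theorem differentiableOn_etaF : DifferentiableOn ℂ etaF {z | 0 < z.im} :=
  fun _ hz ↦ (differentiableAt_etaF hz).differentiableWithinAt

theorem differentiableOn_etaT : DifferentiableOn ℂ etaT {z | 0 < z.im} :=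
  fun _ hz ↦ (differentiableAt_etaT hz).differentiableWithinAt

theorem differentiableAt_mob {M : Matrix (Fin 2) (Fin 2) ℤ} (hM : 0 < M.det) {z : ℂ}
    (hz : 0 < z.im) : DifferentiableAt ℂ (mob M) z := by
  unfold mob
  exact DifferentiableAt.div (by fun_prop) (by fun_prop) (jj_ne_zero hM hz)

/-- `F(Mz) det M = ε (cz+d)² F(z)`. -/
def TF (ε : ℂ) (M : Matrix (Fin 2) (Fin 2) ℤ) : Prop :=
  ∀ z : ℂ, 0 < z.im → etaF (mob M z) * M.det = ε * jj M z ^ 2 * etaF z

/-- `T(Mz) = T(z)`. -/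
def TT (M : Matrix (Fin 2) (Fin 2) ℤ) : Prop :=
  ∀ z : ℂ, 0 < z.im → etaT (mob M z) = etaT z

theorem TF.mul {ε ε' : ℂ} {M N : Matrix (Fin 2) (Fin 2) ℤ} (hM : 0 < M.det) (hN : 0 < N.det)
    (h : TF ε M) (h' : TF ε' N) : TF (ε * ε') (M * N) := by
  intro z hz
  rw [mob_mul hM hN hz, jj_mul hN hz, Matrix.det_mul, Int.cast_mul]
  have h1 := h _ (mob_im_pos hN hz)
  have h2 := h' z hz
  calc _ = (etaF (mob M (mob N z)) * M.det) * N.det := by ring
    _ = ε * jj M (mob N z) ^ 2 * (etaF (mob N z) * N.det) := by rw [h1]; ring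
    _ = _ := by rw [h2]; ring

theorem TT.mul {M N : Matrix (Fin 2) (Fin 2) ℤ} (hM : 0 < M.det) (hN : 0 < N.det)
    (h : TT M) (h' : TT N) : TT (M * N) := by
  intro z hz
  rw [mob_mul hM hN hz, h _ (mob_im_pos hN hz), h' z hz]

theorem mob_smul {k : ℤ} (hk : k ≠ 0) (M : Matrix (Fin 2) (Fin 2) ℤ) (z : ℂ) :
    mob (k • M) z = mob M z := by
  have hk' : (k : ℂ) ≠ 0 := by exact_mod_cast hk
  simp only [mob, Matrix.smul_apply, smul_eq_mul, Int.cast_mul]
  rw [mul_assoc, mul_assoc, ← mul_add, ← mul_add, mul_div_mul_left _ _ hk']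

theorem jj_smul (k : ℤ) (M : Matrix (Fin 2) (Fin 2) ℤ) (z : ℂ) :
    jj (k • M) z = k * jj M z := by
  simp only [jj, Matrix.smul_apply, smul_eq_mul, Int.cast_mul]
  ring

theorem TF.of_smul {ε : ℂ} {k : ℤ} (hk : k ≠ 0) {M : Matrix (Fin 2) (Fin 2) ℤ}
    (h : TF ε (k • M)) : TF ε M := by
  intro z hz
  have hk' : (k : ℂ) ≠ 0 := by exact_mod_cast hk
  have := h z hz
  rw [mob_smul hk, jj_smul, Matrix.det_smul] at this
  simp only [Fintype.card_fin, Int.cast_mul, Int.cast_pow] at this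
  apply mul_left_cancel₀ (pow_ne_zero 2 hk')
  calc _ = etaF (mob M z) * ((k : ℂ) ^ 2 * M.det) := by ring
    _ = _ := by rw [this]; ring

theorem TT.of_smul {k : ℤ} (hk : k ≠ 0) {M : Matrix (Fin 2) (Fin 2) ℤ}
    (h : TT (k • M)) : TT M := by
  intro z hz
  have := h z hz
  rwa [mob_smul hk] at this

/-- The elliptic matrix `(7a, b; 14c, -7a)` of determinant `7`. -/
def EM (a b c : ℤ) : Matrix (Fin 2) (Fin 2) ℤ := !![7 * a, b; 14 * c, -7 * a]

theorem EM_det {a b c : ℤ} (h : 7 * a ^ 2 + 2 * b * c = -1) : (EM a b c).det = 7 := by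
  simp only [EM, Matrix.det_fin_two_of]
  linarith

theorem eta24_eq {M : Matrix (Fin 2) (Fin 2) ℤ} (hM : M.det = 1) {z w j : ℂ} (hz : 0 < z.im)
    (hw : w = mob M z) (hj : j = jj M z) : η w ^ 24 = j ^ 12 * η z ^ 24 := by
  rw [hw, hj, eta24_mob hM hz]

section EM

variable {a b c : ℤ}

theorem EM_jj (z : ℂ) : jj (EM a b c) z = 7 * (2 * c * z - a) := by
  simp [jj, EM]; ring

variable (h : 7 * a ^ 2 + 2 * b * c = -1)
include h

theorem c_ne_zero : c ≠ 0 := by
  rintro rfl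
  have : 0 ≤ 7 * a ^ 2 := by positivity
  simp at h
  linarith

theorem EM_eta1 {z : ℂ} (hz : 0 < z.im) :
    η (mob (EM a b c) z) ^ 24 = (7 * (2 * c * z - a)) ^ 12 * η (7 * z) ^ 24 := by
  have hd : (!![a, b; 2 * c, -7 * a] : Matrix (Fin 2) (Fin 2) ℤ).det = 1 := by
    simp only [Matrix.det_fin_two_of]; linarith
  refine eta24_eq hd (im7 hz) ?_ ?_
  · simp [mob, EM]; ring
  · simp [jj]; ring

theorem EM_eta7 {z : ℂ} (hz : 0 < z.im) :
    η (7 * mob (EM a b c) z) ^ 24 = (2 * c * z - a) ^ 12 * η z ^ 24 := by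
  have hd : (!![7 * a, b; 2 * c, -a] : Matrix (Fin 2) (Fin 2) ℤ).det = 1 := by
    simp only [Matrix.det_fin_two_of]; linarith
  have hj : jj (EM a b c) z ≠ 0 := jj_ne_zero (by rw [EM_det h]; norm_num) hz
  rw [EM_jj] at hj
  have hj' : 2 * (c : ℂ) * z - a ≠ 0 := by
    intro h0; exact hj (by rw [h0]; ring)
  refine eta24_eq hd hz ?_ ?_
  · simp only [mob, EM, Matrix.of_apply, Matrix.cons_val', Matrix.cons_val_zero,
      Matrix.cons_val_one, Matrix.cons_val_fin_one, Int.cast_mul, Int.cast_ofNat, Int.cast_neg]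
    rw [show (14 * (c : ℂ) * z + -7 * a) = 7 * (2 * c * z - a) by ring,
      show (2 * (c : ℂ) * z + -a) = (2 * c * z - a) by ring]
    field_simp
  · simp [jj]; ring

theorem EM_eta2 {z : ℂ} (hz : 0 < z.im) :
    η (2 * mob (EM a b c) z) ^ 24 = (7 * (2 * c * z - a)) ^ 12 * η (14 * z) ^ 24 := by
  have hd : (!![a, 2 * b; c, -7 * a] : Matrix (Fin 2) (Fin 2) ℤ).det = 1 := by
    simp only [Matrix.det_fin_two_of]; linarith
  have hj : jj (EM a b c) z ≠ 0 := jj_ne_zero (by rw [EM_det h]; norm_num) hz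
  rw [EM_jj] at hj
  have hj' : 2 * (c : ℂ) * z - a ≠ 0 := by
    intro h0; exact hj (by rw [h0]; ring)
  refine eta24_eq hd (im14 hz) ?_ ?_
  · simp only [mob, EM, Matrix.of_apply, Matrix.cons_val', Matrix.cons_val_zero,
      Matrix.cons_val_one, Matrix.cons_val_fin_one, Int.cast_mul, Int.cast_ofNat, Int.cast_neg]
    rw [show (14 * (c : ℂ) * z + -7 * a) = 7 * (2 * c * z - a) by ring,
      show ((c : ℂ) * (14 * z) + -7 * a) = 7 * (2 * c * z - a) by ring]
    field_simp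
    ring
  · simp [jj]; ring

theorem EM_eta14 {z : ℂ} (hz : 0 < z.im) :
    η (14 * mob (EM a b c) z) ^ 24 = (2 * c * z - a) ^ 12 * η (2 * z) ^ 24 := by
  have hd : (!![7 * a, 2 * b; c, -a] : Matrix (Fin 2) (Fin 2) ℤ).det = 1 := by
    simp only [Matrix.det_fin_two_of]; linarith
  have hj : jj (EM a b c) z ≠ 0 := jj_ne_zero (by rw [EM_det h]; norm_num) hz
  rw [EM_jj] at hj
  have hj' : 2 * (c : ℂ) * z - a ≠ 0 := by
    intro h0; exact hj (by rw [h0]; ring)
  refine eta24_eq hd (im2 hz) ?_ ?_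
  · simp only [mob, EM, Matrix.of_apply, Matrix.cons_val', Matrix.cons_val_zero,
      Matrix.cons_val_one, Matrix.cons_val_fin_one, Int.cast_mul, Int.cast_ofNat, Int.cast_neg]
    rw [show (14 * (c : ℂ) * z + -7 * a) = 7 * (2 * c * z - a) by ring,
      show ((c : ℂ) * (2 * z) + -a) = (2 * c * z - a) by ring]
    field_simp
    ring
  · simp [jj]; ring

/-- The fixed point of `EM a b c`. -/
theorem EM_fixed : ∃ z : ℂ, 0 < z.im ∧ mob (EM a b c) z = z ∧ jj (EM a b c) z ^ 2 = -7 := by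
  have hc := c_ne_zero h
  have hcC : (c : ℂ) ≠ 0 := by exact_mod_cast hc
  have key : ∀ s : ℂ, s ^ 2 = -7 → mob (EM a b c) ((7 * a + s) / (14 * c)) = (7 * a + s) / (14 * c)
      ∧ jj (EM a b c) ((7 * a + s) / (14 * c)) ^ 2 = -7 := by
    intro s hs
    have hs0 : s ≠ 0 := by rintro rfl; norm_num at hs
    have hj : jj (EM a b c) ((7 * a + s) / (14 * c)) = s := by
      rw [EM_jj]; field_simp; ring
    refine ⟨?_, by rw [hj, hs]⟩
    have : mob (EM a b c) ((7 * a + s) / (14 * c)) =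
      (7 * a * ((7 * a + s) / (14 * c)) + b) / jj (EM a b c) ((7 * a + s) / (14 * c)) := by
      simp [mob, EM, jj]
    rw [this, hj]
    have hC : (7 * (a : ℂ) ^ 2 + 2 * b * c) = -1 := by exact_mod_cast h
    field_simp
    linear_combination 7 * hC - hs
  have h7 : (0 : ℝ) < √7 := by positivity
  have hsq : ((√7 : ℝ) : ℂ) ^ 2 = 7 := by
    rw [← Complex.ofReal_pow, Real.sq_sqrt (by norm_num)]; norm_num
  rcases lt_or_gt_of_ne hc with hc' | hc'
  · refine ⟨(7 * a + (-(√7 : ℝ) * I)) / (14 * c), ?_, key _ ?_⟩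
    · have : ((7 * (a : ℂ) + (-(√7 : ℝ) * I)) / (14 * c)).im = -(√7) / (14 * c) := by
        have e : (14 * (c : ℂ)) = ((14 * c : ℝ) : ℂ) := by push_cast; ring
        rw [e, Complex.div_ofReal_im]
        simp
      rw [this]
      apply div_pos_of_neg_of_neg
      · linarith
      · have : (c : ℝ) < 0 := by exact_mod_cast hc'
        linarith
    · rw [mul_pow, neg_pow, hsq, I_sq]; norm_num
  · refine ⟨(7 * a + ((√7 : ℝ) * I)) / (14 * c), ?_, key _ ?_⟩
    · have : ((7 * (a : ℂ) + ((√7 : ℝ) * I)) / (14 * c)).im = (√7) / (14 * c) := by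
        have e : (14 * (c : ℂ)) = ((14 * c : ℝ) : ℂ) := by push_cast; ring
        rw [e, Complex.div_ofReal_im]
        simp
      rw [this]
      have : (0 : ℝ) < c := by exact_mod_cast hc'
      positivity
    · rw [mul_pow, hsq, I_sq]; norm_num

theorem EM_TF : TF (-1) (EM a b c) := by
  have hdet := EM_det h
  have hdet' : 0 < (EM a b c).det := by rw [hdet]; norm_num
  set g : ℂ → ℂ := fun z ↦ etaF (mob (EM a b c) z) * 7 / (jj (EM a b c) z ^ 2 * etaF z) with hg
  have hgc : ContinuousOn g {z | 0 < z.im} := by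
    intro z hz
    have hz' : 0 < z.im := hz
    have h1 : ContinuousAt (fun z ↦ etaF (mob (EM a b c) z)) z :=
      ContinuousAt.comp (g := etaF) (f := mob (EM a b c))
        (differentiableAt_etaF (mob_im_pos hdet' hz')).continuousAt
        (differentiableAt_mob hdet' hz').continuousAt
    have h2 : ContinuousAt (fun z ↦ jj (EM a b c) z) z := by unfold jj; fun_prop
    have h3 : ContinuousAt etaF z := (differentiableAt_etaF hz').continuousAt
    exact (ContinuousAt.div (h1.mul continuousAt_const) ((h2.pow 2).mul h3)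
      (mul_ne_zero (pow_ne_zero 2 (jj_ne_zero hdet' hz')) (etaF_ne_zero hz'))).continuousWithinAt
  have hg1 : ∀ z : ℂ, 0 < z.im → g z ^ 24 = 1 := by
    intro z hz
    have hj := jj_ne_zero hdet' hz
    have hf := etaF_ne_zero hz
    rw [hg]
    simp only
    rw [div_pow, div_eq_one_iff_eq (pow_ne_zero _ (mul_ne_zero (pow_ne_zero 2 hj) hf)), mul_pow,
      mul_pow]
    have e : etaF (mob (EM a b c) z) ^ 24 = (7 * (2 * c * z - a)) ^ 24 * (2 * c * z - a) ^ 24 *
        etaF z ^ 24 := by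
      unfold etaF
      rw [mul_pow, mul_pow, mul_pow, EM_eta1 h hz, EM_eta2 h hz, EM_eta7 h hz, EM_eta14 h hz]
      ring
    rw [e, EM_jj]
    ring
  obtain ⟨z₀, hz₀, hfix, hjj⟩ := EM_fixed h
  have hg0 : g z₀ = -1 := by
    simp only [hg, hfix, hjj]
    have := etaF_ne_zero hz₀
    field_simp
  intro z hz
  have := const_of_pow_eq_one (by norm_num) hgc hg1 hz hz₀
  rw [hg0] at this
  simp only [hg] at this
  rw [div_eq_iff (mul_ne_zero (pow_ne_zero 2 (jj_ne_zero hdet' hz)) (etaF_ne_zero hz))] at this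
  rw [hdet]
  push_cast
  rw [this]
  ring

theorem EM_TT : TT (EM a b c) := by
  have hdet := EM_det h
  have hdet' : 0 < (EM a b c).det := by rw [hdet]; norm_num
  set g : ℂ → ℂ := fun z ↦ etaT (mob (EM a b c) z) / etaT z with hg
  have hgc : ContinuousOn g {z | 0 < z.im} := by
    intro z hz
    have hz' : 0 < z.im := hz
    have h1 : ContinuousAt (fun z ↦ etaT (mob (EM a b c) z)) z :=
      ContinuousAt.comp (g := etaT) (f := mob (EM a b c))
        (differentiableAt_etaT (mob_im_pos hdet' hz')).continuousAt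
        (differentiableAt_mob hdet' hz').continuousAt
    have h3 : ContinuousAt etaT z := (differentiableAt_etaT hz').continuousAt
    exact (ContinuousAt.div h1 h3 (etaT_ne_zero hz')).continuousWithinAt
  have hg1 : ∀ z : ℂ, 0 < z.im → g z ^ 8 = 1 := by
    intro z hz
    have hj := jj_ne_zero hdet' hz
    have hf := etaT_ne_zero hz
    rw [EM_jj] at hj
    have hj' : 2 * (c : ℂ) * z - a ≠ 0 := by
      intro h0; exact hj (by rw [h0]; ring)
    rw [hg]
    simp only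
    rw [div_pow, div_eq_one_iff_eq (pow_ne_zero _ hf)]
    unfold etaT
    rw [← pow_mul, ← pow_mul, div_pow, div_pow, mul_pow, mul_pow, EM_eta1 h hz, EM_eta2 h hz,
      EM_eta7 h hz, EM_eta14 h hz, mul_pow, mul_pow]
    have h2 : η (2 * z) ≠ 0 := ModularForm.eta_ne_zero (im2 hz)
    have h4 : η (14 * z) ≠ 0 := ModularForm.eta_ne_zero (im14 hz)
    generalize η (2 * z) = x2 at *
    generalize η (14 * z) = x14 at *
    generalize η (7 * z) = x7 at *
    generalize η z = x1 at *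
    generalize 2 * (c : ℂ) * z - a = y at *
    field_simp
    ring
  obtain ⟨z₀, hz₀, hfix, hjj⟩ := EM_fixed h
  have hg0 : g z₀ = 1 := by
    simp only [hg, hfix]
    exact div_self (etaT_ne_zero hz₀)
  intro z hz
  have := const_of_pow_eq_one (by norm_num) hgc hg1 hz hz₀
  rw [hg0] at this
  simp only [hg] at this
  rwa [div_eq_one_iff_eq (etaT_ne_zero hz)] at this

end EM

/-! ### `z ↦ -1/(14z)` -/

/-- The Fricke matrix. -/
def W14 : Matrix (Fin 2) (Fin 2) ℤ := !![0, -1; 14, 0]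

theorem W14_det : W14.det = 14 := by simp [W14]

theorem csqrt_mul {r : ℝ} (hr : 0 < r) {z : ℂ} (hz : z ≠ 0) :
    sqrt (r * z) = (√r : ℝ) * sqrt z := by
  have hrz : (r : ℂ) * z ≠ 0 := mul_ne_zero (by exact_mod_cast hr.ne') hz
  rw [sqrt_eq_exp hrz, sqrt_eq_exp hz, Complex.log_ofReal_mul hr hz, add_div, Complex.exp_add]
  congr 1
  rw [Real.sqrt_eq_rpow, Real.rpow_def_of_pos hr]
  push_cast
  congr 1
  ring

theorem csqrt_sq {z : ℂ} (hz : z ≠ 0) : sqrt z ^ 2 = z := by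
  rw [sqrt_eq_exp hz, ← Complex.exp_nat_mul]
  push_cast
  rw [show (2 : ℂ) * (log z / 2) = log z by ring, Complex.exp_log hz]

theorem ne_zero_of_im {z : ℂ} (hz : 0 < z.im) : z ≠ 0 := by
  rintro rfl
  simp at hz

theorem mob_W14 (z : ℂ) : mob W14 z = -1 / (14 * z) := by
  simp [mob, W14]

theorem W14_eta {z : ℂ} (hz : 0 < z.im) :
    η (mob W14 z) = (sqrt I)⁻¹ * ((√14 : ℝ) * sqrt z * η (14 * z)) ∧
    η (2 * mob W14 z) = (sqrt I)⁻¹ * ((√7 : ℝ) * sqrt z * η (7 * z)) ∧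
    η (7 * mob W14 z) = (sqrt I)⁻¹ * ((√2 : ℝ) * sqrt z * η (2 * z)) ∧
    η (14 * mob W14 z) = (sqrt I)⁻¹ * (sqrt z * η z) := by
  have hz0 := ne_zero_of_im hz
  rw [mob_W14]
  refine ⟨?_, ?_, ?_, ?_⟩
  · rw [eta_S (im14 hz)]
    have := csqrt_mul (r := 14) (by norm_num) hz0
    rw [show (((14 : ℝ) : ℂ)) = 14 by norm_num] at this
    rw [this]
  · rw [show 2 * (-1 / (14 * z)) = -1 / (7 * z) by field_simp; norm_num, eta_S (im7 hz)]
    have := csqrt_mul (r := 7) (by norm_num) hz0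
    rw [show (((7 : ℝ) : ℂ)) = 7 by norm_num] at this
    rw [this]
  · rw [show 7 * (-1 / (14 * z)) = -1 / (2 * z) by field_simp; norm_num, eta_S (im2 hz)]
    have := csqrt_mul (r := 2) (by norm_num) hz0
    rw [show (((2 : ℝ) : ℂ)) = 2 by norm_num] at this
    rw [this]
  · rw [show 14 * (-1 / (14 * z)) = -1 / z by field_simp, eta_S hz]

theorem sqrt_prod : ((√14 : ℝ) : ℂ) = (√2 : ℝ) * (√7 : ℝ) := by
  rw [← Complex.ofReal_mul, ← Real.sqrt_mul (by norm_num)]
  norm_num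

theorem sqrt2_sq : (((√2 : ℝ) : ℂ)) ^ 2 = 2 := by
  rw [← Complex.ofReal_pow, Real.sq_sqrt (by norm_num)]; norm_num

theorem sqrt7_sq : (((√7 : ℝ) : ℂ)) ^ 2 = 7 := by
  rw [← Complex.ofReal_pow, Real.sq_sqrt (by norm_num)]; norm_num

theorem W14_TF : TF (-1) W14 := by
  intro z hz
  obtain ⟨e1, e2, e7, e14⟩ := W14_eta hz
  have hz0 := ne_zero_of_im hz
  have hs := csqrt_sq hz0
  have hI : sqrt I ^ 2 = I := csqrt_sq I_ne_zero
  have hI0 : sqrt I ≠ 0 := by
    intro h0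
    rw [h0] at hI
    simp at hI
    exact I_ne_zero hI.symm
  have hI4 : (sqrt I)⁻¹ ^ 4 = -1 := by
    rw [inv_pow, show sqrt I ^ 4 = (sqrt I ^ 2) ^ 2 by ring, hI, I_sq]
    norm_num
  unfold etaF
  rw [e1, e2, e7, e14, W14_det, sqrt_prod]
  have hj : jj W14 z = 14 * z := by simp [jj, W14]
  rw [hj]
  push_cast
  calc _ = ((sqrt I)⁻¹ ^ 4) * ((√2 : ℝ) ^ 2) * ((√7 : ℝ) ^ 2) * (sqrt z ^ 2) ^ 2 * 14 *
      (η z * η (2 * z) * η (7 * z) * η (14 * z)) := by ring
    _ = _ := by rw [hI4, sqrt2_sq, sqrt7_sq, hs]; ring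

theorem W14_TT {z : ℂ} (hz : 0 < z.im) : etaT (mob W14 z) = 8 / etaT z := by
  obtain ⟨e1, e2, e7, e14⟩ := W14_eta hz
  have hz0 := ne_zero_of_im hz
  have hs := csqrt_sq hz0
  have hI : sqrt I ^ 2 = I := csqrt_sq I_ne_zero
  have hI0 : sqrt I ≠ 0 := by
    intro h0
    rw [h0] at hI
    simp at hI
    exact I_ne_zero hI.symm
  have hs0 : sqrt z ≠ 0 := by
    intro h0
    rw [h0] at hs
    exact hz0 (by rw [← hs]; simp)
  have h1 : η z ≠ 0 := ModularForm.eta_ne_zero hz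
  have h2 : η (2 * z) ≠ 0 := ModularForm.eta_ne_zero (im2 hz)
  have h3 : η (7 * z) ≠ 0 := ModularForm.eta_ne_zero (im7 hz)
  have h4 : η (14 * z) ≠ 0 := ModularForm.eta_ne_zero (im14 hz)
  have hq2 := sqrt2_sq
  have h70 : (((√7 : ℝ) : ℂ)) ≠ 0 := by
    intro h0
    have := sqrt7_sq
    rw [h0] at this
    norm_num at this
  have h20 : (((√2 : ℝ) : ℂ)) ≠ 0 := by
    intro h0
    have := sqrt2_sq
    rw [h0] at this
    norm_num at this
  unfold etaT
  rw [e1, e2, e7, e14, sqrt_prod]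
  generalize η (2 * z) = x2 at *
  generalize η (14 * z) = x14 at *
  generalize η (7 * z) = x7 at *
  generalize η z = x1 at *
  generalize (((√2 : ℝ) : ℂ)) = r2 at *
  generalize (((√7 : ℝ) : ℂ)) = r7 at *
  have : (sqrt I)⁻¹ * (r2 * r7 * sqrt z * x14) * ((sqrt I)⁻¹ * (r2 * sqrt z * x2)) /
      ((sqrt I)⁻¹ * (r7 * sqrt z * x7) * ((sqrt I)⁻¹ * (sqrt z * x1))) =
      2 * (x2 * x14 / (x1 * x7)) := by
    field_simp
    rw [← hq2]
  rw [this]
  field_simp
  norm_num

end MP9c45e8
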