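import Pool.Agent.MP_9c45e8_nt.A2

/-!
Module A, part 3: invariance under `Γ₀(14)` and its Atkin-Lehner extensions.
-/

open Complex
open UpperHalfPlane hiding I
open scoped MatrixGroups Real ModularForm

namespace MP9c45e8

/-- Elements of `Γ₀(14)` fixing both functions. -/
structure HG (M : Matrix (Fin 2) (Fin 2) ℤ) : Prop where
  det : M.det = 1
  dvd : 14 ∣ M 1 0
  tf : TF 1 M
  tt : TT M

theorem HG.pos {M : Matrix (Fin 2) (Fin 2) ℤ} (h : HG M) : 0 < M.det := by
  rw [h.det]; norm_num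

theorem HG.mul {M N : Matrix (Fin 2) (Fin 2) ℤ} (hM : HG M) (hN : HG N) : HG (M * N) where
  det := by rw [Matrix.det_mul, hM.det, hN.det, mul_one]
  dvd := by
    rw [Matrix.mul_apply, Fin.sum_univ_two]
    exact dvd_add (Dvd.dvd.mul_right hM.dvd _) (Dvd.dvd.mul_left hN.dvd _)
  tf := by simpa using TF.mul hM.pos hN.pos hM.tf hN.tf
  tt := TT.mul hM.pos hN.pos hM.tt hN.tt

theorem mob_one (z : ℂ) : mob 1 z = z := by simp [mob]
theorem jj_one (z : ℂ) : jj 1 z = 1 := by simp [jj]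

theorem HG.one : HG 1 where
  det := Matrix.det_one
  dvd := by simp
  tf := by intro z hz; simp [mob_one, jj_one]
  tt := by intro z hz; simp [mob_one]

theorem HG.neg {M : Matrix (Fin 2) (Fin 2) ℤ} (hM : HG M) : HG (-M) := by
  have e : M = (-1 : ℤ) • (-M) := by simp
  refine ⟨?_, ?_, ?_, ?_⟩
  · rw [Matrix.det_neg, hM.det]; simp
  · have := hM.dvd; simpa using this
  · exact TF.of_smul (k := -1) (by norm_num) (e ▸ hM.tf)
  · exact TT.of_smul (k := -1) (by norm_num) (e ▸ hM.tt)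

theorem HG.adj {M : Matrix (Fin 2) (Fin 2) ℤ} (hM : HG M) : HG M.adjugate := by
  have hd : M.adjugate.det = 1 := by rw [Matrix.det_adjugate, hM.det]; simp
  have hd' : 0 < M.adjugate.det := by rw [hd]; norm_num
  have key : ∀ z : ℂ, 0 < z.im → mob M (mob M.adjugate z) = z ∧
      jj M (mob M.adjugate z) * jj M.adjugate z = 1 := by
    intro z hz
    have h1 := mob_mul hM.pos hd' hz
    have h2 := jj_mul (M := M) hd' hz
    rw [Matrix.mul_adjugate, hM.det, one_smul] at h1 h2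
    rw [← h1, ← h2, mob_one, jj_one]
    exact ⟨rfl, rfl⟩
  refine ⟨hd, ?_, ?_, ?_⟩
  · rw [Matrix.adjugate_fin_two]
    simpa using hM.dvd
  · intro z hz
    obtain ⟨k1, k2⟩ := key z hz
    have h1 := hM.tf _ (mob_im_pos hd' hz)
    rw [k1, hM.det] at h1
    rw [hd]
    simp only [Int.cast_one, mul_one, one_mul] at h1 ⊢
    rw [h1]
    calc _ = (jj M (mob M.adjugate z) * jj M.adjugate z) ^ 2 * etaF (mob M.adjugate z) := by
          rw [k2]; ring
      _ = _ := by ring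
  · intro z hz
    obtain ⟨k1, k2⟩ := key z hz
    have h1 := hM.tt _ (mob_im_pos hd' hz)
    rw [k1] at h1
    exact h1.symm

theorem HG.T : HG !![1, 1; 0, 1] where
  det := by simp
  dvd := by simp
  tf := by
    intro z hz
    simp [mob, jj, etaF_add_one]
  tt := by
    intro z hz
    simp [mob, etaT_add_one]

theorem HG.EE {a b c a' b' c' : ℤ} (h : 7 * a ^ 2 + 2 * b * c = -1)
    (h' : 7 * a' ^ 2 + 2 * b' * c' = -1) {M : Matrix (Fin 2) (Fin 2) ℤ} (hd : M.det = 1)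
    (hdvd : 14 ∣ M 1 0) (hM : (7 : ℤ) • M = EM a b c * EM a' b' c') : HG M := by
  have p1 : 0 < (EM a b c).det := by rw [EM_det h]; norm_num
  have p2 : 0 < (EM a' b' c').det := by rw [EM_det h']; norm_num
  refine ⟨hd, hdvd, ?_, ?_⟩
  · have := TF.mul p1 p2 (EM_TF h) (EM_TF h')
    rw [← hM] at this
    simpa using TF.of_smul (by norm_num) this
  · have := TT.mul p1 p2 (EM_TT h) (EM_TT h')
    rw [← hM] at this
    exact TT.of_smul (by norm_num) this

/-- coset representatives of `Γ₀(14)` in `SL₂(ℤ)` -/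
def reps : List (Matrix (Fin 2) (Fin 2) ℤ) :=
  [!![1, 0; 0, 1], !![0, -1; 1, 0], !![0, -1; 1, 1], !![0, -1; 1, -1], !![0, -1; 1, 2],
    !![0, -1; 1, -2], !![-1, 0; 2, -1], !![0, -1; 1, 3], !![-1, 0; -2, -1], !![0, -1; 1, -3],
    !![-1, 1; 2, -3], !![-1, 0; 3, -1], !![0, -1; 1, 4], !![-1, -1; -2, -3], !![-1, 0; -3, -1],
    !![0, -1; 1, -4], !![-1, 2; 2, -5], !![-1, 1; 3, -4], !![-1, -2; -2, -5], !![-1, -1; -3, -4],
    !![-1, 3; 2, -7], !![-1, 2; 3, -7], !![3, 1; -7, -2], !![2, 1; -7, -3]]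

def g1 : Matrix (Fin 2) (Fin 2) ℤ := !![5, -1; -14, 3]
def g2 : Matrix (Fin 2) (Fin 2) ℤ := !![5, 1; 14, 3]
def g3 : Matrix (Fin 2) (Fin 2) ℤ := !![13, 6; 28, 13]
def g4 : Matrix (Fin 2) (Fin 2) ℤ := !![13, 4; 42, 13]
def g5 : Matrix (Fin 2) (Fin 2) ℤ := !![19, 5; -42, -11]
def g6 : Matrix (Fin 2) (Fin 2) ℤ := !![23, 7; -56, -17]

def goods0 : List (Matrix (Fin 2) (Fin 2) ℤ) := [1, !![1, 1; 0, 1], g1, g2, g3, g4, g5, g6]

def goods : List (Matrix (Fin 2) (Fin 2) ℤ) :=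
  (goods0 ++ goods0.map Matrix.adjugate) ++ (goods0 ++ goods0.map Matrix.adjugate).map (- ·)

theorem table : ∀ r ∈ reps, ∀ s ∈ [!![0, -1; 1, 0], !![0, 1; -1, 0], !![1, 1; 0, 1],
    !![1, -1; 0, (1 : ℤ)]], ∃ r' ∈ reps, r * s * !![r' 1 1, -r' 0 1; -r' 1 0, r' 0 0] ∈ goods := by
  decide +kernel

theorem reps_one : ∀ r ∈ reps, 14 ∣ r 1 0 → r = 1 := by decide +kernel

theorem reps_det : ∀ r ∈ reps, r.det = 1 := by
  intro r hr
  simp only [reps, List.mem_cons, List.not_mem_nil, or_false] at hr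
  rcases hr with rfl | rfl | rfl | rfl | rfl | rfl | rfl | rfl | rfl | rfl | rfl | rfl | rfl | rfl |
    rfl | rfl | rfl | rfl | rfl | rfl | rfl | rfl | rfl | rfl <;> simp

theorem HG_g1 : HG g1 := by
  have hP : HG !![-9, 2; -14, 3] := HG.EE (a := -1) (b := 4) (c := -1) (a' := -1) (b' := 2)
    (c' := -2) (by norm_num) (by norm_num) (by decide +kernel) (by decide +kernel) (by decide +kernel)
  have h := (HG.T.adj.mul hP)
  have e : g1 = ((!![1, 1; 0, 1] : Matrix (Fin 2) (Fin 2) ℤ).adjugate * !![-9, 2; -14, 3]) := by decide +kernel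
  rw [e]; exact h

theorem HG_g2 : HG g2 := by
  have hP : HG !![5, -4; 14, -11] := HG.EE (a := -1) (b := 4) (c := -1) (a' := -3) (b' := 16)
    (c' := -2) (by norm_num) (by norm_num) (by decide +kernel) (by decide +kernel) (by decide +kernel)
  have h := (hP.mul HG.T)
  have e : g2 = (!![5, -4; 14, -11] * !![1, 1; 0, 1]) := by decide +kernel
  rw [e]; exact h

theorem HG_g3 : HG g3 := by
  have hP : HG !![15, -8; -28, 15] := HG.EE (a := -1) (b := -4) (c := 1) (a' := -1) (b' := 4)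
    (c' := -1) (by norm_num) (by norm_num) (by decide +kernel) (by decide +kernel) (by decide +kernel)
  have hP := hP.neg
  have h := (HG.T.mul (hP.mul HG.T))
  have e : g3 = (!![1, 1; 0, 1] * ((-!![15, -8; -28, 15]) * !![1, 1; 0, 1])) := by decide +kernel
  rw [e]; exact h

theorem HG_g4 : HG g4 := by
  have hP : HG !![13, -9; 42, -29] := HG.EE (a := -5) (b := 11) (c := -8) (a' := -1) (b' := 4)
    (c' := -1) (by norm_num) (by norm_num) (by decide +kernel) (by decide +kernel) (by decide +kernel)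
  have h := (hP.mul HG.T)
  have e : g4 = (!![13, -9; 42, -29] * !![1, 1; 0, 1]) := by decide +kernel
  rw [e]; exact h

theorem HG_g5 : HG g5 := by
  have hP : HG !![23, 6; 42, 11] := HG.EE (a := -1) (b := 4) (c := -1) (a' := -1) (b' := -2)
    (c' := 2) (by norm_num) (by norm_num) (by decide +kernel) (by decide +kernel) (by decide +kernel)
  have hP := hP.neg
  have h := (HG.T.adj.mul hP)
  have e : g5 = ((!![1, 1; 0, 1] : Matrix (Fin 2) (Fin 2) ℤ).adjugate * (-!![23, 6; 42, 11])) := by decide +kernel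
  rw [e]; exact h

theorem HG_g6 : HG g6 := by
  have hP : HG !![-23, -7; 56, 17] := HG.EE (a := -3) (b := -8) (c := 4) (a' := -5) (b' := -11)
    (c' := 8) (by norm_num) (by norm_num) (by decide +kernel) (by decide +kernel) (by decide +kernel)
  have hP := hP.neg
  have h := hP
  have e : g6 = (-!![-23, -7; 56, 17]) := by decide +kernel
  rw [e]; exact h

theorem goods0_HG : ∀ g ∈ goods0, HG g := by
  intro g hg
  simp only [goods0, List.mem_cons, List.not_mem_nil, or_false] at hg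
  rcases hg with rfl | rfl | rfl | rfl | rfl | rfl | rfl | rfl
  · exact HG.one
  · exact HG.T
  · exact HG_g1
  · exact HG_g2
  · exact HG_g3
  · exact HG_g4
  · exact HG_g5
  · exact HG_g6

theorem goods_HG : ∀ g ∈ goods, HG g := by
  have h0 := goods0_HG
  have h1 : ∀ g ∈ goods0 ++ goods0.map Matrix.adjugate, HG g := by
    intro g hg
    rw [List.mem_append, List.mem_map] at hg
    rcases hg with hg | ⟨g', hg', rfl⟩
    · exact h0 g hg
    · exact (h0 g' hg').adj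
  intro g hg
  rw [goods, List.mem_append, List.mem_map] at hg
  rcases hg with hg | ⟨g', hg', rfl⟩
  · exact h1 g hg
  · exact (h1 g' hg').neg

theorem reps_mul_adj {r : Matrix (Fin 2) (Fin 2) ℤ} (hr : r.det = 1) :
    !![r 1 1, -r 0 1; -r 1 0, r 0 0] * r = 1 := by
  have := Matrix.adjugate_mul r
  rw [hr, one_smul, Matrix.adjugate_fin_two] at this
  exact this

theorem step {γ s : Matrix (Fin 2) (Fin 2) ℤ}
    (hs : s ∈ [!![0, -1; 1, 0], !![0, 1; -1, 0], !![1, 1; 0, 1], !![1, -1; 0, (1 : ℤ)]])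
    (h : ∃ h r, HG h ∧ r ∈ reps ∧ γ = h * r) : ∃ h r, HG h ∧ r ∈ reps ∧ γ * s = h * r := by
  obtain ⟨h, r, hh, hr, rfl⟩ := h
  obtain ⟨r', hr', hg⟩ := table r hr s hs
  refine ⟨h * (r * s * !![r' 1 1, -r' 0 1; -r' 1 0, r' 0 0]), r', hh.mul (goods_HG _ hg), hr', ?_⟩
  rw [mul_assoc, mul_assoc, mul_assoc, mul_assoc, reps_mul_adj (reps_det r' hr'), mul_one]

theorem exists_decomp (γ : SL(2, ℤ)) :
    ∃ h r, HG h ∧ r ∈ reps ∧ (γ : Matrix (Fin 2) (Fin 2) ℤ) = h * r := by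
  have hγ : γ ∈ Subgroup.closure {ModularGroup.S, ModularGroup.T} := by
    rw [SpecialLinearGroup.SL2Z_generators]; trivial
  induction hγ using Subgroup.closure_induction_right with
  | one => exact ⟨1, 1, HG.one, by simp [reps, Matrix.one_fin_two], by simp⟩
  | mul_right x hx y hy ih =>
    rw [Matrix.SpecialLinearGroup.coe_mul]
    refine step ?_ ih
    rcases hy with rfl | rfl
    · simp [ModularGroup.S]
    · simp [ModularGroup.T]
  | mul_inv_cancel x hx y hy ih =>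
    rw [Matrix.SpecialLinearGroup.coe_mul, Matrix.SpecialLinearGroup.coe_inv]
    refine step ?_ ih
    rcases hy with rfl | rfl
    · simp [ModularGroup.S, Matrix.adjugate_fin_two]
    · simp [ModularGroup.T, Matrix.adjugate_fin_two]

/-- `F` and `T` are invariant under `Γ₀(14)`. -/
theorem HG_of_Gamma0 {M : Matrix (Fin 2) (Fin 2) ℤ} (hdet : M.det = 1) (h14 : 14 ∣ M 1 0) :
    HG M := by
  obtain ⟨h, r, hh, hr, e⟩ := exists_decomp ⟨M, hdet⟩
  have e : M = h * r := e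
  have h2 : r = h.adjugate * M := by
    rw [e, ← mul_assoc, Matrix.adjugate_mul, hh.det, one_smul, one_mul]
  have h3 : 14 ∣ r 1 0 := by
    rw [h2, Matrix.mul_apply, Fin.sum_univ_two]
    exact dvd_add (Dvd.dvd.mul_right hh.adj.dvd _) (Dvd.dvd.mul_left h14 _)
  rw [reps_one r hr h3, mul_one] at e
  rw [e]
  exact hh

/-! ### Atkin-Lehner type matrices -/

theorem AL1 {M : Matrix (Fin 2) (Fin 2) ℤ} (hdet : M.det = 1) (h14 : 14 ∣ M 1 0) :
    TF 1 M ∧ TT M := ⟨(HG_of_Gamma0 hdet h14).tf, (HG_of_Gamma0 hdet h14).tt⟩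

theorem W7_sq : EM (-1) 4 (-1) * EM (-1) 4 (-1) = (-7 : ℤ) • 1 := by decide +kernel

theorem AL7 {M : Matrix (Fin 2) (Fin 2) ℤ} (hdet : M.det = 7) (h0 : 7 ∣ M 0 0)
    (h1 : 7 ∣ M 1 1) (h14 : 14 ∣ M 1 0) : TF (-1) M ∧ TT M := by
  obtain ⟨x, hx⟩ := h0
  obtain ⟨w, hw⟩ := h1
  obtain ⟨z, hz⟩ := h14
  set y := M 0 1 with hy
  have hM : M = !![7 * x, y; 14 * z, 7 * w] := by
    ext i j; fin_cases i <;> fin_cases j <;> simp [hx, hw, hz, hy]
  have hd : 7 * x * w - 2 * y * z = 1 := by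
    rw [hM, Matrix.det_fin_two_of] at hdet
    linarith
  set G : Matrix (Fin 2) (Fin 2) ℤ := !![-7 * x + 8 * z, -y + 4 * w; -14 * x + 14 * z,
    -2 * y + 7 * w] with hG
  have hG1 : HG G := by
    apply HG_of_Gamma0
    · rw [hG, Matrix.det_fin_two_of]
      linear_combination hd
    · rw [hG]
      exact ⟨-x + z, by simp; ring⟩
  have hh : 7 * (-1 : ℤ) ^ 2 + 2 * 4 * (-1) = -1 := by norm_num
  have e : (-1 : ℤ) • M = EM (-1) 4 (-1) * G := by
    rw [hM, hG, EM]
    ext i j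
    fin_cases i <;> fin_cases j <;> simp [Matrix.mul_apply, Fin.sum_univ_two] <;> ring
  have hp : 0 < (EM (-1) 4 (-1)).det := by rw [EM_det hh]; norm_num
  constructor
  · have := TF.mul hp hG1.pos (EM_TF hh) hG1.tf
    rw [← e, mul_one] at this
    exact TF.of_smul (by norm_num) this
  · have := TT.mul hp hG1.pos (EM_TT hh) hG1.tt
    rw [← e] at this
    exact TT.of_smul (by norm_num) this

theorem AL14 {M : Matrix (Fin 2) (Fin 2) ℤ} (hdet : M.det = 14) (h0 : 14 ∣ M 0 0)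
    (h1 : 14 ∣ M 1 1) (h14 : 14 ∣ M 1 0) :
    TF (-1) M ∧ ∀ z : ℂ, 0 < z.im → etaT (mob M z) = 8 / etaT z := by
  obtain ⟨x, hx⟩ := h0
  obtain ⟨w, hw⟩ := h1
  obtain ⟨z, hz⟩ := h14
  set y := M 0 1 with hy
  have hM : M = !![14 * x, y; 14 * z, 14 * w] := by
    ext i j; fin_cases i <;> fin_cases j <;> simp [hx, hw, hz, hy]
  have hd : 14 * x * w - y * z = 1 := by
    rw [hM, Matrix.det_fin_two_of] at hdet
    linarith
  set G : Matrix (Fin 2) (Fin 2) ℤ := !![z, w; -14 * x, -y] with hG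
  have hG1 : HG G := by
    apply HG_of_Gamma0
    · rw [hG, Matrix.det_fin_two_of]
      linear_combination hd
    · rw [hG]
      exact ⟨-x, by simp⟩
  have e : M = W14 * G := by
    rw [hM, hG, W14]
    ext i j
    fin_cases i <;> fin_cases j <;> simp [Matrix.mul_apply, Fin.sum_univ_two]
  have hp : 0 < W14.det := by rw [W14_det]; norm_num
  constructor
  · have := TF.mul hp hG1.pos W14_TF hG1.tf
    rwa [← e, mul_one] at this
  · intro u hu
    rw [e, mob_mul hp hG1.pos hu, W14_TT (mob_im_pos hG1.pos hu), hG1.tt u hu]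

theorem AL2 {M : Matrix (Fin 2) (Fin 2) ℤ} (hdet : M.det = 2) (h0 : 2 ∣ M 0 0)
    (h1 : 2 ∣ M 1 1) (h14 : 14 ∣ M 1 0) :
    TF 1 M ∧ ∀ z : ℂ, 0 < z.im → etaT (mob M z) = 8 / etaT z := by
  obtain ⟨x, hx⟩ := h0
  obtain ⟨w, hw⟩ := h1
  obtain ⟨z, hz⟩ := h14
  set y := M 0 1 with hy
  have hM : M = !![2 * x, y; 14 * z, 2 * w] := by
    ext i j; fin_cases i <;> fin_cases j <;> simp [hx, hw, hz, hy]
  have hd : 2 * x * w - 7 * y * z = 1 := by
    rw [hM, Matrix.det_fin_two_of] at hdet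
    linarith
  set G : Matrix (Fin 2) (Fin 2) ℤ := !![7 * z, w; -14 * x, -7 * y] with hG
  have hdetG : G.det = 7 := by
    rw [hG, Matrix.det_fin_two_of]
    linear_combination 7 * hd
  obtain ⟨hG1, hG2⟩ := AL7 (M := G) hdetG
    (by rw [hG]; exact ⟨z, by simp⟩)
    (by rw [hG]; exact ⟨-y, by simp⟩)
    (by rw [hG]; exact ⟨-x, by simp⟩)
  have hGp : 0 < G.det := by rw [hdetG]; norm_num
  have e : (7 : ℤ) • M = W14 * G := by
    rw [hM, hG, W14]
    ext i j
    fin_cases i <;> fin_cases j <;> simp [Matrix.mul_apply, Fin.sum_univ_two] <;> ring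
  have hp : 0 < W14.det := by rw [W14_det]; norm_num
  constructor
  · have := TF.mul hp hGp W14_TF hG1
    rw [← e] at this
    simpa using TF.of_smul (by norm_num) this
  · intro u hu
    rw [← mob_smul (k := 7) (by norm_num) M u, e, mob_mul hp hGp hu,
      W14_TT (mob_im_pos hGp hu), hG2 u hu]

end MP9c45e8
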