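import Pool.Agent.MP_9c45e8_nt.Q

/-!
Module C, part 1: the function `P = v² - (s+5)(s+9)` and its invariance.
-/

open Complex Filter
open UpperHalfPlane hiding I
open scoped MatrixGroups Real ModularForm Topology

noncomputable section

namespace MP9c45e8

/-- `w = (D T)/F` -/
def wW (z : ℂ) : ℂ := deriv etaT z / (2 * π * I * etaF z)

theorem two_pi_I_ne : (2 * π * I : ℂ) ≠ 0 := by
  simp [Real.pi_ne_zero, I_ne_zero]

theorem hasDerivAt_mobC {M : Matrix (Fin 2) (Fin 2) ℤ} (hM : 0 < M.det) {z : ℂ}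
    (hz : 0 < z.im) : HasDerivAt (mob M) (M.det / jj M z ^ 2) z := by
  have hj := jj_ne_zero hM hz
  have h1 : HasDerivAt (fun z : ℂ ↦ (M 0 0 : ℂ) * z + M 0 1) (M 0 0 : ℂ) z := by
    simpa using ((hasDerivAt_id z).const_mul (M 0 0 : ℂ)).add_const (M 0 1 : ℂ)
  have h2 : HasDerivAt (fun z : ℂ ↦ (M 1 0 : ℂ) * z + M 1 1) (M 1 0 : ℂ) z := by
    simpa using ((hasDerivAt_id z).const_mul (M 1 0 : ℂ)).add_const (M 1 1 : ℂ)
  have h3 := h1.div h2 hj
  refine h3.congr_deriv ?_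
  rw [Matrix.det_fin_two]
  simp only [jj]
  congr 1
  push_cast
  ring

theorem isOpen_H' : IsOpen {z : ℂ | 0 < z.im} := isOpen_H

theorem deriv_etaT_mob {M : Matrix (Fin 2) (Fin 2) ℤ} (hM : 0 < M.det) {z : ℂ}
    (hz : 0 < z.im) : deriv (fun z ↦ etaT (mob M z)) z =
      deriv etaT (mob M z) * (M.det / jj M z ^ 2) :=
  (HasDerivAt.comp z (differentiableAt_etaT (mob_im_pos hM hz)).hasDerivAt
    (hasDerivAt_mobC hM hz)).deriv

theorem etaF_mob_eq {Q : ℤ} {M : Matrix (Fin 2) (Fin 2) ℤ} (hQ : QQ Q) (hM : IsAL Q M)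
    {z : ℂ} (hz : 0 < z.im) : etaF (mob M z) = epsQ Q * jj M z ^ 2 * etaF z / M.det := by
  have hdet : (M.det : ℂ) ≠ 0 := by exact_mod_cast (hM.pos hQ).ne'
  rw [eq_div_iff hdet, hM.tf hQ z hz]

theorem wW_AL_left {Q : ℤ} {M : Matrix (Fin 2) (Fin 2) ℤ} (hQ : QQ Q) (hM : IsAL Q M)
    (h : ∀ z : ℂ, 0 < z.im → etaT (mob M z) = etaT z) {z : ℂ} (hz : 0 < z.im) :
    wW (mob M z) = epsQ Q * wW z := by
  have hp := hM.pos hQ
  have hsq := epsQ_sq Q
  have he := epsQ_ne_zero Q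
  have hdet : (M.det : ℂ) ≠ 0 := by exact_mod_cast hp.ne'
  have hd := deriv_etaT_mob hp hz
  have hcongr : (fun z ↦ etaT (mob M z)) =ᶠ[𝓝 z] etaT := by
    filter_upwards [isOpen_H.mem_nhds hz] with u hu using h u hu
  rw [hcongr.deriv_eq] at hd
  have hj := jj_ne_zero hp hz
  have hf := etaF_ne_zero hz
  have h2 := two_pi_I_ne
  unfold wW
  rw [etaF_mob_eq hQ hM hz, hd]
  generalize deriv etaT (mob M z) = D
  generalize (2 * π * I : ℂ) = c at *
  field_simp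
  rw [hsq, mul_one]

theorem wW_AL_right {Q : ℤ} {M : Matrix (Fin 2) (Fin 2) ℤ} (hQ : QQ Q) (hM : IsAL Q M)
    (h : ∀ z : ℂ, 0 < z.im → etaT (mob M z) = 8 / etaT z) {z : ℂ} (hz : 0 < z.im) :
    wW (mob M z) = -epsQ Q * 8 * wW z / etaT z ^ 2 := by
  have hp := hM.pos hQ
  have hsq := epsQ_sq Q
  have he := epsQ_ne_zero Q
  have hdet : (M.det : ℂ) ≠ 0 := by exact_mod_cast hp.ne'
  have hd := deriv_etaT_mob hp hz
  have hcongr : (fun z ↦ etaT (mob M z)) =ᶠ[𝓝 z] (fun z ↦ 8 / etaT z) := by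
    filter_upwards [isOpen_H.mem_nhds hz] with u hu using h u hu
  have hd2 : deriv (fun z ↦ 8 / etaT z) z = -8 * deriv etaT z / etaT z ^ 2 := by
    rw [deriv_fun_div (by fun_prop) (differentiableAt_etaT hz) (etaT_ne_zero hz)]
    simp
  rw [hcongr.deriv_eq, hd2] at hd
  have hj := jj_ne_zero hp hz
  have hf := etaF_ne_zero hz
  have ht := etaT_ne_zero hz
  have h2 := two_pi_I_ne
  have hd3 : deriv etaT (mob M z) = -8 * deriv etaT z / etaT z ^ 2 * jj M z ^ 2 / M.det := by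
    rw [hd]
    field_simp
  unfold wW
  rw [etaF_mob_eq hQ hM hz, hd3]
  generalize deriv etaT z = D
  generalize (2 * π * I : ℂ) = c at *
  field_simp
  rw [hsq, mul_one]

theorem wW_AL {Q : ℤ} {M : Matrix (Fin 2) (Fin 2) ℤ} (hQ : QQ Q) (hM : IsAL Q M) :
    ((∀ z : ℂ, 0 < z.im → etaT (mob M z) = etaT z) ∧
      (∀ z : ℂ, 0 < z.im → wW (mob M z) = epsQ Q * wW z)) ∨
    ((∀ z : ℂ, 0 < z.im → etaT (mob M z) = 8 / etaT z) ∧
      (∀ z : ℂ, 0 < z.im → wW (mob M z) = -epsQ Q * 8 * wW z / etaT z ^ 2)) := by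
  rcases hM.tt hQ with h | h
  · exact Or.inl ⟨h, fun z hz ↦ wW_AL_left hQ hM h hz⟩
  · exact Or.inr ⟨h, fun z hz ↦ wW_AL_right hQ hM h hz⟩

/-- `P = (w/t)² - (t + 8/t + 5)(t + 8/t + 9)` -/
def PP (z : ℂ) : ℂ :=
  (wW z / etaT z) ^ 2 - (etaT z + 8 / etaT z + 5) * (etaT z + 8 / etaT z + 9)

theorem PP_AL {Q : ℤ} {M : Matrix (Fin 2) (Fin 2) ℤ} (hQ : QQ Q) (hM : IsAL Q M)
    {z : ℂ} (hz : 0 < z.im) : PP (mob M z) = PP z := by
  have hsq := epsQ_sq Q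
  have ht := etaT_ne_zero hz
  rcases wW_AL hQ hM with ⟨h1, h2⟩ | ⟨h1, h2⟩
  · unfold PP
    rw [h1 z hz, h2 z hz, mul_div_assoc, mul_pow, hsq, one_mul]
  · unfold PP
    rw [h1 z hz, h2 z hz]
    have e1 : -(epsQ Q : ℂ) * 8 * wW z / etaT z ^ 2 / (8 / etaT z) =
      -(epsQ Q : ℂ) * (wW z / etaT z) := by
      field_simp
    have e2 : 8 / (8 / etaT z) = etaT z := by field_simp
    rw [e1, e2, mul_pow, neg_sq, hsq, one_mul, add_comm (8 / etaT z) (etaT z)]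

theorem differentiableOn_wW : DifferentiableOn ℂ wW {z | 0 < z.im} := by
  unfold wW
  refine (differentiableOn_etaT.deriv isOpen_H).div ?_ ?_
  · exact differentiableOn_etaF.const_mul _
  · intro z hz
    exact mul_ne_zero two_pi_I_ne (etaF_ne_zero hz)

theorem differentiableOn_PP : DifferentiableOn ℂ PP {z | 0 < z.im} := by
  have h1 := differentiableOn_wW
  have h2 := differentiableOn_etaT
  have h3 : ∀ z ∈ {z : ℂ | 0 < z.im}, etaT z ≠ 0 := fun z hz ↦ etaT_ne_zero hz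
  unfold PP
  have h4 : DifferentiableOn ℂ (fun z ↦ 8 / etaT z) {z | 0 < z.im} :=
    (differentiableOn_const _).div h2 h3
  exact ((h1.div h2 h3).pow 2).sub (((h2.add h4).add_const _).mul ((h2.add h4).add_const _))

end MP9c45e8
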