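import Pool.Agent.MP_9c45e8_nt.C2
import Pool.Agent.MP_9c45e8_nt.F2

/-!
Module C, part 3: `℘(FF z) = X z`.
-/

open Complex Filter
open UpperHalfPlane hiding I
open PeriodPair
open scoped MatrixGroups Real ModularForm Topology

noncomputable section

namespace MP9c45e8

/-- `T` as a function of `q` -/
def Tq (q : ℂ) : ℂ := tau q / q
/-- `w` as a function of `q` -/
def Wq (q : ℂ) : ℂ := aa q / (q ^ 2 * phi q)
/-- `X = x + 1/12` as a function of `q` -/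
def Xq (q : ℂ) : ℂ := (Tq q ^ 2 + 7 * Tq q - Wq q) / 2 + 61 / 12

/-- `X = x + 1/12` on `ℍ` -/
def XX (z : ℂ) : ℂ := (etaT z ^ 2 + 7 * etaT z - wW z) / 2 + 61 / 12

theorem XX_eq {z : ℂ} (hz : 0 < z.im) : XX z = Xq (qq z) := by
  rw [XX, Xq, etaT_eq hz, wW_eq hz, Tq, Wq]

theorem Wq_sq {q : ℂ} (h0 : q ≠ 0) (h1 : ‖q‖ < 1) :
    Wq q ^ 2 = (Tq q + 1) * (Tq q + 8) * (Tq q ^ 2 + 5 * Tq q + 8) := by
  obtain ⟨z, hz, rfl⟩ := exists_qq h0 h1
  have := wW_sq hz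
  rw [wW_eq hz, etaT_eq hz] at this
  exact this

theorem hasDerivAt_Tq {q : ℂ} (h0 : q ≠ 0) (h1 : ‖q‖ < 1) :
    HasDerivAt Tq (Wq q * phi q) q := by
  have hp := phi_ne_zero h1
  have h := (differentiableAt_tau h1).hasDerivAt.div (hasDerivAt_id q) h0
  refine h.congr_deriv ?_
  rw [Wq, aa]
  simp only [id]
  field_simp

theorem analyticAt_tau_zero : AnalyticAt ℂ tau 0 :=
  differentiableOn_tau.analyticAt (Metric.isOpen_ball.mem_nhds (by simp))

theorem analyticAt_phi_zero : AnalyticAt ℂ phi 0 :=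
  differentiableOn_phi.analyticAt (Metric.isOpen_ball.mem_nhds (by simp))

theorem analyticAt_tau {q : ℂ} (h1 : ‖q‖ < 1) : AnalyticAt ℂ tau q :=
  differentiableOn_tau.analyticAt (Metric.isOpen_ball.mem_nhds (by simpa using h1))

theorem analyticAt_phi {q : ℂ} (h1 : ‖q‖ < 1) : AnalyticAt ℂ phi q :=
  differentiableOn_phi.analyticAt (Metric.isOpen_ball.mem_nhds (by simpa using h1))

theorem analyticAt_aa {q : ℂ} (h1 : ‖q‖ < 1) : AnalyticAt ℂ aa q := by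
  unfold aa
  exact (analyticAt_id.mul (analyticAt_tau h1).deriv).sub (analyticAt_tau h1)

theorem differentiableAt_Wq {q : ℂ} (h0 : q ≠ 0) (h1 : ‖q‖ < 1) : DifferentiableAt ℂ Wq q := by
  have hp := phi_ne_zero h1
  unfold Wq
  exact (analyticAt_aa h1).differentiableAt.div
    ((by fun_prop : DifferentiableAt ℂ (fun q : ℂ ↦ q ^ 2) q).mul (differentiableAt_phi h1))
    (mul_ne_zero (pow_ne_zero 2 h0) hp)

/-- `2 w w' = Q'(t) t'`. -/
theorem deriv_Wq {q : ℂ} (h0 : q ≠ 0) (h1 : ‖q‖ < 1) (hW : Wq q ≠ 0) :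
    deriv Wq q = (4 * Tq q ^ 3 + 42 * Tq q ^ 2 + 122 * Tq q + 112) * phi q / 2 := by
  have hT := hasDerivAt_Tq h0 h1
  have hopen : IsOpen {q : ℂ | q ≠ 0 ∧ ‖q‖ < 1} := by
    apply IsOpen.inter
    · exact isOpen_ne
    · exact isOpen_lt continuous_norm continuous_const
  have e : (fun q ↦ Wq q ^ 2) =ᶠ[𝓝 q]
      fun q ↦ Tq q ^ 4 + 14 * Tq q ^ 3 + 61 * Tq q ^ 2 + 112 * Tq q + 64 := by
    filter_upwards [hopen.mem_nhds ⟨h0, h1⟩] with u hu
    rw [Wq_sq hu.1 hu.2]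
    ring
  have d1 : HasDerivAt (fun q ↦ Wq q ^ 2) (2 * Wq q * deriv Wq q) q := by
    have := (differentiableAt_Wq h0 h1).hasDerivAt.pow 2
    refine this.congr_deriv ?_
    simp
  have d2 : HasDerivAt (fun q ↦ Tq q ^ 4 + 14 * Tq q ^ 3 + 61 * Tq q ^ 2 + 112 * Tq q + 64)
      ((4 * Tq q ^ 3 + 42 * Tq q ^ 2 + 122 * Tq q + 112) * (Wq q * phi q)) q := by
    have := ((((hT.pow 4).add ((hT.pow 3).const_mul 14)).add ((hT.pow 2).const_mul 61)).add
      (hT.const_mul 112)).add_const 64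
    refine this.congr_deriv ?_
    simp
    ring
  have h := d1.unique (d2.congr_of_eventuallyEq e)
  have h2 : 2 * Wq q * deriv Wq q =
      2 * Wq q * ((4 * Tq q ^ 3 + 42 * Tq q ^ 2 + 122 * Tq q + 112) * phi q / 2) := by
    rw [h]; ring
  exact mul_left_cancel₀ (mul_ne_zero two_ne_zero hW) h2

theorem tau_zero : tau 0 = 1 := by
  obtain ⟨r, hr, h⟩ := tau_expansion
  simpa using h.self_of_nhds

theorem phi_zero : phi 0 = 1 := by
  obtain ⟨r, hr, h⟩ := phi_expansion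
  simpa using h.self_of_nhds

theorem aa_zero : aa 0 = -1 := by
  simp [aa, tau_zero]

theorem eventually_disc : ∀ᶠ q in 𝓝[≠] (0 : ℂ), q ≠ 0 ∧ ‖q‖ < 1 ∧ Wq q ≠ 0 := by
  have h1 : ∀ᶠ q in 𝓝 (0 : ℂ), ‖q‖ < 1 := by
    have : ContinuousAt (fun q : ℂ ↦ ‖q‖) 0 := by fun_prop
    exact this.eventually (gt_mem_nhds (by simp))
  have h2 : ∀ᶠ q in 𝓝 (0 : ℂ), aa q ≠ 0 := by
    have : ContinuousAt aa 0 := (analyticAt_aa (by simp)).continuousAt
    exact this.eventually_ne (by rw [aa_zero]; norm_num)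
  filter_upwards [h1.filter_mono nhdsWithin_le_nhds, h2.filter_mono nhdsWithin_le_nhds,
    self_mem_nhdsWithin] with q e1 e2 hq
  have hq : q ≠ 0 := hq
  refine ⟨hq, e1, ?_⟩
  rw [Wq]
  exact div_ne_zero e2 (mul_ne_zero (pow_ne_zero 2 hq) (phi_ne_zero e1))

theorem hasDerivAt_Xq {q : ℂ} (h0 : q ≠ 0) (h1 : ‖q‖ < 1) (hW : Wq q ≠ 0) :
    HasDerivAt Xq (phi q * (((2 * Tq q + 7) * Wq q -
      (2 * Tq q ^ 3 + 21 * Tq q ^ 2 + 61 * Tq q + 56)) / 2)) q := by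
  have hT := hasDerivAt_Tq h0 h1
  have hWd := (differentiableAt_Wq h0 h1).hasDerivAt
  have h := ((((hT.pow 2).add (hT.const_mul 7)).sub hWd).div_const 2).add_const (61 / 12)
  refine h.congr_deriv ?_
  rw [deriv_Wq h0 h1 hW]
  simp
  ring

theorem Xq_ode {q : ℂ} (h0 : q ≠ 0) (h1 : ‖q‖ < 1) (hW : Wq q ≠ 0) :
    deriv Xq q ^ 2 = phi q ^ 2 * (4 * Xq q ^ 3 - (-215 / 12) * Xq q - 5291 / 216) := by
  rw [(hasDerivAt_Xq h0 h1 hW).deriv, mul_pow]
  congr 1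
  have h := Wq_sq h0 h1
  rw [Xq]
  linear_combination (Wq q / 2 - (Tq q ^ 2 + 7 * Tq q + 6) / 2) * h

theorem GG_spec : DifferentiableOn ℂ GG (Metric.ball 0 1) ∧ GG 0 = 0 ∧
    (∀ q ∈ Metric.ball (0 : ℂ) 1, HasDerivAt GG (phi q) q) ∧
    ∀ q ∈ Metric.ball (0 : ℂ) 1, GG ((starRingEnd ℂ) q) = (starRingEnd ℂ) (GG q) :=
  Classical.choose_spec exists_G

theorem analyticAt_GG_zero : AnalyticAt ℂ GG 0 :=
  GG_spec.1.analyticAt (Metric.isOpen_ball.mem_nhds (by simp))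

theorem deriv_GG {q : ℂ} (hq : ‖q‖ < 1) : deriv GG q = phi q :=
  (GG_spec.2.2.1 q (by simpa using hq)).deriv

/-- Uniformisation near the cusp. -/
theorem Xq_eq (L : PeriodPair) (h2 : L.g₂ = -215 / 12) (h3 : L.g₃ = 5291 / 216) :
    ∀ᶠ q in 𝓝[≠] (0 : ℂ), Xq q = ℘[L] (GG q) := by
  have hξ : AnalyticAt ℂ (fun q ↦ (tau q ^ 2 + 7 * q * tau q - aa q / phi q) / 2 +
      61 / 12 * q ^ 2) 0 := by
    have a1 := analyticAt_tau_zero
    have a2 := analyticAt_phi_zero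
    have a3 : AnalyticAt ℂ aa 0 := analyticAt_aa (by simp)
    have a4 : phi 0 ≠ 0 := phi_ne_zero (by simp)
    have a5 : AnalyticAt ℂ (fun q : ℂ ↦ 7 * q) 0 := by fun_prop
    have a6 : AnalyticAt ℂ (fun q : ℂ ↦ 61 / 12 * q ^ 2) 0 := by fun_prop
    exact (((((a1.pow 2).add (a5.mul a1)).sub (a3.div a2 a4)).div_const)).add a6
  refine weierstrassP_unique L GG Xq _ analyticAt_GG_zero GG_spec.2.1
    (by rw [deriv_GG (by simp), phi_zero]) hξ ?_ ?_ ?_
  · simp only [tau_zero, aa_zero, phi_zero]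
    norm_num
  · filter_upwards [eventually_disc] with q hq
    obtain ⟨h0, h1, -⟩ := hq
    have hp := phi_ne_zero h1
    rw [Xq, Tq, Wq]
    field_simp
  · filter_upwards [eventually_disc] with q hq
    obtain ⟨h0, h1, hW⟩ := hq
    rw [Xq_ode h0 h1 hW, deriv_GG h1, h2, h3]

theorem differentiableOn_XX : DifferentiableOn ℂ XX {z | 0 < z.im} := by
  unfold XX
  exact ((((differentiableOn_etaT.pow 2).add (differentiableOn_etaT.const_mul 7)).sub
    differentiableOn_wW).div_const 2).add_const _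

theorem differentiableOn_FF : DifferentiableOn ℂ FF {z | 0 < z.im} :=
  fun _ hz ↦ (hasDerivAt_FF hz).differentiableAt.differentiableWithinAt

theorem GG_ne_zero_near : ∀ᶠ q in 𝓝[≠] (0 : ℂ), GG q ≠ 0 := by
  have h := (GG_spec.2.2.1 0 (by simp))
  have := h.eventually_ne (c := 0) (by rw [phi_zero]; norm_num)
  simpa using this

/-- `℘(FF z) = X z` on the whole upper half plane. -/
theorem wP_FF (L : PeriodPair) (h2 : L.g₂ = -215 / 12) (h3 : L.g₃ = 5291 / 216) :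
    ∀ z : ℂ, 0 < z.im → FF z ∉ L.lattice ∧ ℘[L] (FF z) = XX z := by
  -- `GG q ∉ L` near `0`
  have hL : ∀ᶠ u in 𝓝[≠] (0 : ℂ), u ∉ L.lattice := by
    have := L.compl_lattice_sdiff_singleton_mem_nhds 0
    rw [eventually_nhdsWithin_iff]
    filter_upwards [this] with u hu hu0 hmem
    exact hu ⟨hmem, hu0⟩
  have hG0 : Tendsto GG (𝓝[≠] 0) (𝓝[≠] 0) := by
    rw [tendsto_nhdsWithin_iff]
    refine ⟨?_, GG_ne_zero_near⟩
    have := analyticAt_GG_zero.continuousAt.tendsto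
    rw [GG_spec.2.1] at this
    exact this.mono_left nhdsWithin_le_nhds
  have h1 : ∀ᶠ q in 𝓝[≠] (0 : ℂ), GG q ∉ L.lattice := hG0.eventually hL
  have h4 := (Xq_eq L h2 h3).and h1
  obtain ⟨A, hA⟩ := eventually_qq h4
  set z₀ : ℂ := ((max A 0 + 1 : ℝ) : ℂ) * I with hz₀
  have him : z₀.im = max A 0 + 1 := by simp [hz₀]
  have hpos : 0 < z₀.im := by rw [him]; positivity
  refine weierstrassP_comp_eq L FF XX differentiableOn_FF differentiableOn_XX z₀ hpos ?_ ?_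
  · exact (hA z₀ (by rw [him]; linarith [le_max_left A 0])).2
  · have hopen : IsOpen {z : ℂ | max A 0 < z.im} := isOpen_lt continuous_const Complex.continuous_im
    filter_upwards [hopen.mem_nhds (show max A 0 < z₀.im by rw [him]; linarith)] with z hz
    have hz : max A 0 < z.im := hz
    have hz1 : 0 < z.im := (le_max_right A 0).trans_lt hz
    rw [XX_eq hz1, (hA z ((le_max_left A 0).trans hz.le)).1, FF]

end MP9c45e8
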