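import Pool.Agent.MP_9c45e8_nt.Defs

/-!
Module D: generalities on weight two cusp forms on `Γ₀(N)`, in terms of functions `ℍ → ℂ`.
-/

open Complex
open UpperHalfPlane hiding I
open scoped MatrixGroups Real ModularForm Manifold

set_option linter.unusedVariables false

namespace MP9c45e8

/-- `h` is (the function underlying) a weight two cusp form on `Γ₀(N)`. -/
structure IsCuspFn (N : ℕ) (h : ℍ → ℂ) : Prop where
  holo : DifferentiableOn ℂ (fun z : ℂ ↦ h (ofComplex z)) {z | 0 < z.im}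
  inv : ∀ γ ∈ CongruenceSubgroup.Gamma0 N, h ∣[(2 : ℤ)] γ = h
  zero : ∀ σ : SL(2, ℤ), IsZeroAtImInfty (h ∣[(2 : ℤ)] σ)

theorem isCuspFn_coe {N : ℕ} (hN : 0 < N) (f : S2 N) : IsCuspFn N f := by
  have : NeZero N := ⟨hN.ne'⟩
  refine ⟨?_, ?_, ?_⟩
  · exact UpperHalfPlane.mdifferentiable_iff.mp f.holo'
  · intro γ hγ
    exact SlashInvariantFormClass.slash_action_eq f _ (Subgroup.mem_map_of_mem _ hγ)
  · intro σ
    have hc : IsCusp (Matrix.SpecialLinearGroup.mapGL ℝ σ • OnePoint.infty) 𝒮ℒ :=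
      isCusp_SL2Z_iff'.mpr ⟨σ, rfl⟩
    exact f.zero_at_cusps' ((Subgroup.IsArithmetic.isCusp_iff_isCusp_SL2Z _).mpr hc) _ rfl

theorem IsCuspFn.exists_eq {N : ℕ} (hN : 0 < N) {h : ℍ → ℂ} (hh : IsCuspFn N h) :
    ∃ f : S2 N, ⇑f = h := by
  have : NeZero N := ⟨hN.ne'⟩
  refine ⟨{ toFun := h, slash_action_eq' := ?_, holo' := ?_, zero_at_cusps' := ?_ }, rfl⟩
  · rintro - ⟨γ, hγ, rfl⟩
    exact hh.inv γ hγ
  · exact UpperHalfPlane.mdifferentiable_iff.mpr hh.holo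
  · intro c hc
    rw [OnePoint.isZeroAt_iff_forall_SL2Z
      ((Subgroup.IsArithmetic.isCusp_iff_isCusp_SL2Z _).mp hc)]
    intro γ _
    exact hh.zero γ

theorem IsCuspFn.mono {M N : ℕ} (hMN : M ∣ N) {h : ℍ → ℂ} (hh : IsCuspFn M h) :
    IsCuspFn N h := by
  refine ⟨hh.holo, fun γ hγ ↦ hh.inv γ ?_, hh.zero⟩
  rw [CongruenceSubgroup.Gamma0_mem, ZMod.intCast_zmod_eq_zero_iff_dvd] at hγ ⊢
  exact (Int.natCast_dvd_natCast.mpr hMN).trans hγ

/-- The image in `GL(2, ℝ)` of an element of `GL(2, ℚ)`. -/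
noncomputable def rGL (g : GL (Fin 2) ℚ) : GL (Fin 2) ℝ := g.map (Rat.castHom ℝ)

theorem rGL_mul (g g' : GL (Fin 2) ℚ) : rGL (g * g') = rGL g * rGL g' := by
  simp [rGL]

theorem rGL_mapGL (γ : SL(2, ℤ)) :
    rGL (Matrix.SpecialLinearGroup.mapGL ℚ γ) = Matrix.SpecialLinearGroup.mapGL ℝ γ := by
  ext i j
  simp [rGL]

theorem slash_SL (h : ℍ → ℂ) (γ : SL(2, ℤ)) :
    h ∣[(2 : ℤ)] γ = h ∣[(2 : ℤ)] (Matrix.SpecialLinearGroup.mapGL ℝ γ) := rfl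

theorem IsCuspFn.zero_rGL {N : ℕ} {h : ℍ → ℂ} (hh : IsCuspFn N h) (g : GL (Fin 2) ℚ) :
    IsZeroAtImInfty (h ∣[(2 : ℤ)] rGL g) := by
  have hc : IsCusp (rGL g • OnePoint.infty) 𝒮ℒ := by
    rw [isCusp_SL2Z_iff]
    refine ⟨g • OnePoint.infty, ?_⟩
    rw [← Rat.coe_castHom, OnePoint.map_smul]
    rfl
  rw [← OnePoint.isZeroAt_iff (c := rGL g • OnePoint.infty) rfl]
  obtain ⟨σ, hσ⟩ := isCusp_SL2Z_iff'.mp hc
  rw [OnePoint.isZeroAt_iff hσ.symm]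
  exact hh.zero σ

theorem isCuspFn_sum_slash {M N : ℕ} {h : ℍ → ℂ} (hh : IsCuspFn M h) {ι : Type} [Fintype ι]
    (A : ι → GL (Fin 2) ℚ)
    (hA : ∀ γ ∈ CongruenceSubgroup.Gamma0 N, ∀ i, ∃ j, ∃ γ' ∈ CongruenceSubgroup.Gamma0 M,
      A i * Matrix.SpecialLinearGroup.mapGL ℚ γ = Matrix.SpecialLinearGroup.mapGL ℚ γ' * A j)
    (hinj : ∀ i i', ∀ γ' ∈ CongruenceSubgroup.Gamma0 M,
      A i = Matrix.SpecialLinearGroup.mapGL ℚ γ' * A i' → i = i') :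
    IsCuspFn N (∑ i, h ∣[(2 : ℤ)] rGL (A i)) := by
  refine ⟨?_, ?_, ?_⟩
  · rw [show (fun z : ℂ ↦ (∑ i, h ∣[(2 : ℤ)] rGL (A i)) (ofComplex z)) =
      ∑ i, fun z : ℂ ↦ (h ∣[(2 : ℤ)] rGL (A i)) (ofComplex z) by ext z; simp]
    refine DifferentiableOn.sum fun i _ ↦ ?_
    exact UpperHalfPlane.mdifferentiable_iff.mp
      ((UpperHalfPlane.mdifferentiable_iff.mpr hh.holo).slash 2 (rGL (A i)))
  · intro γ hγ
    choose j γ' hγ' hj using hA γ hγ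
    have hbij : Function.Bijective j := by
      rw [← Finite.injective_iff_bijective]
      intro i i' hii
      refine hinj i i' (γ' i * (γ' i')⁻¹) (mul_mem (hγ' i) (inv_mem (hγ' i'))) ?_
      have h1 := hj i
      have h2 := hj i'
      rw [hii] at h1
      rw [map_mul, map_inv]
      have h3 : A (j i') = (Matrix.SpecialLinearGroup.mapGL ℚ (γ' i'))⁻¹ *
          (A i' * Matrix.SpecialLinearGroup.mapGL ℚ γ) := by
        rw [h2, inv_mul_cancel_left]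
      rw [h3, ← mul_assoc, ← mul_assoc] at h1
      exact mul_right_cancel h1
    rw [SlashAction.sum_slash]
    rw [← hbij.sum_comp (fun i ↦ h ∣[(2 : ℤ)] rGL (A i))]
    refine Finset.sum_congr rfl fun i _ ↦ ?_
    rw [slash_SL, ← SlashAction.slash_mul, ← rGL_mapGL, ← rGL_mul, hj i, rGL_mul,
      rGL_mapGL, SlashAction.slash_mul, ← slash_SL, hh.inv _ (hγ' i)]
  · intro σ
    rw [SlashAction.sum_slash]
    have key : ∀ i, IsZeroAtImInfty ((h ∣[(2 : ℤ)] rGL (A i)) ∣[(2 : ℤ)] σ) := by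
      intro i
      rw [slash_SL, ← SlashAction.slash_mul, ← rGL_mapGL, ← rGL_mul]
      exact hh.zero_rGL _
    have h0 := tendsto_finsetSum (Finset.univ : Finset ι) (fun i _ ↦ key i)
    simp only [Finset.sum_const_zero] at h0
    refine h0.congr fun z ↦ ?_
    simp

/-- The upper triangular matrix `[p, q; 0, s]` with integer entries, in `GL(2, ℚ)`. -/
noncomputable def glQ (p q s : ℤ) (h : 0 < p * s) : GL (Fin 2) ℚ :=
  Matrix.GeneralLinearGroup.mkOfDetNeZero !![(p : ℚ), q; 0, s] (by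
    rw [Matrix.det_fin_two_of, mul_zero, sub_zero]
    exact_mod_cast h.ne')

theorem slash_glQ (h : ℍ → ℂ) {p q s : ℤ} (hps : 0 < p * s) (z : ℍ) :
    (h ∣[(2 : ℤ)] rGL (glQ p q s hps)) z = (p / s : ℂ) * h (ofComplex (((p : ℂ) * z + q) / s)) := by
  have hp : (p : ℂ) ≠ 0 := by
    rintro h0
    have : p = 0 := by exact_mod_cast h0
    simp [this] at hps
  have hs : (s : ℂ) ≠ 0 := by
    rintro h0
    have : s = 0 := by exact_mod_cast h0
    simp [this] at hps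
  have hps' : (0 : ℝ) < (p : ℝ) * s := by exact_mod_cast hps
  have hdet : (rGL (glQ p q s hps)).det.val = (p : ℝ) * s := by
    simp [rGL, glQ, Matrix.det_fin_two]
  have h00 : (rGL (glQ p q s hps)) 0 0 = (p : ℝ) := by simp [rGL, glQ]
  have h01 : (rGL (glQ p q s hps)) 0 1 = (q : ℝ) := by simp [rGL, glQ]
  have h10 : (rGL (glQ p q s hps)) 1 0 = (0 : ℝ) := by simp [rGL, glQ]
  have h11 : (rGL (glQ p q s hps)) 1 1 = (s : ℝ) := by simp [rGL, glQ]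
  have hsm : rGL (glQ p q s hps) • z = ofComplex (((p : ℂ) * z + q) / s) := by
    have h1 : ((rGL (glQ p q s hps) • z : ℍ) : ℂ) = ((p : ℂ) * z + q) / s := by
      rw [coe_smul_of_det_pos (by rw [hdet]; exact hps')]
      simp [num, denom, h00, h01, h10, h11]
    rw [← h1, ofComplex_apply]
  rw [ModularForm.slash_apply, hsm, hdet, abs_of_pos hps']
  have hσ : σ (rGL (glQ p q s hps)) (h (ofComplex (((p : ℂ) * z + q) / s))) =
      h (ofComplex (((p : ℂ) * z + q) / s)) := by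
    simp [σ, hdet, hps']
  rw [hσ]
  simp only [denom, h10, h11]
  push_cast
  field_simp
  simp
  field_simp

theorem exists_gamma0 {N : ℕ} (a b c d : ℤ) (hdet : a * d - b * c = 1) (hc : (N : ℤ) ∣ c) :
    ∃ γ ∈ CongruenceSubgroup.Gamma0 N, γ 0 0 = a ∧ γ 0 1 = b ∧ γ 1 0 = c ∧ γ 1 1 = d := by
  have hd : (!![a, b; c, d] : Matrix (Fin 2) (Fin 2) ℤ).det = 1 := by
    rw [Matrix.det_fin_two_of]; exact hdet
  refine ⟨(⟨!![a, b; c, d], hd⟩ : SL(2, ℤ)), ?_, rfl, rfl, rfl, rfl⟩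
  exact CongruenceSubgroup.Gamma0_mem.mpr ((ZMod.intCast_zmod_eq_zero_iff_dvd _ _).mpr hc)

theorem glQ_mul_eq {p q s p' q' s' : ℤ} (h : 0 < p * s) (h' : 0 < p' * s') (γ γ' : SL(2, ℤ))
    (h00 : p * γ 0 0 + q * γ 1 0 = γ' 0 0 * p') (h01 : p * γ 0 1 + q * γ 1 1 =
      γ' 0 0 * q' + γ' 0 1 * s') (h10 : s * γ 1 0 = γ' 1 0 * p')
    (h11 : s * γ 1 1 = γ' 1 0 * q' + γ' 1 1 * s') :
    glQ p q s h * Matrix.SpecialLinearGroup.mapGL ℚ γ =
      Matrix.SpecialLinearGroup.mapGL ℚ γ' * glQ p' q' s' h' := by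
  ext i j
  have e00 : (p : ℚ) * γ 0 0 + q * γ 1 0 = γ' 0 0 * p' := by exact_mod_cast h00
  have e01 : (p : ℚ) * γ 0 1 + q * γ 1 1 = γ' 0 0 * q' + γ' 0 1 * s' := by exact_mod_cast h01
  have e10 : (s : ℚ) * γ 1 0 = γ' 1 0 * p' := by exact_mod_cast h10
  have e11 : (s : ℚ) * γ 1 1 = γ' 1 0 * q' + γ' 1 1 * s' := by exact_mod_cast h11
  fin_cases i <;> fin_cases j <;> simp [glQ, Matrix.mul_apply, Fin.sum_univ_two, e00, e01, e10, e11]

theorem glQ_eq {p q s p' q' s' : ℤ} {h : 0 < p * s} {h' : 0 < p' * s'} {γ' : SL(2, ℤ)}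
    (e : glQ p q s h = Matrix.SpecialLinearGroup.mapGL ℚ γ' * glQ p' q' s' h') :
    p = γ' 0 0 * p' ∧ q = γ' 0 0 * q' + γ' 0 1 * s' ∧ 0 = γ' 1 0 * p' ∧
      s = γ' 1 0 * q' + γ' 1 1 * s' := by
  have e00 := congrArg (fun g : GL (Fin 2) ℚ ↦ g 0 0) e
  have e01 := congrArg (fun g : GL (Fin 2) ℚ ↦ g 0 1) e
  have e10 := congrArg (fun g : GL (Fin 2) ℚ ↦ g 1 0) e
  have e11 := congrArg (fun g : GL (Fin 2) ℚ ↦ g 1 1) e
  simp [glQ, Matrix.mul_apply, Fin.sum_univ_two] at e00 e01 e10 e11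
  refine ⟨by exact_mod_cast e00, by exact_mod_cast e01, ?_, by exact_mod_cast e11⟩
  rcases e10 with e | e
  · simp [e]
  · simp [e]

theorem IsCuspFn.const_smul {N : ℕ} {h : ℍ → ℂ} (hh : IsCuspFn N h) (c : ℂ) :
    IsCuspFn N (fun z ↦ c * h z) := by
  have e : (fun z ↦ c * h z) = c • h := by ext z; simp
  refine ⟨hh.holo.const_mul c, fun γ hγ ↦ ?_, fun σ ↦ ?_⟩
  · rw [e, ModularForm.SL_smul_slash, hh.inv γ hγ]
  · rw [e, ModularForm.SL_smul_slash]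
    have := (hh.zero σ).const_mul c
    rw [mul_zero] at this
    exact this

/-- If `h` is a cusp form on `Γ₀(M)` then `h(ℓz)` is a cusp form on `Γ₀(ℓM)`. -/
theorem IsCuspFn.dilate {M ℓ : ℕ} (hM : 0 < M) (hℓ : 0 < ℓ) {h : ℍ → ℂ} (hh : IsCuspFn M h) :
    IsCuspFn (ℓ * M) (fun z ↦ h (ofComplex ((ℓ : ℂ) * z))) := by
  have hℓ' : (0 : ℤ) < (ℓ : ℤ) * 1 := by simpa using hℓ
  have key : IsCuspFn (ℓ * M) (∑ i : Unit, h ∣[(2 : ℤ)] rGL (glQ ℓ 0 1 hℓ')) := by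
    refine isCuspFn_sum_slash hh (fun _ : Unit ↦ glQ ℓ 0 1 hℓ') ?_ (fun _ _ _ _ _ ↦ rfl)
    intro γ hγ _
    rw [CongruenceSubgroup.Gamma0_mem, ZMod.intCast_zmod_eq_zero_iff_dvd] at hγ
    obtain ⟨k, hk⟩ := hγ
    have hdet : γ 0 0 * γ 1 1 - γ 0 1 * γ 1 0 = 1 := by
      have := γ.det_coe
      rwa [Matrix.det_fin_two] at this
    obtain ⟨γ', hγ', h1, h2, h3, h4⟩ := exists_gamma0 (N := M) (γ 0 0) (ℓ * γ 0 1) (M * k) (γ 1 1)
      (by push_cast at hk; linear_combination hdet + γ 0 1 * hk) (dvd_mul_right _ _)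
    refine ⟨(), γ', hγ', glQ_mul_eq _ _ _ _ ?_ ?_ ?_ ?_⟩
    · rw [h1]; ring
    · rw [h1, h2]; ring
    · rw [h3, hk]; push_cast; ring
    · rw [h3, h4]; ring
  have := key.const_smul (1 / ℓ)
  convert this using 2 with z
  have hne : (ℓ : ℂ) ≠ 0 := by exact_mod_cast hℓ.ne'
  simp only [Finset.univ_unique, Finset.sum_const, Finset.card_singleton, one_smul]
  rw [slash_glQ]
  push_cast
  simp
  field_simp

theorem exists_fin_dvd {ℓ : ℕ} (hℓ : ℓ.Prime) (u v : ℤ) (hu : ¬ (ℓ : ℤ) ∣ u) :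
    ∃ b : Fin ℓ, ∃ k : ℤ, v - u * (b : ℕ) = ℓ * k := by
  have : Fact ℓ.Prime := ⟨hℓ⟩
  have hu' : (u : ZMod ℓ) ≠ 0 := by
    rwa [Ne, ZMod.intCast_zmod_eq_zero_iff_dvd]
  refine ⟨⟨((v : ZMod ℓ) / u).val, ZMod.val_lt _⟩, ?_⟩
  change (ℓ : ℤ) ∣ v - u * (((v : ZMod ℓ) / u).val : ℕ)
  rw [← ZMod.intCast_zmod_eq_zero_iff_dvd]
  push_cast
  rw [ZMod.natCast_zmod_val]
  field_simp
  ring

theorem fin_eq_of_dvd {ℓ : ℕ} (b b' : Fin ℓ) (k : ℤ) (h : ((b : ℕ) : ℤ) = (b' : ℕ) + k * ℓ) :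
    b = b' := by
  have h1 : ((b : ℕ) : ℤ) < ℓ := by exact_mod_cast b.2
  have h2 : ((b' : ℕ) : ℤ) < ℓ := by exact_mod_cast b'.2
  have h3 : (0 : ℤ) ≤ (b : ℕ) := by positivity
  have h4 : (0 : ℤ) ≤ (b' : ℕ) := by positivity
  have h5 := Int.emod_eq_of_lt h3 h1
  have h6 := Int.emod_eq_of_lt h4 h2
  rw [h, Int.add_mul_emod_self_right, h6] at h5
  apply Fin.ext
  have : ((b' : ℕ) : ℤ) = (b : ℕ) := by rw [h, ← h5]
  exact_mod_cast this.symm

theorem SL_det (γ : SL(2, ℤ)) : γ 0 0 * γ 1 1 - γ 0 1 * γ 1 0 = 1 := by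
  have := γ.det_coe
  rwa [Matrix.det_fin_two] at this

/-- Representatives for the Hecke operator. -/
noncomputable def heckeRep (ℓ : ℕ) (hℓ : 0 < (ℓ : ℤ)) : Option (Fin ℓ) → GL (Fin 2) ℚ
  | none => glQ ℓ 0 1 (by simpa using hℓ)
  | some b => glQ 1 (b : ℕ) ℓ (by simpa using hℓ)

theorem heckeRep_some_step {N ℓ : ℕ} (hℓ : ℓ.Prime) (hℓ0 : 0 < (ℓ : ℤ)) (γ : SL(2, ℤ))
    (hγ : γ ∈ CongruenceSubgroup.Gamma0 N) (b : Fin ℓ)
    (hu : ¬ (ℓ : ℤ) ∣ γ 0 0 + (b : ℕ) * γ 1 0) :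
    ∃ b' : Fin ℓ, ∃ γ' ∈ CongruenceSubgroup.Gamma0 N,
      heckeRep ℓ hℓ0 (some b) * Matrix.SpecialLinearGroup.mapGL ℚ γ =
        Matrix.SpecialLinearGroup.mapGL ℚ γ' * heckeRep ℓ hℓ0 (some b') := by
  rw [CongruenceSubgroup.Gamma0_mem, ZMod.intCast_zmod_eq_zero_iff_dvd] at hγ
  have hdet := SL_det γ
  obtain ⟨b', k, hk⟩ := exists_fin_dvd hℓ _ (γ 0 1 + (b : ℕ) * γ 1 1) hu
  have hne : (ℓ : ℤ) ≠ 0 := hℓ0.ne'
  obtain ⟨γ', hγ', h1, h2, h3, h4⟩ := exists_gamma0 (N := N) (γ 0 0 + (b : ℕ) * γ 1 0) k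
    (ℓ * γ 1 0) (γ 1 1 - γ 1 0 * (b' : ℕ))
    (by linear_combination hdet + γ 1 0 * hk) (hγ.mul_left _)
  refine ⟨b', γ', hγ', glQ_mul_eq (by simpa using hℓ0) (by simpa using hℓ0) _ _ ?_ ?_ ?_ ?_⟩
  · rw [h1]; ring
  · rw [h1, h2]; linear_combination hk
  · rw [h3]; ring
  · rw [h3, h4]; ring

theorem heckeRep_injOn {ℓ : ℕ} (hℓ : ℓ.Prime) (hℓ0 : 0 < (ℓ : ℤ)) (i i' : Option (Fin ℓ))
    (γ' : SL(2, ℤ)) (e : heckeRep ℓ hℓ0 i =
      Matrix.SpecialLinearGroup.mapGL ℚ γ' * heckeRep ℓ hℓ0 i') : i = i' := by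
  have hunit : ∀ x : ℤ, 1 ≠ x * (ℓ : ℤ) := by
    intro x hx
    have : (ℓ : ℤ) ∣ 1 := ⟨x, by rw [hx]; ring⟩
    have h2 : ℓ ∣ 1 := by exact_mod_cast this
    exact hℓ.one_lt.ne' (Nat.dvd_one.mp h2)
  match i, i' with
  | none, none => rfl
  | none, some b' =>
    obtain ⟨e1, e2, e3, e4⟩ := glQ_eq (h := by simpa using hℓ0) (h' := by simpa using hℓ0) e
    exfalso
    apply hunit (γ' 1 1)
    rw [mul_one] at e3
    rw [← e3, zero_mul, zero_add] at e4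
    exact e4
  | some b, none =>
    obtain ⟨e1, e2, e3, e4⟩ := glQ_eq (h := by simpa using hℓ0) (h' := by simpa using hℓ0) e
    exact absurd e1 (hunit _)
  | some b, some b' =>
    obtain ⟨e1, e2, e3, e4⟩ := glQ_eq (h := by simpa using hℓ0) (h' := by simpa using hℓ0) e
    rw [mul_one] at e1
    rw [← e1, one_mul] at e2
    rw [fin_eq_of_dvd b b' _ e2]

/-- Hecke operators preserve cusp forms on `Γ₀(N)`. -/
theorem IsCuspFn.hecke {N ℓ : ℕ} (hN : 0 < N) (hℓ : ℓ.Prime) {h : ℍ → ℂ} (hh : IsCuspFn N h) :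
    IsCuspFn N (hecke N ℓ h) := by
  have hℓ0 : (0 : ℤ) < ℓ := by exact_mod_cast hℓ.pos
  have hne : (ℓ : ℂ) ≠ 0 := by exact_mod_cast hℓ.ne_zero
  by_cases hdvd : ℓ ∣ N
  · have key : IsCuspFn N (∑ i : Fin ℓ, h ∣[(2 : ℤ)] rGL (heckeRep ℓ hℓ0 (some i))) := by
      refine isCuspFn_sum_slash hh (fun i ↦ heckeRep ℓ hℓ0 (some i)) ?_ ?_
      · intro γ hγ b
        refine heckeRep_some_step hℓ hℓ0 γ hγ b ?_
        rw [CongruenceSubgroup.Gamma0_mem, ZMod.intCast_zmod_eq_zero_iff_dvd] at hγ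
        have h1 : (ℓ : ℤ) ∣ γ 1 0 := (Int.natCast_dvd_natCast.mpr hdvd).trans hγ
        intro h2
        have h3 : (ℓ : ℤ) ∣ γ 0 0 := (Int.dvd_add_left (h1.mul_left _)).mp h2
        have h4 : (ℓ : ℤ) ∣ 1 := by
          rw [← SL_det γ]
          exact dvd_sub (h3.mul_right _) (h1.mul_left _)
        have h5 : ℓ ∣ 1 := by exact_mod_cast h4
        exact hℓ.one_lt.ne' (Nat.dvd_one.mp h5)
      · intro i i' γ' _ e
        exact Option.some_injective _ (heckeRep_injOn hℓ hℓ0 _ _ γ' e)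
    convert key using 1
    ext z
    rw [MP9c45e8.hecke, if_pos hdvd, zero_add, Finset.mul_sum, Finset.sum_range]
    simp only [Finset.sum_apply]
    refine Finset.sum_congr rfl fun b _ ↦ ?_
    rw [heckeRep, slash_glQ]
    simp
  · have key : IsCuspFn N (∑ i : Option (Fin ℓ), h ∣[(2 : ℤ)] rGL (heckeRep ℓ hℓ0 i)) := by
      refine isCuspFn_sum_slash hh (fun i ↦ heckeRep ℓ hℓ0 i) ?_ ?_
      · intro γ hγ i
        have hγ' := hγ
        rw [CongruenceSubgroup.Gamma0_mem, ZMod.intCast_zmod_eq_zero_iff_dvd] at hγ'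
        have hdet := SL_det γ
        match i with
        | some b =>
          by_cases hu : (ℓ : ℤ) ∣ γ 0 0 + (b : ℕ) * γ 1 0
          · obtain ⟨k, hk⟩ := hu
            obtain ⟨γ', hγ', h1, h2, h3, h4⟩ := exists_gamma0 (N := N) k
              (γ 0 1 + (b : ℕ) * γ 1 1) (γ 1 0) (ℓ * γ 1 1)
              (by linear_combination hdet - γ 1 1 * hk) hγ'
            refine ⟨none, γ', hγ', glQ_mul_eq (by simpa using hℓ0) (by simpa using hℓ0) _ _ ?_ ?_ ?_ ?_⟩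
            · rw [h1]; linear_combination hk
            · rw [h1, h2]; ring
            · rw [h3]; ring
            · rw [h3, h4]; ring
          · obtain ⟨b', γ', hγ', e⟩ := heckeRep_some_step hℓ hℓ0 γ hγ b hu
            exact ⟨some b', γ', hγ', e⟩
        | none =>
          by_cases hu : (ℓ : ℤ) ∣ γ 1 0
          · obtain ⟨k, hk⟩ := hu
            have hcop : IsCoprime (N : ℤ) (ℓ : ℤ) :=
              (Nat.Coprime.isCoprime ((Nat.Prime.coprime_iff_not_dvd hℓ).mpr hdvd)).symm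
            have hNk : (N : ℤ) ∣ k := by
              rw [hk] at hγ'
              exact hcop.dvd_of_dvd_mul_left hγ'
            obtain ⟨γ', hγ', h1, h2, h3, h4⟩ := exists_gamma0 (N := N) (γ 0 0)
              (ℓ * γ 0 1) k (γ 1 1)
              (by linear_combination hdet + γ 0 1 * hk) hNk
            refine ⟨none, γ', hγ', glQ_mul_eq (by simpa using hℓ0) (by simpa using hℓ0) _ _ ?_ ?_ ?_ ?_⟩
            · rw [h1]; ring
            · rw [h1, h2]; ring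
            · rw [h3]; linear_combination hk
            · rw [h3, h4]; ring
          · obtain ⟨b', k, hk⟩ := exists_fin_dvd hℓ _ (γ 1 1) hu
            obtain ⟨γ', hγ', h1, h2, h3, h4⟩ := exists_gamma0 (N := N) (ℓ * γ 0 0)
              (γ 0 1 - γ 0 0 * (b' : ℕ)) (γ 1 0) k
              (by linear_combination hdet - γ 0 0 * hk) hγ'
            refine ⟨some b', γ', hγ', glQ_mul_eq (by simpa using hℓ0) (by simpa using hℓ0) _ _ ?_ ?_ ?_ ?_⟩
            · rw [h1]; ring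
            · rw [h1, h2]; ring
            · rw [h3]; ring
            · rw [h3, h4]; linear_combination hk
      · intro i i' γ' _ e
        exact heckeRep_injOn hℓ hℓ0 _ _ γ' e
    convert key using 1
    ext z
    rw [MP9c45e8.hecke, if_neg hdvd, Finset.mul_sum, Finset.sum_range]
    simp only [Finset.sum_apply, Fintype.sum_option]
    congr 1
    · rw [heckeRep, slash_glQ]
      simp
    · refine Finset.sum_congr rfl fun b _ ↦ ?_
      rw [heckeRep, slash_glQ]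
      simp

theorem _root_.HasSum.congr_fun' {f g : ℕ → ℂ} {a : ℂ} (hf : HasSum f a) (h : ∀ n, g n = f n) :
    HasSum g a := by
  rwa [show g = f from funext h]

theorem hasSum_coeff {N : ℕ} (hN : 0 < N) (f : S2 N) (τ : ℍ) :
    HasSum (fun m : ℕ ↦ coeff f m * cexp (2 * π * I * τ) ^ m) (f τ) := by
  have : NeZero N := ⟨hN.ne'⟩
  have h := ModularForm.hasSum_qExpansion (h := 1) f one_pos (by simp) τ
  simpa [coeff, Function.Periodic.qParam] using h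

theorem coeff_unique {N : ℕ} (f : S2 N) (c : ℕ → ℂ)
    (h : ∀ τ : ℍ, HasSum (fun m : ℕ ↦ c m * cexp (2 * π * I * τ) ^ m) (f τ)) (m : ℕ) :
    c m = coeff f m := by
  refine ModularFormClass.qExpansion_coeff_unique (h := 1) one_pos (by simp) (fun τ ↦ ?_) m
  simpa [Function.Periodic.qParam] using h τ

/-- The sum over `b mod ℓ` of `f((z+b)/ℓ)`. -/
theorem hasSum_sum_translates {N ℓ : ℕ} (hN : 0 < N) (hℓ : ℓ.Prime) (f : S2 N) (τ : ℍ) :
    HasSum (fun n : ℕ ↦ coeff f (ℓ * n) * cexp (2 * π * I * τ) ^ n)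
      ((1 / (ℓ : ℂ)) * ∑ b ∈ Finset.range ℓ, f (ofComplex (((τ : ℂ) + b) / ℓ))) := by
  have hne : (ℓ : ℂ) ≠ 0 := by exact_mod_cast hℓ.ne_zero
  have hpos : (0 : ℝ) < ℓ := by exact_mod_cast hℓ.pos
  set w : ℂ := cexp (2 * π * I * (τ / ℓ)) with hw
  set ζ : ℂ := cexp (2 * π * I / ℓ) with hζ
  have hprim : IsPrimitiveRoot ζ ℓ := Complex.isPrimitiveRoot_exp ℓ hℓ.ne_zero
  have h1 : ∀ b ∈ Finset.range ℓ, HasSum (fun m : ℕ ↦ coeff f m * (w * ζ ^ b) ^ m)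
      (f (ofComplex (((τ : ℂ) + b) / ℓ))) := by
    intro b _
    have him : 0 < (((τ : ℂ) + b) / ℓ).im := by
      have : (((τ : ℂ) + b) / ℓ).im = τ.im / ℓ := by
        rw [Complex.div_natCast_im]; simp
      rw [this]
      exact div_pos τ.im_pos hpos
    have h2 := hasSum_coeff hN f (ofComplex (((τ : ℂ) + b) / ℓ))
    rw [ofComplex_apply_of_im_pos him] at h2 ⊢
    convert h2 using 4
    rw [hw, hζ, ← Complex.exp_nat_mul, ← Complex.exp_add]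
    congr 1
    change _ = 2 * π * I * (((τ : ℂ) + b) / ℓ)
    ring
  have h2 := hasSum_sum h1
  have h3 := h2.mul_left (1 / (ℓ : ℂ))
  have h4 : (fun m : ℕ ↦ 1 / (ℓ : ℂ) * ∑ b ∈ Finset.range ℓ, coeff f m * (w * ζ ^ b) ^ m) =
      fun m : ℕ ↦ if ℓ ∣ m then coeff f m * w ^ m else 0 := by
    ext m
    have e1 : ∑ b ∈ Finset.range ℓ, coeff f m * (w * ζ ^ b) ^ m =
        coeff f m * w ^ m * ∑ b ∈ Finset.range ℓ, (ζ ^ m) ^ b := by
      rw [Finset.mul_sum]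
      refine Finset.sum_congr rfl fun b _ ↦ ?_
      rw [mul_pow, ← pow_mul, ← pow_mul, mul_comm b m]
      ring
    rw [e1]
    split_ifs with hdvd
    · rw [(hprim.pow_eq_one_iff_dvd m).mpr hdvd]
      simp
      field_simp
    · have hcop : Nat.Coprime m ℓ := ((Nat.Prime.coprime_iff_not_dvd hℓ).mpr hdvd).symm
      rw [(hprim.pow_of_coprime m hcop).geom_sum_eq_zero hℓ.one_lt]
      simp
  rw [h4] at h3
  have hinj : Function.Injective (fun n : ℕ ↦ ℓ * n) := fun a b hab ↦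
    Nat.eq_of_mul_eq_mul_left hℓ.pos hab
  rw [← hinj.hasSum_iff] at h3
  · refine h3.congr_fun' fun n ↦ ?_
    simp only [Function.comp_apply, dvd_mul_right, if_true]
    rw [pow_mul, hw, ← Complex.exp_nat_mul (2 * π * I * (τ / ℓ)) ℓ]
    congr 3
    field_simp
  · intro m hm
    rw [if_neg]
    rintro ⟨k, rfl⟩
    exact hm ⟨k, rfl⟩

/-- `f(ℓz)`. -/
theorem hasSum_dilate {N ℓ : ℕ} (hN : 0 < N) (hℓ : 0 < ℓ) (f : S2 N) (τ : ℍ) :
    HasSum (fun n : ℕ ↦ (if ℓ ∣ n then coeff f (n / ℓ) else 0) * cexp (2 * π * I * τ) ^ n)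
      (f (ofComplex ((ℓ : ℂ) * τ))) := by
  have hpos : (0 : ℝ) < ℓ := by exact_mod_cast hℓ
  have him : 0 < ((ℓ : ℂ) * τ).im := by
    have : ((ℓ : ℂ) * τ).im = ℓ * τ.im := by simp
    rw [this]
    exact mul_pos hpos τ.im_pos
  have h2 := hasSum_coeff hN f (ofComplex ((ℓ : ℂ) * τ))
  rw [ofComplex_apply_of_im_pos him] at h2 ⊢
  have hinj : Function.Injective (fun n : ℕ ↦ ℓ * n) := fun a b hab ↦
    Nat.eq_of_mul_eq_mul_left hℓ hab
  rw [← hinj.hasSum_iff]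
  · convert h2 using 2 with n
    simp only [Function.comp_apply, dvd_mul_right, if_true]
    rw [Nat.mul_div_cancel_left _ hℓ, pow_mul, ← Complex.exp_nat_mul (2 * π * I * τ) ℓ]
    congr 3
    ring
  · intro m hm
    rw [if_neg]
    · simp
    rintro ⟨k, rfl⟩
    exact hm ⟨k, rfl⟩

/-- The effect of `T_ℓ` (or `U_ℓ`) on Fourier coefficients. -/
theorem hasSum_hecke {N ℓ : ℕ} (hN : 0 < N) (hℓ : ℓ.Prime) (f : S2 N) (τ : ℍ) :
    HasSum (fun n : ℕ ↦ (coeff f (ℓ * n) + if ℓ ∣ N then 0 else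
        (ℓ : ℂ) * (if ℓ ∣ n then coeff f (n / ℓ) else 0)) * cexp (2 * π * I * τ) ^ n)
      (MP9c45e8.hecke N ℓ f τ) := by
  have h1 := hasSum_sum_translates hN hℓ f τ
  have h2 := (hasSum_dilate hN hℓ.pos f τ).mul_left (ℓ : ℂ)
  rw [MP9c45e8.hecke]
  split_ifs with hdvd
  · simpa using h1
  · refine (h2.add h1).congr_fun' fun n ↦ ?_
    ring

/-- Coefficients of an eigenform. -/
theorem coeff_of_hecke {N ℓ : ℕ} (hN : 0 < N) (hℓ : ℓ.Prime) (f : S2 N) (c : ℂ)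
    (hc : ∀ z : ℍ, MP9c45e8.hecke N ℓ f z = c * f z) (n : ℕ) :
    c * coeff f n = coeff f (ℓ * n) + if ℓ ∣ N then 0 else
        (ℓ : ℂ) * (if ℓ ∣ n then coeff f (n / ℓ) else 0) := by
  have h1 : ∀ τ : ℍ, (c • f) τ = c * f τ := fun τ ↦ rfl
  rw [coeff_unique (c • f) (fun n ↦ c * coeff f n) (fun τ ↦ ?_) n,
    coeff_unique (c • f) (fun n ↦ coeff f (ℓ * n) + if ℓ ∣ N then 0 else
        (ℓ : ℂ) * (if ℓ ∣ n then coeff f (n / ℓ) else 0)) (fun τ ↦ ?_) n]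
  · rw [h1, ← hc]
    exact hasSum_hecke hN hℓ f τ
  · rw [h1]
    refine ((hasSum_coeff hN f τ).mul_left c).congr_fun' fun m ↦ ?_
    ring

/-- The eigenvalue of `T_ℓ` on a normalised eigenform is its `ℓ`-th coefficient. -/
theorem coeff_eq_of_hecke {N ℓ : ℕ} (hN : 0 < N) (hℓ : ℓ.Prime) (f : S2 N)
    (h1 : coeff f 1 = 1) (c : ℂ) (hc : ∀ z : ℍ, MP9c45e8.hecke N ℓ f z = c * f z) :
    c = coeff f ℓ := by
  have h := coeff_of_hecke hN hℓ f c hc 1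
  have h2 : ¬ ℓ ∣ 1 := fun h ↦ hℓ.one_lt.ne' (Nat.dvd_one.mp h)
  simpa [h1, h2] using h

end MP9c45e8
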