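import Mathlib

/-!
Definitions for the Mazur-Tate refined relation at a split multiplicative prime.
-/

open Complex
open UpperHalfPlane hiding I
open scoped MatrixGroups Real ModularForm WeierstrassCurve ArithmeticFunction.sigma

noncomputable section

namespace MP9c45e8

/-- Weight two cusp forms on `Γ₀(N)`. -/
abbrev S2 (N : ℕ) : Type := CuspForm (CongruenceSubgroup.Gamma0 N) 2

/-- The `n`-th Fourier coefficient at `i∞`. -/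
def coeff {N : ℕ} (f : S2 N) (n : ℕ) : ℂ := (qExpansion 1 f).coeff n

/-- The Hecke operator `T_ℓ` (which is `U_ℓ` when `ℓ ∣ N`) of weight two and level `N`:
`ℓ f(ℓ z) + (1/ℓ) ∑_{b mod ℓ} f((z+b)/ℓ)`, the first term being absent if `ℓ ∣ N`. -/
def hecke (N ℓ : ℕ) (f : ℍ → ℂ) (z : ℍ) : ℂ :=
  (if ℓ ∣ N then 0 else (ℓ : ℂ) * f (ofComplex ((ℓ : ℂ) * z))) +
    (1 / (ℓ : ℂ)) * ∑ b ∈ Finset.range ℓ, f (ofComplex (((z : ℂ) + b) / ℓ))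

/-- `f` is a newform of level `N` and weight two (trivial character): it is normalised, an
eigenform of all `T_ℓ` and `U_ℓ`, and its system of Hecke eigenvalues away from `N` does not occur
at a proper divisor of `N`. -/
structure IsNewform {N : ℕ} (f : S2 N) : Prop where
  normalised : coeff f 1 = 1
  eigen : ∀ ℓ : ℕ, ℓ.Prime → ∀ z : ℍ, hecke N ℓ f z = coeff f ℓ * f z
  new : ∀ M : ℕ, M ∣ N → M < N → ∀ g : S2 M,
    (∀ ℓ : ℕ, ℓ.Prime → ¬ ℓ ∣ N → ∀ z : ℍ, hecke M ℓ g z = coeff f ℓ * g z) → g = 0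

/-- `∫ f(w) dw` along the straight segment from `z` to `z'` in the upper half plane. -/
def segInt (f : ℍ → ℂ) (z z' : ℍ) : ℂ :=
  ∫ t in (0 : ℝ)..1, f (ofComplex ((z : ℂ) + t * ((z' : ℂ) - z))) * ((z' : ℂ) - z)

/-- The set of periods `2πi ∫_z^{γz} f(w) dw` (`γ ∈ Γ₀(N)`), i.e. the periods of `2πi f(w) dw` over
the integral homology of `X₀(N)`. -/
def periods {N : ℕ} (f : S2 N) : Set ℂ :=
  {x | ∃ γ ∈ CongruenceSubgroup.Gamma0 N, ∃ z : ℍ, x = 2 * π * I * segInt f z (γ • z)}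

/-- The Weierstrass equation `W` over `ℚ` is integral and minimal at every prime. -/
def IsGloballyMinimal (W : WeierstrassCurve ℚ) : Prop :=
  ∀ (p : ℕ) [Fact p.Prime], (W⁄ℚ_[p]).IsMinimal ℤ_[p]

/-- `L` is the period lattice of the invariant differential `dx/(2y + a₁x + a₃)` of `W`. -/
def IsPeriodLattice (W : WeierstrassCurve ℚ) (L : PeriodPair) : Prop :=
  L.g₂ = (W.c₄ : ℂ) / 12 ∧ L.g₃ = (W.c₆ : ℂ) / 216

/-- The lattice `L` is a nonzero rational multiple of the lattice of periods of `2πi f(w) dw`. -/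
def IsOptimalLattice {N : ℕ} (f : S2 N) (L : PeriodPair) : Prop :=
  ∃ c : ℚ, c ≠ 0 ∧ ∀ x : ℂ, x ∈ L.lattice ↔ ∃ y ∈ periods f, x = c * y

/-- `Ω⁺, Ω⁻ > 0` and `L = ℤΩ⁺ + ℤΩ⁻i` or `L = {aΩ⁺ + bΩ⁻i : a ≡ b mod 2}`. -/
def AreRealPeriods (L : PeriodPair) (Ωp Ωm : ℝ) : Prop :=
  0 < Ωp ∧ 0 < Ωm ∧
    ((∀ z : ℂ, z ∈ L.lattice ↔ ∃ a b : ℤ, z = a * Ωp + b * Ωm * I) ∨
      (∀ z : ℂ, z ∈ L.lattice ↔ ∃ a b : ℤ, a ≡ b [ZMOD 2] ∧ z = a * Ωp + b * Ωm * I))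

/-- `2πi ∫_{i∞}^{x} f(w) dw`, along the vertical half line above the real number `x`:
with `w = x + it` this is `2π ∫_0^∞ f(x + it) dt`. -/
def cuspInt (f : ℍ → ℂ) (x : ℝ) : ℂ :=
  2 * π * ∫ t in Set.Ioi (0 : ℝ), f (ofComplex (x + t * I))

/-- `[r]⁺_raw` -/
def rawPlus (f : ℍ → ℂ) (Ωp : ℝ) (r : ℚ) : ℝ := (cuspInt f (-r)).re / Ωp

/-- `[r]⁻_raw` -/
def rawMinus (f : ℍ → ℂ) (Ωm : ℝ) (r : ℚ) : ℝ := (cuspInt f (-r)).im / Ωm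

/-- `D` is the least positive integer with `D [r]^±_raw ∈ ℤ` for all `r ∈ ℚ`. -/
def IsDenominator (f : ℍ → ℂ) (Ωp Ωm : ℝ) (D : ℕ) : Prop :=
  IsLeast {D : ℕ | 0 < D ∧ ∀ r : ℚ, (∃ m : ℤ, D * rawPlus f Ωp r = m) ∧
    (∃ m : ℤ, D * rawMinus f Ωm r = m)} D

/-- `E₄(q) = 1 + 240 ∑ σ₃(n) qⁿ`. -/
def tateE4 {p : ℕ} [Fact p.Prime] (q : ℚ_[p]) : ℚ_[p] :=
  1 + 240 * ∑' n : ℕ, (σ 3 (n + 1) : ℚ_[p]) * q ^ (n + 1)

/-- `Δ(q) = q ∏ (1 - qⁿ)²⁴`. -/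
def tateDelta {p : ℕ} [Fact p.Prime] (q : ℚ_[p]) : ℚ_[p] :=
  q * (∏' n : ℕ, (1 - q ^ (n + 1))) ^ 24

/-- `q` is the Tate period of `W` at `p`: `0 < |q| < 1` and `j(q) = j(W)`, that is
`E₄(q)³ / Δ(q) = c₄³ / Δ_W`. -/
def IsTatePeriod (p : ℕ) [Fact p.Prime] (W : WeierstrassCurve ℚ) (q : ℚ_[p]) : Prop :=
  q ≠ 0 ∧ ‖q‖ < 1 ∧ tateE4 q ^ 3 * (W.Δ : ℚ_[p]) = (W.c₄ : ℚ_[p]) ^ 3 * tateDelta q

/-- The data entering the Mazur-Tate relation for `(E, p)`: `W` is a global minimal Weierstrass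
equation of `E`, `N` the conductor, `f` the newform, `L` the Néron period lattice,
`sym r = [r] = D [r]⁺_raw`, `q = p ^ n * u` the Tate period, with `n = ord_p(q)`, `u = q̃`. -/
structure MTData (p : ℕ) [Fact p.Prime] (W : WeierstrassCurve ℚ) (N : ℕ)
    (sym : ℚ → ℤ) (n : ℕ) (u : ℤ_[p]ˣ) : Prop where
  elliptic : W.IsElliptic
  minimal : IsGloballyMinimal W
  split : (W⁄ℚ_[p]).HasSplitMultiplicativeReduction ℤ_[p]
  level : 0 < N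
  tate : IsTatePeriod p W ((p : ℚ_[p]) ^ n * ((u : ℤ_[p]) : ℚ_[p]))
  modular : ∃ (f : S2 N) (L : PeriodPair) (Ωp Ωm : ℝ) (D : ℕ),
    IsNewform f ∧ IsPeriodLattice W L ∧ IsOptimalLattice f L ∧ AreRealPeriods L Ωp Ωm ∧
      IsDenominator f Ωp Ωm D ∧ ∀ r : ℚ, (sym r : ℝ) = D * rawPlus f Ωp r

/-- Left-hand side of the Mazur-Tate relation, in the field `ℤ/p`:
`∏_{1 ≤ a ≤ p-1} a ^ (ord_p(q) [a/p])`, with `n = ord_p(q)`. -/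
def lhs (p : ℕ) [Fact p.Prime] (sym : ℚ → ℤ) (n : ℕ) : ZMod p :=
  ∏ a ∈ Finset.Icc 1 (p - 1), (a : ZMod p) ^ ((n : ℤ) * sym ((a : ℚ) / p))

/-- Right-hand side of the Mazur-Tate relation, in the field `ℤ/p`: `q̃ ^ [0/p]`. -/
def rhs (p : ℕ) [Fact p.Prime] (sym : ℚ → ℤ) (u : ℤ_[p]ˣ) : ZMod p :=
  (PadicInt.toZMod (u : ℤ_[p])) ^ (sym ((0 : ℚ) / p))

/-- Question Q1: the relation holds for all `p` and `E`. -/
def MazurTateConjecture : Prop :=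
  ∀ (p : ℕ) [Fact p.Prime] (W : WeierstrassCurve ℚ) (N : ℕ) (sym : ℚ → ℤ) (n : ℕ) (u : ℤ_[p]ˣ),
    MTData p W N sym n u → lhs p sym n = rhs p sym u

/-- The curve 14a1: `y² + xy + y = x³ + 4x - 6`. -/
def E14 : WeierstrassCurve ℚ := ⟨1, 0, 1, 4, -6⟩

instance fact_prime_seven : Fact (Nat.Prime 7) := ⟨by norm_num⟩

end MP9c45e8
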