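import Mathlib

/-!
Module F1: existence of a lattice with given `g₂, g₃` (nonzero, nonzero discriminant).
-/

open Complex UpperHalfPlane ModularForm EisensteinSeries Filter MatrixGroups OnePoint
open scoped Topology
open PeriodPair

namespace MP9c45e8

/-- The normalised Eisenstein series tend to `1` at the cusp. -/
lemma tendsto_E {k : ℕ} (hk : 3 ≤ k) (hk2 : Even k) :
    Tendsto (fun τ : ℍ => E hk τ) atImInfty (𝓝 1) := by
  have hanal := ModularFormClass.analyticAt_cuspFunction_zero (E hk) one_pos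
    one_mem_strictPeriods_SL
  have hper := SlashInvariantFormClass.periodic_comp_ofComplex (E hk) one_mem_strictPeriods_SL
  have h1 : cuspFunction 1 (E hk) 0 = 1 := by
    rw [cuspFunction_apply_zero one_pos hanal hper, ← qExpansion_coeff_zero one_pos hanal hper]
    exact E_qExpansion_coeff_zero hk hk2
  rw [← h1]
  exact (hanal.continuousAt.tendsto.comp (qParam_tendsto_atImInfty one_pos)).congr
    (fun τ ↦ SlashInvariantFormClass.eq_cuspFunction (E hk) τ one_mem_strictPeriods_SL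
      one_ne_zero)

/-- The auxiliary form of weight 12. -/
noncomputable def HH (a b : ℂ) : ModularForm 𝒮ℒ 12 :=
  a • ModularForm.mcast (by decide) (E₄.pow 3) - b • ModularForm.mcast (by decide) (E₆.pow 2)

lemma HH_apply (a b : ℂ) (z : ℍ) : HH a b z = a * E₄ z ^ 3 - b * E₆ z ^ 2 := rfl

lemma exists_zero (a b : ℂ) (hab : a ≠ b) : ∃ τ : ℍ, a * E₄ τ ^ 3 = b * E₆ τ ^ 2 := by
  by_contra! hcon
  have hne : ∀ z : ℍ, HH a b z ≠ 0 := fun z => by
    rw [HH_apply]; exact sub_ne_zero.mpr (hcon z)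
  have htend : Tendsto (fun z : ℍ => HH a b z) atImInfty (𝓝 (a - b)) := by
    have h4 := tendsto_E (by norm_num : 3 ≤ 4) ⟨2, rfl⟩
    have h6 := tendsto_E (by norm_num : 3 ≤ 6) ⟨3, rfl⟩
    have := ((h4.pow 3).const_mul a).sub ((h6.pow 2).const_mul b)
    simp only [one_pow, mul_one] at this
    exact this.congr (fun z => (HH_apply a b z).symm)
  have hquot : Tendsto (fun z : ℍ => ModularForm.discriminant z / HH a b z) atImInfty (𝓝 0) := by
    have hd : Tendsto (fun z : ℍ => ModularForm.discriminant z) atImInfty (𝓝 0) :=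
      discriminant_isZeroAtImInfty
    have := hd.div htend (sub_ne_zero.mpr hab)
    rwa [zero_div] at this
  have hslash : ∀ γ : SL(2, ℤ), (fun z ↦ ModularForm.discriminant z / HH a b z) ∣[(0:ℤ)] γ =
      fun z ↦ ModularForm.discriminant z / HH a b z := by
    intro γ
    have hγ : (γ : GL (Fin 2) ℝ) ∈ 𝒮ℒ := ⟨γ, rfl⟩
    have := div_slash_SL2 12 12 γ (⇑CuspForm.discriminant) (⇑(HH a b))
    simp only [sub_self] at this
    change (⇑CuspForm.discriminant / ⇑(HH a b)) ∣[(0:ℤ)] γ = ⇑CuspForm.discriminant / ⇑(HH a b)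
    rw [this]
    simp_rw [ModularForm.SL_slash, SlashInvariantFormClass.slash_action_eq _ _ hγ]
  let f : ModularForm 𝒮ℒ 0 :=
    { toFun z := ModularForm.discriminant z / HH a b z
      slash_action_eq' := fun _ ⟨γ, hγ⟩ ↦ hγ ▸ hslash γ
      holo' := CuspForm.discriminant.holo'.div (HH a b).holo' hne
      bdd_at_cusps' {c} hc := by
        rw [Subgroup.IsArithmetic.isCusp_iff_isCusp_SL2Z] at hc
        rw [isBoundedAt_iff_forall_SL2Z hc]
        intro γ _
        rw [hslash γ, IsBoundedAtImInfty, BoundedAtFilter]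
        exact hquot.isBigO_one ℝ }
  obtain ⟨c, hc⟩ := ModularFormClass.levelOne_weight_zero_const f
  have hfc : ∀ z : ℍ, ModularForm.discriminant z / HH a b z = c := fun z => congrFun hc z
  have hc0 : c = 0 := by
    have : Tendsto (fun z : ℍ => c) atImInfty (𝓝 0) := hquot.congr hfc
    exact tendsto_nhds_unique tendsto_const_nhds this
  have := hfc UpperHalfPlane.I
  rw [hc0, div_eq_zero_iff] at this
  rcases this with h | h
  · exact discriminant_ne_zero _ h
  · exact hne _ h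

lemma G_eq (τ : ℍ) (lam : ℂ) (L : PeriodPair) (h1 : L.ω₁ = lam * τ)
    (h2 : L.ω₂ = lam) {k : ℕ} (hk : 3 ≤ k) :
    L.G k = (lam ^ k)⁻¹ * (2 * riemannZeta k * E hk τ) := by
  have hE : E hk τ = (1 / 2 : ℂ) * eisensteinSeries (N := 1) 0 k τ := rfl
  have hs := tsum_eisSummand_eq_riemannZeta_mul_eisensteinSeries hk τ
  rw [← (finTwoArrowEquiv ℤ).symm.tsum_eq] at hs
  have : 2 * riemannZeta k * E hk τ = ∑' c : ℤ × ℤ, eisSummand k ((finTwoArrowEquiv ℤ).symm c) τ := by
    rw [hs, hE]; ring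
  rw [this, PeriodPair.G, ← L.latticeEquivProd.symm.toEquiv.tsum_eq, ← tsum_mul_left]
  apply tsum_congr
  intro x
  change ((((L.latticeEquivProd.symm x) : L.lattice) : ℂ) ^ k)⁻¹ = _
  rw [L.latticeEquiv_symm_apply, h1, h2, eisSummand]
  simp only [finTwoArrowEquiv_symm_apply, Matrix.cons_val_zero, Matrix.cons_val_one, zpow_neg,
    zpow_natCast]
  rw [← mul_inv, ← mul_pow]
  congr 2
  ring

theorem exists_periodPair (g₂ g₃ : ℂ) (h2 : g₂ ≠ 0) (h3 : g₃ ≠ 0)
    (h : g₂ ^ 3 ≠ 27 * g₃ ^ 2) : ∃ L : PeriodPair, L.g₂ = g₂ ∧ L.g₃ = g₃ := by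
  obtain ⟨τ, hτ⟩ := exists_zero (27 * g₃ ^ 2) (g₂ ^ 3) (Ne.symm h)
  have hD : E₄ τ ^ 3 - E₆ τ ^ 2 ≠ 0 := by
    intro h0
    have := discriminant_eq_E₄_cube_sub_E₆_sq τ
    rw [h0, zero_div] at this
    exact discriminant_ne_zero _ this
  have hE4 : E₄ τ ≠ 0 := by
    intro h0
    rw [h0] at hτ hD
    have : E₆ τ ^ 2 = 0 := by
      have : g₂ ^ 3 * E₆ τ ^ 2 = 0 := by rw [← hτ]; ring
      rcases mul_eq_zero.mp this with h' | h'
      · exact absurd h' (pow_ne_zero _ h2)
      · exact h'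
    exact hD (by rw [this]; ring)
  have hE6 : E₆ τ ≠ 0 := by
    intro h0
    rw [h0] at hτ hD
    have : E₄ τ ^ 3 = 0 := by
      have : 27 * g₃ ^ 2 * E₄ τ ^ 3 = 0 := by rw [hτ]; ring
      rcases mul_eq_zero.mp this with h' | h'
      · exact absurd h' (mul_ne_zero (by norm_num) (pow_ne_zero _ h3))
      · exact h'
    exact hD (by rw [this]; ring)
  have hpi : (Real.pi : ℂ) ≠ 0 := by exact_mod_cast Real.pi_ne_zero
  set A : ℂ := 4 * Real.pi ^ 4 / 3 * E₄ τ with hA
  set B : ℂ := 8 * Real.pi ^ 6 / 27 * E₆ τ with hB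
  have hA0 : A ≠ 0 := mul_ne_zero (div_ne_zero (mul_ne_zero (by norm_num) (pow_ne_zero _ hpi))
    (by norm_num)) hE4
  have hB0 : B ≠ 0 := mul_ne_zero (div_ne_zero (mul_ne_zero (by norm_num) (pow_ne_zero _ hpi))
    (by norm_num)) hE6
  have hAB : A ^ 3 * g₃ ^ 2 = g₂ ^ 3 * B ^ 2 := by
    rw [hA, hB]
    linear_combination (64 * (Real.pi : ℂ) ^ 12 / 729) * hτ
  obtain ⟨μ, hμ⟩ := IsAlgClosed.exists_pow_nat_eq (g₃ * A / (B * g₂)) (n := 2) (by norm_num)
  have hμ0 : μ ≠ 0 := by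
    intro h0
    rw [h0, zero_pow (by norm_num)] at hμ
    exact (div_ne_zero (mul_ne_zero h3 hA0) (mul_ne_zero hB0 h2)) hμ.symm
  have hμ4 : μ ^ 4 * A = g₂ := by
    have : μ ^ 4 = (μ ^ 2) ^ 2 := by ring
    rw [this, hμ]
    field_simp
    linear_combination hAB
  have hμ6 : μ ^ 6 * B = g₃ := by
    have : μ ^ 6 = (μ ^ 2) ^ 3 := by ring
    rw [this, hμ]
    field_simp
    linear_combination hAB
  have hz6 : riemannZeta 6 = (Real.pi : ℂ) ^ 6 / 945 := by
    have := riemannZeta_two_mul_nat (k := 3) (by norm_num)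
    norm_num [show bernoulli 6 = 1 / 42 by decide +kernel, Nat.factorial] at this
    rw [this]
    ring
  let L : PeriodPair := ⟨μ⁻¹ * τ, μ⁻¹, by
    rw [LinearIndependent.pair_iff]
    intro s t hst
    have h0 : μ⁻¹ * ((s : ℂ) * τ + t) = 0 := by
      rw [← hst]; simp only [Complex.real_smul]; ring
    have h1 : (s : ℂ) * τ + t = 0 := by
      rcases mul_eq_zero.mp h0 with h' | h'
      · exact absurd h' (inv_ne_zero hμ0)
      · exact h'
    have him := congrArg Complex.im h1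
    simp only [Complex.add_im, Complex.mul_im, Complex.ofReal_re, Complex.ofReal_im, zero_mul,
      add_zero, Complex.zero_im] at him
    have hs : s = 0 := by
      rcases mul_eq_zero.mp him with h' | h'
      · exact h'
      · exact absurd h' (ne_of_gt τ.im_pos)
    refine ⟨hs, ?_⟩
    rw [hs] at h1
    simpa using h1⟩
  refine ⟨L, ?_, ?_⟩
  · have := G_eq τ μ⁻¹ L rfl rfl (by norm_num : 3 ≤ 4)
    rw [PeriodPair.g₂, this]
    push_cast
    rw [riemannZeta_four, inv_pow, inv_inv]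
    rw [← hμ4, hA]
    ring
  · have := G_eq τ μ⁻¹ L rfl rfl (by norm_num : 3 ≤ 6)
    rw [PeriodPair.g₃, this]
    push_cast
    rw [hz6, inv_pow, inv_inv]
    rw [← hμ6, hB]
    ring

end MP9c45e8
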