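import Pool.Agent.MP_9c45e8_nt.C3
import Pool.Agent.MP_9c45e8_nt.E

/-!
Module G: the period lattice of `2πi F(z)dz` is the period lattice of 14a1.
-/

open Complex Filter
open UpperHalfPlane hiding I
open PeriodPair
open scoped MatrixGroups Real ModularForm Topology

noncomputable section

namespace MP9c45e8

/-- a property of all values of `FF` holds near `0` -/
theorem eventually_FF {p : ℂ → Prop} (h : ∀ z : ℂ, 0 < z.im → p (FF z)) :
    ∀ᶠ u in 𝓝[≠] (0 : ℂ), p u := by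
  have h1 : ∀ q : ℂ, q ≠ 0 → ‖q‖ < 1 → p (GG q) := by
    intro q h0 h1
    obtain ⟨z, hz, rfl⟩ := exists_qq h0 h1
    exact h z hz
  have hs : HasStrictDerivAt GG (deriv GG 0) 0 := analyticAt_GG_zero.hasStrictDerivAt
  have hne : deriv GG 0 ≠ 0 := by rw [deriv_GG (by simp), phi_zero]; norm_num
  have hm := hs.map_nhds_eq hne
  rw [GG_spec.2.1] at hm
  rw [eventually_nhdsWithin_iff, ← hm, Filter.eventually_map]
  have h2 : ∀ᶠ q in 𝓝 (0 : ℂ), ‖q‖ < 1 := by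
    have : ContinuousAt (fun q : ℂ ↦ ‖q‖) 0 := by fun_prop
    exact this.eventually (gt_mem_nhds (by simp))
  filter_upwards [h2] with q hq hne'
  refine h1 q ?_ hq
  rintro rfl
  exact hne' GG_spec.2.1

/-- The group of periods. -/
def Lam : AddSubgroup ℂ where
  carrier := {x | ∃ M : Matrix (Fin 2) (Fin 2) ℤ, M.det = 1 ∧ 14 ∣ M 1 0 ∧
    ∀ z : ℂ, 0 < z.im → FF (mob M z) = FF z + x}
  zero_mem' := ⟨1, by simp, by simp, fun z _ ↦ by rw [mob_one, add_zero]⟩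
  add_mem' := by
    rintro x y ⟨M, hM, hM14, h⟩ ⟨N, hN, hN14, h'⟩
    refine ⟨M * N, by rw [Matrix.det_mul, hM, hN, mul_one], ?_, ?_⟩
    · rw [Matrix.mul_apply, Fin.sum_univ_two]
      exact dvd_add (Dvd.dvd.mul_right hM14 _) (Dvd.dvd.mul_left hN14 _)
    · intro z hz
      have pM : 0 < M.det := by rw [hM]; norm_num
      have pN : 0 < N.det := by rw [hN]; norm_num
      rw [mob_mul pM pN hz, h _ (mob_im_pos pN hz), h' z hz]
      ring
  neg_mem' := by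
    rintro x ⟨M, hM, hM14, h⟩
    have pM : 0 < M.det := by rw [hM]; norm_num
    have hd : M.adjugate.det = 1 := by rw [Matrix.det_adjugate, hM]; simp
    have pd : 0 < M.adjugate.det := by rw [hd]; norm_num
    refine ⟨M.adjugate, hd, ?_, ?_⟩
    · rw [Matrix.adjugate_fin_two]
      simpa using hM14
    · intro z hz
      have h1 := mob_mul pM pd hz
      rw [Matrix.mul_adjugate, hM, one_smul, mob_one] at h1
      have h2 := h _ (mob_im_pos pd hz)
      rw [← h1] at h2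
      rw [h2]; ring

theorem mem_Lam {x : ℂ} : x ∈ Lam ↔ ∃ M : Matrix (Fin 2) (Fin 2) ℤ, M.det = 1 ∧ 14 ∣ M 1 0 ∧
    ∀ z : ℂ, 0 < z.im → FF (mob M z) = FF z + x := Iff.rfl

theorem XX_inv {M : Matrix (Fin 2) (Fin 2) ℤ} (hM : M.det = 1) (h14 : 14 ∣ M 1 0) {z : ℂ}
    (hz : 0 < z.im) : XX (mob M z) = XX z := by
  have hAL : IsAL 1 M := ⟨hM, one_dvd _, one_dvd _, h14⟩
  have hT := (AL1 hM h14).2
  have hW := wW_AL_left (Or.inl rfl) hAL hT hz
  rw [XX, hT z hz, hW, XX]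
  simp [epsQ]

theorem XX_left {Q : ℤ} {M : Matrix (Fin 2) (Fin 2) ℤ} (hQ : QQ Q) (hM : IsAL Q M)
    (h : ∀ z : ℂ, 0 < z.im → etaT (mob M z) = etaT z) {z : ℂ} (hz : 0 < z.im) :
    XX (mob M z) = (etaT z ^ 2 + 7 * etaT z - epsQ Q * wW z) / 2 + 61 / 12 := by
  rw [XX, h z hz, wW_AL_left hQ hM h hz]

theorem XX_right {Q : ℤ} {M : Matrix (Fin 2) (Fin 2) ℤ} (hQ : QQ Q) (hM : IsAL Q M)
    (h : ∀ z : ℂ, 0 < z.im → etaT (mob M z) = 8 / etaT z) {z : ℂ} (hz : 0 < z.im) :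
    XX (mob M z) = ((8 / etaT z) ^ 2 + 7 * (8 / etaT z) + epsQ Q * 8 * wW z / etaT z ^ 2) / 2
      + 61 / 12 := by
  rw [XX, h z hz, wW_AL_right hQ hM h hz]
  ring

/-- a function of `q` which is bounded near `0` -/
theorem bounded_of_tendsto {g : ℂ → ℂ} {c : ℂ} (h : Tendsto g (𝓝[≠] 0) (𝓝 c)) :
    ∃ A B : ℝ, ∀ z : ℂ, A ≤ z.im → ‖g (qq z)‖ ≤ B := by
  have h1 : ∀ᶠ q in 𝓝[≠] (0 : ℂ), ‖g q‖ < ‖c‖ + 1 :=
    h.norm.eventually (gt_mem_nhds (by linarith))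
  obtain ⟨A, hA⟩ := eventually_qq h1
  exact ⟨A, ‖c‖ + 1, fun z hz ↦ (hA z hz).le⟩

theorem cont_tau : ContinuousAt tau 0 := analyticAt_tau_zero.continuousAt
theorem cont_phi : ContinuousAt phi 0 := analyticAt_phi_zero.continuousAt
theorem cont_aa : ContinuousAt aa 0 := (analyticAt_aa (by simp)).continuousAt

theorem num7_O3 : O3 (fun q ↦ (tau q * tau q) * phi q + 7 * q * (tau q * phi q) + aa q)
    (fun q ↦ -6 * q ^ 2) := by
  have ha := aa_O3
  have ht := tau_O3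
  have hp := phi_O3
  have h1 := (ht.mul ht (by fun_prop) (by fun_prop)).mul hp (by fun_prop) (by fun_prop)
  have h2 := ht.mul hp (by fun_prop) (by fun_prop)
  have h3 : O3 (fun q ↦ 7 * q * (tau q * phi q))
      (fun q ↦ 7 * q * ((1 - 3 * q + 3 * q ^ 2) * (1 - q - 2 * q ^ 2))) :=
    O3.mul (f := fun q ↦ 7 * q) O3.rfl' h2 (by fun_prop) (by fun_prop)
  refine O3.trans ((h1.add h3).add ha) ?_
  refine O3.of_eq (m := fun q ↦ (7) * q ^ 0 + (18) * q ^ 1 + (-15) * q ^ 2 + (-18) * q ^ 3) (by fun_prop) ?_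
  intro q
  ring

/-- Boundedness of `X` at the cusps inequivalent to `i∞`. -/
theorem XX_bounded {Q : ℤ} {M : Matrix (Fin 2) (Fin 2) ℤ} (hQ : QQ Q) (hM : IsAL Q M)
    (hQ1 : Q ≠ 1) : ∃ A B : ℝ, ∀ z : ℂ, 0 < z.im → A ≤ z.im → ‖XX (mob M z)‖ ≤ B := by
  have t0 : tau 0 ≠ 0 := by rw [tau_zero]; norm_num
  have p0 : phi 0 ≠ 0 := by rw [phi_zero]; norm_num
  have right : (∀ z : ℂ, 0 < z.im → etaT (mob M z) = 8 / etaT z) →
      ∃ A B : ℝ, ∀ z : ℂ, 0 < z.im → A ≤ z.im → ‖XX (mob M z)‖ ≤ B := by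
    intro h
    have hg : ContinuousAt (fun q ↦ ((8 * q / tau q) ^ 2 + 7 * (8 * q / tau q) +
        epsQ Q * 8 * (aa q / (phi q * tau q ^ 2))) / 2 + 61 / 12) 0 := by
      have c1 : ContinuousAt (fun q ↦ 8 * q / tau q) 0 :=
        (by fun_prop : ContinuousAt (fun q : ℂ ↦ 8 * q) 0).div cont_tau t0
      have c2 : ContinuousAt (fun q ↦ aa q / (phi q * tau q ^ 2)) 0 :=
        cont_aa.div (cont_phi.mul (cont_tau.pow 2)) (mul_ne_zero p0 (pow_ne_zero 2 t0))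
      fun_prop
    obtain ⟨A, B, hAB⟩ := bounded_of_tendsto (hg.tendsto.mono_left nhdsWithin_le_nhds)
    refine ⟨A, B, fun z hz hA ↦ ?_⟩
    have e : XX (mob M z) = ((8 * qq z / tau (qq z)) ^ 2 + 7 * (8 * qq z / tau (qq z)) +
        epsQ Q * 8 * (aa (qq z) / (phi (qq z) * tau (qq z) ^ 2))) / 2 + 61 / 12 := by
      rw [XX_right hQ hM h hz, etaT_eq hz, wW_eq hz]
      have h1 := tau_ne_zero (qq_norm_lt hz)
      have h2 := phi_ne_zero (qq_norm_lt hz)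
      have h3 := qq_ne_zero z
      field_simp
    rw [e]
    exact hAB z hA
  rcases hQ with rfl | rfl | rfl | rfl
  · exact absurd rfl hQ1
  · exact right (AL2 hM.det hM.d0 hM.d1 hM.d14).2
  · have hQ : QQ 7 := Or.inr (Or.inr (Or.inl rfl))
    obtain ⟨m, hm, hnum⟩ := num7_O3
    have hg : ContinuousAt (fun q ↦ ((-6 + q * m q) / phi q) / 2 + 61 / 12) 0 := by
      have c1 : ContinuousAt (fun q ↦ (-6 + q * m q) / phi q) 0 :=
        (continuousAt_const.add (continuousAt_id.mul hm)).div cont_phi p0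
      fun_prop
    have hg' : Tendsto (fun q ↦ ((tau q / q) ^ 2 + 7 * (tau q / q) +
        aa q / (q ^ 2 * phi q)) / 2 + 61 / 12) (𝓝[≠] 0)
        (𝓝 (((-6 + 0 * m 0) / phi 0) / 2 + 61 / 12)) := by
      refine (hg.tendsto.mono_left nhdsWithin_le_nhds).congr' ?_
      filter_upwards [hnum.filter_mono nhdsWithin_le_nhds, eventually_disc] with q e hq
      have h1 := phi_ne_zero hq.2.1
      have h3 := hq.1
      have e2 : aa q = -6 * q ^ 2 + q ^ 3 * m q - (tau q * tau q) * phi q -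
        7 * q * (tau q * phi q) := by linear_combination e
      rw [e2]
      field_simp
      ring
    obtain ⟨A, B, hAB⟩ := bounded_of_tendsto hg'
    refine ⟨A, B, fun z hz hA ↦ ?_⟩
    have e : XX (mob M z) = ((tau (qq z) / qq z) ^ 2 + 7 * (tau (qq z) / qq z) +
        aa (qq z) / (qq z ^ 2 * phi (qq z))) / 2 + 61 / 12 := by
      rw [XX_left hQ hM (AL7 hM.det hM.d0 hM.d1 hM.d14).2 hz, etaT_eq hz, wW_eq hz]
      simp [epsQ]
    rw [e]
    exact hAB z hA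
  · exact right (AL14 hM.det hM.d0 hM.d1 hM.d14).2

theorem analyticAt_xi : AnalyticAt ℂ (fun q ↦ (tau q ^ 2 + 7 * q * tau q - aa q / phi q) / 2 +
      61 / 12 * q ^ 2) 0 := by
  have a1 := analyticAt_tau_zero
  have a2 := analyticAt_phi_zero
  have a3 : AnalyticAt ℂ aa 0 := analyticAt_aa (by simp)
  have a4 : phi 0 ≠ 0 := phi_ne_zero (by simp)
  have a5 : AnalyticAt ℂ (fun q : ℂ ↦ 7 * q) 0 := by fun_prop
  have a6 : AnalyticAt ℂ (fun q : ℂ ↦ 61 / 12 * q ^ 2) 0 := by fun_prop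
  exact (((((a1.pow 2).add (a5.mul a1)).sub (a3.div a2 a4)).div_const)).add a6

theorem tendsto_sq_Xq : Tendsto (fun q ↦ q ^ 2 * Xq q) (𝓝[≠] 0) (𝓝 1) := by
  have h := analyticAt_xi.continuousAt.tendsto
  simp only [tau_zero, aa_zero, phi_zero] at h
  norm_num at h
  refine (h.mono_left nhdsWithin_le_nhds).congr' ?_
  filter_upwards [eventually_disc] with q hq
  obtain ⟨h0, h1, -⟩ := hq
  have hp := phi_ne_zero h1
  rw [Xq, Tq, Wq]
  field_simp

/-- `X` is unbounded near `i∞`. -/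
theorem XX_unbounded (A B : ℝ) : ∃ z : ℂ, 0 < z.im ∧ A ≤ z.im ∧ B < ‖XX z‖ := by
  have h1 : ∀ᶠ q in 𝓝[≠] (0 : ℂ), 1 / 2 < ‖q ^ 2 * Xq q‖ :=
    tendsto_sq_Xq.norm.eventually (lt_mem_nhds (by norm_num))
  have h2 : ∀ᶠ q in 𝓝[≠] (0 : ℂ), ‖q ^ 2 * ((|B| : ℝ) : ℂ)‖ < 1 / 2 := by
    have : ContinuousAt (fun q : ℂ ↦ q ^ 2 * ((|B| : ℝ) : ℂ)) 0 := by fun_prop
    have h := this.norm.tendsto
    simp only [ne_eq, OfNat.ofNat_ne_zero, not_false_eq_true, zero_pow, zero_mul, norm_zero] at h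
    exact (h.mono_left nhdsWithin_le_nhds).eventually (gt_mem_nhds (by norm_num))
  obtain ⟨A', hA'⟩ := eventually_qq (h1.and h2)
  set z : ℂ := ((max (max A A') 1 : ℝ) : ℂ) * I with hz
  have him : z.im = max (max A A') 1 := by simp [hz]
  have hpos : 0 < z.im := by rw [him]; positivity
  refine ⟨z, hpos, ?_, ?_⟩
  · rw [him]; exact (le_max_left _ _).trans (le_max_left _ _)
  · obtain ⟨e1, e2⟩ := hA' z (by rw [him]; exact (le_max_right _ _).trans (le_max_left _ _))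
    rw [XX_eq hpos]
    rw [norm_mul] at e1 e2
    by_contra hcon
    push Not at hcon
    have h3 : ‖Xq (qq z)‖ ≤ ‖((|B| : ℝ) : ℂ)‖ := by
      rw [Complex.norm_real, Real.norm_eq_abs, abs_abs]
      exact hcon.trans (le_abs_self B)
    have := mul_le_mul_of_nonneg_left h3 (norm_nonneg (qq z ^ 2))
    linarith

theorem epsQ_cases (Q : ℤ) : (epsQ Q : ℂ) = 1 ∨ (epsQ Q : ℂ) = -1 := by
  unfold epsQ; split_ifs <;> simp

theorem wP_eps (L : PeriodPair) (Q : ℤ) (u : ℂ) : ℘[L] (epsQ Q * u) = ℘[L] u := by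
  rcases epsQ_cases Q with h | h
  · rw [h, one_mul]
  · rw [h, neg_one_mul, L.weierstrassP_neg]

section

variable (L : PeriodPair) (h2 : L.g₂ = -215 / 12) (h3 : L.g₃ = 5291 / 216)
include h2 h3

theorem kappa_not_mem {Q : ℤ} {M : Matrix (Fin 2) (Fin 2) ℤ} (hQ : QQ Q) (hM : IsAL Q M)
    (hQ1 : Q ≠ 1) {κ : ℂ} (hκ : ∀ z : ℂ, 0 < z.im → FF (mob M z) = epsQ Q * FF z + κ) :
    κ ∉ L.lattice := by
  intro hmem
  obtain ⟨A, B, hAB⟩ := XX_bounded hQ hM hQ1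
  obtain ⟨z, hz, hA, hB⟩ := XX_unbounded A B
  have h := hAB z hz hA
  have e1 := (wP_FF L h2 h3 _ (mob_im_pos (hM.pos hQ) hz)).2
  have e2 := (wP_FF L h2 h3 _ hz).2
  have e3 := L.weierstrassP_add_coe (epsQ Q * FF z) ⟨κ, hmem⟩
  simp only at e3
  rw [hκ z hz, e3, wP_eps, e2] at e1
  rw [← e1] at h
  linarith

theorem Lam_le {x : ℂ} (hx : x ∈ Lam) : x ∈ L.lattice := by
  obtain ⟨M, hM, h14, h⟩ := hx
  refine mem_lattice_of_periodic L x (eventually_FF fun z hz ↦ ?_)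
  have pM : 0 < M.det := by rw [hM]; norm_num
  rw [← h z hz, (wP_FF L h2 h3 _ (mob_im_pos pM hz)).2, (wP_FF L h2 h3 _ hz).2, XX_inv hM h14 hz]

/-- The period lattice of `2πi F(z) dz` is exactly `L`. -/
theorem Lam_eq {x : ℂ} (hx : x ∈ L.lattice) : x ∈ Lam := by
  by_contra hne
  obtain ⟨L', hL1, hL2, y, hy1, hy2⟩ := exists_sublattice L Lam
    (fun x hx ↦ Lam_le L h2 h3 hx) ⟨x, hx, hne⟩
  have hFF : ∀ z : ℂ, 0 < z.im → FF z ∉ L.lattice := fun z hz ↦ (wP_FF L h2 h3 z hz).1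
  have hFF' : ∀ z : ℂ, 0 < z.im → FF z ∉ L'.lattice := fun z hz h ↦ hFF z hz (hL2 _ h)
  set h : ℂ → ℂ := fun z ↦ ℘[L'] (FF z) - ℘[L] (FF z) with hh
  have hopen : ∀ K : PeriodPair, IsOpen (K.latticeᶜ : Set ℂ) := fun K ↦
    K.isClosed_lattice.isOpen_compl
  have hdiffK : ∀ (K : PeriodPair) (u : ℂ), u ∉ K.lattice → DifferentiableAt ℂ ℘[K] u :=
    fun K u hu ↦ K.differentiableOn_weierstrassP.differentiableAt ((hopen K).mem_nhds hu)
  have hd : DifferentiableOn ℂ h {z | 0 < z.im} := by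
    intro z hz
    have hz : 0 < z.im := hz
    have d1 : DifferentiableAt ℂ (fun z ↦ ℘[L'] (FF z)) z :=
      DifferentiableAt.comp (g := ℘[L']) z (hdiffK L' _ (hFF' z hz))
        (hasDerivAt_FF hz).differentiableAt
    have d2 : DifferentiableAt ℂ (fun z ↦ ℘[L] (FF z)) z :=
      DifferentiableAt.comp (g := ℘[L]) z (hdiffK L _ (hFF z hz))
        (hasDerivAt_FF hz).differentiableAt
    exact (d1.sub d2).differentiableWithinAt
  have hinv : ∀ M : Matrix (Fin 2) (Fin 2) ℤ, M.det = 1 → 14 ∣ M 1 0 →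
      ∀ z : ℂ, 0 < z.im → h (mob M z) = h z := by
    intro M hM h14 z hz
    obtain ⟨κ, hκ⟩ := FF_AL (Q := 1) (Or.inl rfl) ⟨hM, one_dvd _, one_dvd _, h14⟩
    have hκ' : ∀ z : ℂ, 0 < z.im → FF (mob M z) = FF z + κ := by
      intro z hz
      rw [hκ z hz]; simp [epsQ]
    have hmem : κ ∈ Lam := ⟨M, hM, h14, hκ'⟩
    simp only [hh]
    rw [hκ' z hz]
    have e1 := L'.weierstrassP_add_coe (FF z) ⟨κ, hL1 _ hmem⟩
    have e2 := L.weierstrassP_add_coe (FF z) ⟨κ, Lam_le L h2 h3 hmem⟩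
    simp only at e1 e2
    rw [e1, e2]
  -- near `0`
  have hG0 : Tendsto GG (𝓝[≠] 0) (𝓝[≠] 0) := by
    rw [tendsto_nhdsWithin_iff]
    refine ⟨?_, GG_ne_zero_near⟩
    have := analyticAt_GG_zero.continuousAt.tendsto
    rw [GG_spec.2.1] at this
    exact this.mono_left nhdsWithin_le_nhds
  have hlim : Tendsto (fun u ↦ ℘[L'] u - ℘[L] u) (𝓝[≠] 0) (𝓝 0) := by
    have := (tendsto_weierstrassP_sub L').sub (tendsto_weierstrassP_sub L)
    simpa using this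
  have hlim' : Tendsto (fun q ↦ ℘[L'] (GG q) - ℘[L] (GG q)) (𝓝[≠] 0) (𝓝 0) := hlim.comp hG0
  have hb : ∀ (Q : ℤ) (M : Matrix (Fin 2) (Fin 2) ℤ), QQ Q → IsAL Q M →
      ∃ A B : ℝ, ∀ z : ℂ, 0 < z.im → A ≤ z.im → ‖h (mob M z)‖ ≤ B := by
    intro Q M hQ hM
    obtain ⟨κ, hκ⟩ := FF_AL hQ hM
    by_cases hQ1 : Q = 1
    · subst hQ1
      obtain ⟨A, B, hAB⟩ := bounded_of_tendsto hlim'
      refine ⟨A, B, fun z hz hA ↦ ?_⟩
      rw [hinv M hM.det hM.d14 z hz]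
      exact hAB z hA
    · have hn := kappa_not_mem L h2 h3 hQ hM hQ1 hκ
      have hn' : κ ∉ L'.lattice := fun h ↦ hn (hL2 _ h)
      have hcont : ∀ K : PeriodPair, κ ∉ K.lattice →
          ContinuousAt (fun q ↦ ℘[K] (epsQ Q * GG q + κ)) 0 := by
        intro K hK
        have c1 : ContinuousAt (fun q ↦ epsQ Q * GG q + κ) 0 :=
          (analyticAt_GG_zero.continuousAt.const_mul _).add continuousAt_const
        have c2 : ContinuousAt ℘[K] (epsQ Q * GG 0 + κ) := by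
          rw [GG_spec.2.1, mul_zero, zero_add]
          exact (hdiffK K κ hK).continuousAt
        exact ContinuousAt.comp (g := ℘[K]) c2 c1
      obtain ⟨A, B, hAB⟩ := bounded_of_tendsto
        (((hcont L' hn').sub (hcont L hn)).tendsto.mono_left nhdsWithin_le_nhds)
      refine ⟨A, B, fun z hz hA ↦ ?_⟩
      have := hAB z hA
      simp only [hh]
      rw [hκ z hz]
      exact this
  obtain ⟨c, hc⟩ := const_of_AL h hd hinv hb
  have hc0 : c = 0 := by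
    by_contra hne
    have hpos : 0 < ‖c‖ := norm_pos_iff.mpr hne
    have h5 : ∀ᶠ q in 𝓝[≠] (0 : ℂ), ‖℘[L'] (GG q) - ℘[L] (GG q)‖ < ‖c‖ :=
      hlim'.norm.eventually (by simpa using gt_mem_nhds hpos)
    obtain ⟨A, hA⟩ := eventually_qq h5
    set z : ℂ := ((max A 1 : ℝ) : ℂ) * I with hz
    have him : z.im = max A 1 := by simp [hz]
    have hzpos : 0 < z.im := by rw [him]; positivity
    have h6 := hA z (by rw [him]; exact le_max_left _ _)
    have h7 := hc z hzpos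
    simp only [hh, FF] at h7
    rw [h7] at h6
    exact lt_irrefl _ h6
  have hfin : ∀ᶠ u in 𝓝[≠] (0 : ℂ), ℘[L] u = ℘[L'] u := by
    refine eventually_FF fun z hz ↦ ?_
    have := hc z hz
    rw [hc0] at this
    simp only [hh] at this
    exact (sub_eq_zero.mp this).symm
  have := lattice_eq_of_eventually L L' hfin
  rw [this] at hy1
  exact hy2 hy1

end

end MP9c45e8
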