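import Pool.Agent.MP_9c45e8_nt.Defs

/-!
Module K (14a1 is elliptic, globally minimal, split multiplicative at 7) and
module J (its Tate period at 7 is `7³ u` with `u ≡ -1 mod 7`).
-/

open Complex
open scoped WeierstrassCurve ArithmeticFunction.sigma

namespace MP9c45e8

theorem E14_Δ : E14.Δ = -21952 := by
  norm_num [E14, WeierstrassCurve.Δ, WeierstrassCurve.b₂, WeierstrassCurve.b₄,
    WeierstrassCurve.b₆, WeierstrassCurve.b₈]

theorem E14_c₄ : E14.c₄ = -215 := by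
  norm_num [E14, WeierstrassCurve.c₄, WeierstrassCurve.b₂, WeierstrassCurve.b₄]

theorem E14_isElliptic : E14.IsElliptic := by
  rw [WeierstrassCurve.isElliptic_iff, E14_Δ]
  norm_num

/-- The integral model over any ring. -/
def E14int (R : Type*) [CommRing R] : WeierstrassCurve R := ⟨1, 0, 1, 4, -6⟩

lemma E14int_baseChange (p : ℕ) [Fact p.Prime] : (E14int ℤ_[p])⁄ℚ_[p] = E14⁄ℚ_[p] := by
  ext <;> simp [E14int, E14, WeierstrassCurve.baseChange]
  · exact map_ofNat (algebraMap ℤ_[p] ℚ_[p]) 4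
  · exact map_ofNat (algebraMap ℤ_[p] ℚ_[p]) 6

instance E14_isIntegral (p : ℕ) [Fact p.Prime] : (E14⁄ℚ_[p]).IsIntegral ℤ_[p] :=
  ⟨⟨E14int ℤ_[p], (E14int_baseChange p).symm⟩⟩

lemma E14_base_Δ (p : ℕ) [Fact p.Prime] : (E14⁄ℚ_[p]).Δ = -21952 := by
  rw [WeierstrassCurve.baseChange, WeierstrassCurve.map_Δ, E14_Δ]
  simp

lemma E14_base_c₄ (p : ℕ) [Fact p.Prime] : (E14⁄ℚ_[p]).c₄ = -215 := by
  rw [WeierstrassCurve.baseChange, WeierstrassCurve.map_c₄, E14_c₄]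
  simp

lemma not_pow_dvd (p : ℕ) (hp : p.Prime) : ¬ ((p : ℤ) ^ 12 ∣ 21952) := by
  intro h
  have h' : p ^ 12 ∣ 21952 := by exact_mod_cast h
  rcases hp.eq_two_or_odd with rfl | h2
  · norm_num at h'
  · have h3 : 3 ≤ p := by
      have := hp.two_le
      omega
    have := Nat.le_of_dvd (by norm_num) h'
    have h4 : 3 ^ 12 ≤ p ^ 12 := Nat.pow_le_pow_left h3 12
    norm_num at h4
    omega

theorem E14_isGloballyMinimal : IsGloballyMinimal E14 := by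
  intro p hp
  refine ⟨⟨by simpa using E14_isIntegral p, ?_⟩⟩
  intro C hC _
  have hC' : (C • (E14⁄ℚ_[p])).IsIntegral ℤ_[p] := hC
  have h1 : ((1 : WeierstrassCurve.VariableChange ℚ_[p]) • (E14⁄ℚ_[p])).IsIntegral ℤ_[p] := by
    simpa using E14_isIntegral p
  change WeierstrassCurve.valuation_Δ_aux ℤ_[p] (C • (E14⁄ℚ_[p])) ≤
    WeierstrassCurve.valuation_Δ_aux ℤ_[p]
      ((1 : WeierstrassCurve.VariableChange ℚ_[p]) • (E14⁄ℚ_[p]))
  rw [← Subtype.coe_le_coe, WeierstrassCurve.valuation_Δ_aux_eq_of_isIntegral,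
    WeierstrassCurve.valuation_Δ_aux_eq_of_isIntegral, one_smul,
    WeierstrassCurve.variableChange_Δ, map_mul, map_pow]
  by_cases hu : ‖((C.u⁻¹ : ℚ_[p]ˣ) : ℚ_[p])‖ ≤ 1
  · have h2 : IsDedekindDomain.HeightOneSpectrum.valuation ℚ_[p]
        (IsDiscreteValuationRing.maximalIdeal ℤ_[p]) ((C.u⁻¹ : ℚ_[p]ˣ) : ℚ_[p]) ≤ 1 :=
      IsDedekindDomain.HeightOneSpectrum.valuation_le_one
        (IsDiscreteValuationRing.maximalIdeal ℤ_[p]) (⟨_, hu⟩ : ℤ_[p])
    exact mul_le_of_le_one_left' (pow_le_one₀ zero_le h2)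
  · exfalso
    push Not at hu
    obtain ⟨δ, hδ⟩ := WeierstrassCurve.Δ_integral_of_isIntegral ℤ_[p] (C • (E14⁄ℚ_[p]))
    rw [WeierstrassCurve.variableChange_Δ, E14_base_Δ] at hδ
    have hu0 : (C.u : ℚ_[p]) ≠ 0 := C.u.ne_zero
    have hu1 : ‖(C.u : ℚ_[p])‖ < 1 := by
      rw [Units.val_inv_eq_inv_val, norm_inv] at hu
      exact (one_lt_inv₀ (norm_pos_iff.mpr hu0)).mp hu
    obtain ⟨w, hw⟩ : ∃ w : ℤ_[p], (w : ℚ_[p]) = (C.u : ℚ_[p]) := ⟨⟨_, hu1.le⟩, rfl⟩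
    have hdvd : (p : ℤ_[p]) ∣ w := by
      rw [← PadicInt.norm_lt_one_iff_dvd, PadicInt.norm_def, hw]
      exact hu1
    have h3 : (p : ℤ_[p]) ^ 12 ∣ ((-21952 : ℤ) : ℤ_[p]) := by
      have h4 : ((-21952 : ℤ) : ℤ_[p]) = w ^ 12 * δ := by
        apply PadicInt.ext
        have h5 : ((δ : ℤ_[p]) : ℚ_[p]) = ((C.u⁻¹ : ℚ_[p]ˣ) : ℚ_[p]) ^ 12 * -21952 := hδ
        rw [PadicInt.coe_mul, PadicInt.coe_pow, h5, Units.val_inv_eq_inv_val,
          PadicInt.coe_intCast, hw]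
        field_simp
        push_cast
        rfl
      rw [h4]
      exact Dvd.dvd.mul_right (pow_dvd_pow_of_dvd hdvd 12) δ
    have h6 := (PadicInt.pow_p_dvd_int_iff 12 (-21952)).mp h3
    rw [Int.dvd_neg] at h6
    exact not_pow_dvd p hp.out h6

lemma seven_mem_maximalIdeal : (7 : ℤ_[7]) ∈ IsLocalRing.maximalIdeal ℤ_[7] := by
  rw [PadicInt.maximalIdeal_eq_span_p]
  exact Ideal.mem_span_singleton_self _

lemma intCast_mem_maximalIdeal_iff (n : ℤ) :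
    (n : ℤ_[7]) ∈ IsLocalRing.maximalIdeal ℤ_[7] ↔ (7 : ℤ) ∣ n := by
  rw [IsLocalRing.mem_maximalIdeal, PadicInt.mem_nonunits, PadicInt.norm_int_lt_one_iff_dvd]
  rfl

lemma residue_seven : (7 : IsLocalRing.ResidueField ℤ_[7]) = 0 := by
  have h := (IsLocalRing.residue_eq_zero_iff _).mpr seven_mem_maximalIdeal
  rwa [map_ofNat] at h

open Polynomial in
theorem E14_split : (E14⁄ℚ_[7]).HasSplitMultiplicativeReduction ℤ_[7] := by
  have hmin := E14_isGloballyMinimal 7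
  have hinj : Function.Injective (algebraMap ℤ_[7] ℚ_[7]) := IsFractionRing.injective _ _
  refine { hmin with
    badReduction := ?_, multiplicativeReduction := ?_, splitMultiplicativeReduction := ?_ }
  · have h : (E14⁄ℚ_[7]).Δ = algebraMap ℤ_[7] ℚ_[7] ((-21952 : ℤ) : ℤ_[7]) := by
      rw [E14_base_Δ, map_intCast]
      norm_num
    rw [h, IsDedekindDomain.HeightOneSpectrum.valuation_lt_one_iff_mem]
    exact (intCast_mem_maximalIdeal_iff _).mpr (by norm_num)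
  · have h : (E14⁄ℚ_[7]).c₄ = algebraMap ℤ_[7] ℚ_[7] ((-215 : ℤ) : ℤ_[7]) := by
      rw [E14_base_c₄, map_intCast]
      norm_num
    rw [h, IsDedekindDomain.HeightOneSpectrum.valuation_eq_one_iff_notMem]
    exact fun h => absurd ((intCast_mem_maximalIdeal_iff _).mp h) (by norm_num)
  · have hI : (E14⁄ℚ_[7]).integralModel ℤ_[7] = E14int ℤ_[7] := by
      apply WeierstrassCurve.map_injective hinj
      exact ((E14⁄ℚ_[7]).baseChange_integralModel_eq ℤ_[7]).trans (E14int_baseChange 7).symm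
    rw [hI]
    have key : (Polynomial.map (algebraMap ℤ_[7] (IsLocalRing.ResidueField ℤ_[7]))
        (C (E14int ℤ_[7]).c₄ * X ^ 2 + C ((E14int ℤ_[7]).a₁ * (E14int ℤ_[7]).c₄) * X -
          C (54 * (E14int ℤ_[7]).b₆ - 3 * (E14int ℤ_[7]).b₂ * (E14int ℤ_[7]).b₄ +
            (E14int ℤ_[7]).a₂ * (E14int ℤ_[7]).c₄))) =
        C 2 * ((X - C 2) * (X - C 4)) := by
      have hc4 : (E14int ℤ_[7]).c₄ = -215 := by
        simp only [E14int, WeierstrassCurve.c₄, WeierstrassCurve.b₂, WeierstrassCurve.b₄]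
        ring
      have hb6 : (E14int ℤ_[7]).b₆ = -23 := by
        simp only [E14int, WeierstrassCurve.b₆]
        ring
      have hb2 : (E14int ℤ_[7]).b₂ = 1 := by
        simp only [E14int, WeierstrassCurve.b₂]
        ring
      have hb4 : (E14int ℤ_[7]).b₄ = 9 := by
        simp only [E14int, WeierstrassCurve.b₄]
        ring
      have ha1 : (E14int ℤ_[7]).a₁ = 1 := rfl
      have ha2 : (E14int ℤ_[7]).a₂ = 0 := rfl
      have h7 : (7 : (IsLocalRing.ResidueField ℤ_[7])[X]) = 0 := by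
        have := congrArg (C : IsLocalRing.ResidueField ℤ_[7] → _) residue_seven
        rwa [map_zero, map_ofNat] at this
      rw [hc4, hb6, hb2, hb4, ha1, ha2]
      simp only [Polynomial.map_sub, Polynomial.map_add, Polynomial.map_mul, Polynomial.map_pow,
        Polynomial.map_X, map_neg, map_mul, map_sub, map_add, map_one, map_zero,
        map_ofNat, Polynomial.map_neg, Polynomial.map_ofNat, Polynomial.map_one,
        Polynomial.map_zero]
      linear_combination (-31 * X ^ 2 - 29 * X + 179) * h7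
    rw [key]
    exact (Splits.C _).mul ((Splits.X_sub_C _).mul (Splits.X_sub_C _))

end MP9c45e8

namespace MP9c45e8

open Filter Topology Polynomial

section Tate

abbrev Q7 : Type := ℚ_[7]

lemma lip_poly (P : ℤ[X]) {x y : Q7} (hx : ‖x‖ ≤ 1) (hy : ‖y‖ ≤ 1) :
    ‖aeval x P - aeval y P‖ ≤ ‖x - y‖ := by
  obtain ⟨a, rfl⟩ : ∃ a : ℤ_[7], (a : Q7) = x := ⟨⟨x, hx⟩, rfl⟩
  obtain ⟨b, rfl⟩ : ∃ b : ℤ_[7], (b : Q7) = y := ⟨⟨y, hy⟩, rfl⟩
  have key : ∀ c : ℤ_[7], aeval (c : Q7) P = ((aeval c P : ℤ_[7]) : Q7) := fun c =>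
    aeval_algebraMap_apply Q7 c P
  obtain ⟨c, hc⟩ : a - b ∣ aeval a P - aeval b P := by
    rw [aeval_def, aeval_def, ← eval_map, ← eval_map]
    exact sub_dvd_eval_sub _ _ _
  rw [key, key, ← PadicInt.coe_sub, hc, ← PadicInt.coe_sub, PadicInt.coe_mul, norm_mul]
  have : ‖(c : Q7)‖ ≤ 1 := c.2
  exact mul_le_of_le_one_right (norm_nonneg _) this

lemma lip_pow {x y : Q7} (hx : ‖x‖ ≤ 1) (hy : ‖y‖ ≤ 1) (n : ℕ) :
    ‖x ^ n - y ^ n‖ ≤ ‖x - y‖ := by
  simpa using lip_poly (X ^ n) hx hy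

lemma norm_poly (P : ℤ[X]) {x : Q7} (hx : ‖x‖ ≤ 1) : ‖aeval x P‖ ≤ 1 := by
  obtain ⟨a, rfl⟩ : ∃ a : ℤ_[7], (a : Q7) = x := ⟨⟨x, hx⟩, rfl⟩
  have key : aeval (a : Q7) P = ((aeval a P : ℤ_[7]) : Q7) := aeval_algebraMap_apply Q7 a P
  rw [key]
  exact (aeval a P : ℤ_[7]).2

/-- `F` is a limit of integral polynomials on the open unit ball. -/
def IsLim (F : Q7 → Q7) : Prop :=
  ∃ P : ℕ → ℤ[X], ∀ x : Q7, ‖x‖ < 1 → Tendsto (fun n => aeval x (P n)) atTop (𝓝 (F x))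

lemma IsLim.lip {F : Q7 → Q7} (hF : IsLim F) {x y : Q7} (hx : ‖x‖ < 1) (hy : ‖y‖ < 1) :
    ‖F x - F y‖ ≤ ‖x - y‖ := by
  obtain ⟨P, hP⟩ := hF
  exact le_of_tendsto ((hP x hx).sub (hP y hy)).norm
    (Eventually.of_forall fun n => lip_poly (P n) hx.le hy.le)

lemma IsLim.norm_le {F : Q7 → Q7} (hF : IsLim F) {x : Q7} (hx : ‖x‖ < 1) :
    ‖F x‖ ≤ 1 := by
  obtain ⟨P, hP⟩ := hF
  exact le_of_tendsto (hP x hx).norm
    (Eventually.of_forall fun n => norm_poly (P n) hx.le)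

lemma summable_pow {x : Q7} (hx : ‖x‖ < 1) : Summable fun n : ℕ => ‖x‖ ^ (n + 1) :=
  (summable_nat_add_iff 1).mpr (summable_geometric_of_lt_one (norm_nonneg _) hx)

lemma isLim_E4 : IsLim (tateE4 (p := 7)) := by
  refine ⟨fun n => 1 + 240 * ∑ i ∈ Finset.range n, C (σ 3 (i + 1) : ℤ) * X ^ (i + 1),
    fun x hx => ?_⟩
  have hs : Summable fun n : ℕ => (σ 3 (n + 1) : Q7) * x ^ (n + 1) := by
    refine Summable.of_norm_bounded (summable_pow hx) fun n => ?_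
    rw [norm_mul, norm_pow]
    refine mul_le_of_le_one_left (by positivity) ?_
    exact_mod_cast Padic.norm_int_le_one (p := 7) (σ 3 (n + 1) : ℤ)
  have := (hs.hasSum.tendsto_sum_nat.const_mul 240).const_add 1
  refine this.congr fun n => ?_
  have h240 : aeval x (240 : ℤ[X]) = 240 := map_ofNat (aeval x) 240
  simp [h240]

/-- The product `∏ (1 - xⁿ)`. -/
noncomputable def tateA (x : Q7) : Q7 := ∏' n : ℕ, (1 - x ^ (n + 1))

lemma isLim_A : IsLim tateA := by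
  refine ⟨fun n => ∏ i ∈ Finset.range n, (1 - X ^ (i + 1)), fun x hx => ?_⟩
  have hs : Multipliable fun n : ℕ => (1 - x ^ (n + 1)) := by
    have := multipliable_one_add_of_summable (R := Q7) (f := fun n : ℕ => - x ^ (n + 1))
      (by simpa using summable_pow hx)
    simpa [sub_eq_add_neg] using this
  refine hs.hasProd.tendsto_prod_nat.congr fun n => ?_
  simp

lemma tateE4_zero : tateE4 (0 : Q7) = 1 := by simp [tateE4]

lemma tateA_zero : tateA (0 : Q7) = 1 := by simp [tateA]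

lemma IsLim.sub_one {F : Q7 → Q7} (hF : IsLim F) (h0 : F 0 = 1) {x : Q7} (hx : ‖x‖ < 1) :
    ‖F x - 1‖ ≤ ‖x‖ := by
  have := hF.lip hx (y := 0) (by simp)
  rwa [h0, sub_zero] at this

lemma IsLim.pow_lip {F : Q7 → Q7} (hF : IsLim F) (n : ℕ) {x y : Q7} (hx : ‖x‖ < 1)
    (hy : ‖y‖ < 1) : ‖F x ^ n - F y ^ n‖ ≤ ‖x - y‖ :=
  (lip_pow (hF.norm_le hx) (hF.norm_le hy) n).trans (hF.lip hx hy)

lemma IsLim.pow_sub_one {F : Q7 → Q7} (hF : IsLim F) (h0 : F 0 = 1) (n : ℕ) {x : Q7}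
    (hx : ‖x‖ < 1) : ‖F x ^ n - 1‖ ≤ ‖x‖ := by
  have := hF.pow_lip n hx (y := 0) (by simp)
  rwa [h0, sub_zero, one_pow] at this

/-- The map whose fixed points are the Tate parameters. -/
noncomputable def Psi (r x : Q7) : Q7 := x - x * tateA x ^ 24 + r * tateE4 x ^ 3

lemma norm_add_le_of_le {x y : Q7} {c : ℝ} (hx : ‖x‖ ≤ c) (hy : ‖y‖ ≤ c) : ‖x + y‖ ≤ c :=
  (Padic.nonarchimedean x y).trans (max_le hx hy)

lemma Psi_mapsTo {r : Q7} (hr : ‖r‖ ≤ 7⁻¹) {x : Q7} (hx : ‖x‖ ≤ 7⁻¹) : ‖Psi r x‖ ≤ 7⁻¹ := by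
  have hx1 : ‖x‖ < 1 := hx.trans_lt (by norm_num)
  have h1 : x - x * tateA x ^ 24 = x * -(tateA x ^ 24 - 1) := by ring
  rw [Psi, h1]
  refine norm_add_le_of_le ?_ ?_
  · rw [norm_mul, norm_neg]
    refine (mul_le_of_le_one_right (norm_nonneg _) ?_).trans hx
    exact (isLim_A.pow_sub_one tateA_zero 24 hx1).trans hx1.le
  · rw [norm_mul]
    refine (mul_le_of_le_one_right (norm_nonneg _) ?_).trans hr
    rw [norm_pow]
    exact pow_le_one₀ (norm_nonneg _) (isLim_E4.norm_le hx1)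

lemma Psi_lip {r : Q7} (hr : ‖r‖ ≤ 7⁻¹) {x y : Q7} (hx : ‖x‖ ≤ 7⁻¹) (hy : ‖y‖ ≤ 7⁻¹) :
    ‖Psi r x - Psi r y‖ ≤ 7⁻¹ * ‖x - y‖ := by
  have hx1 : ‖x‖ < 1 := hx.trans_lt (by norm_num)
  have hy1 : ‖y‖ < 1 := hy.trans_lt (by norm_num)
  have h1 : Psi r x - Psi r y = -(tateA x ^ 24 - 1) * (x - y) +
      (- y * (tateA x ^ 24 - tateA y ^ 24) + r * (tateE4 x ^ 3 - tateE4 y ^ 3)) := by
    rw [Psi, Psi]; ring
  rw [h1]
  refine norm_add_le_of_le ?_ (norm_add_le_of_le ?_ ?_)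
  · rw [norm_mul, norm_neg]
    gcongr
    exact (isLim_A.pow_sub_one tateA_zero 24 hx1).trans hx
  · rw [norm_mul, norm_neg]
    gcongr
    exact isLim_A.pow_lip 24 hx1 hy1
  · rw [norm_mul]
    gcongr
    exact isLim_E4.pow_lip 3 hx1 hy1

lemma exists_fixed {r : Q7} (hr : ‖r‖ ≤ 7⁻¹) : ∃ q : Q7, ‖q‖ ≤ 7⁻¹ ∧ Psi r q = q := by
  have hmaps : Set.MapsTo (Psi r) (Metric.closedBall 0 7⁻¹) (Metric.closedBall 0 7⁻¹) := by
    intro x hx
    rw [mem_closedBall_zero_iff] at hx ⊢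
    exact Psi_mapsTo hr hx
  have hc : ContractingWith (7⁻¹ : NNReal) (hmaps.restrict (Psi r) _ _) := by
    refine ⟨by rw [inv_lt_one_iff₀]; right; norm_num, LipschitzWith.of_dist_le_mul ?_⟩
    rintro ⟨x, hx⟩ ⟨y, hy⟩
    rw [mem_closedBall_zero_iff] at hx hy
    rw [Subtype.dist_eq, Subtype.dist_eq, dist_eq_norm, dist_eq_norm]
    simpa using Psi_lip hr hx hy
  obtain ⟨q, hq, hfix, -⟩ := hc.exists_fixedPoint' Metric.isClosed_closedBall.isComplete hmaps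
    (Metric.mem_closedBall_self (by norm_num)) (edist_ne_top _ _)
  exact ⟨q, mem_closedBall_zero_iff.mp hq, hfix⟩

lemma tateDelta_eq (q : Q7) : tateDelta q = q * tateA q ^ 24 := rfl

end Tate

theorem E14_tate : ∃ u : ℤ_[7]ˣ,
    IsTatePeriod 7 E14 (((7 : ℕ) : ℚ_[7]) ^ 3 * ((u : ℤ_[7]) : ℚ_[7])) ∧
      PadicInt.toZMod (u : ℤ_[7]) = (-1 : ZMod 7) := by
  have h7 : ‖(7 : Q7)‖ = 7⁻¹ := by simpa using Padic.norm_p (p := 7)
  have h70 : (7 : Q7) ≠ 0 := by norm_num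
  have h215 : ‖(215 : Q7)‖ = 1 := by
    have : ‖((215 : ℕ) : Q7)‖ = 1 := by
      rw [Padic.norm_natCast_eq_one_iff]
      norm_num
    simpa using this
  have h64 : ‖(64 : Q7)‖ = 1 := by
    have : ‖((64 : ℕ) : Q7)‖ = 1 := by
      rw [Padic.norm_natCast_eq_one_iff]
      norm_num
    simpa using this
  have h2150 : (215 : Q7) ≠ 0 := by norm_num
  set r' : Q7 := 64 / 215 ^ 3 with hr'
  have hr'n : ‖r'‖ = 1 := by rw [hr', norm_div, norm_pow, h215, h64]; norm_num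
  set r : Q7 := 7 ^ 3 * r' with hrdef
  have hr : ‖r‖ = 7⁻¹ ^ 3 := by rw [hrdef, norm_mul, norm_pow, h7, hr'n, mul_one]
  obtain ⟨q, hq, hfix⟩ := exists_fixed (r := r) (by rw [hr]; norm_num)
  have hq1 : ‖q‖ < 1 := hq.trans_lt (by norm_num)
  have heq : q * tateA q ^ 24 = r * tateE4 q ^ 3 := by
    rw [Psi] at hfix
    linear_combination -hfix
  have hA : ‖tateA q ^ 24 - 1‖ ≤ ‖q‖ := isLim_A.pow_sub_one tateA_zero 24 hq1
  have hE : ‖tateE4 q ^ 3 - 1‖ ≤ ‖q‖ := isLim_E4.pow_sub_one tateE4_zero 3 hq1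
  have hA1 : ‖tateA q ^ 24‖ = 1 := by
    have := Padic.norm_eq_of_norm_sub_lt_right (z1 := tateA q ^ 24) (z2 := 1) (by simpa using hA.trans_lt hq1)
    simpa using this
  have hE1 : ‖tateE4 q ^ 3‖ = 1 := by
    have := Padic.norm_eq_of_norm_sub_lt_right (z1 := tateE4 q ^ 3) (z2 := 1) (by simpa using hE.trans_lt hq1)
    simpa using this
  have hqn : ‖q‖ = 7⁻¹ ^ 3 := by
    have := congrArg norm heq
    rwa [norm_mul, norm_mul, hA1, hE1, mul_one, mul_one, hr] at this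
  set v : Q7 := q / 7 ^ 3 with hv
  have hvn : ‖v‖ = 1 := by
    rw [hv, norm_div, norm_pow, h7, hqn, div_self (by norm_num)]
  have hqv : q = 7 ^ 3 * v := by rw [hv]; field_simp
  have heq' : v * tateA q ^ 24 = r' * tateE4 q ^ 3 := by
    apply mul_left_cancel₀ (pow_ne_zero 3 h70)
    rw [← mul_assoc, ← hqv, heq, hrdef, mul_assoc]
  have hv1 : ‖v + 1‖ < 1 := by
    have h1 : v + 1 = v * -(tateA q ^ 24 - 1) + (r' * (tateE4 q ^ 3 - 1) + (r' + 1)) := by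
      linear_combination heq'
    rw [h1]
    refine (norm_add_le_of_le (c := 7⁻¹) ?_ (norm_add_le_of_le ?_ ?_)).trans_lt (by norm_num)
    · rw [norm_mul, norm_neg, hvn, one_mul]
      exact hA.trans hq
    · rw [norm_mul, hr'n, one_mul]
      exact hE.trans hq
    · have h2 : r' + 1 = 7 * (1419777 / 215 ^ 3) := by
        rw [hr']
        field_simp
        norm_num
      rw [h2, norm_mul, h7, norm_div, norm_pow, h215]
      have : ‖(1419777 : Q7)‖ ≤ 1 := by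
        simpa using Padic.norm_int_le_one (p := 7) 1419777
      norm_num
      linarith
  refine ⟨PadicInt.mkUnits hvn, ?_, ?_⟩
  · have hcoe : (((7 : ℕ) : ℚ_[7]) ^ 3 * (((PadicInt.mkUnits hvn : ℤ_[7]ˣ) : ℤ_[7]) : ℚ_[7])) = q := by
      rw [PadicInt.mkUnits_eq, hqv]
      norm_num
    rw [hcoe]
    refine ⟨?_, hq1, ?_⟩
    · intro h0
      rw [h0, norm_zero] at hqn
      norm_num at hqn
    · rw [tateDelta_eq, heq, E14_Δ, E14_c₄, hrdef, hr']
      push_cast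
      field_simp
      ring
  · have h1 : ((PadicInt.mkUnits hvn : ℤ_[7]ˣ) : ℤ_[7]) + 1 ∈ RingHom.ker (PadicInt.toZMod (p := 7)) := by
      rw [PadicInt.ker_toZMod, IsLocalRing.mem_maximalIdeal, PadicInt.mem_nonunits,
        PadicInt.norm_def, PadicInt.coe_add, PadicInt.mkUnits_eq, PadicInt.coe_one]
      exact hv1
    rw [RingHom.mem_ker, map_add, map_one] at h1
    linear_combination h1

end MP9c45e8
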