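import Pool.Agent.MP_9c45e8_nt.Q
import Pool.Agent.MP_9c45e8_nt.D

/-!
Module N: `S₂(Γ₀(14))` is spanned by `etaF`, which is a newform.
-/

open Complex Filter
open UpperHalfPlane hiding I
open scoped MatrixGroups Real ModularForm Topology

noncomputable section

namespace MP9c45e8

/-- The image in `GL(2, ℚ)` of an integral matrix with positive determinant. -/
noncomputable def glM (M : Matrix (Fin 2) (Fin 2) ℤ) (hM : 0 < M.det) : GL (Fin 2) ℚ :=
  Matrix.GeneralLinearGroup.mkOfDetNeZero (M.map (Int.cast : ℤ → ℚ)) (by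
    rw [Matrix.det_fin_two] at hM ⊢
    simp only [Matrix.map_apply]
    exact_mod_cast hM.ne')

theorem slash_glM (h : ℍ → ℂ) {M : Matrix (Fin 2) (Fin 2) ℤ} (hM : 0 < M.det) (z : ℍ) :
    (h ∣[(2 : ℤ)] rGL (glM M hM)) z = M.det * h (ofComplex (mob M z)) / jj M z ^ 2 := by
  have hM' : (0 : ℝ) < (M.det : ℝ) := by exact_mod_cast hM
  have hdet : (rGL (glM M hM)).det.val = (M.det : ℝ) := by
    simp [rGL, glM, Matrix.det_fin_two]
  have h00 : (rGL (glM M hM)) 0 0 = (M 0 0 : ℝ) := by simp [rGL, glM]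
  have h01 : (rGL (glM M hM)) 0 1 = (M 0 1 : ℝ) := by simp [rGL, glM]
  have h10 : (rGL (glM M hM)) 1 0 = (M 1 0 : ℝ) := by simp [rGL, glM]
  have h11 : (rGL (glM M hM)) 1 1 = (M 1 1 : ℝ) := by simp [rGL, glM]
  have hsm : rGL (glM M hM) • z = ofComplex (mob M z) := by
    have h1 : ((rGL (glM M hM) • z : ℍ) : ℂ) = mob M z := by
      rw [coe_smul_of_det_pos (by rw [hdet]; exact hM')]
      simp [num, denom, h00, h01, h10, h11, mob]
    rw [← h1, ofComplex_apply]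
  have hσ : σ (rGL (glM M hM)) (h (ofComplex (mob M z))) = h (ofComplex (mob M z)) := by
    have h2 : 0 < (rGL (glM M hM)).det.val := by rw [hdet]; exact hM'
    simp only [σ]
    rw [if_pos h2]
    simp
  have hden : denom (rGL (glM M hM)) z = jj M z := by
    simp [denom, jj, h10, h11]
  rw [ModularForm.slash_apply, hsm, hdet, abs_of_pos hM', hσ, hden]
  rw [show ((2 : ℤ) - 1) = 1 by norm_num, zpow_one, zpow_neg]
  have e2 : jj M z ^ (2 : ℤ) = jj M z ^ 2 := by norm_cast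
  rw [e2]
  rw [Complex.ofReal_intCast]
  ring

theorem glM_mul {M : Matrix (Fin 2) (Fin 2) ℤ} (hM : 0 < M.det) {γ γ' : SL(2, ℤ)}
    (e : M * (γ : Matrix (Fin 2) (Fin 2) ℤ) = (γ' : Matrix (Fin 2) (Fin 2) ℤ) * M) :
    glM M hM * Matrix.SpecialLinearGroup.mapGL ℚ γ =
      Matrix.SpecialLinearGroup.mapGL ℚ γ' * glM M hM := by
  have e' := congrArg (fun A : Matrix (Fin 2) (Fin 2) ℤ ↦ A.map (Int.castRingHom ℚ)) e
  simp only [Matrix.map_mul] at e'
  ext i j
  have := congrFun (congrFun e' i) j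
  simpa [glM] using this

theorem slash_SL_eq (h : ℍ → ℂ) (γ : SL(2, ℤ)) (z : ℍ) :
    (h ∣[(2 : ℤ)] γ) z = h (ofComplex (mob (γ : Matrix (Fin 2) (Fin 2) ℤ) z)) /
      jj (γ : Matrix (Fin 2) (Fin 2) ℤ) z ^ 2 := by
  rw [ModularForm.SL_slash_apply]
  have h3 : ((γ • z : ℍ) : ℂ) = mob (γ : Matrix (Fin 2) (Fin 2) ℤ) z := by
    rw [UpperHalfPlane.coe_specialLinearGroup_apply]
    simp [mob]
  have h4 : denom γ z = jj (γ : Matrix (Fin 2) (Fin 2) ℤ) z := by
    simp [denom, jj]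
  rw [h4, ← h3, ofComplex_apply, zpow_neg]
  have e2 : jj (γ : Matrix (Fin 2) (Fin 2) ℤ) z ^ (2 : ℤ) =
      jj (γ : Matrix (Fin 2) (Fin 2) ℤ) z ^ 2 := by norm_cast
  rw [e2]
  rfl

theorem etaF_isCuspFn : IsCuspFn 14 (fun τ : ℍ ↦ etaF τ) := by
  refine ⟨?_, ?_, ?_⟩
  · refine differentiableOn_etaF.congr ?_
    intro z hz
    rw [ofComplex_apply_of_im_pos hz]
  · intro γ hγ
    rw [CongruenceSubgroup.Gamma0_mem, ZMod.intCast_zmod_eq_zero_iff_dvd] at hγ
    have hG := HG_of_Gamma0 γ.2 (M := (γ : Matrix (Fin 2) (Fin 2) ℤ)) hγ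
    ext z
    rw [slash_SL_eq, ofComplex_apply_of_im_pos (mob_im_pos hG.pos z.im_pos)]
    have h1 := hG.tf z z.im_pos
    rw [hG.det] at h1
    have h2 := jj_ne_zero hG.pos z.im_pos
    rw [div_eq_iff (pow_ne_zero _ h2)]
    simpa [mul_comm] using h1
  · intro σ
    obtain ⟨Q, β, hQ, hAL⟩ := exists_AL σ.2
    rw [UpperHalfPlane.isZeroAtImInfty_iff]
    intro ε hε
    obtain ⟨C, hC⟩ := etaF_bound
    have hC0 : 0 ≤ C := by
      have := (norm_nonneg _).trans (hC I (by simp))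
      by_contra hneg
      push Not at hneg
      have h2 : C * Real.exp (-2 * π * I.im) < 0 := mul_neg_of_neg_of_pos hneg (Real.exp_pos _)
      linarith
    have hQ0 : (0 : ℝ) < Q := by exact_mod_cast hQ.pos
    have hQ1 : (1 : ℝ) ≤ Q := by exact_mod_cast hQ.pos
    -- choose A with `C exp(-2π A) ≤ ε`
    have hlim : Tendsto (fun x : ℝ ↦ C * Real.exp (-2 * π * x)) atTop (𝓝 0) := by
      have h1 : Tendsto (fun x : ℝ ↦ -2 * π * x) atTop atBot := by
        have : (-2 * π) < 0 := by have := Real.pi_pos; linarith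
        exact tendsto_id.const_mul_atTop_of_neg this
      have := (Real.tendsto_exp_atBot.comp h1).const_mul C
      simpa using this
    have hev := (hlim.eventually (gt_mem_nhds hε)).and (eventually_ge_atTop (1 : ℝ))
    obtain ⟨A, hA⟩ := hev.exists_forall_of_atTop
    refine ⟨A * Q, fun τ hτ ↦ ?_⟩
    obtain ⟨h1, h2, h3⟩ := mob_eq_AL σ.2 (β := β) hQ (z := τ) τ.im_pos
    rw [slash_SL_eq, ofComplex_apply_of_im_pos (mob_im_pos (by rw [σ.2]; norm_num) τ.im_pos)]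
    have h4 := hAL.tf hQ _ h1
    have hM := hAL.pos hQ
    have hj := jj_ne_zero hM h1
    have hdet : ((σ : Matrix (Fin 2) (Fin 2) ℤ) * !![Q, β; 0, 1]).det = Q := hAL.det
    rw [hdet] at h4
    have hQC : (Q : ℂ) ≠ 0 := by exact_mod_cast hQ.pos.ne'
    rw [UpperHalfPlane.coe_mk, h2, ← h3]
    have h5 : etaF (mob ((σ : Matrix (Fin 2) (Fin 2) ℤ) * !![Q, β; 0, 1]) ((τ - β) / Q)) /
        jj ((σ : Matrix (Fin 2) (Fin 2) ℤ) * !![Q, β; 0, 1]) ((τ - β) / Q) ^ 2 =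
          epsQ Q / Q * etaF ((τ - β) / Q) := by
      rw [div_eq_iff (pow_ne_zero _ hj)]
      field_simp
      linear_combination h4
    rw [h5]
    have him : A ≤ (((τ : ℂ) - β) / Q).im := by
      rw [sub_div_im, le_div_iff₀ hQ0]
      exact hτ
    have h6 := hA _ him
    have h7 := hC _ h6.2
    have h8 : ‖(epsQ Q : ℂ)‖ = 1 := by
      unfold epsQ
      split_ifs <;> simp
    rw [norm_mul, norm_div, h8]
    have h9 : ‖(Q : ℂ)‖ = Q := by
      rw [Complex.norm_intCast]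
      exact abs_of_pos hQ0
    rw [h9]
    calc 1 / (Q : ℝ) * ‖etaF ((τ - β) / Q)‖ ≤ 1 * ‖etaF ((τ - β) / Q)‖ := by
          refine mul_le_mul_of_nonneg_right ?_ (norm_nonneg _)
          rw [div_le_one hQ0]
          exact hQ1
      _ ≤ ε := by
          rw [one_mul]
          exact h7.trans h6.1.le

theorem phi_zeroN : phi 0 = 1 := by
  obtain ⟨r, _, hr⟩ := phi_expansion
  have := hr.self_of_nhds
  simpa using this

theorem etaF_lower : ∃ A : ℝ, ∀ z : ℂ, 0 < z.im → A ≤ z.im →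
    (1 / 2) * Real.exp (-2 * π * z.im) ≤ ‖etaF z‖ := by
  have hc : ContinuousAt phi 0 :=
    (differentiableOn_phi.differentiableAt (Metric.ball_mem_nhds 0 one_pos)).continuousAt
  have h1 : Tendsto (fun q ↦ ‖phi q‖) (𝓝 0) (𝓝 1) := by
    have := hc.norm.tendsto
    rwa [phi_zeroN, norm_one] at this
  have h2 := h1.eventually (lt_mem_nhds (show (1 / 2 : ℝ) < 1 by norm_num))
  obtain ⟨δ, hδ, h3⟩ := Metric.eventually_nhds_iff.mp h2
  have hlim : Tendsto (fun x : ℝ ↦ Real.exp (-2 * π * x)) atTop (𝓝 0) := by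
    have h1 : Tendsto (fun x : ℝ ↦ -2 * π * x) atTop atBot := by
      have : (-2 * π) < 0 := by have := Real.pi_pos; linarith
      exact tendsto_id.const_mul_atTop_of_neg this
    exact Real.tendsto_exp_atBot.comp h1
  obtain ⟨A, hA⟩ := (hlim.eventually (gt_mem_nhds hδ)).exists_forall_of_atTop
  refine ⟨A, fun z hz hAz ↦ ?_⟩
  rw [etaF_eq hz, norm_mul, norm_qq, mul_comm]
  refine mul_le_mul_of_nonneg_left ?_ (Real.exp_pos _).le
  refine (h3 ?_).le
  rw [dist_zero_right, norm_qq]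
  exact hA _ hAz

/-- A cusp function decays exponentially after an Atkin-Lehner matrix. -/
theorem IsCuspFn.decay {h : ℍ → ℂ} (hh : IsCuspFn 14 h) {Q : ℤ} {M : Matrix (Fin 2) (Fin 2) ℤ}
    (hQ : QQ Q) (hM : IsAL Q M) : ∃ A B : ℝ, ∀ z : ℂ, 0 < z.im → A ≤ z.im →
      ‖M.det * h (ofComplex (mob M z)) / jj M z ^ 2‖ ≤ B * Real.exp (-2 * π * z.im) := by
  have hpos := hM.pos hQ
  set g : ℍ → ℂ := h ∣[(2 : ℤ)] rGL (glM M hpos) with hg
  have hzero : UpperHalfPlane.IsZeroAtImInfty g := hh.zero_rGL _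
  -- the conjugate of `T`
  obtain ⟨γ', hγ', hconj⟩ : ∃ γ' ∈ CongruenceSubgroup.Gamma0 14,
      M * (ModularGroup.T : Matrix (Fin 2) (Fin 2) ℤ) =
        ((γ' : SL(2, ℤ)) : Matrix (Fin 2) (Fin 2) ℤ) * M := by
    obtain ⟨e, he⟩ : ∃ e : ℤ, Q * e = 14 := by
      rcases hQ with rfl | rfl | rfl | rfl
      · exact ⟨14, by norm_num⟩
      · exact ⟨7, by norm_num⟩
      · exact ⟨2, by norm_num⟩
      · exact ⟨1, by norm_num⟩
    obtain ⟨a, ha⟩ := hM.d0
    obtain ⟨d, hd⟩ := hM.d1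
    obtain ⟨c, hc⟩ := hM.d14
    have hdet := hM.det
    rw [Matrix.det_fin_two, ha, hd, hc] at hdet
    set b := M 0 1 with hb
    have hQ0 : Q ≠ 0 := hQ.pos.ne'
    have hdet' : Q * a * d - e * b * c = 1 := by
      have : Q * (Q * a * d - e * b * c) = Q * 1 := by
        linear_combination hdet - b * c * he
      exact mul_left_cancel₀ hQ0 this
    obtain ⟨γ', hγ', h1, h2, h3, h4⟩ := exists_gamma0 (N := 14) (1 - 14 * a * c) (Q * a ^ 2)
      (-14 * e * c ^ 2) (1 + 14 * a * c)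
      (by linear_combination (14 * a ^ 2 * c ^ 2) * he) ⟨-e * c ^ 2, by push_cast; ring⟩
    refine ⟨γ', hγ', ?_⟩
    have h1' : (γ' : Matrix (Fin 2) (Fin 2) ℤ) 0 0 = 1 - 14 * a * c := h1
    have h2' : (γ' : Matrix (Fin 2) (Fin 2) ℤ) 0 1 = Q * a ^ 2 := h2
    have h3' : (γ' : Matrix (Fin 2) (Fin 2) ℤ) 1 0 = -14 * e * c ^ 2 := h3
    have h4' : (γ' : Matrix (Fin 2) (Fin 2) ℤ) 1 1 = 1 + 14 * a * c := h4
    ext i j
    fin_cases i <;> fin_cases j <;>
      simp [Matrix.mul_apply, Fin.sum_univ_two, ModularGroup.T, h1', h2', h3', h4', ha, hd, hc,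
        ← hb]
    · ring
    · linear_combination (-a * Q) * hdet' - a * b * c * he
    · linear_combination (14 * a * c ^ 2) * he
    · linear_combination (-14 * c) * hdet'
  have hgT : g ∣[(2 : ℤ)] ModularGroup.T = g := by
    rw [hg, slash_SL, ← SlashAction.slash_mul, ← rGL_mapGL, ← rGL_mul, glM_mul hpos hconj, rGL_mul,
      rGL_mapGL, SlashAction.slash_mul, ← slash_SL, hh.inv _ hγ']
  have hper : Function.Periodic (fun z : ℂ ↦ g (ofComplex z)) ((1 : ℝ) : ℂ) := by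
    intro z
    simp only [ofReal_one]
    by_cases hz : 0 < z.im
    · have h1 := congrFun hgT ⟨z, hz⟩
      rw [slash_SL_eq] at h1
      have h2 : mob ((ModularGroup.T : SL(2, ℤ)) : Matrix (Fin 2) (Fin 2) ℤ) z = z + 1 := by
        simp [mob, ModularGroup.T]
      have h3 : jj ((ModularGroup.T : SL(2, ℤ)) : Matrix (Fin 2) (Fin 2) ℤ) z = 1 := by
        simp [jj, ModularGroup.T]
      simp only [] at h1
      rw [h2, h3] at h1
      rw [ofComplex_apply_of_im_pos hz]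
      simpa using h1
    · push Not at hz
      rw [ofComplex_apply_of_im_nonpos hz, ofComplex_apply_of_im_nonpos (by simpa using hz)]
  have hdiff : DifferentiableOn ℂ (fun z : ℂ ↦ g (ofComplex z)) {z | 0 < z.im} :=
    UpperHalfPlane.mdifferentiable_iff.mp
      ((UpperHalfPlane.mdifferentiable_iff.mpr hh.holo).slash 2 (rGL (glM M hpos)))
  have hhol : ∀ᶠ z in comap Complex.im atTop, DifferentiableAt ℂ (fun z : ℂ ↦ g (ofComplex z)) z := by
    have : ∀ᶠ x : ℝ in atTop, 0 < x := eventually_gt_atTop 0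
    refine (this.comap Complex.im).mono fun z hz ↦ ?_
    exact hdiff.differentiableAt (isOpen_H.mem_nhds hz)
  have hzer : Filter.ZeroAtFilter (comap Complex.im atTop) (fun z : ℂ ↦ g (ofComplex z)) :=
    hzero.comp tendsto_comap_im_ofComplex
  have hO := Function.Periodic.exp_decay_of_zero_at_inf one_pos hper hhol hzer
  obtain ⟨B, hB⟩ := hO.bound
  rw [eventually_comap] at hB
  obtain ⟨A, hA⟩ := hB.exists_forall_of_atTop
  refine ⟨A, B, fun z hz hAz ↦ ?_⟩
  have h1 := hA _ hAz z rfl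
  simp only [div_one] at h1
  rw [Real.norm_of_nonneg (Real.exp_pos _).le, hg, slash_glM, ofComplex_apply_of_im_pos hz] at h1
  exact h1

theorem IsCuspFn.eq_smul_etaF {h : ℍ → ℂ} (hh : IsCuspFn 14 h) :
    ∃ c : ℂ, ∀ τ : ℍ, h τ = c * etaF τ := by
  suffices key : ∃ c : ℂ, ∀ z : ℂ, 0 < z.im → (fun z : ℂ ↦ h (ofComplex z) / etaF z) z = c by
    obtain ⟨c, hc⟩ := key
    refine ⟨c, fun τ ↦ ?_⟩
    have h1 := hc τ τ.im_pos
    simp only [] at h1
    rw [ofComplex_apply] at h1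
    rw [← h1, div_mul_cancel₀ _ (etaF_ne_zero τ.im_pos)]
  refine const_of_AL _ (hh.holo.div differentiableOn_etaF fun z hz ↦ etaF_ne_zero hz) ?_ ?_
  · intro M hdet h14 z hz
    have hG := HG_of_Gamma0 hdet h14
    obtain ⟨γ, rfl⟩ : ∃ γ : SL(2, ℤ), (γ : Matrix (Fin 2) (Fin 2) ℤ) = M := ⟨⟨M, hdet⟩, rfl⟩
    have hγ : γ ∈ CongruenceSubgroup.Gamma0 14 := by
      rw [CongruenceSubgroup.Gamma0_mem, ZMod.intCast_zmod_eq_zero_iff_dvd]
      exact h14
    have h1 := congrFun (hh.inv _ hγ) ⟨z, hz⟩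
    rw [slash_SL_eq] at h1
    simp only [UpperHalfPlane.coe_mk] at h1
    have hj := jj_ne_zero hG.pos hz
    have h2 := hG.tf z hz
    rw [hdet] at h2
    simp only [Int.cast_one, mul_one, one_mul] at h2
    rw [div_eq_iff (pow_ne_zero _ hj)] at h1
    rw [h1, h2, ofComplex_apply_of_im_pos hz]
    have h3 := etaF_ne_zero hz
    field_simp
  · intro Q M hQ hM
    obtain ⟨A, B, hAB⟩ := hh.decay hQ hM
    obtain ⟨A', hA'⟩ := etaF_lower
    refine ⟨max A A', 2 * B, fun z hz hAz ↦ ?_⟩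
    have h1 := hAB z hz ((le_max_left _ _).trans hAz)
    have h2 := hA' z hz ((le_max_right _ _).trans hAz)
    have hpos := hM.pos hQ
    have hj := jj_ne_zero hpos hz
    have h3 := hM.tf hQ z hz
    have hdetC : (M.det : ℂ) ≠ 0 := by exact_mod_cast hpos.ne'
    have he := etaF_ne_zero hz
    have he' := etaF_ne_zero (mob_im_pos hpos hz)
    have h4 : h (ofComplex (mob M z)) / etaF (mob M z) =
        (M.det * h (ofComplex (mob M z)) / jj M z ^ 2) / (epsQ Q * etaF z) := by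
      have hε := epsQ_ne_zero Q
      rw [div_div, div_eq_div_iff he' (by positivity)]
      linear_combination (-h (ofComplex (mob M z))) * h3
    have h5 : ‖(epsQ Q : ℂ)‖ = 1 := by
      unfold epsQ
      split_ifs <;> simp
    rw [h4, norm_div, norm_mul, h5, one_mul, div_le_iff₀ (norm_pos_iff.mpr he)]
    have hexp := Real.exp_pos (-2 * π * z.im)
    have hB : 0 ≤ B := by
      by_contra hneg
      push Not at hneg
      have := (norm_nonneg _).trans h1
      have h6 : B * Real.exp (-2 * π * z.im) < 0 := mul_neg_of_neg_of_pos hneg hexp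
      linarith
    calc _ ≤ B * Real.exp (-2 * π * z.im) := h1
      _ = 2 * B * ((1 / 2) * Real.exp (-2 * π * z.im)) := by ring
      _ ≤ 2 * B * ‖etaF z‖ := mul_le_mul_of_nonneg_left h2 (by positivity)

theorem exists_f14 : ∃ f : S2 14, ⇑f = fun τ : ℍ ↦ etaF τ :=
  etaF_isCuspFn.exists_eq (by norm_num)

/-- The newform of level `14`. -/
def f14 : S2 14 := Classical.choose exists_f14

theorem f14_apply (τ : ℍ) : f14 τ = etaF τ := congrFun (Classical.choose_spec exists_f14) τ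

/-! ### Fourier coefficients -/

/-- Taylor coefficients of `phi` -/
def phiCoeff (n : ℕ) : ℂ := (n.factorial : ℂ)⁻¹ * iteratedDeriv n phi 0

theorem hasSum_phi {q : ℂ} (hq : ‖q‖ < 1) : HasSum (fun n ↦ phiCoeff n * q ^ n) (phi q) := by
  have h := hasSum_taylorSeries_on_ball differentiableOn_phi (z := q) (by simpa using hq)
  refine h.congr_fun' fun n ↦ ?_
  simp only [phiCoeff, smul_eq_mul, sub_zero]
  ring

theorem coeff_f14_zero : coeff f14 0 = 0 ∧ ∀ n, coeff f14 (n + 1) = phiCoeff n := by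
  have key : ∀ m, (fun m : ℕ ↦ if m = 0 then 0 else phiCoeff (m - 1)) m = coeff f14 m := by
    refine coeff_unique f14 _ fun τ ↦ ?_
    rw [f14_apply, etaF_eq τ.im_pos]
    have h1 := (hasSum_phi (qq_norm_lt τ.im_pos)).mul_left (qq τ)
    rw [← hasSum_nat_add_iff' 1]
    simp only [Finset.range_one, Finset.sum_singleton, if_true, zero_mul, sub_zero]
    refine h1.congr_fun' fun n ↦ ?_
    rw [if_neg (Nat.succ_ne_zero n), Nat.add_sub_cancel, pow_succ]
    change _ * (qq τ ^ n * qq τ) = _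
    ring
  refine ⟨by simpa using (key 0).symm, fun n ↦ ?_⟩
  rw [← key (n + 1)]
  simp

theorem coeff_f14_one : coeff f14 1 = 1 := by
  rw [coeff_f14_zero.2 0, phiCoeff]
  simp [phi_zeroN]

theorem coeff_f14_two : coeff f14 2 = -1 := by
  rw [coeff_f14_zero.2 1, phiCoeff]
  obtain ⟨r, hr, hq⟩ := phi_expansion
  have h1 : HasDerivAt (fun q : ℂ ↦ 1 - q - 2 * q ^ 2 + q ^ 3 * r q) (-1) 0 := by
    have hr' := hr.differentiableAt.hasDerivAt
    have := ((((hasDerivAt_const (0 : ℂ) (1 : ℂ)).fun_sub (hasDerivAt_id' 0)).fun_sub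
      (((hasDerivAt_id' (0 : ℂ)).fun_pow 2).const_mul 2)).fun_add
        (((hasDerivAt_id' (0 : ℂ)).fun_pow 3).fun_mul hr'))
    refine this.congr_deriv ?_
    simp
  have h2 : HasDerivAt phi (-1) 0 := h1.congr_of_eventuallyEq hq
  simp [iteratedDeriv_one, h2.deriv]

theorem f14_isNewform : IsNewform f14 := by
  refine ⟨coeff_f14_one, ?_, ?_⟩
  · intro ℓ hℓ z
    obtain ⟨c, hc⟩ := (((isCuspFn_coe (by norm_num) f14).hecke (by norm_num) hℓ)).eq_smul_etaF
    have h1 : ∀ z : ℍ, hecke 14 ℓ f14 z = c * f14 z := fun z ↦ by rw [hc z, f14_apply]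
    have h2 := coeff_eq_of_hecke (by norm_num) hℓ f14 coeff_f14_one c h1
    rw [h1, h2]
  · intro M hM hlt g _
    have hM0 : 0 < M := Nat.pos_of_dvd_of_pos hM (by norm_num)
    obtain ⟨k, hk⟩ := hM
    have hk1 : k ≠ 1 := by rintro rfl; omega
    obtain ⟨ℓ, hℓ, hℓk⟩ := Nat.exists_prime_and_dvd hk1
    have hdvd : ℓ * M ∣ 14 := by
      rw [hk, mul_comm]
      exact Nat.mul_dvd_mul_left M hℓk
    have hg := isCuspFn_coe hM0 g
    obtain ⟨c, hc⟩ := (hg.mono ⟨k, hk⟩ : IsCuspFn 14 g).eq_smul_etaF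
    obtain ⟨c', hc'⟩ := ((hg.dilate hM0 hℓ.pos).mono hdvd).eq_smul_etaF
    -- compare first coefficients
    have h1 : ∀ τ : ℍ, HasSum (fun n : ℕ ↦ (c * if ℓ ∣ n then coeff f14 (n / ℓ) else 0) *
        cexp (2 * π * I * τ) ^ n) ((c' • f14) τ) := by
      intro τ
      have h2 := (hasSum_dilate (by norm_num) hℓ.pos f14 τ).mul_left c
      have h3 : (c' • f14) τ = c * f14 (ofComplex ((ℓ : ℂ) * τ)) := by
        change c' * f14 τ = _
        rw [f14_apply, f14_apply, ← hc' τ, hc]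
      rw [h3]
      exact h2.congr_fun' fun n ↦ by ring
    have h2 : ∀ τ : ℍ, HasSum (fun n : ℕ ↦ (c' * coeff f14 n) *
        cexp (2 * π * I * τ) ^ n) ((c' • f14) τ) := by
      intro τ
      have := (hasSum_coeff (by norm_num) f14 τ).mul_left c'
      exact this.congr_fun' fun n ↦ by ring
    have h3 := (coeff_unique _ _ h1 1).trans (coeff_unique _ _ h2 1).symm
    have hnd : ¬ ℓ ∣ 1 := fun h ↦ hℓ.one_lt.ne' (Nat.dvd_one.mp h)
    rw [if_neg hnd, mul_zero, coeff_f14_one, mul_one] at h3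
    have h4 := hc' UpperHalfPlane.I
    rw [← h3, zero_mul, hc] at h4
    have hc0 : c = 0 := (mul_eq_zero.mp h4).resolve_right (etaF_ne_zero (UpperHalfPlane.im_pos _))
    ext τ
    rw [hc τ, hc0, zero_mul]
    rfl

theorem U2_etaF {z : ℂ} (hz : 0 < z.im) :
    (1 / ((2 : ℕ) : ℂ)) * ∑ b ∈ Finset.range 2, etaF ((z + b) / (2 : ℕ)) = (-1) * etaF z := by
  have h := f14_isNewform.eigen 2 Nat.prime_two ⟨z, hz⟩
  rw [coeff_f14_two, hecke, if_pos (by norm_num), zero_add, f14_apply] at h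
  rw [← h]
  congr 1
  refine Finset.sum_congr rfl fun b _ ↦ ?_
  rw [f14_apply, ofComplex_apply_of_im_pos]
  simp only [Complex.div_natCast_im, Complex.add_im, Complex.natCast_im, add_zero]
  positivity

/-! ### The seventh coefficient -/

theorem AA_tail {q : ℂ} (hq : ‖q‖ ≤ 1 / 2) (N : ℕ) :
    ‖∏' n : ℕ, (1 - q ^ (n + N)) - 1‖ ≤ Real.exp (2 * ‖q‖ ^ N) - 1 := by
  have hq1 : ‖q‖ < 1 := by linarith
  have hs : Summable fun n : ℕ ↦ ‖-q ^ (n + N)‖ := by
    simp only [norm_neg, norm_pow]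
    exact (summable_nat_add_iff N).mpr (summable_geometric_of_lt_one (norm_nonneg _) hq1)
  have hm := multipliable_one_add_of_summable hs
  have hsum : ∑' n : ℕ, ‖-q ^ (n + N)‖ ≤ 2 * ‖q‖ ^ N := by
    simp only [norm_neg, norm_pow]
    simp only [pow_add]
    rw [tsum_mul_right, tsum_geometric_of_lt_one (norm_nonneg _) hq1]
    refine mul_le_mul_of_nonneg_right ?_ (by positivity)
    rw [inv_le_comm₀ (by linarith) (by norm_num)]
    norm_num
    linarith
  have e : (∏' n : ℕ, (1 - q ^ (n + N))) = ∏' n : ℕ, (1 + -q ^ (n + N)) := by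
    simp only [sub_eq_add_neg]
  rw [e]
  have hlim := (hm.hasProd.sub_const 1).norm
  refine le_of_tendsto' hlim fun t ↦ ?_
  refine (t.norm_prod_one_add_sub_one_le _).trans ?_
  gcongr
  exact (hs.sum_le_tsum t (fun _ _ ↦ norm_nonneg _)).trans hsum

open Asymptotics

/-- congruence modulo `O(q⁷)` -/
def Cong (f g : ℂ → ℂ) : Prop := (fun q ↦ f q - g q) =O[𝓝 0] fun q : ℂ ↦ ‖q‖ ^ 7

theorem Cong.mul {f g f' g' : ℂ → ℂ} (h : Cong f g) (h' : Cong f' g')
    (hg : Continuous g) (hg' : Continuous g') :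
    Cong (fun q ↦ f q * f' q) (fun q ↦ g q * g' q) := by
  have hb : ∀ {k : ℂ → ℂ}, Continuous k → k =O[𝓝 0] fun _ : ℂ ↦ (1 : ℝ) := fun hk ↦
    hk.continuousAt.isBigO_one ℝ
  have h7 : (fun q : ℂ ↦ ‖q‖ ^ 7) =O[𝓝 0] fun _ : ℂ ↦ (1 : ℝ) := by
    have : Continuous fun q : ℂ ↦ ‖q‖ ^ 7 := by fun_prop
    exact this.continuousAt.isBigO_one ℝ
  have hf : f =O[𝓝 0] fun _ : ℂ ↦ (1 : ℝ) := by
    have := (h.trans h7).add (hb hg)
    simpa using this
  have e : (fun q ↦ f q * f' q - g q * g' q) = fun q ↦ f q * (f' q - g' q) + (f q - g q) * g' q := by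
    ext q; ring
  unfold Cong
  rw [e]
  have h1 := hf.mul h'
  have h2 := IsBigO.mul h (hb hg')
  simp only [one_mul, mul_one] at h1 h2
  exact h1.add h2

theorem Cong.trans {f g k : ℂ → ℂ} (h : Cong f g) (h' : Cong g k) : Cong f k := by
  have := IsBigO.add h h'
  unfold Cong
  refine this.congr_left fun q ↦ by ring

theorem cong_of_eq {f g r : ℂ → ℂ} (hr : Continuous r) (h : ∀ q, f q = g q + q ^ 7 * r q) :
    Cong f g := by
  unfold Cong
  have e : (fun q ↦ f q - g q) = fun q ↦ q ^ 7 * r q := by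
    ext q; rw [h q]; ring
  rw [e]
  have h1 : (fun q : ℂ ↦ q ^ 7) =O[𝓝 0] fun q : ℂ ↦ ‖q‖ ^ 7 :=
    (isBigO_refl _ _).norm_right.congr_right fun q ↦ norm_pow _ _
  have h2 : r =O[𝓝 0] fun _ : ℂ ↦ (1 : ℝ) := hr.continuousAt.isBigO_one ℝ
  have := h1.mul h2
  simpa using this

theorem AA_cong_tail (k : ℕ) (hk : 0 < k) (N : ℕ) (hkN : 7 ≤ k * N) :
    Cong (fun q ↦ ∏' n : ℕ, (1 - (q ^ k) ^ (n + N))) (fun _ ↦ 1) := by
  unfold Cong
  refine IsBigO.of_bound 4 ?_
  filter_upwards [Metric.ball_mem_nhds (0 : ℂ) (show (0 : ℝ) < 1 / 2 by norm_num)] with q hq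
  have hq' : ‖q‖ < 1 / 2 := by simpa using hq
  have hq0 := norm_nonneg q
  have hqk : ‖q ^ k‖ ≤ ‖q‖ := by
    rw [norm_pow]
    calc ‖q‖ ^ k ≤ ‖q‖ ^ 1 := pow_le_pow_of_le_one hq0 (by linarith) hk
      _ = ‖q‖ := pow_one _
  have h1 := AA_tail (q := q ^ k) (hqk.trans hq'.le) N
  have h2 : ‖q ^ k‖ ^ N ≤ ‖q‖ ^ 7 := by
    rw [norm_pow, ← pow_mul]
    exact pow_le_pow_of_le_one hq0 (by linarith) hkN
  have h3 : ‖q‖ ^ 7 ≤ 1 / 2 := by
    calc ‖q‖ ^ 7 ≤ ‖q‖ ^ 1 := pow_le_pow_of_le_one hq0 (by linarith) (by norm_num)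
      _ ≤ 1 / 2 := by rw [pow_one]; exact hq'.le
  refine h1.trans ?_
  have h4 : Real.exp (2 * ‖q ^ k‖ ^ N) ≤ Real.exp (2 * ‖q‖ ^ 7) := by
    apply Real.exp_le_exp.mpr
    linarith
  have hx0 : 0 ≤ ‖q‖ ^ 7 := by positivity
  have h5 : Real.exp (2 * ‖q‖ ^ 7) - 1 ≤ 4 * ‖q‖ ^ 7 := by
    have h6 := Real.abs_exp_sub_one_le (x := 2 * ‖q‖ ^ 7) (by
      rw [abs_of_nonneg (by positivity)]; linarith)
    rw [abs_of_nonneg (by positivity : (0 : ℝ) ≤ 2 * ‖q‖ ^ 7)] at h6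
    linarith [le_abs_self (Real.exp (2 * ‖q‖ ^ 7) - 1)]
  rw [Real.norm_of_nonneg hx0]
  linarith

theorem AA_split {q : ℂ} (hq : ‖q‖ < 1) (N : ℕ) :
    AA q = (∏ n ∈ Finset.range N, (1 - q ^ (n + 1))) * ∏' n : ℕ, (1 - q ^ (n + (N + 1))) := by
  have hs : Summable fun n : ℕ ↦ ‖-q ^ (n + (N + 1))‖ := by
    simp only [norm_neg, norm_pow]
    exact (summable_nat_add_iff (N + 1)).mpr (summable_geometric_of_lt_one (norm_nonneg _) hq)
  have hm := multipliable_one_add_of_summable hs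
  have e1 : (fun n : ℕ ↦ 1 + -q ^ (n + (N + 1))) = fun n : ℕ ↦ 1 - q ^ (n + N + 1) := by
    ext n; rw [← sub_eq_add_neg, add_assoc]
  rw [e1] at hm
  have h2 := Multipliable.prod_mul_tprod_nat_mul' (f := fun n : ℕ ↦ 1 - q ^ (n + 1)) (k := N) hm
  exact h2.symm

theorem AA_cong (k : ℕ) (hk : 0 < k) (N : ℕ) (hkN : 7 ≤ k * (N + 1)) :
    Cong (fun q ↦ AA (q ^ k)) (fun q ↦ ∏ n ∈ Finset.range N, (1 - (q ^ k) ^ (n + 1))) := by
  have h1 := AA_cong_tail k hk (N + 1) hkN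
  have h2 : Cong (fun q ↦ ∏ n ∈ Finset.range N, (1 - (q ^ k) ^ (n + 1)))
      (fun q ↦ ∏ n ∈ Finset.range N, (1 - (q ^ k) ^ (n + 1))) :=
    cong_of_eq (r := fun _ ↦ 0) continuous_const (fun q ↦ by ring)
  have h3 := h2.mul h1 (by fun_prop) continuous_const
  unfold Cong at h3 ⊢
  refine h3.congr' ?_ EventuallyEq.rfl
  filter_upwards [Metric.ball_mem_nhds (0 : ℂ) (show (0 : ℝ) < 1 by norm_num)] with q hq
  have hq' : ‖q‖ < 1 := by simpa using hq
  have hq'' : ‖q ^ k‖ < 1 := by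
    rw [norm_pow]
    exact pow_lt_one₀ (norm_nonneg _) hq' hk.ne'
  rw [AA_split hq'' N, mul_one]

theorem phi_cong : Cong phi (fun q ↦ 1 - q - 2 * q ^ 2 + q ^ 3 + 2 * q ^ 5 + q ^ 6) := by
  have h1 := AA_cong 1 one_pos 6 (by norm_num)
  have h2 := AA_cong 2 two_pos 3 (by norm_num)
  have h7 := AA_cong 7 (by norm_num) 0 (by norm_num)
  have h14 := AA_cong 14 (by norm_num) 0 (by norm_num)
  have h := ((h1.mul h2 (by fun_prop) (by fun_prop)).mul h7 (by fun_prop) (by fun_prop)).mul h14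
    (by fun_prop) (by fun_prop)
  simp only [Finset.prod_range_succ, Finset.prod_range_zero, pow_one, one_mul, mul_one] at h
  have e : phi = fun q ↦ AA q * AA (q ^ 2) * AA (q ^ 7) * AA (q ^ 14) := rfl
  rw [e]
  refine h.trans (cong_of_eq (r := fun q ↦ (1) * q ^ 0 + (1) * q ^ 1 + (-5) * q ^ 2 + (-1) * q ^ 3 + (-3) * q ^ 4 + (-2) * q ^ 5 + (4) * q ^ 6 + (5) * q ^ 7 + (4) * q ^ 8 + (-4) * q ^ 11 + (-5) * q ^ 12 + (-4) * q ^ 13 + (2) * q ^ 14 + (3) * q ^ 15 + (1) * q ^ 16 + (5) * q ^ 17 + (-1) * q ^ 18 + (-1) * q ^ 19 + (-1) * q ^ 20 + (-2) * q ^ 21 + (-1) * q ^ 23 + (2) * q ^ 24 + (1) * q ^ 25 + (-1) * q ^ 26) (by fun_prop) fun q ↦ ?_)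
  ring

theorem coeffs_eq_zero {n : ℕ} {d : ℕ → ℂ}
    (h : (fun q : ℂ ↦ ∑ k ∈ Finset.range n, d k * q ^ k) =O[𝓝 0] fun q : ℂ ↦ ‖q‖ ^ n) :
    ∀ k < n, d k = 0 := by
  intro k
  induction k using Nat.strong_induction_on with
  | _ k ih =>
    intro hk
    have hpow : ∀ m, k + 1 ≤ m → (fun q : ℂ ↦ ‖q‖ ^ m) =O[𝓝 0] fun q : ℂ ↦ ‖q‖ ^ (k + 1) := by
      intro m hm
      refine IsBigO.of_bound 1 ?_
      filter_upwards [Metric.ball_mem_nhds (0 : ℂ) (show (0 : ℝ) < 1 by norm_num)] with q hq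
      have hq' : ‖q‖ < 1 := by simpa using hq
      rw [Real.norm_of_nonneg (by positivity), Real.norm_of_nonneg (by positivity), one_mul]
      exact pow_le_pow_of_le_one (norm_nonneg _) hq'.le hm
    have h1 : (fun q : ℂ ↦ ∑ j ∈ Finset.range n, d j * q ^ j) =O[𝓝 0]
        fun q : ℂ ↦ ‖q‖ ^ (k + 1) := h.trans (hpow n hk)
    have h2 : (fun q : ℂ ↦ ∑ j ∈ Finset.Ico (k + 1) n, d j * q ^ j) =O[𝓝 0]
        fun q : ℂ ↦ ‖q‖ ^ (k + 1) := by
      refine IsBigO.fun_sum fun j hj ↦ ?_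
      rw [Finset.mem_Ico] at hj
      refine IsBigO.trans ?_ (hpow j hj.1)
      refine IsBigO.const_mul_left ?_ _
      have h0 := (isBigO_refl (fun q : ℂ ↦ q ^ j) (𝓝 (0 : ℂ))).norm_right
      exact h0.congr_right fun q ↦ norm_pow _ _
    have h3 : (fun q : ℂ ↦ d k * q ^ k) =O[𝓝 0] fun q : ℂ ↦ ‖q‖ ^ (k + 1) := by
      refine (h1.sub h2).congr_left fun q ↦ ?_
      rw [Finset.range_eq_Ico, ← Finset.sum_Ico_consecutive _ (Nat.zero_le (k + 1)) hk,
        add_sub_cancel_right, ← Finset.range_eq_Ico, Finset.sum_range_succ]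
      rw [Finset.sum_eq_zero, zero_add]
      intro j hj
      rw [Finset.mem_range] at hj
      rw [ih j hj (hj.trans hk), zero_mul]
    obtain ⟨C, hC⟩ := h3.bound
    obtain ⟨δ, hδ, hball⟩ := Metric.eventually_nhds_iff.mp hC
    by_contra hne
    have hn : 0 < ‖d k‖ := norm_pos_iff.mpr hne
    have hCpos : 0 < |C| + 1 := by positivity
    set t : ℝ := min (δ / 2) (‖d k‖ / (2 * (|C| + 1))) with ht
    have ht0 : 0 < t := by positivity
    have h4 := hball (y := (t : ℂ)) (by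
      rw [dist_zero_right, Complex.norm_real, Real.norm_of_nonneg ht0.le]
      have : t ≤ δ / 2 := min_le_left _ _
      linarith)
    rw [norm_mul, norm_pow, Complex.norm_real, Real.norm_of_nonneg ht0.le,
      Real.norm_of_nonneg (by positivity), pow_succ] at h4
    have h5 : ‖d k‖ ≤ C * t := by
      have : ‖d k‖ * t ^ k ≤ (C * t) * t ^ k := by linarith
      exact le_of_mul_le_mul_right this (by positivity)
    have h6 : t ≤ ‖d k‖ / (2 * (|C| + 1)) := min_le_right _ _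
    rw [le_div_iff₀ (by positivity)] at h6
    have h7 : C * t ≤ |C| * t := mul_le_mul_of_nonneg_right (le_abs_self C) ht0.le
    nlinarith

theorem phiCoeff_six : phiCoeff 6 = 1 := by
  have hdiff : DifferentiableOn ℂ phi (Metric.closedBall 0 ((1 / 2 : NNReal) : ℝ)) := by
    refine differentiableOn_phi.mono (Metric.closedBall_subset_ball ?_)
    norm_num
  have hps := (hdiff.hasFPowerSeriesOnBall (by norm_num)).hasFPowerSeriesAt
  set p := cauchyPowerSeries phi 0 ((1 / 2 : NNReal) : ℝ) with hp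
  have hcoef : ∀ n, p.coeff n = phiCoeff n := by
    intro n
    have := hps.eq_formalMultilinearSeries
      (AnalyticAt.hasFPowerSeriesAt (hps.analyticAt))
    rw [this]
    simp [phiCoeff, FormalMultilinearSeries.coeff_ofScalars, div_eq_inv_mul]
  have h1 := hps.isBigO_sub_partialSum_pow 7
  simp only [zero_add] at h1
  have h2 := h1.sub phi_cong
  let R : ℕ → ℂ := fun n ↦ if n = 0 then 1 else if n = 1 then -1 else if n = 2 then -2 else
    if n = 3 then 1 else if n = 4 then 0 else if n = 5 then 2 else 1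
  have h3 : (fun q : ℂ ↦ ∑ k ∈ Finset.range 7, (R k - phiCoeff k) * q ^ k) =O[𝓝 0]
      fun q : ℂ ↦ ‖q‖ ^ 7 := by
    refine h2.congr_left fun q ↦ ?_
    simp only [FormalMultilinearSeries.partialSum, FormalMultilinearSeries.apply_eq_pow_smul_coeff,
      hcoef, Finset.sum_range_succ, Finset.sum_range_zero, R, smul_eq_mul]
    norm_num
    ring
  have h4 := coeffs_eq_zero h3 6 (by norm_num)
  have h5 := sub_eq_zero.mp h4
  rw [← h5]
  simp [R]

/-- The eigenvalue of `U₇` is `1`; from `coeff f14 7 = 1`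
(or from the Atkin-Lehner sign `-1` of `W₇`). -/
theorem U7_etaF {z : ℂ} (hz : 0 < z.im) :
    (1 / ((7 : ℕ) : ℂ)) * ∑ b ∈ Finset.range 7, etaF ((z + b) / (7 : ℕ)) = 1 * etaF z := by
  have h := f14_isNewform.eigen 7 (by norm_num) ⟨z, hz⟩
  rw [coeff_f14_zero.2 6, phiCoeff_six, hecke, if_pos (by norm_num), zero_add, f14_apply] at h
  rw [← h]
  congr 1
  refine Finset.sum_congr rfl fun b _ ↦ ?_
  rw [f14_apply, ofComplex_apply_of_im_pos]
  simp only [Complex.div_natCast_im, Complex.add_im, Complex.natCast_im, add_zero]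
  positivity

end MP9c45e8
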