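import Pool.Agent.MP_9c45e8_nt.G
import Pool.Agent.MP_9c45e8_nt.H
import Pool.Agent.MP_9c45e8_nt.F1
import Pool.Agent.MP_9c45e8_nt.KJ
import Pool.Agent.MP_9c45e8_nt.N

/-!
Module I: assembly.
-/

open Complex Filter
open UpperHalfPlane hiding I
open PeriodPair
open scoped MatrixGroups Real ModularForm Topology

noncomputable section

namespace MP9c45e8

/-! ### constants of Atkin-Lehner cocycles -/

/-- `FF(Mz) = ε FF z + κ` -/
def Kap (Q : ℤ) (M : Matrix (Fin 2) (Fin 2) ℤ) (κ : ℂ) : Prop :=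
  ∀ z : ℂ, 0 < z.im → FF (mob M z) = epsQ Q * FF z + κ

theorem kap_diff {Q : ℤ} {M M' : Matrix (Fin 2) (Fin 2) ℤ} (hQ : QQ Q) (hM : IsAL Q M)
    (hM' : IsAL Q M') {κ κ' : ℂ} (h : Kap Q M κ) (h' : Kap Q M' κ') : κ - κ' ∈ Lam := by
  obtain ⟨x, hx⟩ := hM.d0
  obtain ⟨w, hw⟩ := hM.d1
  obtain ⟨y, hy⟩ := hM.d14
  obtain ⟨x', hx'⟩ := hM'.d0
  obtain ⟨w', hw'⟩ := hM'.d1
  obtain ⟨y', hy'⟩ := hM'.d14
  have hQ14 : ∃ R : ℤ, 14 = Q * R := by
    rcases hQ with rfl | rfl | rfl | rfl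
    · exact ⟨14, by norm_num⟩
    · exact ⟨7, by norm_num⟩
    · exact ⟨2, by norm_num⟩
    · exact ⟨1, by norm_num⟩
  obtain ⟨R, hR⟩ := hQ14
  have hQ0 : Q ≠ 0 := hQ.pos.ne'
  set b := M 0 1 with hb
  set b' := M' 0 1 with hb'
  have eM : M = !![Q * x, b; 14 * y, Q * w] := by
    ext i j; fin_cases i <;> fin_cases j <;> simp [hx, hw, hy, hb]
  have eM' : M' = !![Q * x', b'; 14 * y', Q * w'] := by
    ext i j; fin_cases i <;> fin_cases j <;> simp [hx', hw', hy', hb']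
  have d1 : Q * x * w - R * b * y = 1 := by
    have := hM.det
    rw [eM, Matrix.det_fin_two_of, hR] at this
    apply mul_left_cancel₀ hQ0
    linear_combination this
  have d2 : Q * x' * w' - R * b' * y' = 1 := by
    have := hM'.det
    rw [eM', Matrix.det_fin_two_of, hR] at this
    apply mul_left_cancel₀ hQ0
    linear_combination this
  -- `G = M * adj(M') / Q`
  set G : Matrix (Fin 2) (Fin 2) ℤ :=
    !![Q * x * w' - R * b * y', -x * b' + b * x'; 14 * (y * w' - w * y'),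
      -R * y * b' + Q * w * x'] with hG
  have hGdet : G.det = 1 := by
    have : G.det = (Q * x * w - R * b * y) * (Q * x' * w' - R * b' * y') := by
      rw [hG, Matrix.det_fin_two_of, hR]; ring
    rw [this, d1, d2, one_mul]
  have hG14 : 14 ∣ G 1 0 := ⟨y * w' - w * y', by simp [hG]⟩
  have e : M = G * M' := by
    rw [eM, eM', hG]
    ext i j
    fin_cases i <;> fin_cases j <;>
      simp [Matrix.mul_apply, Fin.sum_univ_two]
    · rw [hR]; linear_combination (-(Q * x)) * d2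
    · linear_combination (-b) * d2
    · rw [hR]; linear_combination (-(Q * R * y)) * d2
    · rw [hR]; linear_combination (-(Q * w)) * d2
  obtain ⟨lam, hlam⟩ := FF_AL (Q := 1) (Or.inl rfl) ⟨hGdet, one_dvd _, one_dvd _, hG14⟩
  have hlam' : ∀ z : ℂ, 0 < z.im → FF (mob G z) = FF z + lam := by
    intro z hz
    rw [hlam z hz]; simp [epsQ]
  have hmem : lam ∈ Lam := ⟨G, hGdet, hG14, hlam'⟩
  have hGp : 0 < G.det := by rw [hGdet]; norm_num
  have hz0 : (0 : ℝ) < (I : ℂ).im := by simp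
  have h1 := h I hz0
  rw [e, mob_mul hGp (hM'.pos hQ) hz0, hlam' _ (mob_im_pos (hM'.pos hQ) hz0), h' I hz0] at h1
  have : κ - κ' = lam := by linear_combination -h1
  rw [this]
  exact hmem

/-- The Atkin-Lehner matrices used. -/
def N2 : Matrix (Fin 2) (Fin 2) ℤ := !![6, -1; 14, -2]
def N7 : Matrix (Fin 2) (Fin 2) ℤ := !![7, 3; 14, 7]

theorem N2_AL : IsAL 2 N2 := ⟨by simp [N2], by decide, by decide, by decide⟩
theorem N7_AL : IsAL 7 N7 := ⟨by simp [N7], by decide, by decide, by decide⟩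
theorem W14_AL : IsAL 14 W14 := ⟨W14_det, by decide, by decide, by decide⟩

/-- `P(0) = 2πi ∫_{i∞}^0` -/
def p0 : ℂ := cuspInt etaH 0

theorem kap_W14 : Kap 14 W14 p0 := by
  obtain ⟨κ, hκ⟩ := FF_AL (Q := 14) (Or.inr (Or.inr (Or.inr rfl))) W14_AL
  have h := cuspInt_AL (Or.inr (Or.inr (Or.inr rfl))) W14_AL (by simp [W14]) hκ
  have e : ((W14 0 0 : ℝ) / (W14 1 0 : ℝ)) = 0 := by simp [W14]
  rw [e] at h
  rw [p0, h]
  exact hκ

theorem p_half : cuspInt etaH (1 / 2) = -2 * p0 := by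
  have h := cuspInt_hecke (ℓ := 2) (by norm_num) (-1) (fun z hz ↦ U2_etaF hz)
  simp only [Finset.sum_range_succ, Finset.sum_range_zero] at h
  norm_num at h
  rw [p0]
  linear_combination h

theorem kap_N7 : Kap 7 N7 (-2 * p0) := by
  obtain ⟨κ, hκ⟩ := FF_AL (Q := 7) (Or.inr (Or.inr (Or.inl rfl))) N7_AL
  have h := cuspInt_AL (Or.inr (Or.inr (Or.inl rfl))) N7_AL (by simp [N7]) hκ
  have e : ((N7 0 0 : ℝ) / (N7 1 0 : ℝ)) = 1 / 2 := by simp [N7]; norm_num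
  rw [e, p_half] at h
  rw [h]
  exact hκ

theorem kap_N2 : Kap 2 N2 (-3 * p0) := by
  intro z hz
  have e : N7 * W14 = (7 : ℤ) • N2 := by decide +kernel
  have p7 : 0 < N7.det := by rw [N7_AL.det]; norm_num
  have p14 : 0 < W14.det := by rw [W14_det]; norm_num
  have h1 := mob_mul p7 p14 hz
  rw [e, mob_smul (by norm_num)] at h1
  rw [h1, kap_N7 _ (mob_im_pos p14 hz), kap_W14 z hz]
  simp [epsQ]
  ring

theorem six_p0_mem : 6 * p0 ∈ Lam := by
  have h : -(6 * p0) ∈ Lam := by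
    refine ⟨!![11, -2; 28, -5], by simp, by decide, fun z hz ↦ ?_⟩
    · have p2 : 0 < N2.det := by rw [N2_AL.det]; norm_num
      have e : N2 * N2 = (2 : ℤ) • !![11, -2; 28, -5] := by decide +kernel
      have h1 := mob_mul p2 p2 hz
      rw [e, mob_smul (by norm_num)] at h1
      rw [h1, kap_N2 _ (mob_im_pos p2 hz), kap_N2 z hz]
      simp [epsQ]
      ring
  simpa using Lam.neg_mem h

theorem p0_real : (starRingEnd ℂ) p0 = p0 := by
  have := cuspInt_neg 0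
  rw [neg_zero] at this
  exact this.symm

/-- Every cusp value is, modulo periods, a small multiple of `p0`. -/
theorem cusp_values (r : ℚ) : ∃ m : ℤ, cuspInt etaH r - m * p0 ∈ Lam := by
  obtain ⟨Q, M, hQ, hM, hc, hr⟩ := exists_AL_rat r
  obtain ⟨κ, hκ⟩ := FF_AL hQ hM
  have h1 := cuspInt_AL hQ hM hc hκ
  rw [hr] at h1
  rw [h1]
  have key : ∀ (M' : Matrix (Fin 2) (Fin 2) ℤ) (m : ℤ), IsAL Q M' → Kap Q M' (m * p0) →
      ∃ m : ℤ, κ - m * p0 ∈ Lam := fun M' m hM' hk ↦ ⟨m, kap_diff hQ hM hM' hκ hk⟩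
  rcases hQ with rfl | rfl | rfl | rfl
  · refine key 1 0 ⟨by simp, by simp, by simp, by simp⟩ fun z hz ↦ ?_
    simp [mob_one, epsQ]
  · exact key N2 (-3) N2_AL (by simpa using kap_N2)
  · exact key N7 (-2) N7_AL (by simpa using kap_N7)
  · exact key W14 1 W14_AL (by simpa using kap_W14)

theorem Lam_conj {x : ℂ} (hx : x ∈ Lam) : (starRingEnd ℂ) x ∈ Lam := by
  obtain ⟨M, hM, ⟨k, hk⟩, h⟩ := hx
  have hd := hM
  rw [Matrix.det_fin_two] at hd
  set M' : Matrix (Fin 2) (Fin 2) ℤ := !![M 0 0, -M 0 1; -M 1 0, M 1 1] with hM'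
  have hd' : M'.det = 1 := by rw [hM', Matrix.det_fin_two_of]; linarith
  refine ⟨M', hd', ⟨-k, by simp [hM', hk]⟩, fun z hz ↦ ?_⟩
  set z' : ℂ := -(starRingEnd ℂ) z with hz'
  have hz'pos : 0 < z'.im := by simp [hz', hz]
  have hzz : z = -(starRingEnd ℂ) z' := by simp [hz']
  have pM : 0 < M.det := by rw [hM]; norm_num
  have e : mob M' z = -(starRingEnd ℂ) (mob M z') := by
    rw [hzz]
    simp only [mob, hM', Matrix.of_apply, Matrix.cons_val', Matrix.cons_val_zero,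
      Matrix.cons_val_one, Matrix.cons_val_fin_one, map_div₀, map_add, map_mul, map_intCast,
      map_neg, Int.cast_neg]
    have hj : (M 1 0 : ℂ) * (starRingEnd ℂ) z' + M 1 1 ≠ 0 := by
      have h1 := jj_ne_zero pM hz'pos
      intro h0
      apply h1
      apply (starRingEnd ℂ).injective
      rw [map_zero, ← h0]
      simp [jj]
    rw [← neg_div, div_eq_div_iff]
    · ring
    · intro h0
      exact hj (by linear_combination h0)
    · exact hj
  rw [e, FF_conj (mob_im_pos pM hz'pos), h z' hz'pos, map_add, ← FF_conj hz'pos, ← hzz]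

/-! ### Real periods and the final computation -/

section

variable {L : PeriodPair} (h2 : L.g₂ = -215 / 12) (h3 : L.g₃ = 5291 / 216)
include h2 h3

theorem mem_iff (x : ℂ) : x ∈ L.lattice ↔ x ∈ Lam :=
  ⟨fun h ↦ Lam_eq L h2 h3 h, fun h ↦ Lam_le L h2 h3 h⟩

theorem three_p0_not_mem : 3 * p0 ∉ L.lattice := by
  have h := kappa_not_mem L h2 h3 (Or.inr (Or.inl rfl)) N2_AL (by norm_num) kap_N2
  intro h'
  apply h
  have := L.lattice.neg_mem h'
  simpa using this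

theorem real_periods : ∃ Ωp Ωm : ℝ, 0 < Ωp ∧ 0 < Ωm ∧
      ∀ z : ℂ, z ∈ L.lattice ↔ ∃ a b : ℤ, a ≡ b [ZMOD 2] ∧ z = a * Ωp + b * Ωm * I :=
  lattice_shape L (fun z hz ↦ (mem_iff h2 h3 _).mpr (Lam_conj ((mem_iff h2 h3 z).mp hz))) h2 h3

end

/-- All the consequences needed for the final computation. -/
theorem p0_eq {L : PeriodPair} (h2 : L.g₂ = -215 / 12) (h3 : L.g₃ = 5291 / 216) {Ωp Ωm : ℝ}
    (hp : 0 < Ωp) (hm : 0 < Ωm)
    (hL : ∀ z : ℂ, z ∈ L.lattice ↔ ∃ a b : ℤ, a ≡ b [ZMOD 2] ∧ z = a * Ωp + b * Ωm * I) :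
    ∃ k : ℤ, Odd k ∧ 3 * p0 = k * Ωp := by
  have h6 : 6 * p0 ∈ L.lattice := (mem_iff h2 h3 _).mpr six_p0_mem
  obtain ⟨a, b, hab, he⟩ := (hL _).mp h6
  have him : (p0).im = 0 := Complex.conj_eq_iff_im.mp p0_real
  have h1 := congrArg Complex.im he
  simp [him] at h1
  have hb : b = 0 := by
    rcases h1 with h1 | h1
    · exact h1
    · exact absurd h1 hm.ne'
  subst hb
  have ha : (2 : ℤ) ∣ a := by
    have := hab.dvd
    simpa using this
  obtain ⟨k, rfl⟩ := ha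
  have e : 3 * p0 = k * Ωp := by
    push_cast at he
    linear_combination he / 2
  refine ⟨k, ?_, e⟩
  by_contra hk
  rw [Int.not_odd_iff_even] at hk
  apply three_p0_not_mem h2 h3
  rw [hL]
  refine ⟨k, 0, ?_, by rw [e]; simp⟩
  obtain ⟨j, rfl⟩ := hk
  exact (Int.modEq_iff_dvd.mpr ⟨-j, by ring⟩)

theorem cusp_third {L : PeriodPair} (h2 : L.g₂ = -215 / 12) (h3 : L.g₃ = 5291 / 216) {Ωp Ωm : ℝ}
    (hp : 0 < Ωp) (hm : 0 < Ωm)
    (hL : ∀ z : ℂ, z ∈ L.lattice ↔ ∃ a b : ℤ, a ≡ b [ZMOD 2] ∧ z = a * Ωp + b * Ωm * I) (r : ℚ) :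
    ∃ a b : ℤ, 3 * cuspInt etaH r = a * Ωp + b * Ωm * I := by
  obtain ⟨k, -, hk⟩ := p0_eq h2 h3 hp hm hL
  obtain ⟨m, hmem⟩ := cusp_values r
  obtain ⟨a, b, -, he⟩ := (hL _).mp ((mem_iff h2 h3 _).mpr hmem)
  refine ⟨3 * a + m * k, 3 * b, ?_⟩
  push_cast
  linear_combination 3 * he + m * hk

end MP9c45e8
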