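import Pool.Agent.MP_9c45e8_nt.I

/-!
Module I, part 2: the counterexample.
-/

open Complex Filter
open UpperHalfPlane hiding I
open PeriodPair
open scoped MatrixGroups Real ModularForm Topology

noncomputable section

namespace MP9c45e8

theorem f14_eq : (⇑f14 : ℍ → ℂ) = etaH := by
  funext τ
  exact f14_apply τ

theorem E14_c₆ : E14.c₆ = 5291 := by
  simp only [E14, WeierstrassCurve.c₆, WeierstrassCurve.b₂, WeierstrassCurve.b₄,
    WeierstrassCurve.b₆]
  norm_num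

theorem coe_smul_eq_mob (γ : SL(2, ℤ)) (z : ℍ) :
    ((γ • z : ℍ) : ℂ) = mob (γ : Matrix (Fin 2) (Fin 2) ℤ) z := by
  rw [UpperHalfPlane.coe_specialLinearGroup_apply]
  simp [mob]

theorem mem_periods (x : ℂ) : x ∈ periods f14 ↔ x ∈ Lam := by
  constructor
  · rintro ⟨γ, hγ, z, hx⟩
    have hdvd : (14 : ℤ) ∣ (γ : Matrix (Fin 2) (Fin 2) ℤ) 1 0 :=
      (ZMod.intCast_zmod_eq_zero_iff_dvd _ 14).mp (CongruenceSubgroup.Gamma0_mem.mp hγ)
    obtain ⟨κ, hκ⟩ := FF_AL (Q := 1) (Or.inl rfl) ⟨γ.2, one_dvd _, one_dvd _, hdvd⟩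
    have hκ' : ∀ z : ℂ, 0 < z.im → FF (mob γ.1 z) = FF z + κ := by
      intro z hz
      rw [hκ z hz]; simp [epsQ]
    have hxx : x = κ := by
      rw [hx, f14_eq, segInt_eq, coe_smul_eq_mob, hκ' z z.im_pos]
      ring
    rw [hxx]
    exact ⟨γ.1, γ.2, hdvd, hκ'⟩
  · rintro ⟨M, hM, h14, h⟩
    obtain ⟨γ, hγ⟩ : ∃ γ : SL(2, ℤ), (γ : Matrix (Fin 2) (Fin 2) ℤ) = M := ⟨⟨M, hM⟩, rfl⟩
    refine ⟨γ, ?_, UpperHalfPlane.I, ?_⟩
    · rw [CongruenceSubgroup.Gamma0_mem, hγ]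
      exact (ZMod.intCast_zmod_eq_zero_iff_dvd _ 14).mpr h14
    · rw [f14_eq, segInt_eq, coe_smul_eq_mob, hγ]
      have := h UpperHalfPlane.I UpperHalfPlane.I.im_pos
      rw [this]
      ring

theorem cuspInt_real_part_neg (r : ℝ) : (cuspInt etaH (-r)).re = (cuspInt etaH r).re := by
  rw [cuspInt_neg]; simp

theorem cuspInt_add_one (r : ℝ) : cuspInt etaH (r + 1) = cuspInt etaH r := by
  unfold cuspInt
  congr 1
  refine MeasureTheory.setIntegral_congr_fun measurableSet_Ioi fun t ht ↦ ?_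
  have ht : 0 < t := ht
  have e1 : 0 < (((r + 1 : ℝ) : ℂ) + t * I).im := by simp [ht]
  have e2 : 0 < ((r : ℂ) + t * I).im := by simp [ht]
  rw [etaH_ofComplex e1, etaH_ofComplex e2]
  rw [show (((r + 1 : ℝ) : ℂ) + t * I) = ((r : ℂ) + t * I) + 1 by push_cast; ring, etaF_add_one]

/-- the data of the counterexample -/
theorem main_data : ∃ (sym : ℚ → ℤ) (u : ℤ_[7]ˣ), MTData 7 E14 14 sym 3 u ∧
    Odd (sym 0) ∧ PadicInt.toZMod (u : ℤ_[7]) = (-1 : ZMod 7) ∧
    sym (6 / 7) = sym (1 / 7) ∧ sym (5 / 7) = sym (2 / 7) ∧ sym (4 / 7) = sym (3 / 7) ∧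
    sym (1 / 7) + sym (2 / 7) + sym (3 / 7) = 0 := by
  obtain ⟨L, h2, h3⟩ := exists_periodPair (-215 / 12) (5291 / 216) (by norm_num) (by norm_num)
    (by norm_num)
  obtain ⟨Ωp, Ωm, hp, hm, hL⟩ := real_periods h2 h3
  obtain ⟨k, hk, hk3⟩ := p0_eq h2 h3 hp hm hL
  obtain ⟨u, hu, hu1⟩ := E14_tate
  -- `3` is a common denominator
  have third : ∀ r : ℚ, ∃ a b : ℤ, (3 : ℝ) * rawPlus etaH Ωp r = a ∧
      (3 : ℝ) * rawMinus etaH Ωm r = b := by
    intro r
    obtain ⟨a, b, hab⟩ := cusp_third h2 h3 hp hm hL (-r)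
    refine ⟨a, b, ?_, ?_⟩
    · have := congrArg Complex.re hab
      simp at this
      rw [rawPlus, mul_div_assoc', div_eq_iff hp.ne']
      exact this
    · have := congrArg Complex.im hab
      simp at this
      rw [rawMinus, mul_div_assoc', div_eq_iff hm.ne']
      exact this
  set S : Set ℕ := {D : ℕ | 0 < D ∧ ∀ r : ℚ, (∃ m : ℤ, D * rawPlus etaH Ωp r = m) ∧
    (∃ m : ℤ, D * rawMinus etaH Ωm r = m)} with hS
  have h3S : 3 ∈ S := by
    refine ⟨by norm_num, fun r ↦ ?_⟩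
    obtain ⟨a, b, ha, hb⟩ := third r
    exact ⟨⟨a, by exact_mod_cast ha⟩, ⟨b, by exact_mod_cast hb⟩⟩
  obtain ⟨D, hD⟩ : ∃ D, IsLeast S D := ⟨sInf S, Nat.sInf_mem ⟨3, h3S⟩, fun x hx ↦ Nat.sInf_le hx⟩
  have hD3 : D ≤ 3 := hD.2 h3S
  have hD0 : 0 < D := hD.1.1
  choose sym hsym using fun r ↦ (hD.1.2 r).1
  have hsym' : ∀ r : ℚ, (sym r : ℝ) = D * rawPlus etaH Ωp r := fun r ↦ (hsym r).symm
  -- `D = 1` or `D = 3`
  have hD13 : D = 1 ∨ D = 3 := by
    interval_cases D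
    · exact Or.inl rfl
    · exfalso
      have h1 : 1 ∈ S := by
        refine ⟨by norm_num, fun r ↦ ?_⟩
        obtain ⟨a, b, ha, hb⟩ := third r
        obtain ⟨⟨m, hm'⟩, ⟨m', hm''⟩⟩ := hD.1.2 r
        push_cast at hm' hm''
        refine ⟨⟨a - m, ?_⟩, ⟨b - m', ?_⟩⟩
        · push_cast; linarith
        · push_cast; linarith
      have := hD.2 h1
      omega
    · exact Or.inr rfl
  have hodd : Odd (sym 0) := by
    have h0 := hsym' 0
    have hraw : (3 : ℝ) * rawPlus etaH Ωp 0 = k := by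
      rw [rawPlus, mul_div_assoc', div_eq_iff hp.ne']
      have := congrArg Complex.re hk3
      simp [p0] at this
      simpa using this
    rcases hD13 with rfl | rfl
    · have : ((3 * sym 0 : ℤ) : ℝ) = k := by
        push_cast; rw [h0, ← hraw]; push_cast; ring
      have h : 3 * sym 0 = k := by exact_mod_cast this
      rw [← h] at hk
      exact Int.odd_mul.mp hk |>.2
    · have : (sym 0 : ℝ) = k := by
        rw [h0, ← hraw]; push_cast; ring
      have h : sym 0 = k := by exact_mod_cast this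
      rw [h]; exact hk
  -- symmetries
  have hre : ∀ r s : ℚ, (cuspInt etaH (-r)).re = (cuspInt etaH (-s)).re → sym r = sym s := by
    intro r s h
    have : (sym r : ℝ) = sym s := by
      rw [hsym', hsym', rawPlus, rawPlus, h]
    exact_mod_cast this
  have hrefl : ∀ a b : ℚ, a + b = 1 → sym a = sym b := by
    intro a b hab
    apply hre
    have e : (-(a : ℝ)) + 1 = -(-(b : ℝ)) := by
      have : (a : ℝ) + b = 1 := by exact_mod_cast hab
      linarith
    rw [← cuspInt_add_one, e, cuspInt_real_part_neg]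
  have e6 : sym (6 / 7) = sym (1 / 7) := hrefl _ _ (by norm_num)
  have e5 : sym (5 / 7) = sym (2 / 7) := hrefl _ _ (by norm_num)
  have e4 : sym (4 / 7) = sym (3 / 7) := hrefl _ _ (by norm_num)
  have hsum : sym (1 / 7) + sym (2 / 7) + sym (3 / 7) + sym (4 / 7) + sym (5 / 7) +
      sym (6 / 7) = 0 := by
    have h := cuspInt_hecke (ℓ := 7) (by norm_num) 1 (fun z hz ↦ U7_etaF hz)
    simp only [Finset.sum_range_succ, Finset.sum_range_zero] at h
    have hr := congrArg Complex.re h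
    simp only [Complex.add_re, one_mul] at hr
    have key : ∀ n : ℕ, (sym ((n : ℚ) / 7) : ℝ) = D / Ωp * (cuspInt etaH ((n : ℝ) / (7 : ℕ))).re := by
      intro n
      rw [hsym', rawPlus]
      have : ((-(((n : ℚ) / 7 : ℚ)) : ℝ)) = -((n : ℝ) / (7 : ℕ)) := by push_cast; ring
      rw [this, cuspInt_real_part_neg]
      ring
    have k1 := key 1
    have k2 := key 2
    have k3 := key 3
    have k4 := key 4
    have k5 := key 5
    have k6 := key 6
    have hz : cuspInt etaH (((0 : ℕ) : ℝ) / (7 : ℕ)) = cuspInt etaH 0 := by simp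
    rw [hz] at hr
    have hfin : (sym ((1 : ℕ) / 7) : ℝ) + sym ((2 : ℕ) / 7) + sym ((3 : ℕ) / 7) +
        sym ((4 : ℕ) / 7) + sym ((5 : ℕ) / 7) + sym ((6 : ℕ) / 7) = 0 := by
      rw [k1, k2, k3, k4, k5, k6]
      have : (cuspInt etaH (((1 : ℕ) : ℝ) / (7 : ℕ))).re + (cuspInt etaH (((2 : ℕ) : ℝ) / (7 : ℕ))).re
        + (cuspInt etaH (((3 : ℕ) : ℝ) / (7 : ℕ))).re + (cuspInt etaH (((4 : ℕ) : ℝ) / (7 : ℕ))).re
        + (cuspInt etaH (((5 : ℕ) : ℝ) / (7 : ℕ))).re + (cuspInt etaH (((6 : ℕ) : ℝ) / (7 : ℕ))).re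
        = 0 := by
        simp only [Complex.zero_re] at hr
        linarith
      linear_combination (D / Ωp) * this
    exact_mod_cast hfin
  refine ⟨sym, u, ?_, hodd, hu1, e6, e5, e4, by linarith⟩
  refine ⟨E14_isElliptic, E14_isGloballyMinimal, E14_split, by norm_num, hu, ?_⟩
  refine ⟨f14, L, Ωp, Ωm, D, f14_isNewform, ⟨?_, ?_⟩, ?_, ⟨hp, hm, Or.inr hL⟩, ?_, ?_⟩
  · rw [h2, E14_c₄]; norm_num
  · rw [h3, E14_c₆]; norm_num
  · refine ⟨1, one_ne_zero, fun x ↦ ?_⟩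
    rw [mem_iff h2 h3, ← mem_periods]
    simp
  · rw [f14_eq]; exact hD
  · rw [f14_eq]; exact hsym'

theorem counterexample : ∃ (sym : ℚ → ℤ) (u : ℤ_[7]ˣ), MTData 7 E14 14 sym 3 u ∧
    lhs 7 sym 3 = 1 ∧ rhs 7 sym u = -1 := by
  obtain ⟨sym, u, hdata, hodd, hu, e6, e5, e4, hs⟩ := main_data
  refine ⟨sym, u, hdata, ?_, ?_⟩
  · rw [lhs]
    have h1 : (1 : ZMod 7) ^ 3 = 1 := by decide
    have h2 : (2 : ZMod 7) ^ 3 = 1 := by decide
    have h3 : (3 : ZMod 7) ^ 3 = -1 := by decide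
    have h4 : (4 : ZMod 7) ^ 3 = 1 := by decide
    have h5 : (5 : ZMod 7) ^ 3 = -1 := by decide
    have h6 : (6 : ZMod 7) ^ 3 = -1 := by decide
    have z : ∀ (x : ZMod 7) (m : ℤ), x ^ (((3 : ℕ) : ℤ) * m) = (x ^ 3) ^ m := by
      intro x m
      rw [zpow_mul]
      norm_cast
    rw [show Finset.Icc 1 (7 - 1) = {1, 2, 3, 4, 5, 6} by decide]
    rw [Finset.prod_insert (by decide), Finset.prod_insert (by decide),
      Finset.prod_insert (by decide), Finset.prod_insert (by decide),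
      Finset.prod_insert (by decide), Finset.prod_singleton]
    simp only [z]
    push_cast
    rw [h1, h2, h3, h4, h5, h6, e5, e6, one_zpow, one_zpow, one_zpow, one_mul, one_mul, one_mul,
      ← zpow_add₀ (by decide), ← zpow_add₀ (by decide)]
    have : sym (3 / 7) + (sym (2 / 7) + sym (1 / 7)) = 0 := by linarith
    rw [this, zpow_zero]
  · rw [rhs, hu]
    have : sym (0 / ((7 : ℕ) : ℚ)) = sym 0 := by simp
    rw [this]
    exact Odd.neg_one_zpow hodd

theorem not_conjecture : ¬ MazurTateConjecture := by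
  intro h
  obtain ⟨sym, u, hdata, hl, hr⟩ := counterexample
  have := h 7 E14 14 sym 3 u hdata
  rw [hl, hr] at this
  exact absurd this (by decide)

end MP9c45e8
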